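import Pool.Agent.NHE.Pth
import Pool.Agent.NHP.Flw
import Pool.Agent.NHP.Ger
import Pool.Agent.NHP.Tra
import Pool.Agent.NHP.Fol

/-!
# NHE/Cnn: a push along a path which carries one germ to another (difficulty 3)

`exists_follow`: `V₁` along `c`.  `g` inverse of `φ'` (`Cht.inv`); `ψ q = g (V₁ 1 (φ q))` : `ψ 0 = 0`, smooth near `0`, bijective derivative.  `germ_match` with `δ ≤ ρ` : `U`; transported by `φ'` (`push_chart`) : `UN`, `UN s (φ' 0) = φ' 0`.  `V s = (V₁ s).trans (UN s)`; near `0`: `V₁ 1 (φ q) = φ' (ψ q)`, so `V 1 (φ q) = φ' (U 1 (ψ q))`.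
Trace: `follows_comp` with `follows_refl`, `c.trans refl ≈ c`.
-/

open scoped Manifold ContDiff Topology
open Set Filter
open Pool.Agent.CSG (stp)
open Pool.Agent.RSG (E3 ex Thick)
open Pool.Agent.KNT (Dom Str Str2 BalC bmp)
open Pool.Agent.NHP

namespace Pool.Agent.NHE

section
variable {N : Type*} [TopologicalSpace N] [ChartedSpace E3 N] [IsManifold (𝓡 3) ∞ N] [T2Space N]

theorem cnn_bij {ψ χ : E → E} (h : ∀ᶠ q in 𝓝 (0 : E), χ (ψ q) = q) (h0 : ψ 0 = 0)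
    (hψ : DifferentiableAt ℝ ψ 0) (hχ : DifferentiableAt ℝ χ 0) :
    Function.Bijective (fderiv ℝ ψ 0) := by
  have h1 : fderiv ℝ (fun q => χ (ψ q)) 0 = fderiv ℝ (fun q : E => q) 0 :=
    Filter.EventuallyEq.fderiv_eq h
  have hχ' : DifferentiableAt ℝ χ (ψ 0) := by rw [h0]; exact hχ
  have h2 : fderiv ℝ (fun q => χ (ψ q)) 0 = (fderiv ℝ χ (ψ 0)).comp (fderiv ℝ ψ 0) :=
    fderiv_comp (0 : E) hχ' hψ
  have h3 : fderiv ℝ (fun q : E => q) 0 = ContinuousLinearMap.id ℝ E := fderiv_fun_id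
  have hinj : Function.Injective (fderiv ℝ ψ 0) := by
    intro a b hab
    have h4 : ∀ v : E, (fderiv ℝ χ (ψ 0)) (fderiv ℝ ψ 0 v) = v := by
      intro v
      have h5 : ((fderiv ℝ χ (ψ 0)).comp (fderiv ℝ ψ 0)) v = v := by
        rw [← h2, h1, h3]; rfl
      exact h5
    rw [← h4 a, ← h4 b, hab]
  refine ⟨hinj, ?_⟩
  have : Function.Injective ((fderiv ℝ ψ 0 : E →L[ℝ] E) : E →ₗ[ℝ] E) := hinj
  exact LinearMap.injective_iff_surjective.1 this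

theorem connect {Y : Set N} (hY : IsOpen Y) {y y' : Y} (c : Path y y') {φ φ' : E → N} {ρ : ℝ} (hρ : 0 < ρ) (hφ : Cht (Bl ρ) φ)
    (hφ' : Cht (Bl ρ) φ') (hφY' : φ' '' Bl ρ ⊆ Y) (h0 : φ 0 = y) (h0' : φ' 0 = y') :
    ∃ V : ℝ → Equiv.Perm N, Push Y V ∧ Follows V c ∧
      ∃ ρ' : ℝ, 0 < ρ' ∧ ((∀ q ∈ Bl ρ', V 1 (φ q) = φ' q) ∨ ∀ q ∈ Bl ρ', V 1 (φ q) = φ' (refL q)) := by
  obtain ⟨V₁, hV1, hF1⟩ := exists_follow hY c
  have hend : V₁ 1 (y : N) = y' := hF1.endpt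
  have hz : (0 : E) ∈ Bl ρ := zero_mem_Bl hρ
  obtain ⟨g, hg, hgs⟩ := hφ'.inv
  have hβ : Cht (Bl ρ) (fun q => V₁ 1 (φ q)) := hφ.push hV1 1
  obtain ⟨g1, hg1, hg1s⟩ := hβ.inv
  set β : E → N := fun q => V₁ 1 (φ q) with hβdef
  have hβ0 : β 0 = φ' 0 := by
    show V₁ 1 (φ 0) = φ' 0
    rw [h0, hend, h0']
  have hopen : IsOpen (φ' '' Bl ρ) := hφ'.img (isOpen_Bl ρ) subset_rfl
  have hopen1 : IsOpen (β '' Bl ρ) := hβ.img (isOpen_Bl ρ) subset_rfl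
  have hcβ : ContinuousAt β 0 := (hβ.contOn).continuousAt ((isOpen_Bl ρ).mem_nhds hz)
  have hcφ' : ContinuousAt φ' 0 := (hφ'.contOn).continuousAt ((isOpen_Bl ρ).mem_nhds hz)
  have hn1 : {q : E | q ∈ Bl ρ ∧ β q ∈ φ' '' Bl ρ} ∈ 𝓝 (0 : E) := by
    have hm : φ' '' Bl ρ ∈ 𝓝 (β 0) := by
      rw [hβ0]
      exact hopen.mem_nhds ⟨0, hz, rfl⟩
    exact Filter.inter_mem ((isOpen_Bl ρ).mem_nhds hz) (hcβ.preimage_mem_nhds hm)
  set ψ : E → E := fun q => g (β q) with hψdef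
  have hψ0 : ψ 0 = 0 := by
    show g (β 0) = 0
    rw [hβ0]
    exact hg 0 hz
  have hφψ : ∀ q, β q ∈ φ' '' Bl ρ → φ' (ψ q) = β q ∧ ψ q ∈ Bl ρ := by
    rintro q ⟨p, hp, hpq⟩
    have : ψ q = p := by
      show g (β q) = p
      rw [← hpq]
      exact hg p hp
    rw [this]
    exact ⟨hpq, hp⟩
  have hs : ∀ᶠ q in 𝓝 (0 : E), ContDiffAt ℝ ∞ ψ q := by
    filter_upwards [hn1] with q hq
    have h1 : ContMDiffAt 𝓘(ℝ, ℂ × ℝ) (𝓡 3) ∞ β q := (hβ.loc q hq.1).contMDiffAt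
    have h2 := (hgs (β q) hq.2).comp q h1
    exact h2.contDiffAt
  have hχs : ContDiffAt ℝ ∞ (fun p => g1 (φ' p)) 0 := by
    have h1 : ContMDiffAt 𝓘(ℝ, ℂ × ℝ) (𝓡 3) ∞ φ' 0 := (hφ'.loc 0 hz).contMDiffAt
    have h2 := (hg1s (φ' 0) (by rw [← hβ0]; exact ⟨0, hz, rfl⟩)).comp 0 h1
    exact h2.contDiffAt
  have hb : Function.Bijective (fderiv ℝ ψ 0) := by
    apply cnn_bij (χ := fun p => g1 (φ' p)) ?_ hψ0
    · exact (hs.self_of_nhds).differentiableAt (by simp)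
    · exact hχs.differentiableAt (by simp)
    · filter_upwards [hn1] with q hq
      show g1 (φ' (ψ q)) = q
      rw [(hφψ q hq.2).1]
      exact hg1 q hq.1
  obtain ⟨U, hU, hU0, ρ1, hρ1, hU1⟩ := germ_match hψ0 hs hb hρ
  obtain ⟨UN, hUN, hUN1, -⟩ := push_chart hφ' hU
  have hUNY : Push Y UN := hUN.mono hφY'
  obtain ⟨ρ', hρ', hsub⟩ := exists_Bl (Filter.inter_mem hn1 ((isOpen_Bl ρ1).mem_nhds (zero_mem_Bl hρ1)))
  refine ⟨fun s => (V₁ s).trans (UN s), hV1.comp hUNY, ?_, ρ', hρ', ?_⟩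
  · have h1 : Follows UN (Path.refl y') := by
      apply follows_refl
      intro t _
      rw [← h0', hUN1 t 0 hz, hU0 t]
    have h2 := follows_comp hV1 hUNY hF1 h1
    exact (rep_iff h2).2 ⟨Path.Homotopy.transRefl c⟩
  · have key : ∀ q ∈ Bl ρ', q ∈ Bl ρ1 ∧ ((V₁ 1).trans (UN 1)) (φ q) = φ' (U 1 (ψ q)) := by
      intro q hq
      have hq' : nr q < ρ' ^ 2 := hq
      have h1 := hsub (show q ∈ {q : E | nr q ≤ ρ' ^ 2} from hq'.le)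
      refine ⟨h1.2, ?_⟩
      show UN 1 (β q) = φ' (U 1 (ψ q))
      rw [← (hφψ q h1.1.2).1]
      exact hUN1 1 _ (hφψ q h1.1.2).2
    rcases hU1 with hU1 | hU1
    · left
      intro q hq
      obtain ⟨h1, h2⟩ := key q hq
      show ((V₁ 1).trans (UN 1)) (φ q) = φ' q
      rw [h2, hU1 q h1]
    · right
      intro q hq
      obtain ⟨h1, h2⟩ := key q hq
      show ((V₁ 1).trans (UN 1)) (φ q) = φ' (refL q)
      rw [h2, hU1 q h1]

end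

end Pool.Agent.NHE
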