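import Pool.Agent.NHE.Defs
import Pool.Agent.NHP.Gld

/-!
# NHE/KCh: charts given by a thick knot (difficulty 2)

`footT κ p 1 q = κ (p + re w, x + i im w)`: composition of `κ` with a linear isomorphism and a translation; `|l - l'| < 1` excludes `l' = l + m`, `m ≠ 0`.  `footT κ p ε q = footT κ p 1 (ε • q)`.
`core κ = κ '' ([0, 1] × 0)` (periodicity), compact; `κ (l, v) ∈ core κ ↔ v = 0` for `‖v‖ < 1`.  `eb κ p ε = footT κ p 1 '' Bl ε` (`nr q = (re w)² + (im w)² + x²`), open (`Cht.img`).  Disjoint: `κ (l, v) = κ (l', v')` gives `l' = l + m`, `|l - p| < ε`, `|l' - p'| < ε`.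
-/

open scoped Manifold ContDiff Topology
open Set Filter
open Pool.Agent.CSG (stp)
open Pool.Agent.RSG (E3 ex Thick)
open Pool.Agent.KNT (Dom Str Str2 BalC bmp)
open Pool.Agent.NHP

namespace Pool.Agent.NHE

theorem kch_mk : ContDiff ℝ ∞ (fun a : ℝ × ℝ => (⟨a.1, a.2⟩ : ℂ)) :=
  Complex.equivRealProdCLM.symm.contDiff

theorem kch_re : ContDiff ℝ ∞ (fun w : ℂ => w.re) := Complex.reCLM.contDiff

theorem kch_im : ContDiff ℝ ∞ (fun w : ℂ => w.im) := Complex.imCLM.contDiff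

/-- the affine change of coordinates -/
noncomputable def kchA (p : ℝ) : Diffeomorph 𝓘(ℝ, ℂ × ℝ) 𝓘(ℝ, ℝ × ℂ) E (ℝ × ℂ) ∞ where
  toFun q := (p + q.1.re, ⟨q.2, q.1.im⟩)
  invFun a := (⟨a.1 - p, a.2.im⟩, a.2.re)
  left_inv q := by
    show ((⟨p + q.1.re - p, q.1.im⟩ : ℂ), q.2) = q
    rw [add_sub_cancel_left]
  right_inv a := by
    show (p + (a.1 - p), (⟨a.2.re, a.2.im⟩ : ℂ)) = a
    rw [add_sub_cancel]
  contMDiff_toFun := by
    have h : ContDiff ℝ ∞ fun q : E => ((p + q.1.re, ⟨q.2, q.1.im⟩) : ℝ × ℂ) :=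
      (contDiff_const.add (kch_re.comp contDiff_fst)).prodMk
        (kch_mk.comp (contDiff_snd.prodMk (kch_im.comp contDiff_fst)))
    exact h.contMDiff
  contMDiff_invFun := by
    have h : ContDiff ℝ ∞ fun a : ℝ × ℂ => ((⟨a.1 - p, a.2.im⟩, a.2.re) : E) :=
      (kch_mk.comp ((contDiff_fst.sub contDiff_const).prodMk (kch_im.comp contDiff_snd))).prodMk
        (kch_re.comp contDiff_snd)
    exact h.contMDiff

section
variable {N : Type*} [TopologicalSpace N] [ChartedSpace E3 N]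

theorem kch_foot (κ : ℝ × ℂ → N) (p : ℝ) (q : E) : footT κ p 1 q = κ (p + q.1.re, ⟨q.2, q.1.im⟩) := by
  unfold footT
  rw [one_mul, Complex.ofReal_one, one_mul]

theorem kch_norm_sq (a b : ℝ) : ‖(⟨a, b⟩ : ℂ)‖ ^ 2 = a ^ 2 + b ^ 2 := by
  rw [← Complex.normSq_eq_norm_sq, Complex.normSq_apply]
  ring

theorem kch_cont {κ : ℝ × ℂ → N} (hκ : Thick κ) {l : ℝ} {v : ℂ} (hv : ‖v‖ < 1) : ContinuousAt κ (l, v) := by
  obtain ⟨Φ, hx, he⟩ := hκ.loc l v hv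
  have h1 : ContinuousOn Φ Φ.source := Φ.contMDiffOn_toFun.continuousOn
  have h2 : ContinuousAt Φ (l, v) := h1.continuousAt (Φ.open_source.mem_nhds hx)
  exact h2.congr (Filter.eventuallyEq_of_mem (Φ.open_source.mem_nhds hx) he).symm

theorem core_compact {κ : ℝ × ℂ → N} (hκ : Thick κ) : IsCompact (core κ) := by
  have h1 : Continuous fun l : ℝ => κ (l, 0) := by
    rw [continuous_iff_continuousAt]
    intro l
    have h2 : ContinuousAt κ (l, 0) := kch_cont hκ (by simp)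
    exact h2.comp (f := fun l : ℝ => ((l, 0) : ℝ × ℂ)) (by fun_prop)
  have h3 : Function.Periodic (fun l : ℝ => κ (l, 0)) 1 := fun l => hκ.per l 0
  exact h3.compact_of_continuous one_ne_zero h1

theorem mem_core {κ : ℝ × ℂ → N} (hκ : Thick κ) {l : ℝ} {v : ℂ} (hv : ‖v‖ < 1) : κ (l, v) ∈ core κ ↔ v = 0 := by
  constructor
  · rintro ⟨l', hl'⟩
    exact ((hκ.inj l' 0 l v (by simp) hv hl').1).symm
  · rintro rfl
    exact ⟨l, rfl⟩

theorem foot_cht {κ : ℝ × ℂ → N} (hκ : Thick κ) (p : ℝ) : Cht {q : E | |q.1.re| < 1 / 2 ∧ ‖(⟨q.2, q.1.im⟩ : ℂ)‖ < 1} (footT κ p 1) := by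
  refine ⟨?_, ?_, ?_⟩
  · have h1 : Continuous fun q : E => |q.1.re| := (kch_re.continuous.comp continuous_fst).abs
    have h2 : Continuous fun q : E => ‖(⟨q.2, q.1.im⟩ : ℂ)‖ :=
      (kch_mk.continuous.comp (continuous_snd.prodMk (kch_im.continuous.comp continuous_fst))).norm
    exact (isOpen_lt h1 continuous_const).inter (isOpen_lt h2 continuous_const)
  · rintro q ⟨h1, h2⟩
    have h3 : IsLocalDiffeomorphAt 𝓘(ℝ, ℂ × ℝ) 𝓘(ℝ, ℝ × ℂ) ∞ (kchA p) q := (kchA p).isLocalDiffeomorph q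
    have h4 := hκ.loc (p + q.1.re) ⟨q.2, q.1.im⟩ h2
    have h5 := IsLocalDiffeomorphAt.comp (hf := h3) (g := κ) (hg := h4)
    have h6 : footT κ p 1 = κ ∘ kchA p := by
      funext q
      exact kch_foot κ p q
    rw [h6]
    exact h5
  · rintro q ⟨h1, h2⟩ q' ⟨h1', h2'⟩ h
    rw [kch_foot, kch_foot] at h
    obtain ⟨h3, m, hm⟩ := hκ.inj _ _ _ _ h2 h2' h
    have h4 : (m : ℝ) = q'.1.re - q.1.re := by linarith
    have h5 : |(m : ℝ)| < 1 := by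
      rw [h4]
      rw [abs_lt] at h1 h1' ⊢
      constructor <;> linarith [h1.1, h1.2, h1'.1, h1'.2]
    have h6 : m = 0 := by
      have h7 : |m| < 1 := by exact_mod_cast h5
      exact Int.abs_lt_one_iff.1 h7
    rw [h6] at h4
    have h8 := congrArg Complex.re h3
    have h9 := congrArg Complex.im h3
    simp only at h8 h9
    refine Prod.ext (Complex.ext ?_ h9) h8
    push_cast at h4
    linarith

theorem foot_smul (κ : ℝ × ℂ → N) (p ε : ℝ) (q : E) : footT κ p ε q = footT κ p 1 (ε • q) := by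
  rw [kch_foot]
  unfold footT
  congr 1
  refine Prod.ext ?_ (Complex.ext ?_ ?_)
  · simp
  · simp
  · simp

theorem tip_foot (κ : ℝ × ℂ → N) (p ε σ : ℝ) (q : E) :
    tipT κ p ε σ q = footT κ p 1 ((⟨σ * ε * q.1.im, ε * q.1.re⟩ : ℂ), ε * (1 - q.2)) := by
  rw [kch_foot]
  unfold tipT
  congr 1
  refine Prod.ext rfl (Complex.ext ?_ ?_)
  · simp
  · simp

theorem eb_eq (κ : ℝ × ℂ → N) (p ε : ℝ) : eb κ p ε = footT κ p 1 '' Bl ε := by
  unfold eb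
  ext x
  constructor
  · rintro ⟨a, ha, rfl⟩
    refine ⟨(⟨a.1 - p, a.2.im⟩, a.2.re), ?_, ?_⟩
    · show nr _ < ε ^ 2
      unfold nr
      rw [kch_norm_sq]
      have h1 : ‖a.2‖ ^ 2 = a.2.re ^ 2 + a.2.im ^ 2 := kch_norm_sq a.2.re a.2.im
      have h2 : (a.1 - p) ^ 2 + ‖a.2‖ ^ 2 < ε ^ 2 := ha
      linarith
    · rw [kch_foot]
      show κ (p + (a.1 - p), (⟨a.2.re, a.2.im⟩ : ℂ)) = κ a
      rw [add_sub_cancel]
  · rintro ⟨q, hq, rfl⟩
    refine ⟨(p + q.1.re, ⟨q.2, q.1.im⟩), ?_, (kch_foot κ p q).symm⟩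
    have h1 : nr q < ε ^ 2 := hq
    unfold nr at h1
    have h2 : ‖q.1‖ ^ 2 = q.1.re ^ 2 + q.1.im ^ 2 := kch_norm_sq q.1.re q.1.im
    show (p + q.1.re - p) ^ 2 + ‖(⟨q.2, q.1.im⟩ : ℂ)‖ ^ 2 < ε ^ 2
    rw [kch_norm_sq, add_sub_cancel_left]
    linarith

theorem Bl_sub {ε : ℝ} (h0 : 0 < ε) (h : ε ≤ 1 / 2) : Bl ε ⊆ {q : E | |q.1.re| < 1 / 2 ∧ ‖(⟨q.2, q.1.im⟩ : ℂ)‖ < 1} := by
  intro q hq
  have h1 : nr q < ε ^ 2 := hq
  unfold nr at h1
  have h2 : ‖q.1‖ ^ 2 = q.1.re ^ 2 + q.1.im ^ 2 := kch_norm_sq q.1.re q.1.im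
  have h3 : ε ^ 2 ≤ 1 / 4 := by nlinarith
  constructor
  · rw [abs_lt]
    constructor <;> nlinarith [sq_nonneg q.1.im, sq_nonneg q.2]
  · have h4 := kch_norm_sq q.2 q.1.im
    nlinarith [norm_nonneg (⟨q.2, q.1.im⟩ : ℂ), sq_nonneg q.1.re]

theorem eb_open {κ : ℝ × ℂ → N} (hκ : Thick κ) (p : ℝ) {ε : ℝ} (h0 : 0 < ε) (h : ε ≤ 1 / 2) : IsOpen (eb κ p ε) := by
  rw [eb_eq]
  exact (foot_cht hκ p).img (isOpen_Bl ε) (Bl_sub h0 h)

theorem eb_disj {κ : ℝ × ℂ → N} (hκ : Thick κ) {p p' ε : ℝ} (h : Adm p p' ε) : Disjoint (eb κ p ε) (eb κ p' ε) := by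
  rw [Set.disjoint_left]
  rintro x ⟨⟨l, v⟩, h1, rfl⟩ ⟨⟨l', v'⟩, h2, h3⟩
  have h1' : (l - p) ^ 2 + ‖v‖ ^ 2 < ε ^ 2 := h1
  have h2' : (l' - p') ^ 2 + ‖v'‖ ^ 2 < ε ^ 2 := h2
  have he := h.pos
  have he2 := h.lt
  have hv : ‖v‖ < 1 := by nlinarith [norm_nonneg v, sq_nonneg (l - p)]
  have hv' : ‖v'‖ < 1 := by nlinarith [norm_nonneg v', sq_nonneg (l' - p')]
  have hl : |l - p| < ε := abs_lt_of_sq_lt_sq (by nlinarith [sq_nonneg ‖v‖]) he.le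
  have hl' : |l' - p'| < ε := abs_lt_of_sq_lt_sq (by nlinarith [sq_nonneg ‖v'‖]) he.le
  obtain ⟨-, m, hm⟩ := hκ.inj l v l' v' hv hv' h3.symm
  have h4 := h.far m
  have h5 : p - p' + m = (p - l) + (l' - p') := by linarith
  rw [h5] at h4
  have h6 := abs_add_le (p - l) (l' - p')
  rw [abs_sub_comm p l] at h6
  linarith

/-- the core in the chart -/
theorem foot_core {κ : ℝ × ℂ → N} (hκ : Thick κ) (p : ℝ) {q : E} (h : ‖(⟨q.2, q.1.im⟩ : ℂ)‖ < 1) :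
    footT κ p 1 q ∈ core κ ↔ q.2 = 0 ∧ q.1.im = 0 := by
  rw [kch_foot, mem_core hκ h]
  constructor
  · intro h1
    exact ⟨congrArg Complex.re h1, congrArg Complex.im h1⟩
  · rintro ⟨h1, h2⟩
    rw [h1, h2]
    rfl

end

end Pool.Agent.NHE
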