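import Pool.Agent.NHE.Defs
import Pool.Agent.NHP.Fol

/-!
# NHE/Pth: paths given by functions (difficulty 3)

All homotopies are compositions of a continuous map from an interval (a square) to `Y` with straight line homotopies of paths in the interval (square), convex.  `RepI f a b c` says in particular that `f` is continuous on the interval between `a` and `b`, with values in `Y`.
-/

open scoped Manifold ContDiff Topology
open Set Filter
open Pool.Agent.CSG (stp)
open Pool.Agent.RSG (E3 ex Thick)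
open Pool.Agent.KNT (Dom Str Str2 BalC bmp)
open Pool.Agent.NHP

namespace Pool.Agent.NHE

section
variable {N : Type*} [TopologicalSpace N]

theorem Pth_iff {Y : Set N} {y y' : Y} {f : ℝ → N} {c c' : Path y y'} (h : Rep f c) :
    Rep f c' ↔ c.Homotopic c' := by
  obtain ⟨γ, h1, h2⟩ := h
  constructor
  · rintro ⟨γ', h3, h4⟩
    have : γ' = γ := by
      apply Path.ext
      funext t
      apply Subtype.ext
      rw [h1, h3]
    rw [this] at h4
    exact h2.symm.trans h4
  · intro h3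
    exact ⟨γ, h1, h2.trans h3⟩

theorem Pth_mem {t : ℝ} (ht : t ∈ Icc (0 : ℝ) 1) (a b : ℝ) : a + t * (b - a) ∈ uIcc a b := by
  rcases le_total a b with h | h
  · rw [uIcc_of_le h]
    constructor
    · nlinarith [mul_nonneg ht.1 (sub_nonneg.mpr h)]
    · nlinarith [mul_nonneg (sub_nonneg.mpr ht.2) (sub_nonneg.mpr h)]
  · rw [uIcc_of_ge h]
    constructor
    · nlinarith [mul_nonneg (sub_nonneg.mpr ht.2) (sub_nonneg.mpr h)]
    · nlinarith [mul_nonneg ht.1 (sub_nonneg.mpr h)]

theorem Pth_par {a b t : ℝ} (ht : t ∈ uIcc a b) :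
    (t - a) / (b - a) ∈ Icc (0 : ℝ) 1 ∧ a + (t - a) / (b - a) * (b - a) = t := by
  by_cases hab : b - a = 0
  · have e : b = a := by linarith
    rw [e, uIcc_self] at ht
    have ht' : t = a := ht
    rw [hab, ht']
    simp
  · refine ⟨?_, ?_⟩
    · rcases le_total a b with h | h
      · rw [uIcc_of_le h] at ht
        have h1 : 0 < b - a := lt_of_le_of_ne (by linarith) (Ne.symm hab)
        exact ⟨div_nonneg (by linarith [ht.1]) h1.le, by
          rw [div_le_one h1]
          linarith [ht.2]⟩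
      · rw [uIcc_of_ge h] at ht
        have h1 : b - a < 0 := lt_of_le_of_ne (by linarith) hab
        exact ⟨div_nonneg_of_nonpos (by linarith [ht.2]) h1.le, by
          rw [div_le_one_of_neg h1]
          linarith [ht.1]⟩
    · field_simp
      ring

/-- the straight path -/
def Pth_L (a b : ℝ) : Path a b where
  toFun := fun t => a + (t : ℝ) * (b - a)
  continuous_toFun := continuous_const.add (continuous_subtype_val.mul continuous_const)
  source' := by simp
  target' := by simp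

theorem Pth_L_apply (a b : ℝ) (t : unitInterval) : Pth_L a b t = a + (t : ℝ) * (b - a) := rfl

/-- straight line homotopies -/
theorem Pth_conv {X : Type*} [AddCommGroup X] [Module ℝ X] [TopologicalSpace X] [ContinuousAdd X]
    [ContinuousSMul ℝ X] {S : Set X} (hS : Convex ℝ S) {F : X → N} (hF : ContinuousOn F S) {Y : Set N}
    (hY : ∀ x ∈ S, F x ∈ Y) {y y' : Y} {p q : unitInterval → X} (hp : Continuous p) (hq : Continuous q)
    (hpS : ∀ t, p t ∈ S) (hqS : ∀ t, q t ∈ S) (h0 : p 0 = q 0) (h1 : p 1 = q 1) {γ γ' : Path y y'}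
    (hγ : ∀ t, (γ t : N) = F (p t)) (hγ' : ∀ t, (γ' t : N) = F (q t)) : γ.Homotopic γ' := by
  have hm : ∀ x : unitInterval × unitInterval,
      (1 - (x.1 : ℝ)) • p x.2 + (x.1 : ℝ) • q x.2 ∈ S := fun x =>
    hS (hpS _) (hqS _) (by linarith [x.1.2.2]) x.1.2.1 (by ring)
  have hc : Continuous fun x : unitInterval × unitInterval =>
      (1 - (x.1 : ℝ)) • p x.2 + (x.1 : ℝ) • q x.2 := by
    have e1 : Continuous fun x : unitInterval × unitInterval => (x.1 : ℝ) :=
      continuous_subtype_val.comp continuous_fst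
    exact ((continuous_const.sub e1).smul (hp.comp continuous_snd)).add (e1.smul (hq.comp continuous_snd))
  refine ⟨{ toFun := fun x => ⟨F ((1 - (x.1 : ℝ)) • p x.2 + (x.1 : ℝ) • q x.2), hY _ (hm x)⟩
            continuous_toFun := (hF.comp_continuous hc hm).subtype_mk _
            map_zero_left := ?_
            map_one_left := ?_
            prop' := ?_ }⟩
  · intro t
    apply Subtype.ext
    show F ((1 - ((0 : unitInterval) : ℝ)) • p t + ((0 : unitInterval) : ℝ) • q t) = (γ t : N)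
    rw [hγ]
    simp
  · intro t
    apply Subtype.ext
    show F ((1 - ((1 : unitInterval) : ℝ)) • p t + ((1 : unitInterval) : ℝ) • q t) = (γ' t : N)
    rw [hγ']
    simp
  · intro s t ht
    apply Subtype.ext
    show F ((1 - (s : ℝ)) • p t + (s : ℝ) • q t) = (γ t : N)
    rw [hγ]
    have : p t = q t := by
      rcases ht with ht | ht
      · rw [ht, h0]
      · have ht' : t = 1 := ht
        rw [ht', h1]
    rw [← this, ← add_smul, sub_add_cancel, one_smul]

theorem Pth_trans_val {X : Type*} [TopologicalSpace X] {Y : Set N} {y y' y'' : Y} {γ : Path y y'}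
    {γ' : Path y' y''} {x x' x'' : X} {P : Path x x'} {P' : Path x' x''} {F : X → N}
    (h : ∀ t, (γ t : N) = F (P t)) (h' : ∀ t, (γ' t : N) = F (P' t)) (t : unitInterval) :
    ((γ.trans γ') t : N) = F ((P.trans P') t) := by
  rw [Path.trans_apply, Path.trans_apply]
  by_cases ht : (t : ℝ) ≤ 1 / 2
  · rw [dif_pos ht, dif_pos ht, h]
  · rw [dif_neg ht, dif_neg ht, h']

theorem repI_iff {Y : Set N} {y y' : Y} {f : ℝ → N} {a b : ℝ} {c c' : Path y y'} (h : RepI f a b c) :
    RepI f a b c' ↔ c.Homotopic c' := by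
  exact Pth_iff h

theorem repI_congr {Y : Set N} {y y' : Y} {f g : ℝ → N} {a b : ℝ} {c : Path y y'} (h : RepI f a b c)
    (hfg : ∀ t ∈ uIcc a b, g t = f t) : RepI g a b c := by
  obtain ⟨γ, h1, h2⟩ := h
  refine ⟨γ, fun t => ?_, h2⟩
  rw [h1]
  exact (hfg _ (Pth_mem t.2 a b)).symm

/-- the path of a function -/
theorem Pth_exists {Y : Set N} {y y' : Y} {f : ℝ → N} {a b : ℝ} (hf : ContinuousOn f (uIcc a b))
    (hY : ∀ t ∈ uIcc a b, f t ∈ Y) (h0 : f a = y) (h1 : f b = y') :
    ∃ c : Path y y', ∀ t : unitInterval, (c t : N) = f (a + t * (b - a)) := by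
  have hm : ∀ t : unitInterval, a + (t : ℝ) * (b - a) ∈ uIcc a b := fun t => Pth_mem t.2 a b
  refine ⟨{ toFun := fun t => ⟨f (a + (t : ℝ) * (b - a)), hY _ (hm t)⟩
            continuous_toFun := ?_
            source' := ?_
            target' := ?_ }, fun t => rfl⟩
  · apply Continuous.subtype_mk
    exact hf.comp_continuous (continuous_const.add (continuous_subtype_val.mul continuous_const)) hm
  · apply Subtype.ext
    show f (a + ((0 : unitInterval) : ℝ) * (b - a)) = y
    rw [← h0]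
    simp
  · apply Subtype.ext
    show f (a + ((1 : unitInterval) : ℝ) * (b - a)) = y'
    rw [← h1]
    simp

theorem exists_repI {Y : Set N} {y y' : Y} {f : ℝ → N} {a b : ℝ} (hf : ContinuousOn f (uIcc a b))
    (hY : ∀ t ∈ uIcc a b, f t ∈ Y) (h0 : f a = y) (h1 : f b = y') : ∃ c : Path y y', RepI f a b c := by
  obtain ⟨c, hc⟩ := Pth_exists hf hY h0 h1
  exact ⟨c, c, hc, Path.Homotopic.refl c⟩

theorem repI_cont {Y : Set N} {y y' : Y} {f : ℝ → N} {a b : ℝ} {c : Path y y'} (h : RepI f a b c) :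
    ContinuousOn f (uIcc a b) ∧ (∀ t ∈ uIcc a b, f t ∈ Y) ∧ f a = y ∧ f b = y' := by
  obtain ⟨γ, h1, _⟩ := h
  have hval : ∀ t ∈ uIcc a b, f t = ((γ.extend ((t - a) / (b - a)) : Y) : N) := by
    intro t ht
    obtain ⟨h2, h3⟩ := Pth_par ht
    rw [Path.extend_apply _ h2, h1]
    show f t = f (a + (t - a) / (b - a) * (b - a))
    rw [h3]
  refine ⟨?_, ?_, ?_, ?_⟩
  · have h2 : Continuous fun t : ℝ => ((γ.extend ((t - a) / (b - a)) : Y) : N) :=
      continuous_subtype_val.comp (γ.continuous_extend.comp ((continuous_id.sub continuous_const).div_const _))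
    exact h2.continuousOn.congr hval
  · intro t ht
    rw [hval t ht]
    exact Subtype.coe_prop _
  · have h2 := h1 0
    rw [γ.source] at h2
    rw [h2]
    simp
  · have h2 := h1 1
    rw [γ.target] at h2
    rw [h2]
    simp

theorem repI_const {Y : Set N} {y : Y} {f : ℝ → N} {a b : ℝ} (h : ∀ t ∈ uIcc a b, f t = y) : RepI f a b (Path.refl y) := by
  refine ⟨Path.refl y, fun t => ?_, Path.Homotopic.refl _⟩
  exact (h _ (Pth_mem t.2 a b)).symm

theorem repI_symm {Y : Set N} {y y' : Y} {f : ℝ → N} {a b : ℝ} {c : Path y y'} (h : RepI f a b c) : RepI f b a c.symm := by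
  obtain ⟨γ, h1, h2⟩ := h
  refine ⟨γ.symm, fun t => ?_, h2.symm₂⟩
  have h3 : (γ (unitInterval.symm t) : N) = f (a + (1 - (t : ℝ)) * (b - a)) := h1 (unitInterval.symm t)
  have h4 : a + (1 - (t : ℝ)) * (b - a) = b + t * (a - b) := by ring
  rw [h4] at h3
  exact h3

theorem Pth_union (a b d : ℝ) :
    Icc (min a (min b d)) (max a (max b d)) ⊆ uIcc a b ∪ uIcc b d := by
  rintro t ⟨h1, h2⟩
  rw [mem_union, mem_uIcc, mem_uIcc]
  rw [min_le_iff, min_le_iff] at h1
  rw [le_max_iff, le_max_iff] at h2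
  rcases le_total t b with hb | hb
  · rcases h1 with h1 | h1 | h1
    · exact Or.inl (Or.inl ⟨h1, hb⟩)
    · have e : t = b := le_antisymm hb h1
      rw [e]
      rcases le_total a b with h | h
      · exact Or.inl (Or.inl ⟨h, le_rfl⟩)
      · exact Or.inl (Or.inr ⟨le_rfl, h⟩)
    · exact Or.inr (Or.inr ⟨h1, hb⟩)
  · rcases h2 with h2 | h2 | h2
    · exact Or.inl (Or.inr ⟨hb, h2⟩)
    · have e : t = b := le_antisymm h2 hb
      rw [e]
      rcases le_total a b with h | h
      · exact Or.inl (Or.inl ⟨h, le_rfl⟩)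
      · exact Or.inl (Or.inr ⟨le_rfl, h⟩)
    · exact Or.inr (Or.inl ⟨hb, h2⟩)

theorem repI_trans {Y : Set N} {y y' y'' : Y} {f : ℝ → N} {a b d : ℝ} {c : Path y y'} {c' : Path y' y''} (h : RepI f a b c)
    (h' : RepI f b d c') : RepI f a d (c.trans c') := by
  obtain ⟨k1, k2, k3, _⟩ := repI_cont h
  obtain ⟨l1, l2, _, l4⟩ := repI_cont h'
  obtain ⟨γ, h1, h2⟩ := h
  obtain ⟨γ', h1', h2'⟩ := h'
  set S : Set ℝ := Icc (min a (min b d)) (max a (max b d)) with hS
  have hfS : ContinuousOn f S :=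
    (k1.union_of_isClosed l1 isClosed_Icc isClosed_Icc).mono (Pth_union a b d)
  have hYS : ∀ t ∈ S, f t ∈ Y := by
    intro t ht
    rcases Pth_union a b d ht with ht | ht
    · exact k2 t ht
    · exact l2 t ht
  have ha : a ∈ S := ⟨min_le_left _ _, le_max_left _ _⟩
  have hb : b ∈ S := ⟨(min_le_right _ _).trans (min_le_left _ _), (le_max_left _ _).trans (le_max_right _ _)⟩
  have hd : d ∈ S := ⟨(min_le_right _ _).trans (min_le_right _ _), (le_max_right _ _).trans (le_max_right _ _)⟩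
  have hSc : Convex ℝ S := convex_Icc _ _
  have hsub : ∀ u ∈ S, ∀ v ∈ S, uIcc u v ⊆ S := by
    intro u hu v hv
    exact uIcc_subset_Icc hu hv
  obtain ⟨δ, hδ⟩ := Pth_exists (hfS.mono (hsub a ha d hd)) (fun t ht => hYS t (hsub a ha d hd ht)) k3 l4
  refine ⟨δ, hδ, ?_⟩
  have key : δ.Homotopic (γ.trans γ') := by
    apply Pth_conv hSc hfS hYS (p := fun t => Pth_L a d t) (q := fun t => ((Pth_L a b).trans (Pth_L b d)) t)
    · exact (Pth_L a d).continuous
    · exact ((Pth_L a b).trans (Pth_L b d)).continuous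
    · intro t
      exact hsub a ha d hd (Pth_mem t.2 a d)
    · intro t
      have h3 : ((Pth_L a b).trans (Pth_L b d)) t ∈ range (Pth_L a b) ∪ range (Pth_L b d) := by
        rw [← Path.trans_range]
        exact mem_range_self t
      rcases h3 with ⟨s, hs⟩ | ⟨s, hs⟩
      · rw [← hs]
        exact hsub a ha b hb (Pth_mem s.2 a b)
      · rw [← hs]
        exact hsub b hb d hd (Pth_mem s.2 b d)
    · show Pth_L a d 0 = ((Pth_L a b).trans (Pth_L b d)) 0
      rw [Path.source, Path.source]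
    · show Pth_L a d 1 = ((Pth_L a b).trans (Pth_L b d)) 1
      rw [Path.target, Path.target]
    · exact hδ
    · intro t
      exact Pth_trans_val (F := f) (P := Pth_L a b) (P' := Pth_L b d) h1 h1' t
  exact key.trans (h2.hcomp h2')

/-- change of the parameter -/
theorem repI_comp {Y : Set N} {y y' : Y} {f : ℝ → N} {g : ℝ → ℝ} {a b a' b' : ℝ} {c : Path y y'} (h : RepI f (g a) (g b) c)
    (hg : ContinuousOn g (uIcc a b)) (hf : ContinuousOn f (uIcc a' b')) (hY : ∀ t ∈ uIcc a' b', f t ∈ Y)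
    (hm : ∀ t ∈ uIcc a b, g t ∈ uIcc a' b') : RepI (fun t => f (g t)) a b c := by
  obtain ⟨_, _, k3, k4⟩ := repI_cont h
  obtain ⟨γ, h1, h2⟩ := h
  have hfg : ContinuousOn (fun t => f (g t)) (uIcc a b) := hf.comp hg hm
  obtain ⟨δ, hδ⟩ := Pth_exists hfg (fun t ht => hY _ (hm t ht)) k3 k4
  refine ⟨δ, hδ, ?_⟩
  refine Path.Homotopic.trans ?_ h2
  have hsub : uIcc (g a) (g b) ⊆ uIcc a' b' := uIcc_subset_uIcc (hm a left_mem_uIcc) (hm b right_mem_uIcc)
  apply Pth_conv (convex_uIcc a' b') hf hY (p := fun t : unitInterval => g (a + t * (b - a)))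
    (q := fun t => Pth_L (g a) (g b) t)
  · exact hg.comp_continuous (continuous_const.add (continuous_subtype_val.mul continuous_const))
      (fun t => Pth_mem t.2 a b)
  · exact (Pth_L (g a) (g b)).continuous
  · intro t
    exact hm _ (Pth_mem t.2 a b)
  · intro t
    exact hsub (Pth_mem t.2 _ _)
  · show g (a + ((0 : unitInterval) : ℝ) * (b - a)) = g a + ((0 : unitInterval) : ℝ) * (g b - g a)
    simp
  · show g (a + ((1 : unitInterval) : ℝ) * (b - a)) = g a + ((1 : unitInterval) : ℝ) * (g b - g a)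
    simp
  · exact hδ
  · exact h1

/-- squares -/
theorem rep_square {Y : Set N} {y₀ y₁ z₀ z₁ : Y} {H : ℝ × ℝ → N} (hc : ContinuousOn H (Icc 0 1 ×ˢ Icc 0 1))
    (hY : ∀ q ∈ Icc (0 : ℝ) 1 ×ˢ Icc (0 : ℝ) 1, H q ∈ Y) {c₀ : Path y₀ y₁} {c₁ : Path z₀ z₁} {d₀ : Path y₀ z₀} {d₁ : Path y₁ z₁}
    (h₀ : Rep (fun t => H (0, t)) c₀) (h₁ : Rep (fun t => H (1, t)) c₁) (g₀ : Rep (fun s => H (s, 0)) d₀)
    (g₁ : Rep (fun s => H (s, 1)) d₁) : (d₀.trans c₁).Homotopic (c₀.trans d₁) := by
  obtain ⟨γ₀, a1, a2⟩ := h₀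
  obtain ⟨γ₁, b1, b2⟩ := h₁
  obtain ⟨δ₀, e1, e2⟩ := g₀
  obtain ⟨δ₁, f1, f2⟩ := g₁
  refine ((e2.hcomp b2).symm.trans ?_).trans (a2.hcomp f2)
  let L0 : Path ((0 : ℝ), (0 : ℝ)) ((0 : ℝ), (1 : ℝ)) :=
    { toFun := fun t => (0, (t : ℝ))
      continuous_toFun := continuous_const.prodMk continuous_subtype_val
      source' := by simp
      target' := by simp }
  let L1 : Path ((1 : ℝ), (0 : ℝ)) ((1 : ℝ), (1 : ℝ)) :=
    { toFun := fun t => (1, (t : ℝ))
      continuous_toFun := continuous_const.prodMk continuous_subtype_val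
      source' := by simp
      target' := by simp }
  let K0 : Path ((0 : ℝ), (0 : ℝ)) ((1 : ℝ), (0 : ℝ)) :=
    { toFun := fun t => ((t : ℝ), 0)
      continuous_toFun := continuous_subtype_val.prodMk continuous_const
      source' := by simp
      target' := by simp }
  let K1 : Path ((0 : ℝ), (1 : ℝ)) ((1 : ℝ), (1 : ℝ)) :=
    { toFun := fun t => ((t : ℝ), 1)
      continuous_toFun := continuous_subtype_val.prodMk continuous_const
      source' := by simp
      target' := by simp }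
  have hz : (0 : ℝ) ∈ Icc (0 : ℝ) 1 := ⟨le_rfl, zero_le_one⟩
  have ho : (1 : ℝ) ∈ Icc (0 : ℝ) 1 := ⟨zero_le_one, le_rfl⟩
  have r1 : ∀ t, (K0.trans L1) t ∈ Icc (0 : ℝ) 1 ×ˢ Icc (0 : ℝ) 1 := by
    intro t
    have h3 : (K0.trans L1) t ∈ range K0 ∪ range L1 := by
      rw [← Path.trans_range]
      exact mem_range_self t
    rcases h3 with ⟨s, hs⟩ | ⟨s, hs⟩
    · rw [← hs]
      exact ⟨s.2, hz⟩
    · rw [← hs]
      exact ⟨ho, s.2⟩
  have r2 : ∀ t, (L0.trans K1) t ∈ Icc (0 : ℝ) 1 ×ˢ Icc (0 : ℝ) 1 := by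
    intro t
    have h3 : (L0.trans K1) t ∈ range L0 ∪ range K1 := by
      rw [← Path.trans_range]
      exact mem_range_self t
    rcases h3 with ⟨s, hs⟩ | ⟨s, hs⟩
    · rw [← hs]
      exact ⟨hz, s.2⟩
    · rw [← hs]
      exact ⟨s.2, ho⟩
  apply Pth_conv ((convex_Icc (0 : ℝ) 1).prod (convex_Icc (0 : ℝ) 1)) hc hY (p := fun t => (K0.trans L1) t)
    (q := fun t => (L0.trans K1) t)
  · exact (K0.trans L1).continuous
  · exact (L0.trans K1).continuous
  · exact r1
  · exact r2
  · show (K0.trans L1) 0 = (L0.trans K1) 0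
    rw [Path.source, Path.source]
  · show (K0.trans L1) 1 = (L0.trans K1) 1
    rw [Path.target, Path.target]
  · intro t
    exact Pth_trans_val (F := H) (P := K0) (P' := L1) e1 b1 t
  · intro t
    exact Pth_trans_val (F := H) (P := L0) (P' := K1) a1 f1 t

theorem repI_inc {Y Y' : Set N} (h : Y ⊆ Y') {y y' : Y} {f : ℝ → N} {a b : ℝ} {c : Path y y'} (hc : RepI f a b c) :
    RepI f a b (inc h c) := by
  obtain ⟨γ, h1, h2⟩ := hc
  refine ⟨inc h γ, fun t => ?_, ?_⟩
  · exact h1 t
  · exact h2.map ⟨fun x : Y => (⟨x, h x.2⟩ : Y'), continuous_subtype_val.subtype_mk _⟩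

theorem inc_trans {Y Y' : Set N} (h : Y ⊆ Y') {y y' y'' : Y} (c : Path y y') (c' : Path y' y'') :
    (inc h (c.trans c')).Homotopic ((inc h c).trans (inc h c')) := by
  have : inc h (c.trans c') = (inc h c).trans (inc h c') := Path.map_trans _ _ _
  rw [this]

theorem inc_homotopic {Y Y' : Set N} (h : Y ⊆ Y') {y y' : Y} {c c' : Path y y'} (hc : c.Homotopic c') :
    (inc h c).Homotopic (inc h c') := by
  exact hc.map ⟨fun x : Y => (⟨x, h x.2⟩ : Y'), continuous_subtype_val.subtype_mk _⟩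

/-- composition with a map -/
theorem repI_map {M : Type*} [TopologicalSpace M] {Y : Set N} {Z : Set M} {F : N → M} (hF : ContinuousOn F Y)
    (hm : ∀ x ∈ Y, F x ∈ Z) {y y' : Y} {f : ℝ → N} {a b : ℝ} {c c' : Path y y'} (hc : RepI f a b c) {z z' : Z} {d : Path z z'}
    {f' : ℝ → N} (hc' : RepI f' a b c') (h : c.Homotopic c') (hd : RepI (fun t => F (f t)) a b d) :
    RepI (fun t => F (f' t)) a b d := by
  obtain ⟨γ, a1, a2⟩ := hc
  obtain ⟨γ', b1, b2⟩ := hc'
  obtain ⟨δ, e1, e2⟩ := hd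
  let Φ : C(Y, Z) := ⟨fun x => ⟨F x, hm x x.2⟩, by
    apply Continuous.subtype_mk
    exact continuousOn_iff_continuous_domRestrict.mp hF⟩
  have hz : z = Φ y := by
    apply Subtype.ext
    have h1 := e1 0
    rw [δ.source] at h1
    have h2 := a1 0
    rw [γ.source] at h2
    rw [h1]
    show F (f (a + ((0 : unitInterval) : ℝ) * (b - a))) = F (y : N)
    rw [h2]
  have hz' : z' = Φ y' := by
    apply Subtype.ext
    have h1 := e1 1
    rw [δ.target] at h1
    have h2 := a1 1
    rw [γ.target] at h2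
    rw [h1]
    show F (f (a + ((1 : unitInterval) : ℝ) * (b - a))) = F (y' : N)
    rw [h2]
  subst hz
  subst hz'
  have hδ : δ = γ.map Φ.continuous := by
    apply Path.ext
    funext t
    apply Subtype.ext
    rw [e1]
    show F (f (a + (t : ℝ) * (b - a))) = F (γ t : N)
    rw [a1]
  refine ⟨γ'.map Φ.continuous, fun t => ?_, ?_⟩
  · show F (γ' t : N) = F (f' (a + (t : ℝ) * (b - a)))
    rw [b1]
  · have h3 : γ'.Homotopic γ := (b2.trans h.symm).trans a2.symm
    rw [hδ] at e2
    exact (h3.map Φ).trans e2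

end

end Pool.Agent.NHE
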