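import Pool.Agent.NHE.IsE
import Pool.Agent.KNT.PrfL

/-!
# NHE/Dir: the direction of a thin finger may be deformed (difficulty 3)

`D l x = (1 - l) d₀ x + l d₁ x`, `M` a bound of `‖D l x‖` for `l ∈ [0, 1]`, `x ∈ [0, 9/8]`; `Y₁ = M + 1`, `e₀ = 1 / (Y₁ + 1)`.
`iso_push` with `F = ℝ`, `k l y = ((e y) D l (9/8 bmp y), 9/8 bmp y)`, `J = [-Y₁, Y₁]`, `J₁ = [-1/8, 1/8]`, `U = univ`, `O = {q ∈ TD | ‖q.1‖ < e Y₁ and not (q.2 = 1 and re q.1 = 0)}`.
`hend`: for `|y| ≥ 1/8` `k l y = (e y, 0)`.  `hkO`: `‖e y D‖ ≤ e M / 8`; if `9/8 bmp y = 1` then `y ≠ 0`, `re (e y D l 1) ≠ 0`.  `himm`: if the second coordinate of the derivative is `0` then `bmp' y = 0` and the first is `e D ≠ 0`.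
`hinj`: same `x`, so `(y - y') D = 0`.  The points `(e y, 0)`, `|y| ≥ Y₁`, and `Tip` are off `O`, hence fixed.
-/

open scoped Manifold ContDiff Topology
open Set Filter
open Pool.Agent.CSG (stp)
open Pool.Agent.RSG (E3 ex Thick)
open Pool.Agent.KNT (Dom Str Str2 BalC bmp)
open Pool.Agent.NHP

namespace Pool.Agent.NHE

/-- the direction -/
noncomputable def dir_D (d₀ d₁ : ℝ → ℂ) (l x : ℝ) : ℂ := ((1 - l : ℝ) : ℂ) * d₀ x + (l : ℂ) * d₁ x

/-- the curve -/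
noncomputable def dir_k (d₀ d₁ : ℝ → ℂ) (e : ℝ) (l y : ℝ) : E :=
  (((e * y : ℝ) : ℂ) * dir_D d₀ d₁ l (9 / 8 * bmp y), 9 / 8 * bmp y)

theorem dir_smooth {d₀ d₁ : ℝ → ℂ} (h₀ : ContDiff ℝ ∞ d₀) (h₁ : ContDiff ℝ ∞ d₁) (e : ℝ) :
    ContDiff ℝ ∞ (fun q : ℝ × ℝ => dir_k d₀ d₁ e q.1 q.2) := by
  have hof : ContDiff ℝ ∞ (fun x : ℝ => (x : ℂ)) := Complex.ofRealCLM.contDiff
  have hx : ContDiff ℝ ∞ (fun q : ℝ × ℝ => 9 / 8 * bmp q.2) :=
    contDiff_const.mul (KNT.bmp_smooth.comp contDiff_snd)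
  unfold dir_k dir_D
  refine ContDiff.prodMk ?_ hx
  refine ContDiff.mul (hof.comp (contDiff_const.mul contDiff_snd)) ?_
  exact ((hof.comp (contDiff_const.sub contDiff_fst)).mul (h₀.comp hx)).add
    ((hof.comp contDiff_fst).mul (h₁.comp hx))

theorem dir_x (y : ℝ) : 9 / 8 * bmp y ∈ Icc (0 : ℝ) (9 / 8) := by
  have h0 := KNT.bmp_nonneg y
  have h1 := KNT.bmp_le_one y
  exact ⟨by linarith, by linarith⟩

theorem dir_far {d₀ d₁ : ℝ → ℂ} (hf : ∀ x ≤ (1 : ℝ) / 8, d₀ x = 1 ∧ d₁ x = 1) (e l y : ℝ)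
    (hy : 1 / 8 ≤ |y|) : dir_k d₀ d₁ e l y = (((e * y : ℝ) : ℂ), 0) := by
  have h1 := hf 0 (by norm_num)
  unfold dir_k dir_D
  rw [KNT.bmp_zero hy, mul_zero, h1.1, h1.2]
  have h2 : ((1 - l : ℝ) : ℂ) * 1 + (l : ℂ) * 1 = 1 := by
    push_cast
    ring
  rw [h2, mul_one]

theorem dir_imm {d₀ d₁ : ℝ → ℂ} (h₀ : ContDiff ℝ ∞ d₀) (h₁ : ContDiff ℝ ∞ d₁) {e : ℝ} (he : 0 < e)
    (l y : ℝ) (hD : dir_D d₀ d₁ l (9 / 8 * bmp y) ≠ 0) (v : ℝ)
    (hv : fderiv ℝ (dir_k d₀ d₁ e l) y v = 0) : v = 0 := by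
  by_contra hv0
  have hof : ContDiff ℝ ∞ (fun x : ℝ => (x : ℂ)) := Complex.ofRealCLM.contDiff
  have hg : ContDiff ℝ ∞ (dir_D d₀ d₁ l) := by
    unfold dir_D
    exact (contDiff_const.mul h₀).add (contDiff_const.mul h₁)
  have hb : HasDerivAt (fun y => 9 / 8 * bmp y) (9 / 8 * deriv bmp y) y :=
    ((KNT.bmp_smooth.differentiable (by simp)).differentiableAt.hasDerivAt).const_mul _
  have hgd : HasDerivAt (dir_D d₀ d₁ l) (deriv (dir_D d₀ d₁ l) (9 / 8 * bmp y)) (9 / 8 * bmp y) :=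
    (hg.differentiable (by simp)).differentiableAt.hasDerivAt
  have hcomp := hgd.scomp y hb
  have hlin : HasDerivAt (fun y : ℝ => ((e * y : ℝ) : ℂ)) (e : ℂ) y := by
    have h1 : HasDerivAt (fun y : ℝ => e * y) e y := by
      simpa using (hasDerivAt_id y).const_mul e
    exact h1.ofReal_comp
  have hprod := hlin.mul hcomp
  have hpair := hprod.prodMk hb
  have hk : HasDerivAt (dir_k d₀ d₁ e l) _ y := hpair
  have hfd := hk.hasFDerivAt.fderiv
  rw [hfd] at hv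
  have hv2 : v • (9 / 8 * deriv bmp y) = 0 := congrArg Prod.snd hv
  have hb0 : 9 / 8 * deriv bmp y = 0 := by
    rcases smul_eq_zero.1 hv2 with h | h
    · exact absurd h hv0
    · exact h
  have hv1 := congrArg Prod.fst hv
  simp only [Function.comp, hb0, zero_smul, mul_zero, add_zero] at hv1
  have hv3 : v • ((e : ℂ) * dir_D d₀ d₁ l (9 / 8 * bmp y)) = 0 := by
    simpa using hv1
  rcases smul_eq_zero.1 hv3 with h | h
  · exact hv0 h
  · rcases mul_eq_zero.1 h with h | h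
    · exact he.ne' (Complex.ofReal_eq_zero.1 h)
    · exact hD h

theorem dir_image {V : Equiv.Perm E} {k₀ k₁ : ℝ → E} {A : Set ℝ} {T : Set E}
    (h : ∀ y ∈ A, V (k₀ y) = k₁ y) (hT : ∀ q ∈ T, V q = q) :
    V '' (k₀ '' A ∪ T) = k₁ '' A ∪ T := by
  ext q
  constructor
  · rintro ⟨p, hp | hp, rfl⟩
    · obtain ⟨y, hy, rfl⟩ := hp
      left
      exact ⟨y, hy, (h y hy).symm⟩
    · right
      rw [hT p hp]
      exact hp
  · rintro (hq | hq)
    · obtain ⟨y, hy, rfl⟩ := hq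
      exact ⟨k₀ y, Or.inl ⟨y, hy, rfl⟩, h y hy⟩
    · exact ⟨q, Or.inr hq, hT q hq⟩

theorem leqO_dir {d₀ d₁ : ℝ → ℂ} (h₀ : ContDiff ℝ ∞ d₀) (h₁ : ContDiff ℝ ∞ d₁) (hf : ∀ x ≤ 1 / 8, d₀ x = 1 ∧ d₁ x = 1)
    (hn : ∀ l ∈ Icc (0 : ℝ) 1, ∀ x ∈ Icc (0 : ℝ) (9 / 8), ((1 - l : ℝ) : ℂ) * d₀ x + (l : ℂ) * d₁ x ≠ 0)
    (ht : ∀ l ∈ Icc (0 : ℝ) 1, (((1 - l : ℝ) : ℂ) * d₀ 1 + (l : ℂ) * d₁ 1).re ≠ 0) :
    ∃ e₀ : ℝ, 0 < e₀ ∧ ∀ e : ℝ, 0 < e → e < e₀ → LEqO TD (TGd e d₀) (TGd e d₁) := by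
  obtain ⟨M₀, hM₀⟩ := isCompact_Icc.exists_bound_of_continuousOn
    (s := Icc (0 : ℝ) (9 / 8)) h₀.continuous.continuousOn
  obtain ⟨M₁, hM₁⟩ := isCompact_Icc.exists_bound_of_continuousOn
    (s := Icc (0 : ℝ) (9 / 8)) h₁.continuous.continuousOn
  have hM₀' : 0 ≤ M₀ := (norm_nonneg _).trans (hM₀ 0 ⟨le_refl _, by norm_num⟩)
  have hM₁' : 0 ≤ M₁ := (norm_nonneg _).trans (hM₁ 0 ⟨le_refl _, by norm_num⟩)
  have hMD : ∀ l ∈ Icc (0 : ℝ) 1, ∀ x ∈ Icc (0 : ℝ) (9 / 8), ‖dir_D d₀ d₁ l x‖ ≤ M₀ + M₁ := by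
    intro l hl x hx
    unfold dir_D
    refine (norm_add_le _ _).trans ?_
    rw [norm_mul, norm_mul, Complex.norm_real, Complex.norm_real, Real.norm_eq_abs,
      Real.norm_eq_abs, abs_of_nonneg (by linarith [hl.2]), abs_of_nonneg hl.1]
    have h1 := hM₀ x hx
    have h2 := hM₁ x hx
    have h3 : (1 - l) * ‖d₀ x‖ ≤ 1 * M₀ :=
      mul_le_mul (by linarith [hl.1]) h1 (norm_nonneg _) zero_le_one
    have h4 : l * ‖d₁ x‖ ≤ 1 * M₁ := mul_le_mul hl.2 h2 (norm_nonneg _) zero_le_one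
    linarith
  set M : ℝ := M₀ + M₁ with hM
  have hM0 : 0 ≤ M := add_nonneg hM₀' hM₁'
  refine ⟨1 / (M + 2), div_pos one_pos (by linarith), fun e he hee => ?_⟩
  have he1 : e * (M + 2) < 1 := by
    rwa [lt_div_iff₀ (by linarith)] at hee
  have heM : 0 ≤ e * M := mul_nonneg he.le hM0
  have hTDo : IsOpen TD := by
    unfold TD
    exact (isOpen_lt (continuous_fst.norm) continuous_const).inter
      ((isOpen_lt continuous_const continuous_snd).inter (isOpen_lt continuous_snd continuous_const))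
  have hO : IsOpen {q : E | q ∈ TD ∧ ‖q.1‖ < e * (M + 1) ∧ ¬ (q.2 = 1 ∧ q.1.re = 0)} := by
    refine hTDo.inter ((isOpen_lt (continuous_fst.norm) continuous_const).inter ?_)
    have hc : IsClosed {q : E | q.2 = 1 ∧ q.1.re = 0} :=
      (isClosed_eq continuous_snd continuous_const).inter
        (isClosed_eq (Complex.continuous_re.comp continuous_fst) continuous_const)
    exact hc.isOpen_compl
  obtain ⟨V, hV, hV1⟩ := iso_push (F := ℝ) hO (k := dir_k d₀ d₁ e) (U := univ)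
    (J := Icc (-(M + 1)) (M + 1)) (J₁ := Icc (-(1 / 8)) (1 / 8)) isOpen_univ isCompact_Icc
    (subset_univ _) isCompact_Icc (Icc_subset_Icc (by linarith) (by linarith))
    (fun s _ y _ => (dir_smooth h₀ h₁ e).contDiffAt)
    (by
      intro s _ y _ hy
      have h2 : 1 / 8 ≤ |y| := by
        by_contra h3
        have h4 := abs_lt.1 (not_le.1 h3)
        exact hy ⟨h4.1.le, h4.2.le⟩
      rw [dir_far hf e s y h2, dir_far hf e 0 y h2])
    (by
      intro s hs y hy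
      have hx := dir_x y
      have hyy : |y| ≤ 1 / 8 := abs_le.2 ⟨hy.1, hy.2⟩
      have hnorm : ‖((e * y : ℝ) : ℂ) * dir_D d₀ d₁ s (9 / 8 * bmp y)‖ ≤ e * M / 8 := by
        rw [norm_mul, Complex.norm_real, Real.norm_eq_abs, abs_mul, abs_of_pos he]
        have h1 := hMD s hs _ hx
        have h2 : e * |y| ≤ e * (1 / 8) := mul_le_mul_of_nonneg_left hyy he.le
        have h3 := mul_le_mul h2 h1 (norm_nonneg _) (by linarith)
        linarith
      refine ⟨⟨?_, ?_, ?_⟩, ?_, ?_⟩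
      · exact lt_of_le_of_lt hnorm (by nlinarith)
      · show -(1 / 4) < 9 / 8 * bmp y
        linarith [hx.1]
      · show 9 / 8 * bmp y < 5 / 4
        linarith [hx.2]
      · exact lt_of_le_of_lt hnorm (by nlinarith)
      · rintro ⟨h1, h2⟩
        have h1' : 9 / 8 * bmp y = 1 := h1
        have h2' : (((e * y : ℝ) : ℂ) * dir_D d₀ d₁ s (9 / 8 * bmp y)).re = 0 := h2
        rw [h1', Complex.re_ofReal_mul] at h2'
        have hy0 : y ≠ 0 := by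
          intro h3
          rw [h3, KNT.bmp_one (by norm_num)] at h1'
          norm_num at h1'
        rcases mul_eq_zero.1 h2' with h3 | h3
        · rcases mul_eq_zero.1 h3 with h4 | h4
          · exact he.ne' h4
          · exact hy0 h4
        · exact ht s hs h3)
    (by
      intro s hs y _ v hv
      exact dir_imm h₀ h₁ he s y (hn s hs _ (dir_x y)) v hv)
    (by
      intro s hs y _ y' _ hyy
      have h1 : 9 / 8 * bmp y = 9 / 8 * bmp y' := congrArg Prod.snd hyy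
      have h2 : ((e * y : ℝ) : ℂ) * dir_D d₀ d₁ s (9 / 8 * bmp y)
        = ((e * y' : ℝ) : ℂ) * dir_D d₀ d₁ s (9 / 8 * bmp y') := congrArg Prod.fst hyy
      rw [← h1] at h2
      have h3 := mul_right_cancel₀ (hn s hs _ (dir_x y)) h2
      have h4 : e * y = e * y' := Complex.ofReal_injective h3
      exact mul_left_cancel₀ he.ne' h4)
  have hVT : PushE TD V := by
    obtain ⟨C, hC, hCO, hCV⟩ := hV.supp
    exact ⟨hV.smooth, hV.smooth_symm, hV.zero, C, hC, fun q hq => (hCO hq).1, hCV⟩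
  have hfix : ∀ q : E, q ∉ {q : E | q ∈ TD ∧ ‖q.1‖ < e * (M + 1) ∧ ¬ (q.2 = 1 ∧ q.1.re = 0)} →
      V 1 q = q := by
    intro q hq
    obtain ⟨C, hC, hCO, hCV⟩ := hV.supp
    exact hCV 1 q fun h => hq (hCO h)
  have hcurve : ∀ y : ℝ, V 1 (dir_k d₀ d₁ e 0 y) = dir_k d₀ d₁ e 1 y := by
    intro y
    by_cases hy : y ∈ Icc (-(M + 1)) (M + 1)
    · exact hV1 y hy
    · have hy1 : M + 1 < |y| := by
        by_contra h3
        exact hy (abs_le.1 (not_lt.1 h3))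
      have hy2 : 1 / 8 ≤ |y| := by linarith
      rw [dir_far hf e 0 y hy2, dir_far hf e 1 y hy2]
      apply hfix
      rintro ⟨_, h2, _⟩
      rw [Complex.norm_real, Real.norm_eq_abs, abs_mul, abs_of_pos he] at h2
      have := mul_lt_mul_of_pos_left hy1 he
      linarith
  have hmain : V 1 '' (TGd e d₀) = TGd e d₁ := by
    have e0 : TGd e d₀ = dir_k d₀ d₁ e 0 '' {y | |e * y| < 1} ∪ Tip := by
      unfold TGd
      congr 2
      funext y
      unfold dir_k dir_D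
      simp
    have e1 : TGd e d₁ = dir_k d₀ d₁ e 1 '' {y | |e * y| < 1} ∪ Tip := by
      unfold TGd
      congr 2
      funext y
      unfold dir_k dir_D
      simp
    rw [e0, e1]
    refine dir_image (fun y _ => hcurve y) fun q hq => hfix q fun h => ?_
    exact h.2.2 ⟨hq.2.1, hq.2.2⟩
  rw [← hmain]
  exact LEqO.diff _ hVT

end Pool.Agent.NHE
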