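import Pool.Agent.NHE.Tte
import Pool.Agent.NHE.LvE
import Pool.Agent.KNF.Win

/-!
# NHE/FoE: one 4-move changes the direction `dq (-1)` into `dq 1` (difficulty 4)

Copy of KNF/FouA, KNF/Fou (`four_step`) with `T = tt e`, `d = 11/8`, `t = 1/4` (`KNF.prf (1/4) y = 9/8 bmp y`), `w = KNF.ww d t` (`KNF.ww_log`, `KNF.ww_smooth`, `KNF.ww_bdd`, file KNF/Win.lean), `B` a bound of `‖w‖`, `M = 3 B + 2`, `e` small (`tt_mem M`).
SET: `TGd e (dq σ) = Z ∪ tt '' {(⟨re w - 1, σ im w⟩, s) : |s| < 1} ∪ tt '' {(-1, s) : |s| < 1}` with `Z = {(y, 0) ∈ TS foot strand, |y| ≥ e} ∪ {(i y, 1), |y| ≥ e}`, since `tt e (⟨ka d x, σ Sb x s⟩, s) = (e s dq σ x, x)` for `x = 9/8 bmp s`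
(`xx_ka`), and `= (e s, 0)` for `|s| ≥ 1/8`.
FOUR with `b (z, s) = tt (w s / 2 - 1 + z (w s / 2), s)`; then `levelE` with `b₀ s = w s / 2 - 1 - ex (2 gs s) (w s / 2)`, `l₀ s = lm s + 4π (gs s) I`, `b₁ = -1`, `l₁ s = conj (lm s)`.
`b '' Dom ⊆ TD` and `Z` is disjoint from `tt '' {‖z‖ < M, |s| < 1}` (points of `TS` in this set are `tt (±1, s)`, `tt_axis`; `tt_foot`, `tt_tip`).
-/

open scoped Manifold ContDiff Topology
open Set Filter
open Pool.Agent.CSG (stp)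
open Pool.Agent.RSG (E3 ex Thick)
open Pool.Agent.KNT (Dom Str Str2 BalC bmp)
open Pool.Agent.NHP

namespace Pool.Agent.NHE

/-- the two directions -/
noncomputable def dq (σ : ℝ) (x : ℝ) : ℂ :=
  ex (stp (1 / 4) (1 / 2) x / 4) * (1 + ((σ * stp (1 / 2) (3 / 4) x : ℝ) : ℂ) * Complex.I)

open Complex (I) in
open Pool.Agent.KNT in
open Pool.Agent.KNF in
/-- the affine coordinates -/
noncomputable def foe_H (w : ℝ → ℂ) (q : ℂ × ℝ) : ℂ × ℝ := (w q.2 / 2 - 1 + q.1 * (w q.2 / 2), q.2)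

open Pool.Agent.KNT in
theorem foe_gs_lo {s : ℝ} (h : s ≤ -(1 / 8)) : gs s = 0 := CSG.stp_zero (by norm_num) h

open Pool.Agent.KNT in
theorem foe_gs_hi {s : ℝ} (h : 1 / 16 ≤ s) : gs s = 1 := CSG.stp_one (by norm_num) h

theorem foe_ex0 : ex (2 * 0) = 1 := by unfold ex; simp

open Complex (I) in
theorem foe_ex1 : ex (2 * 1) = 1 := by
  unfold ex
  have e : ((2 * Real.pi * (2 * 1) : ℝ) : ℂ) * I = ((2 : ℤ) : ℂ) * (2 * Real.pi * I) := by
    push_cast; ring
  rw [e]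
  exact Complex.exp_int_mul_two_pi_mul_I 2

theorem foe_ex_norm (x : ℝ) : ‖ex x‖ = 1 := by
  unfold ex
  rw [Complex.norm_exp]
  simp

theorem foe_ex_smooth : ContDiff ℝ ∞ ex := by
  unfold ex
  have h1 : ContDiff ℝ ∞ fun x : ℝ => ((2 * Real.pi * x : ℝ) : ℂ) :=
    Complex.ofRealCLM.contDiff.comp (contDiff_const.mul contDiff_id)
  exact (h1.mul contDiff_const).cexp

theorem foe_gs_smooth : ContDiff ℝ ∞ KNT.gs := CSG.stp_smooth _ _

theorem foe_conj_smooth : ContDiff ℝ ∞ fun z : ℂ => (starRingEnd ℂ) z := Complex.conjCLE.contDiff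

/-- left inverse of `foe_H` -/
noncomputable def foe_K (w lm : ℝ → ℂ) (q : ℂ × ℝ) : ℂ × ℝ :=
  ((q.1 + 1 - w q.2 / 2) * (2 * Complex.exp (-lm q.2)), q.2)

theorem foe_left {w lm : ℝ → ℂ} (h : ∀ y, Complex.exp (lm y) = w y) (q : ℂ × ℝ) :
    foe_K w lm (foe_H w q) = q := by
  unfold foe_K foe_H
  refine Prod.ext ?_ rfl
  simp only
  have h1 : w q.2 * Complex.exp (-lm q.2) = 1 := by
    rw [← h, ← Complex.exp_add, add_neg_cancel, Complex.exp_zero]
  calc (w q.2 / 2 - 1 + q.1 * (w q.2 / 2) + 1 - w q.2 / 2) * (2 * Complex.exp (-lm q.2))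
      = q.1 * (w q.2 * Complex.exp (-lm q.2)) := by ring
    _ = q.1 := by rw [h1, mul_one]

theorem foe_H_smooth {w : ℝ → ℂ} (hw : ContDiff ℝ ∞ w) : ContDiff ℝ ∞ (foe_H w) := by
  unfold foe_H
  have h1 : ContDiff ℝ ∞ fun q : ℂ × ℝ => w q.2 := hw.comp contDiff_snd
  exact (((h1.div_const 2).sub contDiff_const).add (contDiff_fst.mul (h1.div_const 2))).prodMk contDiff_snd

theorem foe_K_smooth {w lm : ℝ → ℂ} (hw : ContDiff ℝ ∞ w) (hl : ContDiff ℝ ∞ lm) :
    ContDiff ℝ ∞ (foe_K w lm) := by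
  unfold foe_K
  have h1 : ContDiff ℝ ∞ fun q : ℂ × ℝ => w q.2 := hw.comp contDiff_snd
  have h2 : ContDiff ℝ ∞ fun q : ℂ × ℝ => lm q.2 := hl.comp contDiff_snd
  exact (((contDiff_fst.add contDiff_const).sub (h1.div_const 2)).mul
    (contDiff_const.mul h2.neg.cexp)).prodMk contDiff_snd

theorem foe_H_imm {w lm : ℝ → ℂ} (hw : ContDiff ℝ ∞ w) (hl : ContDiff ℝ ∞ lm)
    (h : ∀ y, Complex.exp (lm y) = w y) (q : ℂ × ℝ) : Function.Injective (fderiv ℝ (foe_H w) q) := by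
  have hn : (∞ : WithTop ℕ∞) ≠ 0 := by simp
  have h1 := ((foe_K_smooth hw hl).differentiable hn (foe_H w q)).hasFDerivAt
  have h2 := ((foe_H_smooth hw).differentiable hn q).hasFDerivAt
  have h3 := h1.comp q h2
  have h4 : foe_K w lm ∘ foe_H w = id := by
    funext p
    exact foe_left h p
  rw [h4] at h3
  have h5 := h3.unique (hasFDerivAt_id q)
  intro v v' hv
  have h6 := congrArg (fun A : (ℂ × ℝ) →L[ℝ] (ℂ × ℝ) => A v) h5
  have h7 := congrArg (fun A : (ℂ × ℝ) →L[ℝ] (ℂ × ℝ) => A v') h5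
  simp only [ContinuousLinearMap.comp_apply, ContinuousLinearMap.id_apply] at h6 h7
  rw [← h6, ← h7, hv]

theorem foe_balC {T : ℂ × ℝ → ℂ × ℝ} (hTs : ContDiff ℝ ∞ T) (hTi : Function.Injective T)
    (hTd : ∀ q, Function.Injective (fderiv ℝ T q)) {w lm : ℝ → ℂ} (hw : ContDiff ℝ ∞ w)
    (hl : ContDiff ℝ ∞ lm) (h : ∀ y, Complex.exp (lm y) = w y) : BalC (fun q => T (foe_H w q)) := by
  have hn : (∞ : WithTop ℕ∞) ≠ 0 := by simp
  refine ⟨fun q _ => (hTs.comp (foe_H_smooth hw)).contDiffAt, ?_, ?_⟩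
  · intro q _
    have h1 : fderiv ℝ (fun q => T (foe_H w q)) q = (fderiv ℝ T (foe_H w q)).comp (fderiv ℝ (foe_H w) q) :=
      fderiv_comp q (hTs.differentiable hn _) ((foe_H_smooth hw).differentiable hn q)
    rw [h1]
    exact (hTd _).comp (foe_H_imm hw hl h q)
  · intro q _ q' _ hq
    have h1 := hTi hq
    rw [← foe_left h q, ← foe_left h q', h1]

/-- the height of the finger -/
theorem foe_prf (y : ℝ) : KNT.prf (1 / 4) y = 9 / 8 * bmp y := by
  unfold KNT.prf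
  norm_num

theorem foe_dom (y : ℝ) : |1 - 2 * KNT.prf (1 / 4) y| < 11 / 8 := KNF.Win_dom (by norm_num) (by norm_num) y

theorem foe_dq0 (σ : ℝ) : dq σ 0 = 1 := by
  unfold dq
  rw [CSG.stp_zero (by norm_num : (1 / 4 : ℝ) < 1 / 2) (by norm_num), CSG.stp_zero (by norm_num : (1 / 2 : ℝ) < 3 / 4) (by norm_num)]
  unfold ex
  simp

theorem foe_fin (e σ y : ℝ) : tt e (⟨(KNF.ww (11 / 8) (1 / 4) y).re - 1, σ * (KNF.ww (11 / 8) (1 / 4) y).im⟩, y) =
    (((e * y : ℝ) : ℂ) * dq σ (9 / 8 * bmp y), 9 / 8 * bmp y) := by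
  have h1 : (KNF.ww (11 / 8) (1 / 4) y).re - 1 = KNF.ka (11 / 8) (KNT.prf (1 / 4) y) := by
    unfold KNF.ww
    simp only
    ring
  have h2 : KNF.xx (11 / 8) (KNF.ka (11 / 8) (KNT.prf (1 / 4) y)) = 9 / 8 * bmp y := by
    rw [KNF.xx_ka (by norm_num) (foe_dom y), foe_prf]
  have h3 : (KNF.ww (11 / 8) (1 / 4) y).im = stp (1 / 2) (3 / 4) (9 / 8 * bmp y) * y := by
    unfold KNF.ww KNF.Sb
    simp only
    rw [foe_prf]
  unfold tt
  simp only
  rw [h1, h2, h3]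
  refine Prod.ext ?_ rfl
  unfold dq
  simp only
  have h4 : (⟨y, σ * (stp (1 / 2) (3 / 4) (9 / 8 * bmp y) * y)⟩ : ℂ) =
      (y : ℂ) * (1 + ((σ * stp (1 / 2) (3 / 4) (9 / 8 * bmp y) : ℝ) : ℂ) * Complex.I) := by
    apply Complex.ext
    · simp
    · simp
      ring
  rw [h4]
  push_cast
  ring

theorem foe_bmp {y : ℝ} (h : 1 ≤ |y|) : bmp y = 0 := KNT.bmp_zero (by linarith)

theorem foe_TDr {u : ℝ} (h : |u| < 1) : ((u : ℂ), (0 : ℝ)) ∈ TD := by
  refine ⟨?_, by norm_num, by norm_num⟩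
  change ‖(u : ℂ)‖ < 1
  rw [Complex.norm_real]
  exact h

theorem foe_TDi {u : ℝ} (h : |u| < 1) : ((⟨0, u⟩ : ℂ), (1 : ℝ)) ∈ TD := by
  refine ⟨?_, by norm_num, by norm_num⟩
  change ‖(⟨0, u⟩ : ℂ)‖ < 1
  have h1 : (⟨0, u⟩ : ℂ) = (u : ℂ) * Complex.I := by
    apply Complex.ext <;> simp
  rw [h1, norm_mul, Complex.norm_I, mul_one, Complex.norm_real]
  exact h

theorem foe_set {e σ : ℝ} (he : 0 < e) (he1 : e ≤ 1) : TGd e (dq σ) =
    (TS \ (tt e '' {q | |q.2| < 1})) ∪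
      ((fun s : ℝ => tt e (⟨(KNF.ww (11 / 8) (1 / 4) s).re - 1, σ * (KNF.ww (11 / 8) (1 / 4) s).im⟩, s)) '' Ioo (-1) 1 ∪
        (fun s : ℝ => tt e (-1, s)) '' Ioo (-1) 1) := by
  have hi := tt_inj he
  apply Subset.antisymm
  · rintro p (⟨y, hy, rfl⟩ | ⟨hpT, h1, h2⟩)
    · change |e * y| < 1 at hy
      by_cases hy1 : |y| < 1
      · right
        left
        exact ⟨y, abs_lt.1 hy1, foe_fin e σ y⟩
      · left
        have hy2 : 1 ≤ |y| := not_lt.1 hy1
        have e1 : ((((e * y : ℝ) : ℂ) * dq σ (9 / 8 * bmp y), 9 / 8 * bmp y) : E) = (((e * y : ℝ) : ℂ), 0) := by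
          rw [foe_bmp hy2, mul_zero, foe_dq0, mul_one]
        change ((((e * y : ℝ) : ℂ) * dq σ (9 / 8 * bmp y), 9 / 8 * bmp y) : E) ∈ _
        rw [e1]
        refine ⟨⟨foe_TDr hy, Or.inl ⟨rfl, Complex.ofReal_im _⟩⟩, ?_⟩
        rintro ⟨q, hq, hqe⟩
        rw [← tt_foot e y] at hqe
        have h3 := hi hqe
        rw [h3] at hq
        exact hy1 hq
    · have e1 : p = tt e (-1, p.1.im / e) := by
        rw [tt_tip]
        refine Prod.ext (Complex.ext h2 ?_) h1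
        change p.1.im = e * (p.1.im / e)
        field_simp
      by_cases hy1 : |p.1.im / e| < 1
      · right
        right
        exact ⟨_, abs_lt.1 hy1, e1.symm⟩
      · left
        refine ⟨⟨hpT, Or.inr ⟨h1, h2⟩⟩, ?_⟩
        rintro ⟨q, hq, hqe⟩
        rw [e1] at hqe
        have h3 := hi hqe
        rw [h3] at hq
        exact hy1 hq
  · rintro p (⟨⟨hpT, hp⟩, hpn⟩ | (⟨s, hs, rfl⟩ | ⟨s, hs, rfl⟩))
    · rcases hp with ⟨h1, h2⟩ | ⟨h1, h2⟩
      · left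
        have e1 : p = (((e * (p.1.re / e) : ℝ) : ℂ), 0) := by
          have h3 : e * (p.1.re / e) = p.1.re := by field_simp
          rw [h3]
          refine Prod.ext (Complex.ext ?_ ?_) h1
          · exact (Complex.ofReal_re _).symm
          · rw [h2]; exact (Complex.ofReal_im _).symm
        have hy2 : 1 ≤ |p.1.re / e| := by
          by_contra h3
          apply hpn
          refine ⟨(1, p.1.re / e), not_le.1 h3, ?_⟩
          rw [tt_foot]
          exact e1.symm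
        refine ⟨p.1.re / e, ?_, ?_⟩
        · change |e * (p.1.re / e)| < 1
          have h3 : e * (p.1.re / e) = p.1.re := by field_simp
          rw [h3]
          exact (Complex.abs_re_le_norm _).trans_lt hpT.1
        · change ((((e * (p.1.re / e) : ℝ) : ℂ) * dq σ (9 / 8 * bmp (p.1.re / e)), 9 / 8 * bmp (p.1.re / e)) : E) = p
          rw [foe_bmp hy2, mul_zero, foe_dq0, mul_one]
          exact e1.symm
      · right
        exact ⟨hpT, h1, h2⟩
    · left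
      refine ⟨s, ?_, (foe_fin e σ s).symm⟩
      change |e * s| < 1
      rw [abs_mul, abs_of_pos he]
      have hs' : |s| < 1 := abs_lt.2 hs
      nlinarith [abs_nonneg s]
    · right
      change tt e (-1, s) ∈ Tip
      rw [tt_tip]
      refine ⟨foe_TDi ?_, rfl, rfl⟩
      rw [abs_mul, abs_of_pos he]
      have hs' : |s| < 1 := abs_lt.2 hs
      nlinarith [abs_nonneg s]

open Complex (I) in
open Pool.Agent.KNT in
theorem toggle : ∃ e₀ : ℝ, 0 < e₀ ∧ ∀ e : ℝ, 0 < e → e < e₀ → LEqO TD (TGd e (dq (-1))) (TGd e (dq 1)) := by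
  obtain ⟨B, hB⟩ := KNF.ww_bdd (d := 11 / 8) (t := 1 / 4) (by norm_num) (by norm_num)
  obtain ⟨e₁, he₁, hmem⟩ := tt_mem (3 * B + 2)
  refine ⟨min e₁ 1, lt_min he₁ one_pos, ?_⟩
  intro e he hee
  have hee1 : e < e₁ := hee.trans_le (min_le_left _ _)
  have hee2 : e ≤ 1 := (hee.trans_le (min_le_right _ _)).le
  have hM := hmem e he hee1
  have hTi := tt_inj he
  have hTs := tt_smooth e
  have hTd := tt_imm he
  have hB0 : 0 ≤ B := (norm_nonneg _).trans (hB 0)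
  obtain ⟨lm, hlm, hlm1, hlm2, hlm3⟩ := KNF.ww_log (d := 11 / 8) (t := 1 / 4) (by norm_num) (by norm_num)
  have hw := KNF.ww_smooth (d := 11 / 8) (t := 1 / 4) (by norm_num) (by norm_num)
  have k0 := foe_set (σ := 1) he hee2
  have k2 := foe_set (σ := -1) he hee2
  set w := KNF.ww (11 / 8) (1 / 4) with hwdef
  set Z : Set E := TS \ (tt e '' {q | |q.2| < 1}) with hZ
  -- the sets
  have k1 : TGd e (dq 1) = Z ∪ (fun q => tt e (foe_H w q)) '' Str := by
    rw [k0]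
    congr 1
    apply Subset.antisymm
    · rintro p (⟨s, hs, rfl⟩ | ⟨s, hs, rfl⟩)
      · refine ⟨(1, s), ⟨Or.inl rfl, abs_lt.2 hs⟩, ?_⟩
        change tt e (w s / 2 - 1 + 1 * (w s / 2), s) = tt e (⟨(w s).re - 1, 1 * (w s).im⟩, s)
        congr 2
        apply Complex.ext
        · simp; ring
        · simp
      · refine ⟨(-1, s), ⟨Or.inr rfl, abs_lt.2 hs⟩, ?_⟩
        change tt e (w s / 2 - 1 + (-1) * (w s / 2), s) = tt e (-1, s)
        congr 2
        ring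
    · rintro p ⟨⟨z, s⟩, ⟨hz, hs⟩, rfl⟩
      rcases hz with hz | hz
      · have hz' : z = 1 := hz
        subst hz'
        left
        refine ⟨s, abs_lt.1 hs, ?_⟩
        change tt e (⟨(w s).re - 1, 1 * (w s).im⟩, s) = tt e (w s / 2 - 1 + 1 * (w s / 2), s)
        congr 2
        apply Complex.ext
        · simp; ring
        · simp
      · have hz' : z = -1 := hz
        subst hz'
        right
        refine ⟨s, abs_lt.1 hs, ?_⟩
        change tt e (-1, s) = tt e (w s / 2 - 1 + (-1) * (w s / 2), s)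
        congr 2
        ring
  -- disjointness
  have hdisj : ∀ p ∈ tt e '' {q : ℂ × ℝ | ‖q.1‖ < 3 * B + 2 ∧ |q.2| < 1}, p ∉ Z := by
    rintro _ ⟨q, ⟨hq1, hq2⟩, rfl⟩ hz
    exact hz.2 ⟨q, hq2, rfl⟩
  have hsubO : (fun q => tt e (foe_H w q)) '' Dom ⊆ tt e '' {q : ℂ × ℝ | ‖q.1‖ < 3 * B + 2 ∧ |q.2| < 1} := by
    rintro _ ⟨q, ⟨hq1, hq2⟩, rfl⟩
    refine ⟨foe_H w q, ⟨?_, hq2⟩, rfl⟩
    change ‖w q.2 / 2 - 1 + q.1 * (w q.2 / 2)‖ < 3 * B + 2
    have n1 : ‖w q.2 / 2‖ ≤ B / 2 := by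
      rw [norm_div]
      have := hB q.2
      simp only [Complex.norm_ofNat]
      linarith
    have n2 : ‖w q.2 / 2 - 1 + q.1 * (w q.2 / 2)‖ ≤ ‖w q.2 / 2‖ + 1 + ‖q.1‖ * ‖w q.2 / 2‖ := by
      calc ‖w q.2 / 2 - 1 + q.1 * (w q.2 / 2)‖ ≤ ‖w q.2 / 2 - 1‖ + ‖q.1 * (w q.2 / 2)‖ := norm_add_le _ _
        _ ≤ (‖w q.2 / 2‖ + ‖(1 : ℂ)‖) + ‖q.1‖ * ‖w q.2 / 2‖ := by
            gcongr
            · exact norm_sub_le _ _
            · exact norm_mul_le _ _
        _ = _ := by rw [norm_one]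
    have n3 : ‖q.1‖ * ‖w q.2 / 2‖ ≤ 4 * (B / 2) :=
      mul_le_mul hq1.le n1 (norm_nonneg _) (by norm_num)
    linarith
  have hOTD : tt e '' {q : ℂ × ℝ | ‖q.1‖ < 3 * B + 2 ∧ |q.2| < 1} ⊆ TD := by
    rintro _ ⟨q, ⟨hq1, hq2⟩, rfl⟩
    exact hM q hq1 (by linarith)
  have hZb : Disjoint Z ((fun q => tt e (foe_H w q)) '' Dom) := by
    rw [Set.disjoint_right]
    intro p hp
    exact hdisj p (hsubO hp)
  have A := LEqO.four (foe_balC hTs hTi hTd hw hlm hlm1) (hsubO.trans hOTD) hZb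
  -- the isotopy
  have hlev := levelE hTs hTi hTd (M := 3 * B + 2) (b₀ := fun s => w s / 2 - 1 - ex (2 * gs s) * (w s / 2)) (b₁ := fun _ => -1)
    (l₀ := fun s => lm s + ((4 * Real.pi * gs s : ℝ) : ℂ) * I) (l₁ := fun s => (starRingEnd ℂ) (lm s))
    (((hw.div_const 2).sub contDiff_const).sub ((foe_ex_smooth.comp (contDiff_const.mul foe_gs_smooth)).mul
      (hw.div_const 2))) contDiff_const
    (hlm.add ((Complex.ofRealCLM.contDiff.comp (contDiff_const.mul foe_gs_smooth)).mul contDiff_const))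
    (foe_conj_smooth.comp hlm) ?_ ?_ ?_
  rotate_left
  · intro s hs1 hs2
    rcases le_abs'.1 hs1 with h | h
    · have h1 : gs s = 0 := foe_gs_lo (by linarith)
      have h2 := hlm2 s (by linarith)
      constructor
      · rw [h1, foe_ex0]; ring
      · rw [h1, h2]
        generalize Real.log 2 = c
        simp
    · have h1 : gs s = 1 := foe_gs_hi (by linarith)
      have h2 := hlm3 s (by linarith)
      constructor
      · rw [h1, foe_ex1]; ring
      · rw [h1, h2]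
        generalize Real.log 2 = c
        apply Complex.ext
        · simp
        · simp
          ring
  · intro s _
    have n1 : ‖w s / 2‖ ≤ B / 2 := by
      rw [norm_div]
      have := hB s
      simp only [Complex.norm_ofNat]
      linarith
    have n2 : ‖w s / 2 - 1 - ex (2 * gs s) * (w s / 2)‖ ≤ B + 1 := by
      calc ‖w s / 2 - 1 - ex (2 * gs s) * (w s / 2)‖
          ≤ ‖w s / 2 - 1‖ + ‖ex (2 * gs s) * (w s / 2)‖ := norm_sub_le _ _
        _ ≤ (‖w s / 2‖ + ‖(1 : ℂ)‖) + ‖w s / 2‖ := by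
            gcongr
            · exact norm_sub_le _ _
            · rw [norm_mul, foe_ex_norm, one_mul]
        _ ≤ B + 1 := by rw [norm_one]; linarith
    have n3 : ‖Complex.exp (lm s + ((4 * Real.pi * gs s : ℝ) : ℂ) * I)‖ ≤ B := by
      rw [Complex.exp_add, norm_mul, hlm1, Complex.norm_exp_ofReal_mul_I, mul_one]
      exact hB s
    linarith
  · intro s _
    have n3 : ‖Complex.exp ((starRingEnd ℂ) (lm s))‖ ≤ B := by
      rw [Complex.exp_conj, hlm1, Complex.norm_conj]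
      exact hB s
    simp only [norm_neg, norm_one]
    linarith
  obtain ⟨V, hV, hF1, hF2⟩ := hlev
  have hV' : PushE TD V := by
    obtain ⟨C, c1, c2, c3⟩ := hV.supp
    exact ⟨hV.smooth, hV.smooth_symm, hV.zero, C, c1, c2.trans hOTD, c3⟩
  have hFZ : V 1 '' Z = Z := by
    have hfix : ∀ p ∈ Z, V 1 p = p := by
      intro p hp
      obtain ⟨C, c1, c2, c3⟩ := hV.supp
      apply c3
      intro hpC
      exact hdisj p (c2 hpC) hp
    apply Subset.antisymm
    · rintro _ ⟨p, hp, rfl⟩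
      rw [hfix p hp]; exact hp
    · intro p hp
      exact ⟨p, hp, hfix p hp⟩
  have hexp : ∀ s, Complex.exp (lm s + ((4 * Real.pi * gs s : ℝ) : ℂ) * I) = w s * ex (2 * gs s) := by
    intro s
    rw [Complex.exp_add, hlm1]
    unfold ex
    congr 3
    push_cast
    ring
  have e1 : ∀ s, tt e (foe_H w (ex (2 * gs s), s)) =
      tt e (w s / 2 - 1 - ex (2 * gs s) * (w s / 2) + Complex.exp (lm s + ((4 * Real.pi * gs s : ℝ) : ℂ) * I), s) := by
    intro s
    rw [hexp]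
    unfold foe_H
    congr 2
    simp only
    ring
  have e2 : ∀ s, tt e (foe_H w (-ex (2 * gs s), s)) =
      tt e (w s / 2 - 1 - ex (2 * gs s) * (w s / 2), s) := by
    intro s
    unfold foe_H
    congr 2
    simp only
    ring
  have e3 : ∀ s, tt e (-1 + Complex.exp ((starRingEnd ℂ) (lm s)), s) =
      tt e (⟨(w s).re - 1, -1 * (w s).im⟩, s) := by
    intro s
    rw [Complex.exp_conj, hlm1]
    congr 2
    apply Complex.ext
    · simp; ring
    · simp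
  have k3 : V 1 '' (Z ∪ (fun q => tt e (foe_H w q)) '' Str2) = TGd e (dq (-1)) := by
    rw [k2, image_union, hFZ]
    congr 1
    apply Subset.antisymm
    · rintro _ ⟨_, ⟨⟨z, s⟩, ⟨hz, hs⟩, rfl⟩, rfl⟩
      have hs' : |s| < 1 := hs
      rcases hz with hz | hz
      · have hz' : z = ex (2 * gs s) := hz
        subst hz'
        left
        refine ⟨s, abs_lt.1 hs', ?_⟩
        change tt e (⟨(w s).re - 1, -1 * (w s).im⟩, s) = V 1 (tt e (foe_H w (ex (2 * gs s), s)))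
        rw [e1, hF1 s hs'.le, e3]
      · have hz' : z = -ex (2 * gs s) := hz
        subst hz'
        right
        refine ⟨s, abs_lt.1 hs', ?_⟩
        change tt e (-1, s) = V 1 (tt e (foe_H w (-ex (2 * gs s), s)))
        rw [e2, hF2 s hs'.le]
    · rintro _ (⟨s, hs, rfl⟩ | ⟨s, hs, rfl⟩)
      · have hs' : |s| < 1 := abs_lt.2 hs
        refine ⟨tt e (foe_H w (ex (2 * gs s), s)), ⟨(ex (2 * gs s), s), ⟨Or.inl rfl, hs'⟩, rfl⟩, ?_⟩
        rw [e1, hF1 s hs'.le, e3]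
      · have hs' : |s| < 1 := abs_lt.2 hs
        refine ⟨tt e (foe_H w (-ex (2 * gs s), s)), ⟨(-ex (2 * gs s), s), ⟨Or.inr rfl, hs'⟩, rfl⟩, ?_⟩
        rw [e2, hF2 s hs'.le]
  have D := LEqO.diff (Z ∪ (fun q => tt e (foe_H w q)) '' Str2) hV'
  rw [k3] at D
  rw [← k1] at A
  exact (A.trans D).symm

end Pool.Agent.NHE
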