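import Pool.Agent.NHE.Defs
import Pool.Agent.NHP.Grp

/-!
# NHE/RtM: the half turn twists (difficulty 2)

`rt m` preserves `‖w‖` and `x`; `rt m ∘ rt (-m) = id`.  `rt m '' Tip = Tip`: at `x = 1` the factor is `ex (m/2) = ± 1`.  `leqO_rt`: induction; a push `V` is conjugated: `s ↦ rt m ∘ V s ∘ rt (-m)` (`PushE TD`: the compact set is `rt m '' C ⊆ TD`), `four`: `rt m ∘ b`
is `BalC`, `rib`: `rt m ∘ b l` is `Tubes` (chain rule, `fderiv (rt m)` is injective everywhere).
-/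

open scoped Manifold ContDiff Topology
open Set Filter
open Pool.Agent.CSG (stp)
open Pool.Agent.RSG (E3 ex Thick)
open Pool.Agent.KNT (Dom Str Str2 BalC bmp)
open Pool.Agent.NHP

namespace Pool.Agent.NHE

private theorem rtM_ex_smooth : ContDiff ℝ ∞ ex := by
  unfold ex
  have h1 : ContDiff ℝ ∞ fun x : ℝ => (2 * Real.pi * x : ℝ) := contDiff_const.mul contDiff_id
  exact ((Complex.ofRealCLM.contDiff.comp h1).mul contDiff_const).cexp

private theorem rtM_ex_add (x y : ℝ) : ex (x + y) = ex x * ex y := by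
  unfold ex
  rw [← Complex.exp_add]
  congr 1
  push_cast
  ring

private theorem rtM_ex_int (m : ℤ) : ex m = 1 := by
  unfold ex
  rw [Complex.exp_eq_one_iff]
  refine ⟨m, ?_⟩
  push_cast
  ring

private theorem rtM_ex_zero : ex 0 = 1 := by
  unfold ex
  simp

private theorem rtM_ex_norm (x : ℝ) : ‖ex x‖ = 1 := by
  unfold ex
  exact Complex.norm_exp_ofReal_mul_I _

private theorem rtM_ex_half (m : ℤ) : ex ((m : ℝ) / 2) = 1 ∨ ex ((m : ℝ) / 2) = -1 := by
  have h1 : ex ((m : ℝ) / 2) * ex ((m : ℝ) / 2) = 1 := by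
    rw [← rtM_ex_add, add_halves, rtM_ex_int]
  exact mul_self_eq_one_iff.1 h1

theorem rt_smooth (m : ℤ) : ContDiff ℝ ∞ (rt m) := by
  have h1 : ContDiff ℝ ∞ fun q : E => (m : ℝ) / 2 * stp (1 / 4) (3 / 4) q.2 :=
    contDiff_const.mul ((CSG.stp_smooth _ _).comp contDiff_snd)
  have h2 : ContDiff ℝ ∞ fun q : E => ex ((m : ℝ) / 2 * stp (1 / 4) (3 / 4) q.2) :=
    rtM_ex_smooth.comp h1
  exact (h2.mul contDiff_fst).prodMk contDiff_snd

theorem rt_zero (q : E) : rt 0 q = q := by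
  unfold rt
  have h1 : ((0 : ℤ) : ℝ) / 2 * stp (1 / 4) (3 / 4) q.2 = 0 := by push_cast; ring
  rw [h1, rtM_ex_zero, one_mul]

theorem rt_add (m n : ℤ) (q : E) : rt m (rt n q) = rt (m + n) q := by
  unfold rt
  have h1 : ((m + n : ℤ) : ℝ) / 2 * stp (1 / 4) (3 / 4) q.2
      = (m : ℝ) / 2 * stp (1 / 4) (3 / 4) q.2 + (n : ℝ) / 2 * stp (1 / 4) (3 / 4) q.2 := by
    push_cast; ring
  rw [h1, rtM_ex_add, mul_assoc]

private theorem rtM_inv (m : ℤ) (q : E) : rt m (rt (-m) q) = q := by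
  rw [rt_add, add_neg_cancel, rt_zero]

private theorem rtM_inv' (m : ℤ) (q : E) : rt (-m) (rt m q) = q := by
  rw [rt_add, neg_add_cancel, rt_zero]

theorem rt_bij (m : ℤ) : Function.Bijective (rt m) :=
  ⟨Function.LeftInverse.injective (rtM_inv' m), Function.RightInverse.surjective (rtM_inv m)⟩

private theorem rtM_comp (m : ℤ) (q : E) :
    (fderiv ℝ (rt (-m)) (rt m q)).comp (fderiv ℝ (rt m) q) = ContinuousLinearMap.id ℝ E := by
  have h1 : HasFDerivAt (rt m) (fderiv ℝ (rt m) q) q :=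
    ((rt_smooth m).differentiable (by simp)).differentiableAt.hasFDerivAt
  have h2 : HasFDerivAt (rt (-m)) (fderiv ℝ (rt (-m)) (rt m q)) (rt m q) :=
    ((rt_smooth (-m)).differentiable (by simp)).differentiableAt.hasFDerivAt
  have h3 := h2.comp q h1
  have h4 : rt (-m) ∘ rt m = id := funext (rtM_inv' m)
  rw [h4] at h3
  exact h3.unique (hasFDerivAt_id q)

theorem rt_fderiv (m : ℤ) (q : E) : Function.Bijective (fderiv ℝ (rt m) q) := by
  have h1 := rtM_comp m q
  have h2 := rtM_comp (-m) (rt m q)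
  rw [rtM_inv' m q, neg_neg] at h2
  constructor
  · exact Function.LeftInverse.injective (g := fderiv ℝ (rt (-m)) (rt m q))
      (fun v => DFunLike.congr_fun h1 v)
  · exact Function.RightInverse.surjective (g := fderiv ℝ (rt (-m)) (rt m q))
      (fun v => DFunLike.congr_fun h2 v)

theorem rt_TD (m : ℤ) (q : E) : rt m q ∈ TD ↔ q ∈ TD := by
  unfold rt TD
  simp only [mem_setOf_eq, norm_mul, rtM_ex_norm, one_mul]

private theorem rtM_foot (m : ℤ) {q : E} (h : q.2 = 0) : rt m q = q := by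
  unfold rt
  rw [h, CSG.stp_zero (by norm_num) (by norm_num), mul_zero, rtM_ex_zero, one_mul, ← h]

private theorem rtM_tip (m : ℤ) {q : E} (h : q.2 = 1) : rt m q = q ∨ rt m q = (-q.1, q.2) := by
  unfold rt
  rw [h, CSG.stp_one (by norm_num) (by norm_num), mul_one]
  rcases rtM_ex_half m with h1 | h1
  · left
    rw [h1, one_mul, ← h]
  · right
    rw [h1, neg_one_mul]

private theorem rtM_Tip_mem (m : ℤ) {q : E} (h : q ∈ Tip) : rt m q ∈ Tip := by
  obtain ⟨h1, h2, h3⟩ := h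
  refine ⟨(rt_TD m q).2 h1, h2, ?_⟩
  rcases rtM_tip m h2 with h4 | h4
  · rw [h4]; exact h3
  · rw [h4]
    change (-q.1).re = 0
    rw [Complex.neg_re, h3, neg_zero]

private theorem rtM_Tip (m : ℤ) : rt m '' Tip = Tip := by
  apply Subset.antisymm
  · rintro _ ⟨q, hq, rfl⟩
    exact rtM_Tip_mem m hq
  · intro q hq
    exact ⟨rt (-m) q, rtM_Tip_mem (-m) hq, rtM_inv m q⟩

private theorem rtM_TS_mem (m : ℤ) {q : E} (h : q ∈ TS) : rt m q ∈ TS := by
  obtain ⟨h1, h2 | h2⟩ := h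
  · rw [rtM_foot m h2.1]
    exact ⟨h1, Or.inl h2⟩
  · have h3 := rtM_Tip_mem m (q := q) ⟨h1, h2.1, h2.2⟩
    exact ⟨h3.1, Or.inr ⟨h3.2.1, h3.2.2⟩⟩

theorem rt_TS (m : ℤ) : rt m '' TS = TS := by
  apply Subset.antisymm
  · rintro _ ⟨q, hq, rfl⟩
    exact rtM_TS_mem m hq
  · intro q hq
    exact ⟨rt (-m) q, rtM_TS_mem (-m) hq, rtM_inv m q⟩

theorem rt_TGd (m : ℤ) (e : ℝ) : rt m '' TGd e (fun _ => 1) = TGd e fun x => ex (m / 2 * stp (1 / 4) (3 / 4) x) := by
  unfold TGd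
  rw [image_union, rtM_Tip, image_image]
  have h1 : ∀ y : ℝ, rt m (((e * y : ℝ) : ℂ) * 1, 9 / 8 * bmp y)
      = (((e * y : ℝ) : ℂ) * ex (m / 2 * stp (1 / 4) (3 / 4) (9 / 8 * bmp y)), 9 / 8 * bmp y) := by
    intro y
    unfold rt
    apply Prod.ext
    · change ex ((m : ℝ) / 2 * stp (1 / 4) (3 / 4) (9 / 8 * bmp y)) * (((e * y : ℝ) : ℂ) * 1)
        = ((e * y : ℝ) : ℂ) * ex ((m : ℝ) / 2 * stp (1 / 4) (3 / 4) (9 / 8 * bmp y))
      ring
    · rfl
  simp only [h1]

/-- the permutation -/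
private noncomputable def rtM_perm (m : ℤ) : Equiv.Perm E := ⟨rt m, rt (-m), rtM_inv' m, rtM_inv m⟩

private theorem rtM_push (m : ℤ) {V : ℝ → Equiv.Perm E} (hV : PushE TD V) :
    PushE TD fun s => (rtM_perm m).symm.trans ((V s).trans (rtM_perm m)) := by
  refine ⟨?_, ?_, ?_, ?_⟩
  · have h1 : ContDiff ℝ ∞ fun q : ℝ × E => (q.1, rt (-m) q.2) :=
      contDiff_fst.prodMk ((rt_smooth (-m)).comp contDiff_snd)
    exact (rt_smooth m).comp (hV.smooth.comp h1)
  · have h1 : ContDiff ℝ ∞ fun q : ℝ × E => (q.1, rt (-m) q.2) :=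
      contDiff_fst.prodMk ((rt_smooth (-m)).comp contDiff_snd)
    exact (rt_smooth m).comp (hV.smooth_symm.comp h1)
  · apply Equiv.ext
    intro q
    change rt m (V 0 (rt (-m) q)) = q
    rw [hV.zero]
    exact rtM_inv m q
  · obtain ⟨C, hC, hCT, hs⟩ := hV.supp
    refine ⟨rt m '' C, hC.image (rt_smooth m).continuous, ?_, ?_⟩
    · rintro _ ⟨q, hq, rfl⟩
      exact (rt_TD m q).2 (hCT hq)
    · intro s x hx
      change rt m (V s (rt (-m) x)) = x
      rw [hs s, rtM_inv]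
      intro h
      exact hx ⟨_, h, rtM_inv m x⟩

private theorem rtM_fd (m : ℤ) {f : E → E} {q : E} (hf : ContDiffAt ℝ ∞ f q) (hi : Function.Injective (fderiv ℝ f q)) :
    Function.Injective (fderiv ℝ (fun x => rt m (f x)) q) := by
  have h1 : HasFDerivAt f (fderiv ℝ f q) q := (hf.differentiableAt (by simp)).hasFDerivAt
  have h2 : HasFDerivAt (rt m) (fderiv ℝ (rt m) (f q)) (f q) :=
    ((rt_smooth m).differentiable (by simp)).differentiableAt.hasFDerivAt
  have h3 := (h2.comp q h1).fderiv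
  have h4 : (rt m ∘ f) = fun x => rt m (f x) := rfl
  rw [h4] at h3
  rw [h3]
  exact (rt_fderiv m (f q)).1.comp hi

private theorem rtM_im (m : ℤ) (Z A : Set E) (b : E → E) :
    rt m '' (Z ∪ b '' A) = rt m '' Z ∪ (fun x => rt m (b x)) '' A := by
  rw [image_union, image_image]

private theorem rtM_disj (m : ℤ) {Z : Set E} {b : E → E} {A : Set E} (h : Disjoint Z (b '' A)) :
    Disjoint (rt m '' Z) ((fun x => rt m (b x)) '' A) := by
  have h1 := (disjoint_image_iff (rt_bij m).1).2 h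
  rwa [image_image] at h1

theorem leqO_rt (m : ℤ) {S S' : Set E} (h : LEqO TD S S') : LEqO TD (rt m '' S) (rt m '' S') := by
  induction h with
  | refl S => exact LEqO.refl _
  | symm _ ih => exact ih.symm
  | trans _ _ ih1 ih2 => exact ih1.trans ih2
  | @diff S V hV =>
    have h1 := LEqO.diff (O := TD) (rt m '' S) (rtM_push m hV)
    have h2 : ((rtM_perm m).symm.trans ((V 1).trans (rtM_perm m))) '' (rt m '' S)
        = rt m '' (V 1 '' S) := by
      rw [image_image, image_image]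
      apply image_congr
      intro q _
      change rt m (V 1 (rt (-m) (rt m q))) = rt m (V 1 q)
      rw [rtM_inv']
    have h3 : LEqO TD (rt m '' S) (((rtM_perm m).symm.trans ((V 1).trans (rtM_perm m))) '' (rt m '' S)) := h1
    rw [h2] at h3
    exact h3
  | @four Z b hb hbO hd =>
    rw [rtM_im, rtM_im]
    refine LEqO.four ⟨?_, ?_, ?_⟩ ?_ (rtM_disj m hd)
    · intro q hq
      exact (rt_smooth m).contDiffAt.comp q (hb.smooth q hq)
    · intro q hq
      exact rtM_fd m (hb.smooth q hq) (hb.imm q hq)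
    · intro q hq q' hq' he
      exact hb.inj hq hq' ((rt_bij m).1 he)
    · rintro _ ⟨q, hq, rfl⟩
      exact (rt_TD m _).2 (hbO ⟨q, hq, rfl⟩)
  | @rib Z b hb hbO hd =>
    rw [rtM_im, rtM_im]
    have hsl : ∀ l ∈ Icc (0 : ℝ) 1, ∀ q ∈ Dom, ContDiffAt ℝ ∞ (b l) q := by
      intro l hl q hq
      have h1 : ContDiffAt ℝ ∞ (fun q : ℂ × ℝ => (l, q)) q := contDiffAt_const.prodMk contDiffAt_id
      exact (hb.smooth l hl q hq).comp q h1
    refine LEqO.rib (b := fun l q => rt m (b l q)) ⟨?_, ?_, ?_, ?_, ?_, ?_⟩ ?_ (fun l hl => rtM_disj m (hd l hl))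
    · intro l hl q hq
      exact (rt_smooth m).contDiffAt.comp _ (hb.smooth l hl q hq)
    · intro l hl q hq
      exact rtM_fd m (hsl l hl q hq) (hb.imm l hl q hq)
    · intro l hl q hq hq2
      exact congrArg (rt m) (hb.ends l hl q hq hq2)
    · intro q hq q' hq' he
      exact hb.inj0 hq hq' ((rt_bij m).1 he)
    · intro q hq q' hq' he
      exact hb.inj1 hq hq' ((rt_bij m).1 he)
    · intro l hl q hq hq2 q' hq' hq2' he
      exact hb.sep l hl q hq hq2 q' hq' hq2' ((rt_bij m).1 he)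
    · rintro l hl _ ⟨q, hq, rfl⟩
      exact (rt_TD m _).2 (hbO l hl ⟨q, hq, rfl⟩)

end Pool.Agent.NHE
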