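import Pool.Agent.NHE.Gph
import Pool.Agent.NHE.Dir
import Pool.Agent.NHE.FoE
import Pool.Agent.NHE.RtM

/-!
# NHE/TwA: half turns of the finger are free (difficulty 2)

`m = 1`: for `e` small: `TF = TG (9/8 bmp u) ~ TG (9/8 bmp (u/e)) = TGd e 1` (`leqO_graph₂`), `TGd e 1 ~ TGd e (dq (-1))` (`leqO_dir`: `dq (-1) x` has nonnegative real and imaginary part and is not `0`, at `x = 1` it is `1 + i`; linear interpolation with `1`),
`~ TGd e (dq 1)` (`toggle`), `~ TGd e (ex (stp (1/4) (3/4) x / 2))` (`leqO_dir`: for `1/4 < x < 3/4` both have imaginary part `≥ 0`, the second one `> 0`, and `dq 1 x ≠ 0`; for `x ≤ 1/4` both are `1`, for `x ≥ 3/4` they are `-1 + i` and `-1`)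
`= rt 1 '' TGd e 1 ~ rt 1 '' TF` (`leqO_rt`).  `m ∈ ℕ`: induction with `leqO_rt 1`; negative `m`: apply `rt m` to `TF ~ rt (-m) '' TF`.
-/

open scoped Manifold ContDiff Topology
open Set Filter
open Pool.Agent.CSG (stp)
open Pool.Agent.RSG (E3 ex Thick)
open Pool.Agent.KNT (Dom Str Str2 BalC bmp)
open Pool.Agent.NHP

namespace Pool.Agent.NHE

theorem twa_dq_smooth (σ : ℝ) : ContDiff ℝ ∞ (dq σ) := by
  unfold dq
  have h1 : ContDiff ℝ ∞ fun x : ℝ => ex (stp (1 / 4) (1 / 2) x / 4) :=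
    Pool.Agent.RSG.ex_smooth.comp ((CSG.stp_smooth _ _).div_const 4)
  have h2 : ContDiff ℝ ∞ fun x : ℝ => ((σ * stp (1 / 2) (3 / 4) x : ℝ) : ℂ) :=
    Complex.ofRealCLM.contDiff.comp (contDiff_const.mul (CSG.stp_smooth _ _))
  exact h1.mul (contDiff_const.add (h2.mul contDiff_const))

theorem twa_e_smooth : ContDiff ℝ ∞ (fun x : ℝ => ex ((1 : ℤ) / 2 * stp (1 / 4) (3 / 4) x)) :=
  Pool.Agent.RSG.ex_smooth.comp (contDiff_const.mul (CSG.stp_smooth _ _))

theorem twa_dq_lo (σ : ℝ) {x : ℝ} (hx : x ≤ 1 / 2) : dq σ x = ex (stp (1 / 4) (1 / 2) x / 4) := by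
  unfold dq
  rw [CSG.stp_zero (by norm_num : (1 / 2 : ℝ) < 3 / 4) hx]
  simp

theorem twa_dq_hi (σ : ℝ) {x : ℝ} (hx : 1 / 2 ≤ x) :
    (dq σ x).re = -(σ * stp (1 / 2) (3 / 4) x) ∧ (dq σ x).im = 1 := by
  unfold dq
  rw [CSG.stp_one (by norm_num : (1 / 4 : ℝ) < 1 / 2) hx, Pool.Agent.RSG.ex_quarter]
  constructor
  · simp
  · simp

theorem twa_lo {x : ℝ} (hx : x ≤ 1 / 4) (σ : ℝ) : dq σ x = 1 := by
  rw [twa_dq_lo σ (by linarith), CSG.stp_zero (by norm_num : (1 / 4 : ℝ) < 1 / 2) hx, zero_div,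
    Pool.Agent.RSG.ex_zero]

/-- the angles of the lower part -/
theorem twa_ang {x : ℝ} (hx : x ≤ 1 / 2) (σ : ℝ) : 0 ≤ (dq σ x).re ∧ 0 ≤ (dq σ x).im ∧
    (1 / 4 < x → 0 < (dq σ x).im) := by
  have h0 := CSG.stp_nonneg (1 / 4) (1 / 2) x
  have h1 := CSG.stp_le_one (1 / 4) (1 / 2) x
  rw [twa_dq_lo σ hx, Pool.Agent.RSG.ex_re, Pool.Agent.RSG.ex_im]
  have hpi := Real.pi_pos
  have e : 2 * Real.pi * (stp (1 / 4) (1 / 2) x / 4) = Real.pi / 2 * stp (1 / 4) (1 / 2) x := by ring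
  rw [e]
  have h2 : 0 ≤ Real.pi / 2 * stp (1 / 4) (1 / 2) x := by positivity
  have h3 : Real.pi / 2 * stp (1 / 4) (1 / 2) x ≤ Real.pi / 2 := by
    have := mul_le_mul_of_nonneg_left h1 (by positivity : (0 : ℝ) ≤ Real.pi / 2)
    linarith
  refine ⟨Real.cos_nonneg_of_neg_pi_div_two_le_of_le (by linarith) h3,
    Real.sin_nonneg_of_nonneg_of_le_pi h2 (by linarith), fun hx' => ?_⟩
  have h4 := CSG.stp_pos (by norm_num : (1 / 4 : ℝ) < 1 / 2) hx'
  exact Real.sin_pos_of_pos_of_lt_pi (by positivity) (by linarith)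

theorem twa_q1 (x : ℝ) : 0 ≤ (dq (-1) x).re ∧ 0 ≤ (dq (-1) x).im ∧ dq (-1) x ≠ 0 := by
  rcases le_total x (1 / 2) with hx | hx
  · have h := twa_ang hx (-1)
    refine ⟨h.1, h.2.1, ?_⟩
    rw [twa_dq_lo _ hx]
    exact Pool.Agent.RSG.ex_ne _
  · have h := twa_dq_hi (-1) hx
    have h0 := CSG.stp_nonneg (1 / 2) (3 / 4) x
    refine ⟨by rw [h.1]; linarith, by rw [h.2]; norm_num, fun hh => ?_⟩
    rw [hh] at h
    exact zero_ne_one h.2

theorem twa_e_im {x : ℝ} : 0 ≤ (ex ((1 : ℤ) / 2 * stp (1 / 4) (3 / 4) x)).im := by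
  rw [Pool.Agent.RSG.ex_im]
  have h0 := CSG.stp_nonneg (1 / 4) (3 / 4) x
  have h1 := CSG.stp_le_one (1 / 4) (3 / 4) x
  have hpi := Real.pi_pos
  have e : 2 * Real.pi * ((1 : ℤ) / 2 * stp (1 / 4) (3 / 4) x) = Real.pi * stp (1 / 4) (3 / 4) x := by
    push_cast; ring
  rw [e]
  refine Real.sin_nonneg_of_nonneg_of_le_pi (by positivity) ?_
  have := mul_le_mul_of_nonneg_left h1 hpi.le
  linarith

theorem twa_e_im_pos {x : ℝ} (hx : 1 / 4 < x) (hx' : x < 3 / 4) :
    0 < (ex ((1 : ℤ) / 2 * stp (1 / 4) (3 / 4) x)).im := by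
  rw [Pool.Agent.RSG.ex_im]
  have h0 := CSG.stp_pos (by norm_num : (1 / 4 : ℝ) < 3 / 4) hx
  have h1 := CSG.stp_lt_one (by norm_num : (1 / 4 : ℝ) < 3 / 4) hx'
  have hpi := Real.pi_pos
  have e : 2 * Real.pi * ((1 : ℤ) / 2 * stp (1 / 4) (3 / 4) x) = Real.pi * stp (1 / 4) (3 / 4) x := by
    push_cast; ring
  rw [e]
  refine Real.sin_pos_of_pos_of_lt_pi (by positivity) ?_
  have := mul_lt_mul_of_pos_left h1 hpi
  linarith

theorem twa_e_hi {x : ℝ} (hx : 3 / 4 ≤ x) : ex ((1 : ℤ) / 2 * stp (1 / 4) (3 / 4) x) = -1 := by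
  rw [CSG.stp_one (by norm_num : (1 / 4 : ℝ) < 3 / 4) hx, mul_one, Int.cast_one]
  exact Pool.Agent.RSG.ex_half

theorem twa_e_lo {x : ℝ} (hx : x ≤ 1 / 4) : ex ((1 : ℤ) / 2 * stp (1 / 4) (3 / 4) x) = 1 := by
  rw [CSG.stp_zero (by norm_num : (1 / 4 : ℝ) < 3 / 4) hx, mul_zero]
  exact Pool.Agent.RSG.ex_zero

theorem twa_re (l : ℝ) (a b : ℂ) : (((1 - l : ℝ) : ℂ) * a + (l : ℂ) * b).re = (1 - l) * a.re + l * b.re := by
  simp only [Complex.add_re, Complex.re_ofReal_mul]

theorem twa_im (l : ℝ) (a b : ℂ) : (((1 - l : ℝ) : ℂ) * a + (l : ℂ) * b).im = (1 - l) * a.im + l * b.im := by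
  simp only [Complex.add_im, Complex.im_ofReal_mul]

theorem twa_one : LEqO TD TF (rt 1 '' TF) := by
  -- first deformation of the direction
  obtain ⟨e₁, he₁, H1⟩ := leqO_dir (d₀ := fun _ => 1) (d₁ := dq (-1)) contDiff_const (twa_dq_smooth (-1))
    (fun x hx => ⟨rfl, twa_lo (by linarith) _⟩)
    (by
      intro l hl x _ h0
      have h := twa_q1 x
      have hre := congrArg Complex.re h0
      have him := congrArg Complex.im h0
      rw [twa_re] at hre
      rw [twa_im] at him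
      simp only [Complex.one_re, Complex.one_im, Complex.zero_re, Complex.zero_im] at hre him
      have h2 := mul_nonneg hl.1 h.1
      have h3 : l = 1 := by nlinarith [hl.2]
      subst h3
      exact h.2.2 (Complex.ext (by simp only [Complex.zero_re]; linarith)
        (by simp only [Complex.zero_im]; linarith)))
    (by
      intro l hl h0
      rw [twa_re, (twa_dq_hi (-1) (by norm_num : (1 / 2 : ℝ) ≤ 1)).1,
        CSG.stp_one (by norm_num : (1 / 2 : ℝ) < 3 / 4) (by norm_num)] at h0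
      simp only [Complex.one_re] at h0
      linarith)
  -- the 4-move
  obtain ⟨e₂, he₂, H2⟩ := toggle
  -- second deformation
  obtain ⟨e₃, he₃, H3⟩ := leqO_dir (d₀ := dq 1) (d₁ := fun x => ex ((1 : ℤ) / 2 * stp (1 / 4) (3 / 4) x))
    (twa_dq_smooth 1) twa_e_smooth (fun x hx => ⟨twa_lo (by linarith) _, twa_e_lo (by linarith)⟩)
    (by
      intro l hl x _ h0
      have hre := congrArg Complex.re h0
      have him := congrArg Complex.im h0
      rw [twa_re] at hre
      rw [twa_im] at him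
      simp only [Complex.zero_re, Complex.zero_im] at hre him
      rcases le_or_gt x (1 / 4) with h1 | h1
      · rw [twa_lo h1, twa_e_lo h1] at hre
        simp only [Complex.one_re] at hre
        linarith
      · rcases lt_or_ge x (3 / 4) with h2 | h2
        · have h3 : 0 < (dq 1 x).im := by
            rcases le_total x (1 / 2) with hx | hx
            · exact (twa_ang hx 1).2.2 h1
            · rw [(twa_dq_hi 1 hx).2]; norm_num
          have h4 := twa_e_im_pos h1 h2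
          rcases hl.1.eq_or_lt with h5 | h5
          · rw [← h5] at him
            linarith
          · have h6 := mul_pos h5 h4
            have h7 := mul_nonneg (sub_nonneg.2 hl.2) h3.le
            linarith
        · rw [twa_e_hi h2, (twa_dq_hi 1 (by linarith)).1,
            CSG.stp_one (by norm_num : (1 / 2 : ℝ) < 3 / 4) h2] at hre
          simp only [Complex.neg_re, Complex.one_re] at hre
          linarith)
    (by
      intro l hl h0
      rw [twa_re, twa_e_hi (by norm_num : (3 / 4 : ℝ) ≤ 1), (twa_dq_hi 1 (by norm_num : (1 / 2 : ℝ) ≤ 1)).1,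
        CSG.stp_one (by norm_num : (1 / 2 : ℝ) < 3 / 4) (by norm_num)] at h0
      simp only [Complex.neg_re, Complex.one_re] at h0
      linarith)
  obtain ⟨e, he, hee⟩ : ∃ e : ℝ, 0 < e ∧ (e < e₁ ∧ e < e₂ ∧ e < e₃ ∧ e < 1) := by
    refine ⟨min (min e₁ e₂) (min e₃ 1) / 2, ?_, ?_, ?_, ?_, ?_⟩
    · have : 0 < min (min e₁ e₂) (min e₃ 1) := lt_min (lt_min he₁ he₂) (lt_min he₃ one_pos)
      linarith
    all_goals
      have h0 : 0 < min (min e₁ e₂) (min e₃ 1) := lt_min (lt_min he₁ he₂) (lt_min he₃ one_pos)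
      have h1 := min_le_left (min e₁ e₂) (min e₃ 1)
      have h2 := min_le_right (min e₁ e₂) (min e₃ 1)
      have h3 := min_le_left e₁ e₂
      have h4 := min_le_right e₁ e₂
      have h5 := min_le_left e₃ 1
      have h6 := min_le_right e₃ 1
      linarith
  have hbs : ContDiff ℝ ∞ bmp := KNT.bmp_smooth
  have A0 : LEqO TD TF (TGd e (fun _ => 1)) := by
    rw [TF_eq, TGd_one he hee.2.2.2.le]
    refine leqO_graph₂ (contDiff_const.mul hbs) (contDiff_const.mul (hbs.comp (contDiff_id.div_const e)))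
      ?_ ?_ ?_ ?_
    · intro u hu
      constructor
      · rw [KNT.bmp_zero (by linarith), mul_zero]
      · rw [KNT.bmp_zero, mul_zero]
        rw [abs_div, abs_of_pos he]
        have h1 : |u| ≤ |u| / e := by
          rw [le_div_iff₀ he]
          nlinarith [abs_nonneg u, hee.2.2.2]
        linarith
    · intro u
      have h0 := KNT.bmp_nonneg u
      have h1 := KNT.bmp_le_one u
      constructor <;> linarith
    · intro u
      have h0 := KNT.bmp_nonneg (u / e)
      have h1 := KNT.bmp_le_one (u / e)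
      constructor <;> linarith
    · left
      have h1 : bmp 0 = 1 := KNT.bmp_one (by norm_num)
      constructor
      · rw [h1]; norm_num
      · rw [zero_div, h1]; norm_num
  have A1 := H1 e he hee.1
  have A2 := H2 e he hee.2.1
  have A3 := H3 e he hee.2.2.1
  have A4 := leqO_rt 1 A0.symm
  rw [rt_TGd 1 e] at A4
  exact A0.trans (A1.trans (A2.trans (A3.trans A4)))

theorem twa_image (m n : ℤ) (S : Set E) : rt m '' (rt n '' S) = rt (m + n) '' S := by
  rw [← Set.image_comp]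
  congr 1
  funext q
  exact rt_add m n q

theorem twa_image0 (S : Set E) : rt 0 '' S = S := by
  have : rt 0 = id := funext rt_zero
  rw [this, Set.image_id]

theorem twa_nat (n : ℕ) : LEqO TD TF (rt n '' TF) := by
  induction n with
  | zero =>
    rw [Nat.cast_zero, twa_image0]
    exact LEqO.refl _
  | succ n ih =>
    have h1 := leqO_rt 1 ih
    rw [twa_image, add_comm] at h1
    push_cast
    exact twa_one.trans h1

theorem half_turn (m : ℤ) : LEqO TD TF (rt m '' TF) := by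
  obtain ⟨n, hn | hn⟩ := m.eq_nat_or_neg
  · rw [hn]; exact twa_nat n
  · have h1 := leqO_rt (-n) (twa_nat n)
    rw [twa_image, neg_add_cancel, twa_image0] at h1
    rw [hn]
    exact h1.symm

end Pool.Agent.NHE
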