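import Pool.Agent.NHE.Gph
import Pool.Agent.NHE.TwA
import Pool.Agent.NHP.TrL

/-!
# NHE/Thn: operations with chords (difficulty 2)

`kn_of_leqO`: `leqN_of_leqO` with `β = T`, `O = TD`, `Z = K \ T '' TD`.  `chd_repar`: `kn K T' = (K \ T '' TD) ∪ T '' TG h` with `h u = ξ (9/8 bmp (u / e))`, since `T' '' TD ⊆ T '' TD`, `K ∩ T '' TD = T '' TS`, and the points of `TG h` with `|re w| ≥ e` are in the foot strand, `TG h ⊇ Tip`;
`leqO_graph₂` (`ξ (9/8) > ξ 1 = 1`).  `chd_twist`: `kn K (T ∘ rt m) = (K \ T '' TD) ∪ T '' (rt m '' TF)`, `half_turn`.  `chd_flip`: `TF`, `TS`, `TD` are invariant.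
-/

open scoped Manifold ContDiff Topology
open Set Filter
open Pool.Agent.CSG (stp)
open Pool.Agent.RSG (E3 ex Thick)
open Pool.Agent.KNT (Dom Str Str2 BalC bmp)
open Pool.Agent.NHP

namespace Pool.Agent.NHE

theorem thn_isOpen_TD : IsOpen TD := by
  have h1 : IsOpen {q : E | ‖q.1‖ < 1} := isOpen_lt (continuous_fst.norm) continuous_const
  have h2 : IsOpen {q : E | -(1 / 4 : ℝ) < q.2} := isOpen_lt continuous_const continuous_snd
  have h3 : IsOpen {q : E | q.2 < (5 / 4 : ℝ)} := isOpen_lt continuous_snd continuous_const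
  have : TD = {q : E | ‖q.1‖ < 1} ∩ ({q : E | -(1 / 4 : ℝ) < q.2} ∩ {q : E | q.2 < (5 / 4 : ℝ)}) := by
    ext q; simp only [TD, mem_ofPred_eq, mem_inter_iff]
  rw [this]
  exact h1.inter (h2.inter h3)

theorem thn_TS_sub : TS ⊆ TD := fun _ hq => hq.1

theorem thn_TF_sub : TF ⊆ TD := fun _ hq => hq.1

/-- a general embedding of the tube in itself -/
theorem thn_chd {N : Type*} [TopologicalSpace N] [ChartedSpace E3 N] {K : Set N} {T : E → N} (hT : Chd K T) {f : E → E}
    (hf : ∀ q ∈ TD, ContDiffAt ℝ ∞ f q) (hf' : ∀ q ∈ TD, Function.Bijective (fderiv ℝ f q)) (hi : InjOn f TD)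
    (hm : ∀ q ∈ TD, f q ∈ TD) (hS : ∀ q ∈ TD, f q ∈ TS ↔ q ∈ TS) : Chd K (fun q => T (f q)) := by
  refine ⟨hT.cht.comp thn_isOpen_TD hf hf' hi hm, ?_⟩
  ext x
  constructor
  · rintro ⟨hx, q, hq, rfl⟩
    have h1 : T (f q) ∈ T '' TS := by
      rw [← hT.hit]; exact ⟨hx, f q, hm q hq, rfl⟩
    obtain ⟨p, hp, hpe⟩ := h1
    have h2 : p = f q := hT.cht.inj hp.1 (hm q hq) hpe
    exact ⟨q, (hS q hq).1 (h2 ▸ hp), rfl⟩
  · rintro ⟨q, hq, rfl⟩
    have h1 : T (f q) ∈ K ∩ T '' TD := by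
      rw [hT.hit]; exact ⟨f q, (hS q hq.1).2 hq, rfl⟩
    exact ⟨h1.1, q, hq.1, rfl⟩

/-- the knot with the finger along the smaller chord -/
theorem thn_kn {N : Type*} [TopologicalSpace N] [ChartedSpace E3 N] {K : Set N} {T : E → N} (hT : Chd K T) {f : E → E}
    (hm : ∀ q ∈ TD, f q ∈ TD) :
    kn K (fun q => T (f q)) = (K \ T '' TD) ∪ T '' ((TS \ f '' TD) ∪ f '' TF) := by
  unfold kn
  ext x
  constructor
  · rintro (⟨hx, hx'⟩ | ⟨q, hq, rfl⟩)
    · by_cases h : x ∈ T '' TD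
      · right
        have h1 : x ∈ T '' TS := by rw [← hT.hit]; exact ⟨hx, h⟩
        obtain ⟨p, hp, rfl⟩ := h1
        refine ⟨p, Or.inl ⟨hp, ?_⟩, rfl⟩
        rintro ⟨q, hq, rfl⟩
        exact hx' ⟨q, hq, rfl⟩
      · exact Or.inl ⟨hx, h⟩
    · exact Or.inr ⟨f q, Or.inr ⟨q, hq, rfl⟩, rfl⟩
  · rintro (⟨hx, hx'⟩ | ⟨p, (⟨hp, hp'⟩ | ⟨q, hq, rfl⟩), rfl⟩)
    · left
      refine ⟨hx, ?_⟩
      rintro ⟨q, hq, rfl⟩
      exact hx' ⟨f q, hm q hq, rfl⟩
    · left
      have h1 : T p ∈ K ∩ T '' TD := by rw [hT.hit]; exact ⟨p, hp, rfl⟩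
      refine ⟨h1.1, ?_⟩
      rintro ⟨q, hq, hqe⟩
      exact hp' ⟨q, hq, hT.cht.inj (hm q hq) hp.1 hqe⟩
    · exact Or.inr ⟨q, hq, rfl⟩

section
variable {N : Type*} [TopologicalSpace N] [ChartedSpace E3 N] [T2Space N]

theorem kn_of_leqO {K : Set N} {T : E → N} (hT : Chd K T) {S : Set E} (h : LEqO TD TF S) :
    LEqN (kn K T) ((K \ T '' TD) ∪ T '' S) :=
  leqN_of_leqO hT.cht disjoint_sdiff_left thn_TF_sub h

theorem chd_repar {K : Set N} {T : E → N} (hT : Chd K T) {e : ℝ} (h0 : 0 < e) (h1 : e ≤ 1) {ξ : ℝ → ℝ} (hξ : ContDiff ℝ ∞ ξ)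
    (hd : ∀ x, 0 < deriv ξ x) (hξ0 : ξ 0 = 0) (hξ1 : ξ 1 = 1) (hr : -(1 / 4) ≤ ξ (-(1 / 4))) (hr' : ξ (5 / 4) ≤ 5 / 4) :
    Chd K (fun q => T ((e : ℂ) * q.1, ξ q.2)) ∧ LEqN (kn K T) (kn K fun q => T ((e : ℂ) * q.1, ξ q.2)) := by
  have hmono : StrictMono ξ := strictMono_of_deriv_pos hd
  have hre : ∀ w : ℂ, ((e : ℂ) * w).re = e * w.re := fun w => by simp
  have him : ∀ w : ℂ, ((e : ℂ) * w).im = e * w.im := fun w => by simp
  have hnorm : ∀ w : ℂ, ‖(e : ℂ) * w‖ = e * ‖w‖ := fun w => by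
    rw [norm_mul, Complex.norm_real, Real.norm_of_nonneg h0.le]
  have hec : (e : ℂ) ≠ 0 := by exact_mod_cast h0.ne'
  set f : E → E := fun q => ((e : ℂ) * q.1, ξ q.2) with hfdef
  have hf1 : ∀ q, (f q).1 = (e : ℂ) * q.1 := fun q => rfl
  have hf2 : ∀ q, (f q).2 = ξ q.2 := fun q => rfl
  have hfs : ContDiff ℝ ∞ f := (contDiff_const.mul contDiff_fst).prodMk (hξ.comp contDiff_snd)
  have hm : ∀ q ∈ TD, f q ∈ TD := by
    rintro q ⟨h1', h2, h3⟩
    refine ⟨?_, ?_, ?_⟩
    · rw [hf1, hnorm]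
      nlinarith [norm_nonneg q.1]
    · rw [hf2]; exact lt_of_le_of_lt hr (hmono h2)
    · rw [hf2]; exact lt_of_lt_of_le (hmono h3) hr'
  have hi : Function.Injective f := by
    intro p q hpq
    have h1 : (e : ℂ) * p.1 = (e : ℂ) * q.1 := congrArg Prod.fst hpq
    have h2 : ξ p.2 = ξ q.2 := congrArg Prod.snd hpq
    exact Prod.ext (mul_left_cancel₀ hec h1) (hmono.injective h2)
  have hx0 : ∀ x, ξ x = 0 ↔ x = 0 := fun x => by
    constructor
    · intro h; exact hmono.injective (h.trans hξ0.symm)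
    · rintro rfl; exact hξ0
  have hx1 : ∀ x, ξ x = 1 ↔ x = 1 := fun x => by
    constructor
    · intro h; exact hmono.injective (h.trans hξ1.symm)
    · rintro rfl; exact hξ1
  have he0 : ∀ y : ℝ, e * y = 0 ↔ y = 0 := fun y => by simp [h0.ne']
  have hS : ∀ q ∈ TD, f q ∈ TS ↔ q ∈ TS := by
    intro q hq
    simp only [TS, mem_ofPred_eq, hf1, hf2, hre, him, hx0, hx1, he0, hq, hm q hq]
  have hder : ∀ q ∈ TD, Function.Bijective (fderiv ℝ f q) := by
    intro q _
    have hdf : HasFDerivAt f (((e : ℂ) • ContinuousLinearMap.fst ℝ ℂ ℝ).prod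
        ((deriv ξ q.2) • ContinuousLinearMap.snd ℝ ℂ ℝ)) q := by
      refine HasFDerivAt.prodMk ?_ ?_
      · have := (hasFDerivAt_fst (𝕜 := ℝ) (p := q)).const_mul (e : ℂ)
        exact this
      · have h2 : HasDerivAt ξ (deriv ξ q.2) q.2 :=
          ((hξ.differentiable (by simp)) q.2).hasDerivAt
        have h3 := h2.comp_hasFDerivAt q (hasFDerivAt_snd (𝕜 := ℝ) (p := q))
        exact h3
    rw [hdf.fderiv]
    constructor
    · intro u v huv
      have h1 : (e : ℂ) * u.1 = (e : ℂ) * v.1 := by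
        have := congrArg Prod.fst huv
        simpa using this
      have h2 : deriv ξ q.2 * u.2 = deriv ξ q.2 * v.2 := by
        have := congrArg Prod.snd huv
        simpa using this
      exact Prod.ext (mul_left_cancel₀ hec h1) (mul_left_cancel₀ (hd q.2).ne' h2)
    · intro v
      refine ⟨((e : ℂ)⁻¹ * v.1, (deriv ξ q.2)⁻¹ * v.2), ?_⟩
      refine Prod.ext ?_ ?_
      · simp [hec]
      · simp [(hd q.2).ne']
  have hc : Chd K (fun q => T (f q)) :=
    thn_chd hT (fun q _ => hfs.contDiffAt) hder hi.injOn hm hS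
  refine ⟨hc, ?_⟩
  have hkn := thn_kn hT hm
  set h : ℝ → ℝ := fun u => ξ (9 / 8 * bmp (u / e)) with hh
  have hb0 : ∀ y, 0 ≤ 9 / 8 * bmp y := fun y => by have := KNT.bmp_nonneg y; linarith
  have hb1 : ∀ y, 9 / 8 * bmp y ≤ 9 / 8 := fun y => by have := KNT.bmp_le_one y; linarith
  have hz : ∀ u, e ≤ |u| → h u = 0 := by
    intro u hu
    have : bmp (u / e) = 0 := KNT.bmp_zero (by
      rw [abs_div, abs_of_pos h0, le_div_iff₀ h0]
      linarith)
    simp only [hh, this, mul_zero, hξ0]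
  have hset : (TS \ f '' TD) ∪ f '' TF = TG h := by
    -- points of the disc of radius `e`
    have hmemD : ∀ w : ℂ, w.im = 0 → |w.re| < e → ∀ x : ℝ, -(1 / 4) < x → x < 5 / 4 → (w, ξ x) ∈ f '' TD := by
      intro w hw hw' x hx hx'
      refine ⟨((e : ℂ)⁻¹ * w, x), ⟨?_, hx, hx'⟩, ?_⟩
      · have hwr : w = (w.re : ℂ) := Complex.ext rfl (by simpa using hw)
        rw [norm_mul, norm_inv, Complex.norm_real, Real.norm_of_nonneg h0.le, hwr, Complex.norm_real,
          Real.norm_eq_abs, inv_mul_lt_iff₀ h0]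
        simpa using hw'
      · refine Prod.ext ?_ rfl
        rw [hf1]
        simp [hec]
    ext q
    constructor
    · rintro (⟨hq, hq'⟩ | ⟨p, hp, rfl⟩)
      · rcases hq with ⟨hqD, (⟨hq2, hqi⟩ | ⟨hq2, hqr⟩)⟩
        · left
          refine ⟨hqD, hqi, ?_⟩
          by_cases hlt : |q.1.re| < e
          · exfalso
            apply hq'
            have := hmemD q.1 hqi hlt 0 (by norm_num) (by norm_num)
            rw [hξ0] at this
            have hqe : q = (q.1, (0 : ℝ)) := Prod.ext rfl hq2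
            rw [hqe]; exact this
          · rw [hz _ (not_lt.1 hlt), hq2]
        · exact Or.inr ⟨hqD, hq2, hqr⟩
      · rcases hp with ⟨hpD, (⟨hpi, hp2⟩ | ⟨hp2, hpr⟩)⟩
        · left
          refine ⟨hm p hpD, ?_, ?_⟩
          · rw [hf1, him, hpi, mul_zero]
          · rw [hf1, hf2, hre, hh]
            simp only
            rw [mul_div_cancel_left₀ _ h0.ne', ← hp2]
        · right
          refine ⟨hm p hpD, ?_, ?_⟩
          · rw [hf2, hp2, hξ1]
          · rw [hf1, hre, hpr, mul_zero]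
    · intro hq
      by_cases hqf : q ∈ f '' TD
      · right
        obtain ⟨p, hp, rfl⟩ := hqf
        refine ⟨p, ⟨hp, ?_⟩, rfl⟩
        rcases hq with ⟨_, hqi, hq2⟩ | ⟨_, hq2, hqr⟩
        · left
          rw [hf1, him, he0] at hqi
          refine ⟨hqi, ?_⟩
          rw [hf1, hf2, hre, hh] at hq2
          simp only at hq2
          rw [mul_div_cancel_left₀ _ h0.ne'] at hq2
          exact hmono.injective hq2
        · right
          rw [hf2, hx1] at hq2
          rw [hf1, hre, he0] at hqr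
          exact ⟨hq2, hqr⟩
      · left
        refine ⟨?_, hqf⟩
        rcases hq with ⟨hqD, hqi, hq2⟩ | ⟨hqD, hq2, hqr⟩
        · refine ⟨hqD, Or.inl ⟨?_, hqi⟩⟩
          by_cases hlt : |q.1.re| < e
          · exfalso
            apply hqf
            have := hmemD q.1 hqi hlt (9 / 8 * bmp (q.1.re / e)) (by linarith [hb0 (q.1.re / e)])
              (by linarith [hb1 (q.1.re / e)])
            have hqe : q = (q.1, ξ (9 / 8 * bmp (q.1.re / e))) := Prod.ext rfl hq2
            rw [hqe]; exact this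
          · rw [hq2, hz _ (not_lt.1 hlt)]
        · exact ⟨hqD, Or.inr ⟨hq2, hqr⟩⟩
  have hleq : LEqO TD TF (TG h) := by
    rw [TF_eq]
    have hhs : ContDiff ℝ ∞ h :=
      hξ.comp (contDiff_const.mul (KNT.bmp_smooth.comp (contDiff_id.div_const e)))
    refine leqO_graph₂ (contDiff_const.mul KNT.bmp_smooth) hhs ?_ ?_ ?_ ?_
    · intro u hu
      refine ⟨?_, ?_⟩
      · rw [KNT.bmp_zero (by linarith), mul_zero]
      · have : bmp (u / e) = 0 := KNT.bmp_zero (by
          rw [abs_div, abs_of_pos h0, le_div_iff₀ h0]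
          nlinarith)
        simp only [hh, this, mul_zero, hξ0]
    · intro u
      have := hb0 u
      have := hb1 u
      constructor <;> linarith
    · intro u
      have e1 := hb0 (u / e)
      have e2 := hb1 (u / e)
      constructor
      · have : ξ 0 ≤ ξ (9 / 8 * bmp (u / e)) := hmono.monotone e1
        rw [hξ0] at this
        simp only [hh]; linarith
      · have : ξ (9 / 8 * bmp (u / e)) < ξ (5 / 4) := hmono (by linarith)
        simp only [hh]; linarith
    · left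
      have hb : bmp 0 = 1 := KNT.bmp_one (by norm_num)
      constructor
      · rw [hb]; norm_num
      · simp only [hh, zero_div, hb]
        have : ξ 1 < ξ (9 / 8 * 1) := hmono (by norm_num)
        rw [hξ1] at this
        exact this
  have := kn_of_leqO hT hleq
  rw [← hset, ← hkn] at this
  exact this

theorem chd_thin {K : Set N} {T : E → N} (hT : Chd K T) {e : ℝ} (h0 : 0 < e) (h1 : e ≤ 1) :
    Chd K (fun q => T ((e : ℂ) * q.1, q.2)) ∧ LEqN (kn K T) (kn K fun q => T ((e : ℂ) * q.1, q.2)) :=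
  chd_repar hT h0 h1 (ξ := fun x => x) contDiff_id (fun x => by simp) rfl rfl le_rfl le_rfl

theorem chd_twist {K : Set N} {T : E → N} (hT : Chd K T) (m : ℤ) :
    Chd K (fun q => T (rt m q)) ∧ LEqN (kn K T) (kn K fun q => T (rt m q)) := by
  have hm : ∀ q ∈ TD, rt m q ∈ TD := fun q hq => (rt_TD m q).2 hq
  have hS : ∀ q ∈ TD, rt m q ∈ TS ↔ q ∈ TS := by
    intro q _
    constructor
    · intro h
      rw [← rt_TS m] at h
      obtain ⟨p, hp, hpq⟩ := h
      exact (rt_bij m).injective hpq ▸ hp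
    · intro h
      rw [← rt_TS m]
      exact mem_image_of_mem _ h
  refine ⟨thn_chd hT (fun q _ => (rt_smooth m).contDiffAt) (fun q _ => rt_fderiv m q) (rt_bij m).injective.injOn hm hS, ?_⟩
  have hTD : rt m '' TD = TD := by
    ext q
    constructor
    · rintro ⟨p, hp, rfl⟩; exact hm p hp
    · intro hq
      obtain ⟨p, rfl⟩ := (rt_bij m).surjective q
      exact ⟨p, (rt_TD m p).1 hq, rfl⟩
  have hkn := thn_kn hT hm
  have hset : (TS \ rt m '' TD) ∪ rt m '' TF = rt m '' TF := by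
    rw [hTD, sdiff_eq_empty.2 thn_TS_sub, empty_union]
  rw [hkn, hset]
  exact kn_of_leqO hT (half_turn m)

theorem chd_flip {K : Set N} {T : E → N} (hT : Chd K T) {a b : ℝ} (ha : a = 1 ∨ a = -1) (hb : b = 1 ∨ b = -1) :
    Chd K (fun q => T ((⟨a * q.1.re, b * q.1.im⟩ : ℂ), q.2)) ∧
      kn K (fun q => T ((⟨a * q.1.re, b * q.1.im⟩ : ℂ), q.2)) = kn K T := by
  have ha2 : a * a = 1 := by rcases ha with rfl | rfl <;> norm_num
  have hb2 : b * b = 1 := by rcases hb with rfl | rfl <;> norm_num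
  have ha0 : a ≠ 0 := by rcases ha with rfl | rfl <;> norm_num
  have hb0 : b ≠ 0 := by rcases hb with rfl | rfl <;> norm_num
  set f : E → E := fun q => ((⟨a * q.1.re, b * q.1.im⟩ : ℂ), q.2) with hf
  have hff : ∀ q, f (f q) = q := by
    intro q
    refine Prod.ext (Complex.ext ?_ ?_) rfl
    · change a * (a * q.1.re) = _
      rw [← mul_assoc, ha2, one_mul]
    · change b * (b * q.1.im) = _
      rw [← mul_assoc, hb2, one_mul]
  have hn : ∀ q, ‖(f q).1‖ = ‖q.1‖ := by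
    intro q
    change ‖(⟨a * q.1.re, b * q.1.im⟩ : ℂ)‖ = _
    rw [Complex.norm_def, Complex.norm_def, Complex.normSq_apply, Complex.normSq_apply]
    congr 1
    change a * q.1.re * (a * q.1.re) + b * q.1.im * (b * q.1.im) = _
    linear_combination (q.1.re * q.1.re) * ha2 + (q.1.im * q.1.im) * hb2
  have hD : ∀ q, f q ∈ TD ↔ q ∈ TD := by
    intro q
    simp only [TD, mem_ofPred_eq, hn]
    exact Iff.rfl
  have hS : ∀ q, f q ∈ TS ↔ q ∈ TS := by
    intro q
    have h1 : (f q).1.re = a * q.1.re := rfl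
    have h2 : (f q).1.im = b * q.1.im := rfl
    have h3 : (f q).2 = q.2 := rfl
    simp only [TS, mem_ofPred_eq, hD, h1, h2, h3, mul_eq_zero, ha0, hb0, false_or]
  have hbm : ∀ y, bmp (a * y) = bmp y := by
    intro y
    unfold bmp
    rw [mul_pow, pow_two a, ha2, one_mul]
  have hF : ∀ q, f q ∈ TF ↔ q ∈ TF := by
    intro q
    have h1 : (f q).1.re = a * q.1.re := rfl
    have h2 : (f q).1.im = b * q.1.im := rfl
    have h3 : (f q).2 = q.2 := rfl
    simp only [TF, mem_ofPred_eq, hD, h1, h2, h3, mul_eq_zero, ha0, hb0, false_or, hbm]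
  have himg : ∀ S : Set E, (∀ q, f q ∈ S ↔ q ∈ S) → f '' S = S := by
    intro S hS
    ext q
    constructor
    · rintro ⟨p, hp, rfl⟩; exact (hS p).2 hp
    · intro hq
      exact ⟨f q, (hS q).2 hq, hff q⟩
  have hL : ∃ L : E →L[ℝ] E, ∀ q, f q = L q := by
    refine ⟨((((a • Complex.reCLM).smulRight (1 : ℂ)) + ((b • Complex.imCLM).smulRight Complex.I)).comp
      (ContinuousLinearMap.fst ℝ ℂ ℝ)).prod (ContinuousLinearMap.snd ℝ ℂ ℝ), ?_⟩
    intro q
    refine Prod.ext (Complex.ext ?_ ?_) ?_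
    · change a * q.1.re = _
      simp
    · change b * q.1.im = _
      simp
    · rfl
  obtain ⟨L, hL⟩ := hL
  have hfL : f = L := funext hL
  have hfs : ContDiff ℝ ∞ f := by rw [hfL]; exact L.contDiff
  have hbij : Function.Bijective f := by
    refine ⟨fun p q h => ?_, fun q => ⟨f q, hff q⟩⟩
    rw [← hff p, ← hff q, h]
  have hder : ∀ q ∈ TD, Function.Bijective (fderiv ℝ f q) := by
    intro q _
    have : fderiv ℝ f q = L := by rw [hfL]; exact L.fderiv
    rw [this, ← hfL]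
    exact hbij
  refine ⟨thn_chd hT (fun q _ => hfs.contDiffAt) hder hbij.injective.injOn (fun q hq => (hD q).2 hq) (fun q _ => hS q), ?_⟩
  have hkn := thn_kn hT (fun q hq => (hD q).2 hq)
  rw [hkn, himg TD hD, himg TF hF, sdiff_eq_empty.2 thn_TS_sub, empty_union]
  rfl

theorem chd_push {K : Set N} {T : E → N} (hT : Chd K T) {O : Set N} {V : ℝ → Equiv.Perm N} (hV : Push O V) (s : ℝ) :
    Chd (V s '' K) (fun q => V s (T q)) ∧ kn (V s '' K) (fun q => V s (T q)) = V s '' kn K T := by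
  have himg : ∀ S : Set E, (fun q => V s (T q)) '' S = V s '' (T '' S) := fun S => by
    rw [image_image]
  refine ⟨⟨hT.cht.push hV s, ?_⟩, ?_⟩
  · rw [himg, himg, ← hT.hit, image_inter (V s).injective]
  · unfold kn
    rw [himg, himg, image_union, image_sdiff (V s).injective]

end

end Pool.Agent.NHE
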