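import Pool.Agent.NHE.GeP
import Pool.Agent.NHE.Thn
import Pool.Agent.NHE.KCh
import Pool.Agent.NHE.Pth
import Pool.Agent.NHP.Tra

/-!
# NHE/Std: STANDARD ENDS (difficulty 4, assembly)

(1) `p - p'` is not an integer (`T` is injective).  Foot: `g` inverse of the chart `footT κ p 1`; `ψ q = g (T q)` near `0`: preserves the line (`T (u, 0) ∈ core κ`, `foot_core`).  `germ_match_line` with `δ` small, transported by `footT κ p 1`: push `U`, `U s '' core κ = core κ` (`PL`, `foot_core`), `U s (κ (p, 0)) = κ (p, 0)`, support in a small ball around `κ (p, 0)`.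
`U 1 (T q) = footT κ p 1 (sgE a b q)` near `0`.  Replace `T` by `T₁ q = U 1 (T (sgE a b q))` (`chd_push`, `chd_flip`): `T₁ q = footT κ p 1 q` near `0`.  The core `T₁ (0, ·)` is homotopic to `T (0, ·)` rel ends (`U s`).
(2) Tip: `τ (w, x) = tipT κ p' 1 1 (w, 1 + x)`, its line is `re w = 0, x = 0`; with `j (w, x) = (i w, x)` the germ `ψ' q = j⁻¹ τ⁻¹ T₁ (j q + (0, 1))` preserves the line `(u, 0)`.  `germ_match_line`: `U'`, signs: `U' 1 (T₁ (w, 1 + x)) = τ (j sgE a' b' j⁻¹ (w, x)) = tipT κ p' 1 1 (⟨b' re w, a' im w⟩, 1 + x)`.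
`T₂ = U' 1 ∘ T₁`.  If `b' = 1`: `T₃ = T₂`, `σ = a'` (`tipT κ p' 1 1 (⟨re w, a' im w⟩, x) = tipT κ p' 1 a' (w, x)`).  If `b' = -1`: `T₃ = T₂ ∘ rt 1` (`chd_twist`; `rt 1 (w, x) = (-w, x)` for `x ≥ 3/4`), `σ = -a'`.  Then `T₃ q = footT κ p 1 q` near `0`, `T₃ q = tipT κ p' 1 σ q` near `(0, 1)`, on the balls of radius `ρ`.
(3) `ξ x = (1 - s x) ε x + s x (1 - ε (1 - x))`, `s = stp (1/4) (3/4)`: derivative `ε + s' (1 - ε) > 0`; `T' q = T₃ ((ε/8) q.1, ξ q.2)` for `ε < ρ`: `StdR κ p p' ε σ (1/8) T'` (`T₃ ((ε/8) w, ε x) = footT κ p ε (w/8, x)`), `chd_repar`.  `T' (0, ·)` is homotopic to `T₃ (0, ·)` rel ends.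
-/

open scoped Manifold ContDiff Topology
open Set Filter
open Pool.Agent.CSG (stp)
open Pool.Agent.RSG (E3 ex Thick)
open Pool.Agent.KNT (Dom Str Str2 BalC bmp)
open Pool.Agent.NHP

namespace Pool.Agent.NHE

section
variable {N : Type*} [TopologicalSpace N] [ChartedSpace E3 N] [IsManifold (𝓡 3) ∞ N] [T2Space N]

omit [IsManifold (𝓡 3) ∞ N] [T2Space N] in
/-- transition between two charts with the same centre -/
theorem Std_trans {O O' : Set E} {β G : E → N} (hβ : Cht O β) (hG : Cht O' G) (h0 : (0 : E) ∈ O) (h0' : (0 : E) ∈ O')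
    (he : G 0 = β 0) : ∃ ψ : E → E, ψ 0 = 0 ∧ (∀ᶠ q in 𝓝 (0 : E), ContDiffAt ℝ ∞ ψ q) ∧
      Function.Bijective (fderiv ℝ ψ 0) ∧ ∀ᶠ q in 𝓝 (0 : E), ψ q ∈ O ∧ β (ψ q) = G q := by
  obtain ⟨g, hg, hgs⟩ := hβ.inv
  obtain ⟨h, hh, hhs⟩ := hG.inv
  have hGc : ContinuousAt G 0 := (hG.loc 0 h0').contMDiffAt.continuousAt
  have himg : IsOpen (β '' O) := hβ.img hβ.opn (Subset.refl _)
  have hmem : β '' O ∈ 𝓝 (G 0) := by
    apply himg.mem_nhds
    rw [he]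
    exact ⟨0, h0, rfl⟩
  have hnear : ∀ᶠ q in 𝓝 (0 : E), q ∈ O' ∧ G q ∈ β '' O := by
    filter_upwards [hG.opn.mem_nhds h0', hGc hmem] with q h1 h2
    exact ⟨h1, h2⟩
  have hsm : ∀ q : E, q ∈ O' → G q ∈ β '' O → ContDiffAt ℝ ∞ (fun q => g (G q)) q := by
    intro q h1 h2
    have h3 : ContMDiffAt 𝓘(ℝ, ℂ × ℝ) (𝓡 3) ∞ G q := (hG.loc q h1).contMDiffAt
    exact contMDiffAt_iff_contDiffAt.mp ((hgs _ h2).comp q h3)
  have h00 : g (G 0) = 0 := by rw [he]; exact hg 0 h0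
  have hφ : ContDiffAt ℝ ∞ (fun q => h (β q)) (0 : E) := by
    have h3 : ContMDiffAt 𝓘(ℝ, ℂ × ℝ) (𝓡 3) ∞ β 0 := (hβ.loc 0 h0).contMDiffAt
    have h4 : ContMDiffAt (𝓡 3) 𝓘(ℝ, ℂ × ℝ) ∞ h (β 0) := hhs _ ⟨0, h0', he⟩
    exact contMDiffAt_iff_contDiffAt.mp (h4.comp (0 : E) h3)
  have hnear2 : ∀ᶠ q in 𝓝 (0 : E), g (G q) ∈ O ∧ β (g (G q)) = G q := by
    filter_upwards [hnear] with q hq
    obtain ⟨q', hq', he'⟩ := hq.2
    rw [← he', hg q' hq']
    exact ⟨hq', rfl⟩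
  refine ⟨fun q => g (G q), h00, ?_, ?_, hnear2⟩
  · filter_upwards [hnear] with q hq using hsm q hq.1 hq.2
  · have h1 : (fun q : E => h (β (g (G q)))) =ᶠ[𝓝 0] id := by
      filter_upwards [hnear, hnear2] with q hq hq'
      show h (β (g (G q))) = q
      rw [hq'.2, hh q hq.1]
    have h2 : HasFDerivAt (fun q : E => h (β q)) (fderiv ℝ (fun q : E => h (β q)) 0) ((fun q : E => g (G q)) 0) := by
      show HasFDerivAt _ _ (g (G 0))
      rw [h00]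
      exact (hφ.differentiableAt (by norm_num)).hasFDerivAt
    have h3 : HasFDerivAt (fun q : E => g (G q)) (fderiv ℝ (fun q : E => g (G q)) 0) 0 :=
      ((hsm 0 h0' (by rw [he]; exact ⟨0, h0, rfl⟩)).differentiableAt (by norm_num)).hasFDerivAt
    have h4 := h2.comp (0 : E) h3
    have h5 : HasFDerivAt (fun q : E => h (β (g (G q)))) (ContinuousLinearMap.id ℝ E) 0 :=
      (hasFDerivAt_id (0 : E)).congr_of_eventuallyEq h1
    have h6 := h4.unique h5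
    have h7 : Function.Injective (fderiv ℝ (fun q : E => g (G q)) 0) := by
      intro v w hvw
      have h8 : ∀ v, (fderiv ℝ (fun q : E => h (β q)) 0) ((fderiv ℝ (fun q : E => g (G q)) 0) v) = v := by
        intro v
        have := congrArg (fun L : E →L[ℝ] E => L v) h6
        exact this
      rw [← h8 v, ← h8 w, hvw]
    refine ⟨h7, ?_⟩
    exact (LinearMap.injective_iff_surjective (f := ((fderiv ℝ (fun q : E => g (G q)) 0 : E →L[ℝ] E) : E →ₗ[ℝ] E))).1 h7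

omit [TopologicalSpace N] [ChartedSpace E3 N] [IsManifold (𝓡 3) ∞ N] [T2Space N] in
theorem Std_foot_zero (κ : ℝ × ℂ → N) (p : ℝ) : footT κ p 1 0 = κ (p, 0) := by
  unfold footT
  have h1 : (p + 1 * (0 : E).1.re) = p := by simp
  have h2 : ((1 : ℝ) : ℂ) * (⟨(0 : E).2, (0 : E).1.im⟩ : ℂ) = 0 := by
    apply Complex.ext <;> simp
  rw [h1, h2]

theorem Std_line (q : E) (h1 : q.2 = 0) (h2 : q.1.im = 0) : q = ((q.1.re : ℂ), 0) := by
  refine Prod.ext ?_ h1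
  apply Complex.ext
  · simp
  · simp [h2]

/-- a push which preserves the line preserves the knot -/
theorem Std_core {κ : ℝ × ℂ → N} (hκ : Thick κ) {p δ : ℝ} (hδ : 0 < δ) (hδ' : δ ≤ 1 / 2) {U : ℝ → Equiv.Perm E}
    (hU : PushE (Bl δ) U) (hPL : ∀ s, PL (U s)) {V : ℝ → Equiv.Perm N}
    (hV : ∀ s, ∀ q ∈ Bl δ, V s (footT κ p 1 q) = footT κ p 1 (U s q))
    (hV' : ∀ s, ∀ x, x ∉ footT κ p 1 '' Bl δ → V s x = x) (s : ℝ) : V s '' core κ = core κ := by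
  have hnorm : ∀ q ∈ Bl δ, ‖(⟨q.2, q.1.im⟩ : ℂ)‖ < 1 := fun q hq => (Bl_sub hδ hδ' hq).2
  have hline : ∀ u : ℝ, footT κ p 1 ((u : ℂ), 0) ∈ core κ := by
    intro u
    have h3 : (⟨(((u : ℂ), (0 : ℝ)) : E).2, (((u : ℂ), (0 : ℝ)) : E).1.im⟩ : ℂ) = 0 := by
      apply Complex.ext <;> simp
    have h4 : ‖(⟨(((u : ℂ), (0 : ℝ)) : E).2, (((u : ℂ), (0 : ℝ)) : E).1.im⟩ : ℂ)‖ < 1 := by
      rw [h3, norm_zero]
      exact one_pos
    rw [foot_core hκ p h4]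
    exact ⟨rfl, Complex.ofReal_im u⟩
  have h1 : ∀ x ∈ core κ, V s x ∈ core κ := by
    intro x hx
    by_cases hx' : x ∈ footT κ p 1 '' Bl δ
    · obtain ⟨q, hq, rfl⟩ := hx'
      obtain ⟨h2, h3⟩ := (foot_core hκ p (hnorm q hq)).1 hx
      rw [hV s q hq, Std_line q h2 h3]
      obtain ⟨u', hu'⟩ := (hPL s).1 q.1.re
      rw [hu']
      exact hline u'
    · rw [hV' s x hx']
      exact hx
  have h2 : ∀ x ∈ core κ, (V s).symm x ∈ core κ := by
    intro x hx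
    by_cases hx' : x ∈ footT κ p 1 '' Bl δ
    · obtain ⟨q, hq, rfl⟩ := hx'
      obtain ⟨h2, h3⟩ := (foot_core hκ p (hnorm q hq)).1 hx
      have h4 : (U s).symm q ∈ Bl δ := hU.inv.mem s hq
      have h5 : (V s).symm (footT κ p 1 q) = footT κ p 1 ((U s).symm q) := by
        rw [Equiv.symm_apply_eq, hV s _ h4, Equiv.apply_symm_apply]
      rw [h5, Std_line q h2 h3]
      obtain ⟨u', hu'⟩ := (hPL s).2 q.1.re
      rw [hu']
      exact hline u'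
    · have h5 : (V s).symm x = x := by
        rw [Equiv.symm_apply_eq, hV' s x hx']
      rw [h5]
      exact hx
  apply Subset.antisymm
  · rintro x ⟨y, hy, rfl⟩
    exact h1 y hy
  · intro x hx
    exact ⟨(V s).symm x, h2 x hx, Equiv.apply_symm_apply _ _⟩

/-- matching of a germ with the chart of the thick knot -/
theorem Std_germ {κ : ℝ × ℂ → N} (hκ : Thick κ) {p δ : ℝ} (hδ : 0 < δ) (hδ' : δ ≤ 1 / 2) {O' : Set E} {G : E → N}
    (hG : Cht O' G) (h0' : (0 : E) ∈ O') (he : G 0 = κ (p, 0)) (hl : ∀ᶠ u : ℝ in 𝓝 0, G ((u : ℂ), 0) ∈ core κ) :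
    ∃ (V : ℝ → Equiv.Perm N) (a b : ℝ), Push (eb κ p δ) V ∧ (∀ s, V s '' core κ = core κ) ∧
      (∀ s, V s (κ (p, 0)) = κ (p, 0)) ∧ (a = 1 ∨ a = -1) ∧ (b = 1 ∨ b = -1) ∧
      ∀ᶠ q in 𝓝 (0 : E), V 1 (G q) = footT κ p 1 (sgE a b q) := by
  have hβ : Cht (Bl δ) (footT κ p 1) := (foot_cht hκ p).mono (isOpen_Bl δ) (Bl_sub hδ hδ')
  have hβ0 := Std_foot_zero κ p
  have h00 := zero_mem_Bl hδ
  obtain ⟨ψ, hψ0, hψs, hψb, hψ⟩ := Std_trans hβ hG h00 h0' (by rw [he, hβ0])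
  have hcu : Tendsto (fun u : ℝ => (((u : ℂ), 0) : E)) (𝓝 0) (𝓝 0) := by
    have h1 : Continuous fun u : ℝ => (((u : ℂ), 0) : E) := by fun_prop
    have h2 := h1.tendsto 0
    have h3 : ((((0 : ℝ) : ℂ), 0) : E) = 0 := Prod.ext Complex.ofReal_zero rfl
    rwa [h3] at h2
  have hl' : ∀ᶠ u : ℝ in 𝓝 0, ∃ u' : ℝ, ψ ((u : ℂ), 0) = ((u' : ℂ), 0) := by
    filter_upwards [hl, hcu.eventually hψ] with u hu hu'
    have h1 : footT κ p 1 (ψ ((u : ℂ), 0)) ∈ core κ := by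
      rw [hu'.2]
      exact hu
    obtain ⟨h2, h3⟩ := (foot_core hκ p (Bl_sub hδ hδ' hu'.1).2).1 h1
    exact ⟨_, Std_line _ h2 h3⟩
  obtain ⟨U, a, b, hU, hU0, hPL, ha, hb, ρ, hρ, hUρ⟩ := germ_match_line hψ0 hψs hψb hl' hδ
  obtain ⟨V, hV, hV1, hV2⟩ := push_chart hβ hU
  refine ⟨V, a, b, ?_, Std_core hκ hδ hδ' hU hPL hV1 hV2, ?_, ha, hb, ?_⟩
  · rw [eb_eq]
    exact hV
  · intro s
    rw [← hβ0, hV1 s 0 h00, hU0]
  · filter_upwards [hψ, (isOpen_Bl ρ).mem_nhds (zero_mem_Bl hρ)] with q hq hq'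
    rw [← hq.2, hV1 1 _ hq.1, hUρ q hq']

omit [ChartedSpace E3 N] [IsManifold (𝓡 3) ∞ N] [T2Space N] in
theorem Std_rep {f : ℝ → N} {Y : Set N} {y y' : Y} (c : Path y y') : RepI f 0 1 c ↔ Rep f c := by
  unfold RepI
  simp

/-- homotopies with fixed ends -/
theorem Std_hom {H : ℝ × ℝ → N} (hc : ContinuousOn H (Icc 0 1 ×ˢ Icc 0 1)) {y y' : (univ : Set N)}
    (h0 : ∀ s ∈ Icc (0 : ℝ) 1, H (s, 0) = H (0, 0)) (h1 : ∀ s ∈ Icc (0 : ℝ) 1, H (s, 1) = H (0, 1)) {c : Path y y'}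
    (h : RepI (fun x => H (0, x)) 0 1 c) : RepI (fun x => H (1, x)) 0 1 c := by
  obtain ⟨-, -, hy, hy'⟩ := repI_cont h
  have hy : H (0, 0) = y := hy
  have hy' : H (0, 1) = y' := hy'
  have hu : uIcc (0 : ℝ) 1 = Icc 0 1 := uIcc_of_le zero_le_one
  have h01 : (1 : ℝ) ∈ Icc (0 : ℝ) 1 := ⟨zero_le_one, le_refl _⟩
  obtain ⟨c₁, hc₁⟩ : ∃ c₁ : Path y y', RepI (fun x => H (1, x)) 0 1 c₁ := by
    apply exists_repI
    · rw [hu]
      apply hc.comp (by fun_prop)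
      intro x hx
      exact ⟨h01, hx⟩
    · intro t _
      trivial
    · show H (1, 0) = y
      rw [h0 1 h01, hy]
    · show H (1, 1) = y'
      rw [h1 1 h01, hy']
  have g₀ : RepI (fun s => H (s, 0)) 0 1 (Path.refl y) := by
    apply repI_const
    rw [hu]
    intro t ht
    show H (t, 0) = y
    rw [h0 t ht, hy]
  have g₁ : RepI (fun s => H (s, 1)) 0 1 (Path.refl y') := by
    apply repI_const
    rw [hu]
    intro t ht
    show H (t, 1) = y'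
    rw [h1 t ht, hy']
  have hom := rep_square hc (fun q _ => mem_univ _) ((Std_rep c).1 h) ((Std_rep c₁).1 hc₁)
    ((Std_rep _).1 g₀) ((Std_rep _).1 g₁)
  have h2 : c₁.Homotopic c :=
    ((Path.Homotopic.refl_trans c₁).symm.trans hom).trans (Path.Homotopic.trans_refl c)
  exact (repI_iff hc₁).2 h2

theorem Std_mem_TD {x : ℝ} (h : x ∈ Icc (0 : ℝ) 1) : ((0, x) : E) ∈ TD := by
  refine ⟨?_, ?_, ?_⟩
  · simp
  · show -(1 / 4) < x
    linarith [h.1]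
  · show x < 5 / 4
    linarith [h.2]

/-- a push applied to a chord -/
theorem Std_push {κ : ℝ × ℂ → N} {T : E → N} (hT : Chd (core κ) T) {O : Set N} {V : ℝ → Equiv.Perm N} (hV : Push O V)
    (hK : ∀ s, V s '' core κ = core κ) (h0 : ∀ s, V s (T (0, 0)) = T (0, 0)) (h1 : ∀ s, V s (T (0, 1)) = T (0, 1)) :
    Chd (core κ) (fun q => V 1 (T q)) ∧ LEqN (kn (core κ) T) (kn (core κ) fun q => V 1 (T q)) ∧
      ∀ {y y' : (univ : Set N)} (c : Path y y'), RepI (fun x => T (0, x)) 0 1 c → RepI (fun x => V 1 (T (0, x))) 0 1 c := by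
  obtain ⟨h2, h3⟩ := chd_push hT hV 1
  rw [hK 1] at h2 h3
  refine ⟨h2, ?_, ?_⟩
  · rw [h3]
    exact LEqN.diff _ (hV.mono (subset_univ _))
  · intro y y' c hc
    have h4 : ContinuousOn (fun q : ℝ × ℝ => V q.1 (T (0, q.2))) (Icc 0 1 ×ˢ Icc 0 1) := by
      have h5 : ContinuousOn (fun q : ℝ × ℝ => T ((0, q.2) : E)) (Icc 0 1 ×ˢ Icc 0 1) := by
        apply hT.cht.contOn.comp (by fun_prop)
        intro q hq
        exact Std_mem_TD hq.2
      have h6 : ContinuousOn (fun q : ℝ × ℝ => (q.1, T ((0, q.2) : E))) (Icc 0 1 ×ˢ Icc 0 1) :=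
        continuousOn_fst.prodMk h5
      exact hV.cont.comp_continuousOn h6
    have h7 : ∀ x : N, V 0 x = x := by
      intro x
      rw [hV.zero]
      rfl
    refine Std_hom (H := fun q : ℝ × ℝ => V q.1 (T (0, q.2))) h4 ?_ ?_ ?_
    · intro s _
      show V s (T (0, 0)) = V 0 (T (0, 0))
      rw [h0, h0]
    · intro s _
      show V s (T (0, 1)) = V 0 (T (0, 1))
      rw [h1, h1]
    · apply repI_congr hc
      intro t _
      show V 0 (T (0, t)) = T (0, t)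
      rw [h7]

omit [IsManifold (𝓡 3) ∞ N] [T2Space N] in
theorem Std_per {κ : ℝ × ℂ → N} (hκ : Thick κ) (l : ℝ) (v : ℂ) (m : ℤ) : κ (l + m, v) = κ (l, v) := by
  have hn : ∀ (n : ℕ) (l : ℝ), κ (l + n, v) = κ (l, v) := by
    intro n
    induction n with
    | zero => intro l; simp
    | succ n ih =>
      intro l
      have h1 : l + ((n + 1 : ℕ) : ℝ) = l + n + 1 := by push_cast; ring
      rw [h1, hκ.per, ih]
  obtain ⟨n, rfl | rfl⟩ := m.eq_nat_or_neg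
  · exact_mod_cast hn n l
  · have h1 := hn n (l + ((-(n : ℤ) : ℤ) : ℝ))
    have h2 : l + ((-(n : ℤ) : ℤ) : ℝ) + (n : ℝ) = l := by push_cast; ring
    rw [h2] at h1
    exact h1.symm

/-- the distance of `p - p'` to the integers -/
theorem Std_dist {κ : ℝ × ℂ → N} (hκ : Thick κ) {p p' : ℝ} (hne : κ (p, 0) ≠ κ (p', 0)) :
    ∃ d : ℝ, 0 < d ∧ ∀ k : ℤ, d ≤ |p - p' + k| := by
  have h1 : Int.fract (p - p') ≠ 0 := by
    intro h
    apply hne
    have h2 : p = p' + (⌊p - p'⌋ : ℝ) := by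
      have := Int.floor_add_fract (p - p')
      rw [h, add_zero] at this
      linarith
    rw [h2]
    exact Std_per hκ p' 0 _
  have h2 : 0 < Int.fract (p - p') := lt_of_le_of_ne (Int.fract_nonneg _) (Ne.symm h1)
  have h3 : Int.fract (p - p') < 1 := Int.fract_lt_one _
  refine ⟨min (Int.fract (p - p')) (1 - Int.fract (p - p')), lt_min h2 (by linarith), ?_⟩
  intro k
  have h4 : p - p' + k = Int.fract (p - p') + ((⌊p - p'⌋ + k : ℤ) : ℝ) := by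
    have := Int.floor_add_fract (p - p')
    push_cast
    linarith
  rw [h4]
  rcases le_or_gt 0 (⌊p - p'⌋ + k) with h | h
  · have h5 : (0 : ℝ) ≤ ((⌊p - p'⌋ + k : ℤ) : ℝ) := by exact_mod_cast h
    refine (min_le_left _ _).trans ?_
    rw [abs_of_nonneg (by linarith)]
    linarith
  · have h5 : ((⌊p - p'⌋ + k : ℤ) : ℝ) ≤ -1 := by exact_mod_cast (by omega : ⌊p - p'⌋ + k ≤ -1)
    refine (min_le_right _ _).trans ?_
    rw [abs_of_nonpos (by linarith)]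
    linarith

/-- exchange of the coordinates, centred at the tip -/
def Std_f (q : E) : E := ((⟨q.1.im, q.1.re⟩ : ℂ), 1 - q.2)

theorem Std_f_f (q : E) : Std_f (Std_f q) = q := by
  unfold Std_f
  refine Prod.ext ?_ ?_
  · apply Complex.ext <;> rfl
  · show 1 - (1 - q.2) = q.2
    ring

theorem Std_f_smooth : ContDiff ℝ ∞ Std_f := by
  have h1 : ContDiff ℝ ∞ fun q : E => (⟨q.1.im, q.1.re⟩ : ℂ) := by
    have h2 : (fun q : E => (⟨q.1.im, q.1.re⟩ : ℂ)) = fun q : E => (q.1.im : ℂ) + (q.1.re : ℂ) * Complex.I := by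
      funext q
      apply Complex.ext <;> simp
    rw [h2]
    have h3 : ContDiff ℝ ∞ fun q : E => (q.1.im : ℂ) :=
      Complex.ofRealCLM.contDiff.comp (Complex.imCLM.contDiff.comp contDiff_fst)
    have h4 : ContDiff ℝ ∞ fun q : E => (q.1.re : ℂ) :=
      Complex.ofRealCLM.contDiff.comp (Complex.reCLM.contDiff.comp contDiff_fst)
    exact h3.add (h4.mul contDiff_const)
  exact h1.prodMk (contDiff_const.sub contDiff_snd)

theorem Std_f_bij (q : E) : Function.Bijective (fderiv ℝ Std_f q) := by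
  have h1 : ∀ q : E, (fderiv ℝ Std_f (Std_f q)).comp (fderiv ℝ Std_f q) = ContinuousLinearMap.id ℝ E := by
    intro q
    have h2 : HasFDerivAt Std_f (fderiv ℝ Std_f (Std_f q)) (Std_f q) :=
      (Std_f_smooth.differentiable (by norm_num) _).hasFDerivAt
    have h3 : HasFDerivAt Std_f (fderiv ℝ Std_f q) q := (Std_f_smooth.differentiable (by norm_num) _).hasFDerivAt
    have h4 := h2.comp q h3
    have h5 : (Std_f ∘ Std_f) = id := by
      funext q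
      exact Std_f_f q
    rw [h5] at h4
    exact h4.unique (hasFDerivAt_id q)
  have h6 : Function.Injective (fderiv ℝ Std_f q) := by
    have h7 : Function.LeftInverse (fderiv ℝ Std_f (Std_f q)) (fderiv ℝ Std_f q) := by
      intro v
      have := congrArg (fun L : E →L[ℝ] E => L v) (h1 q)
      exact this
    exact h7.injective
  exact ⟨h6, (LinearMap.injective_iff_surjective (f := ((fderiv ℝ Std_f q : E →L[ℝ] E) : E →ₗ[ℝ] E))).1 h6⟩

theorem Std_sg_sg {a b : ℝ} (ha : a = 1 ∨ a = -1) (hb : b = 1 ∨ b = -1) (q : E) : sgE a b (sgE a b q) = q := by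
  have ha2 : a * a = 1 := by rcases ha with rfl | rfl <;> norm_num
  have hb2 : b * b = 1 := by rcases hb with rfl | rfl <;> norm_num
  unfold sgE
  refine Prod.ext ?_ rfl
  apply Complex.ext
  · show a * (a * q.1.re) = q.1.re
    rw [← mul_assoc, ha2, one_mul]
  · show b * (b * q.1.im) = q.1.im
    rw [← mul_assoc, hb2, one_mul]

theorem Std_sg_cont (a b : ℝ) : Tendsto (sgE a b) (𝓝 0) (𝓝 0) := by
  have h1 : Continuous (sgE a b) := by
    unfold sgE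
    have h2 : (fun q : E => (⟨a * q.1.re, b * q.1.im⟩ : ℂ)) =
        fun q : E => (a : ℂ) * (q.1.re : ℂ) + (b : ℂ) * (q.1.im : ℂ) * Complex.I := by
      funext q
      apply Complex.ext <;> simp
    have h3 : Continuous fun q : E => (⟨a * q.1.re, b * q.1.im⟩ : ℂ) := by
      rw [h2]
      fun_prop
    exact h3.prodMk continuous_snd
  have h4 := h1.tendsto 0
  have h5 : sgE a b 0 = 0 := by
    unfold sgE
    refine Prod.ext ?_ rfl
    apply Complex.ext <;> simp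
  rwa [h5] at h4

theorem Std_eb_mem (κ : ℝ × ℂ → N) (p : ℝ) {δ : ℝ} (hδ : 0 < δ) : κ (p, 0) ∈ eb κ p δ := by
  refine ⟨(p, 0), ?_, rfl⟩
  show (p - p) ^ 2 + ‖(0 : ℂ)‖ ^ 2 < δ ^ 2
  have h : 0 < δ ^ 2 := by positivity
  simpa using h

/-- the foot of a chord is standardised -/
theorem Std_foot {κ : ℝ × ℂ → N} (hκ : Thick κ) {T : E → N} (hT : Chd (core κ) T) {p p' δ : ℝ} (A : Adm p p' δ)
    (hp : T (0, 0) = κ (p, 0)) (hp' : T (0, 1) = κ (p', 0)) : ∃ T₁ : E → N, Chd (core κ) T₁ ∧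
      LEqN (kn (core κ) T) (kn (core κ) T₁) ∧ T₁ (0, 0) = κ (p, 0) ∧ T₁ (0, 1) = κ (p', 0) ∧
      (∀ᶠ q in 𝓝 (0 : E), T₁ q = footT κ p 1 q) ∧
      ∀ {y y' : (univ : Set N)} (c : Path y y'), RepI (fun x => T (0, x)) 0 1 c → RepI (fun x => T₁ (0, x)) 0 1 c := by
  have hδ := A.pos
  have hδ' : δ ≤ 1 / 2 := by linarith [A.lt]
  have hl : ∀ᶠ u : ℝ in 𝓝 0, T ((u : ℂ), 0) ∈ core κ := by
    have h1 : ∀ᶠ u : ℝ in 𝓝 0, u ∈ Ioo (-1 : ℝ) 1 := isOpen_Ioo.mem_nhds ⟨by norm_num, by norm_num⟩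
    filter_upwards [h1] with u hu
    have h2 : ((u : ℂ), (0 : ℝ)) ∈ TS := by
      refine ⟨⟨?_, ?_, ?_⟩, Or.inl ⟨rfl, Complex.ofReal_im u⟩⟩
      · show ‖(u : ℂ)‖ < 1
        rw [Complex.norm_real, Real.norm_eq_abs, abs_lt]
        exact hu
      · show -(1 / 4) < (0 : ℝ)
        norm_num
      · show (0 : ℝ) < 5 / 4
        norm_num
    have h3 : T ((u : ℂ), 0) ∈ T '' TS := ⟨_, h2, rfl⟩
    rw [← hT.hit] at h3
    exact h3.1
  have h0 : (0 : E) ∈ TD := Std_mem_TD (x := 0) ⟨le_refl _, zero_le_one⟩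
  obtain ⟨V, a, b, hV, hVK, hVp, ha, hb, hV1⟩ := Std_germ hκ hδ hδ' hT.cht h0 hp hl
  obtain ⟨hTa, hkn⟩ := chd_flip hT ha hb
  have hTa' : Chd (core κ) (fun q => T (sgE a b q)) := hTa
  have hkn' : kn (core κ) (fun q => T (sgE a b q)) = kn (core κ) T := hkn
  have hax : ∀ x : ℝ, sgE a b (0, x) = (0, x) := by
    intro x
    unfold sgE
    refine Prod.ext ?_ rfl
    apply Complex.ext <;> simp
  have hVp' : ∀ s, V s (κ (p', 0)) = κ (p', 0) := by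
    intro s
    apply hV.out
    intro h
    exact (Set.disjoint_left.1 (eb_disj hκ A)) h (Std_eb_mem κ p' hδ)
  obtain ⟨h1, h2, h3⟩ := Std_push hTa' hV hVK (by intro s; simp only [hax]; rw [hp]; exact hVp s)
    (by intro s; simp only [hax]; rw [hp']; exact hVp' s)
  refine ⟨_, h1, ?_, ?_, ?_, ?_, ?_⟩
  · rw [hkn'] at h2
    exact h2
  · simp only [hax]
    rw [hp]
    exact hVp 1
  · simp only [hax]
    rw [hp']
    exact hVp' 1
  · filter_upwards [(Std_sg_cont a b).eventually hV1] with q hq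
    rw [hq, Std_sg_sg ha hb]
  · intro y y' c hc
    apply h3
    apply repI_congr hc
    intro t _
    simp only [hax]

/-- the tip of a chord is standardised, up to signs -/
theorem Std_tip {κ : ℝ × ℂ → N} (hκ : Thick κ) {T : E → N} (hT : Chd (core κ) T) {p p' δ : ℝ} (A : Adm p p' δ)
    (hp : T (0, 0) = κ (p, 0)) (hp' : T (0, 1) = κ (p', 0)) (hf : ∀ᶠ q in 𝓝 (0 : E), T q = footT κ p 1 q) :
    ∃ (T₂ : E → N) (a b : ℝ), (a = 1 ∨ a = -1) ∧ (b = 1 ∨ b = -1) ∧ Chd (core κ) T₂ ∧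
      LEqN (kn (core κ) T) (kn (core κ) T₂) ∧ (∀ᶠ q in 𝓝 (0 : E), T₂ q = footT κ p 1 q) ∧
      (∀ᶠ q in 𝓝 ((0, 1) : E), T₂ q = footT κ p' 1 ((⟨a * q.1.im, b * q.1.re⟩ : ℂ), 1 - q.2)) ∧
      ∀ {y y' : (univ : Set N)} (c : Path y y'), RepI (fun x => T (0, x)) 0 1 c → RepI (fun x => T₂ (0, x)) 0 1 c := by
  have hδ := A.pos
  have hδ' : δ ≤ 1 / 2 := by linarith [A.lt]
  have hO : IsOpen (Std_f ⁻¹' TD) := hT.cht.opn.preimage Std_f_smooth.continuous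
  have hinj : Function.Injective Std_f := Function.LeftInverse.injective Std_f_f
  have hG : Cht (Std_f ⁻¹' TD) (fun q => T (Std_f q)) :=
    hT.cht.comp hO (fun q _ => Std_f_smooth.contDiffAt) (fun q _ => Std_f_bij q) hinj.injOn (fun q hq => hq)
  have hf0 : Std_f 0 = (0, 1) := by
    unfold Std_f
    refine Prod.ext ?_ ?_
    · apply Complex.ext <;> rfl
    · show (1 : ℝ) - 0 = 1
      norm_num
  have h0 : (0 : E) ∈ Std_f ⁻¹' TD := by
    show Std_f 0 ∈ TD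
    rw [hf0]
    exact Std_mem_TD ⟨zero_le_one, le_refl _⟩
  have hG0 : T (Std_f 0) = κ (p', 0) := by rw [hf0, hp']
  have hl : ∀ᶠ u : ℝ in 𝓝 0, T (Std_f ((u : ℂ), 0)) ∈ core κ := by
    have h1 : ∀ᶠ u : ℝ in 𝓝 0, u ∈ Ioo (-1 : ℝ) 1 := isOpen_Ioo.mem_nhds ⟨by norm_num, by norm_num⟩
    filter_upwards [h1] with u hu
    have h2 : Std_f ((u : ℂ), (0 : ℝ)) ∈ TS := by
      refine ⟨⟨?_, ?_, ?_⟩, Or.inr ⟨?_, ?_⟩⟩
      · show ‖(⟨(u : ℂ).im, (u : ℂ).re⟩ : ℂ)‖ < 1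
        have h3 : (⟨(u : ℂ).im, (u : ℂ).re⟩ : ℂ) = (u : ℂ) * Complex.I := by
          apply Complex.ext <;> simp
        rw [h3, norm_mul, Complex.norm_I, mul_one, Complex.norm_real, Real.norm_eq_abs, abs_lt]
        exact hu
      · show -(1 / 4) < (1 - 0 : ℝ)
        norm_num
      · show (1 - 0 : ℝ) < 5 / 4
        norm_num
      · show (1 - 0 : ℝ) = 1
        norm_num
      · show (u : ℂ).im = 0
        simp
    have h3 : T (Std_f ((u : ℂ), 0)) ∈ T '' TS := ⟨_, h2, rfl⟩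
    rw [← hT.hit] at h3
    exact h3.1
  obtain ⟨V, a, b, hV, hVK, hVp', ha, hb, hV1⟩ := Std_germ hκ hδ hδ' hG h0 hG0 hl
  have hdis := eb_disj hκ A
  have hout : ∀ x ∈ eb κ p δ, ∀ s, V s x = x := by
    intro x hx s
    apply hV.out
    intro h
    exact (Set.disjoint_left.1 hdis) hx h
  have hVp : ∀ s, V s (κ (p, 0)) = κ (p, 0) := hout _ (Std_eb_mem κ p hδ)
  obtain ⟨h1, h2, h3⟩ := Std_push hT hV hVK (by intro s; rw [hp]; exact hVp s) (by intro s; rw [hp']; exact hVp' s)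
  refine ⟨fun q => V 1 (T q), a, b, ha, hb, h1, h2, ?_, ?_, h3⟩
  · filter_upwards [hf, (isOpen_Bl δ).mem_nhds (zero_mem_Bl hδ)] with q hq hq'
    rw [hq]
    apply hout
    rw [eb_eq]
    exact ⟨q, hq', rfl⟩
  · have h4 : Tendsto Std_f (𝓝 ((0, 1) : E)) (𝓝 0) := by
      have h5 := Std_f_smooth.continuous.tendsto ((0, 1) : E)
      have h6 : Std_f (0, 1) = 0 := by rw [← hf0, Std_f_f]
      rwa [h6] at h5
    filter_upwards [h4.eventually hV1] with q hq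
    rw [Std_f_f] at hq
    rw [hq]
    rfl

/-- both ends, all signs -/
theorem Std_both {κ : ℝ × ℂ → N} (hκ : Thick κ) {T : E → N} (hT : Chd (core κ) T) {p p' δ : ℝ} (A : Adm p p' δ)
    (hp : T (0, 0) = κ (p, 0)) (hp' : T (0, 1) = κ (p', 0)) :
    ∃ (T₃ : E → N) (σ : ℝ), (σ = 1 ∨ σ = -1) ∧ Chd (core κ) T₃ ∧
      LEqN (kn (core κ) T) (kn (core κ) T₃) ∧ (∀ᶠ q in 𝓝 (0 : E), T₃ q = footT κ p 1 q) ∧
      (∀ᶠ q in 𝓝 ((0, 1) : E), T₃ q = footT κ p' 1 ((⟨σ * q.1.im, q.1.re⟩ : ℂ), 1 - q.2)) ∧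
      ∀ {y y' : (univ : Set N)} (c : Path y y'), RepI (fun x => T (0, x)) 0 1 c → RepI (fun x => T₃ (0, x)) 0 1 c := by
  obtain ⟨T₁, hT₁, hL₁, hp₁, hp₁', hf₁, hR₁⟩ := Std_foot hκ hT A hp hp'
  obtain ⟨T₂, a, b, ha, hb, hT₂, hL₂, hf₂, ht₂, hR₂⟩ := Std_tip hκ hT₁ A hp₁ hp₁' hf₁
  rcases hb with rfl | rfl
  · refine ⟨T₂, a, ha, hT₂, hL₁.trans hL₂, hf₂, ?_, fun c hc => hR₂ c (hR₁ c hc)⟩
    filter_upwards [ht₂] with q hq
    rw [hq, one_mul]
  · obtain ⟨hT₃, hL₃⟩ := chd_twist hT₂ 1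
    refine ⟨fun q => T₂ (rt 1 q), -a, ?_, hT₃, (hL₁.trans hL₂).trans hL₃, ?_, ?_, ?_⟩
    · rcases ha with rfl | rfl
      · right; rfl
      · left; norm_num
    · have h1 : ∀ᶠ q in 𝓝 (0 : E), q.2 < 1 / 4 :=
        (isOpen_lt continuous_snd continuous_const).mem_nhds (by show (0 : ℝ) < 1 / 4; norm_num)
      filter_upwards [hf₂, h1] with q hq hq'
      have h2 : rt 1 q = q := by
        unfold rt
        rw [CSG.stp_zero (by norm_num : (1 / 4 : ℝ) < 3 / 4) hq'.le, mul_zero]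
        refine Prod.ext ?_ rfl
        show ex 0 * q.1 = q.1
        rw [RSG.ex_zero, one_mul]
      rw [h2, hq]
    · have h1 : ∀ᶠ q in 𝓝 ((0, 1) : E), 3 / 4 < q.2 :=
        (isOpen_lt continuous_const continuous_snd).mem_nhds (by show (3 / 4 : ℝ) < 1; norm_num)
      have h3 : Tendsto (fun q : E => ((-q.1, q.2) : E)) (𝓝 ((0, 1) : E)) (𝓝 ((0, 1) : E)) := by
        have h4 : Continuous fun q : E => ((-q.1, q.2) : E) := by fun_prop
        have h5 := h4.tendsto ((0, 1) : E)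
        simpa using h5
      filter_upwards [h3.eventually ht₂, h1] with q hq hq'
      have h2 : rt 1 q = (-q.1, q.2) := by
        unfold rt
        rw [CSG.stp_one (by norm_num : (1 / 4 : ℝ) < 3 / 4) hq'.le]
        refine Prod.ext ?_ rfl
        show ex (((1 : ℤ) : ℝ) / 2 * 1) * q.1 = -q.1
        have h6 : ((1 : ℤ) : ℝ) / 2 * 1 = 1 / 2 := by norm_num
        rw [h6, RSG.ex_half, neg_one_mul]
      rw [h2, hq]
      congr 1
      refine Prod.ext ?_ rfl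
      apply Complex.ext
      · show a * (-q.1).im = -a * q.1.im
        rw [Complex.neg_im]
        ring
      · show -1 * (-q.1).re = q.1.re
        rw [Complex.neg_re]
        ring
    · intro y y' c hc
      apply repI_congr (hR₂ c (hR₁ c hc))
      intro t _
      have h2 : rt 1 (0, t) = (0, t) := by
        unfold rt
        refine Prod.ext ?_ rfl
        simp
      show T₂ (rt 1 (0, t)) = T₂ (0, t)
      rw [h2]

/-- the reparametrisation -/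
noncomputable def Std_xi (ε x : ℝ) : ℝ := ε * x + stp (1 / 4) (3 / 4) x * (1 - ε)

theorem Std_xi_smooth (ε : ℝ) : ContDiff ℝ ∞ (Std_xi ε) :=
  (contDiff_const.mul contDiff_id).add ((CSG.stp_smooth _ _).mul contDiff_const)

theorem Std_xi_deriv {ε : ℝ} (h0 : 0 < ε) (h1 : ε < 1) (x : ℝ) : 0 < deriv (Std_xi ε) x := by
  have h2 : HasDerivAt (stp (1 / 4) (3 / 4)) (deriv (stp (1 / 4) (3 / 4)) x) x :=
    ((CSG.stp_smooth (1 / 4) (3 / 4)).differentiable (by norm_num) x).hasDerivAt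
  have h3 : HasDerivAt (Std_xi ε) (ε * 1 + deriv (stp (1 / 4) (3 / 4)) x * (1 - ε)) x :=
    ((hasDerivAt_id x).const_mul ε).add (h2.mul_const (1 - ε))
  rw [h3.deriv]
  have h4 := CSG.stp_deriv_nonneg (by norm_num : (1 / 4 : ℝ) < 3 / 4) x
  have h5 : 0 ≤ deriv (stp (1 / 4) (3 / 4)) x * (1 - ε) := mul_nonneg h4 (by linarith)
  linarith

theorem Std_xi_low {ε x : ℝ} (h : x ≤ 1 / 4) : Std_xi ε x = ε * x := by
  unfold Std_xi
  rw [CSG.stp_zero (by norm_num : (1 / 4 : ℝ) < 3 / 4) h]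
  ring

theorem Std_xi_high {ε x : ℝ} (h : 3 / 4 ≤ x) : Std_xi ε x = 1 + ε * (x - 1) := by
  unfold Std_xi
  rw [CSG.stp_one (by norm_num : (1 / 4 : ℝ) < 3 / 4) h]
  ring

theorem exists_std {κ : ℝ × ℂ → N} (hκ : Thick κ) {T : E → N} (hT : Chd (core κ) T) {p p' : ℝ} (hp : T (0, 0) = κ (p, 0))
    (hp' : T (0, 1) = κ (p', 0)) : ∃ ε₀ : ℝ, 0 < ε₀ ∧ ∀ ε : ℝ, 0 < ε → ε < ε₀ → Adm p p' ε ∧ ∃ (σ : ℝ) (T' : E → N),
      Chd (core κ) T' ∧ StdR κ p p' ε σ (1 / 8) T' ∧ LEqN (kn (core κ) T) (kn (core κ) T') ∧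
      ∀ {y y' : (univ : Set N)} (c : Path y y'), RepI (fun x => T (0, x)) 0 1 c → RepI (fun x => T' (0, x)) 0 1 c := by
  have hne : κ (p, 0) ≠ κ (p', 0) := by
    rw [← hp, ← hp']
    intro h
    have h1 := hT.cht.inj (Std_mem_TD ⟨le_refl (0 : ℝ), zero_le_one⟩) (Std_mem_TD ⟨zero_le_one, le_refl (1 : ℝ)⟩) h
    exact zero_ne_one (congrArg Prod.snd h1)
  obtain ⟨d, hd, hd'⟩ := Std_dist hκ hne
  have hA : ∀ ε : ℝ, 0 < ε → ε ≤ min (d / 4) (1 / 8) → Adm p p' ε := by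
    intro ε h0 h1
    have h2 : ε ≤ d / 4 := h1.trans (min_le_left _ _)
    have h3 : ε ≤ 1 / 8 := h1.trans (min_le_right _ _)
    exact ⟨h0, by linarith, fun k => by linarith [hd' k]⟩
  have hδ : 0 < min (d / 4) (1 / 8) := lt_min (by linarith) (by norm_num)
  obtain ⟨T₃, σ, hσ, hT₃, hL, hf, ht, hR⟩ := Std_both hκ hT (hA _ hδ (le_refl _)) hp hp'
  obtain ⟨ρ, hρ, hρ'⟩ := exists_Bl hf
  have ht' : ∀ᶠ q in 𝓝 (0 : E), T₃ (q.1, 1 + q.2) = footT κ p' 1 ((⟨σ * q.1.im, q.1.re⟩ : ℂ), -q.2) := by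
    have h1 : Tendsto (fun q : E => ((q.1, 1 + q.2) : E)) (𝓝 0) (𝓝 ((0, 1) : E)) := by
      have h4 : Continuous fun q : E => ((q.1, 1 + q.2) : E) := by fun_prop
      have h5 := h4.tendsto (0 : E)
      simpa using h5
    filter_upwards [h1.eventually ht] with q hq
    rw [hq]
    congr 1
    refine Prod.ext rfl ?_
    show 1 - (1 + q.2) = -q.2
    ring
  obtain ⟨ρ₁, hρ₁, hρ₁'⟩ := exists_Bl ht'
  refine ⟨min (min (d / 4) (1 / 8)) (min ρ ρ₁), lt_min hδ (lt_min hρ hρ₁), ?_⟩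
  intro ε h0 h1
  have hε1 : ε ≤ min (d / 4) (1 / 8) := (h1.trans_le (min_le_left _ _)).le
  have hερ : ε ≤ ρ := (h1.trans_le ((min_le_right _ _).trans (min_le_left _ _))).le
  have hερ₁ : ε ≤ ρ₁ := (h1.trans_le ((min_le_right _ _).trans (min_le_right _ _))).le
  have hε8 : ε ≤ 1 / 8 := hε1.trans (min_le_right _ _)
  have hnr : ∀ (w : ℂ) (x r : ℝ), ‖w‖ < 1 → |x| ≤ 1 / 4 → ε ≤ r → nr ((((ε / 8 : ℝ) : ℂ) * w, ε * x) : E) ≤ r ^ 2 := by
    intro w x r hw hx hr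
    unfold nr
    show ‖((ε / 8 : ℝ) : ℂ) * w‖ ^ 2 + (ε * x) ^ 2 ≤ r ^ 2
    have h2 : ‖((ε / 8 : ℝ) : ℂ) * w‖ ≤ ε / 8 := by
      rw [norm_mul, Complex.norm_real, Real.norm_eq_abs, abs_of_pos (by linarith)]
      calc ε / 8 * ‖w‖ ≤ ε / 8 * 1 := by gcongr
        _ = ε / 8 := mul_one _
    have h3 : ‖((ε / 8 : ℝ) : ℂ) * w‖ ^ 2 ≤ (ε / 8) ^ 2 := pow_le_pow_left₀ (norm_nonneg _) h2 2
    have h4 : x ^ 2 ≤ (1 / 4) ^ 2 := by
      rw [← sq_abs x]
      exact pow_le_pow_left₀ (abs_nonneg _) hx 2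
    have h5 : ε ^ 2 ≤ r ^ 2 := pow_le_pow_left₀ h0.le hr 2
    have h6 : (ε * x) ^ 2 ≤ ε ^ 2 * (1 / 4) ^ 2 := by
      rw [mul_pow]
      gcongr
    nlinarith [sq_nonneg ε]
  obtain ⟨hT', hL'⟩ := chd_repar hT₃ (e := ε / 8) (by linarith) (by linarith) (Std_xi_smooth ε)
    (Std_xi_deriv h0 (by linarith)) (by rw [Std_xi_low (by norm_num)]; ring) (by rw [Std_xi_high (by norm_num)]; ring)
    (by rw [Std_xi_low (by norm_num)]; linarith) (by rw [Std_xi_high (by norm_num)]; linarith)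
  refine ⟨hA ε h0 hε1, σ, _, hT', ⟨hσ, by norm_num, le_refl _, ?_, ?_⟩, hL.trans hL', ?_⟩
  · intro q hq hq'
    show T₃ (((ε / 8 : ℝ) : ℂ) * q.1, Std_xi ε q.2) = _
    rw [Std_xi_low hq'.le]
    have h2 := hρ' (hnr q.1 q.2 ρ hq.1 (abs_le.2 ⟨hq.2.1.le, hq'.le⟩) hερ)
    have h3 : T₃ (((ε / 8 : ℝ) : ℂ) * q.1, ε * q.2) = footT κ p 1 (((ε / 8 : ℝ) : ℂ) * q.1, ε * q.2) := h2
    rw [h3, foot_smul κ p ε]
    congr 1
    refine Prod.ext ?_ rfl
    show ((ε / 8 : ℝ) : ℂ) * q.1 = ε • (((1 / 8 : ℝ) : ℂ) * q.1)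
    rw [Complex.real_smul]
    push_cast
    ring
  · intro q hq hq'
    show T₃ (((ε / 8 : ℝ) : ℂ) * q.1, Std_xi ε q.2) = _
    rw [Std_xi_high hq'.le]
    have h2 := hρ₁' (hnr q.1 (q.2 - 1) ρ₁ hq.1 (abs_le.2 ⟨by linarith, by linarith [hq.2.2]⟩) hερ₁)
    have h3 : T₃ (((ε / 8 : ℝ) : ℂ) * q.1, 1 + ε * (q.2 - 1)) =
      footT κ p' 1 ((⟨σ * (((ε / 8 : ℝ) : ℂ) * q.1).im, (((ε / 8 : ℝ) : ℂ) * q.1).re⟩ : ℂ), -(ε * (q.2 - 1))) := h2
    rw [h3, tip_foot κ p' ε σ]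
    congr 1
    refine Prod.ext ?_ ?_
    · apply Complex.ext
      · show σ * (((ε / 8 : ℝ) : ℂ) * q.1).im = σ * ε * (((1 / 8 : ℝ) : ℂ) * q.1).im
        rw [Complex.im_ofReal_mul, Complex.im_ofReal_mul]
        ring
      · show (((ε / 8 : ℝ) : ℂ) * q.1).re = ε * (((1 / 8 : ℝ) : ℂ) * q.1).re
        rw [Complex.re_ofReal_mul, Complex.re_ofReal_mul]
        ring
    · show -(ε * (q.2 - 1)) = ε * (1 - q.2)
      ring
  · intro y y' c hc
    have h2 := hR c hc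
    have hu : uIcc (0 : ℝ) 1 = Icc 0 1 := uIcc_of_le zero_le_one
    have hξ0 : Std_xi ε 0 = 0 := by rw [Std_xi_low (by norm_num)]; ring
    have hξ1 : Std_xi ε 1 = 1 := by rw [Std_xi_high (by norm_num)]; ring
    have hmono : StrictMono (Std_xi ε) := strictMono_of_deriv_pos (Std_xi_deriv h0 (by linarith))
    obtain ⟨hc1, -, -, -⟩ := repI_cont h2
    have h3 : RepI (fun x => T₃ (0, x)) (Std_xi ε 0) (Std_xi ε 1) c := by rw [hξ0, hξ1]; exact h2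
    have h4 := repI_comp (g := Std_xi ε) (a' := 0) (b' := 1) h3 (Std_xi_smooth ε).continuous.continuousOn hc1
      (fun t _ => mem_univ _) (by
        rw [hu]
        intro t ht
        constructor
        · rw [← hξ0]
          exact hmono.monotone ht.1
        · rw [← hξ1]
          exact hmono.monotone ht.2)
    apply repI_congr h4
    intro t _
    show T₃ (((ε / 8 : ℝ) : ℂ) * 0, Std_xi ε t) = T₃ (0, Std_xi ε t)
    rw [mul_zero]

end

end Pool.Agent.NHE
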