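import Pool.Agent.NHE.SlE
import Pool.Agent.NHE.Pth
import Pool.Agent.NHP.Tra
import Pool.Agent.NHP.Fol

/-!
# NHE/Two: a push which carries one tube to another (difficulty 3)

`S₀`, `S₁` : the slide of `exists_slide` transported by `T₀`, `T₁` (`push_chart` with the chart `{‖w‖ < 1, 0 < x < 1}`, image in `Y`).  `V s = (S₀ s).trans (S₁ s).symm`.  For `‖w‖ ≤ 1/2`, `3/32 ≤ x < 1`: `S₀ 1 (T₀ q) = T₀ (V 1 q) = T₁ (V 1 q) = S₁ 1 (T₁ q)` since the second coordinate of `V 1 q` is `> 3/4`.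
For `x ≥ 1` both are the identity at `T₀ q = T₁ q`.  Trace of `y`: `S₀` moves `y = T₀ (0, 1/8)` along `T₀ (0, ·)` to `T₀ (0, x₁) = T₁ (0, x₁)` (class `d₀` of `T₀ (0, ·)` from `1/8` to `x₁`, `repI_comp`), `(S₁)⁻¹` back along `T₁ (0, ·)` (`follows_inv`, class `d₁.symm`).
`c ≈ d₀ g`, `c' ≈ d₁ g` with `g` the class of `T₀ (0, ·) = T₁ (0, ·)` from `x₁` to `7/8`, so `d₀ ≈ d₁`, and the trace `d₀ d₁.symm` is homotopic to the constant path (`follows_comp`).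
-/

open scoped Manifold ContDiff Topology
open Set Filter
open Pool.Agent.CSG (stp)
open Pool.Agent.RSG (E3 ex Thick)
open Pool.Agent.KNT (Dom Str Str2 BalC bmp)
open Pool.Agent.NHP

namespace Pool.Agent.NHE

/-- the open tube between foot and tip -/
def two_Om : Set E := {q | ‖q.1‖ < 1 ∧ 0 < q.2 ∧ q.2 < 1}

theorem two_open : IsOpen two_Om := by
  have h1 : IsOpen {q : E | ‖q.1‖ < 1} := isOpen_lt (by fun_prop) continuous_const
  have h2 : IsOpen {q : E | 0 < q.2} := isOpen_lt continuous_const (by fun_prop)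
  have h3 : IsOpen {q : E | q.2 < 1} := isOpen_lt (by fun_prop) continuous_const
  exact h1.inter (h2.inter h3)

theorem two_sub : two_Om ⊆ TD := fun q hq => ⟨hq.1, by linarith [hq.2.1], by linarith [hq.2.2]⟩

theorem two_axis {x : ℝ} (h0 : 0 < x) (h1 : x < 1) : ((0 : ℂ), x) ∈ two_Om :=
  ⟨by simp, h0, h1⟩

section
variable {X : Type*} [TopologicalSpace X]

theorem two_cancel {a b c : X} {d₀ d₁ : Path a b} {g : Path b c} (h : (d₀.trans g).Homotopic (d₁.trans g)) :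
    d₀.Homotopic d₁ := by
  have h1 : ((d₀.trans g).trans g.symm).Homotopic ((d₁.trans g).trans g.symm) :=
    Path.Homotopic.hcomp h (Path.Homotopic.refl _)
  have h2 : ∀ d : Path a b, ((d.trans g).trans g.symm).Homotopic d := by
    intro d
    have k1 : ((d.trans g).trans g.symm).Homotopic (d.trans (g.trans g.symm)) :=
      ⟨Path.Homotopy.transAssoc d g g.symm⟩
    have k2 : (d.trans (g.trans g.symm)).Homotopic (d.trans (Path.refl b)) :=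
      Path.Homotopic.hcomp (Path.Homotopic.refl _) (Path.Homotopic.symm ⟨Path.Homotopy.reflTransSymm g⟩)
    have k3 : (d.trans (Path.refl b)).Homotopic d := ⟨Path.Homotopy.transRefl d⟩
    exact (k1.trans k2).trans k3
  exact ((h2 d₀).symm.trans h1).trans (h2 d₁)

end

section
variable {N : Type*} [TopologicalSpace N] [ChartedSpace E3 N] [IsManifold (𝓡 3) ∞ N] [T2Space N]

/-- the slide in the tube `T` moves `y` along the core -/
theorem two_follows {Y : Set N} {T : E → N} (h : Cht TD T) (hY : ∀ q ∈ TD, 0 < q.2 → q.2 < 1 → T q ∈ Y)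
    {V₀ : ℝ → Equiv.Perm E} (hV₀ : PushE two_Om V₀) (h1 : ∀ s q, (V₀ s q).1 = q.1) {x₁ : ℝ}
    (hx : V₀ 1 (0, 1 / 8) = (0, x₁)) {S : ℝ → Equiv.Perm N} (hS : ∀ s, ∀ q ∈ two_Om, S s (T q) = T (V₀ s q))
    {y z : Y} (hy : T (0, 1 / 8) = y) {d : Path y z} (hd : RepI (fun x => T (0, x)) (1 / 8) x₁ d) :
    Follows S d := by
  let φ : ℝ → ℝ := fun t => (V₀ t ((0 : ℂ), (1 / 8 : ℝ))).2
  have hφc : Continuous φ := by
    have h2 : Continuous fun q : ℝ × E => V₀ q.1 q.2 := hV₀.smooth.continuous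
    have h3 : Continuous fun t : ℝ => V₀ t ((0 : ℂ), (1 / 8 : ℝ)) := h2.comp (Continuous.prodMk_left _)
    exact continuous_snd.comp h3
  have hmem : ((0 : ℂ), (1 / 8 : ℝ)) ∈ two_Om := two_axis (by norm_num) (by norm_num)
  have hφm : ∀ t, 0 < φ t ∧ φ t < 1 := fun t => (hV₀.mem t hmem).2
  have hφe : ∀ t, V₀ t ((0 : ℂ), (1 / 8 : ℝ)) = ((0 : ℂ), φ t) := fun t => Prod.ext (h1 t _) rfl
  have hφ0 : φ 0 = 1 / 8 := by
    show (V₀ 0 ((0 : ℂ), (1 / 8 : ℝ))).2 = 1 / 8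
    rw [hV₀.zero, Equiv.refl_apply]
  have hφ1 : φ 1 = x₁ := by
    show (V₀ 1 ((0 : ℂ), (1 / 8 : ℝ))).2 = x₁
    rw [hx]
  obtain ⟨ta, -, hta⟩ := isCompact_Icc.exists_isMinOn (nonempty_Icc.mpr zero_le_one) hφc.continuousOn
    (s := Icc (0 : ℝ) 1)
  obtain ⟨tb, -, htb⟩ := isCompact_Icc.exists_isMaxOn (nonempty_Icc.mpr zero_le_one) hφc.continuousOn
    (s := Icc (0 : ℝ) 1)
  have hab : φ ta ≤ φ tb := (hta (left_mem_Icc.mpr zero_le_one)).trans (htb (left_mem_Icc.mpr zero_le_one))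
  have hm : ∀ t ∈ uIcc (0 : ℝ) 1, φ t ∈ uIcc (φ ta) (φ tb) := by
    intro t ht
    rw [uIcc_of_le zero_le_one] at ht
    rw [uIcc_of_le hab]
    exact ⟨hta ht, htb ht⟩
  have hin : ∀ t ∈ uIcc (φ ta) (φ tb), 0 < t ∧ t < 1 := by
    intro t ht
    rw [uIcc_of_le hab] at ht
    exact ⟨lt_of_lt_of_le (hφm ta).1 ht.1, lt_of_le_of_lt ht.2 (hφm tb).2⟩
  have hd' : RepI (fun x => T (0, x)) (φ 0) (φ 1) d := by
    rw [hφ0, hφ1]
    exact hd
  have h4 : RepI (fun t => T (0, φ t)) 0 1 d := by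
    refine repI_comp (f := fun x => T (0, x)) (g := φ) (a' := φ ta) (b' := φ tb) hd' hφc.continuousOn ?_ ?_ hm
    · refine h.contOn.comp (by fun_prop) ?_
      intro t ht
      have := hin t ht
      exact two_sub (two_axis this.1 this.2)
    · intro t ht
      have := hin t ht
      exact hY _ (two_sub (two_axis this.1 this.2)) this.1 this.2
  refine rep_congr h4 ?_
  intro t _
  show S t (y : N) = T (0, φ (0 + t * (1 - 0)))
  rw [← hy, hS t _ hmem, hφe t]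
  congr 3
  ring

theorem two_tubes {Y : Set N} {T₀ T₁ : E → N} (h₀ : Cht TD T₀) (h₁ : Cht TD T₁)
    (hY₀ : ∀ q ∈ TD, 0 < q.2 → q.2 < 1 → T₀ q ∈ Y) (hY₁ : ∀ q ∈ TD, 0 < q.2 → q.2 < 1 → T₁ q ∈ Y)
    (heq : ∀ q ∈ TD, 3 / 4 < q.2 → T₀ q = T₁ q) {y y' : Y} {c c' : Path y y'}
    (hc : RepI (fun x => T₀ (0, x)) (1 / 8) (7 / 8) c) (hc' : RepI (fun x => T₁ (0, x)) (1 / 8) (7 / 8) c')
    (hcc : c.Homotopic c') : ∃ V : ℝ → Equiv.Perm N, Push Y V ∧ Follows V (Path.refl y) ∧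
      ∀ q : E, ‖q.1‖ ≤ 1 / 2 → 3 / 32 ≤ q.2 → q.2 < 5 / 4 → V 1 (T₀ q) = T₁ q := by
  obtain ⟨V₀, x₁, hV₀, hfst, hx1, hx2, hx3, hx4⟩ := exists_slide
  have hV₀' : PushE two_Om V₀ := hV₀
  obtain ⟨S₀, hS₀, hS₀a, hS₀b⟩ := push_chart (h₀.mono two_open two_sub) hV₀'
  obtain ⟨S₁, hS₁, hS₁a, hS₁b⟩ := push_chart (h₁.mono two_open two_sub) hV₀'
  have hS₀Y : Push Y S₀ := hS₀.mono (by
    rintro _ ⟨q, hq, rfl⟩
    exact hY₀ q (two_sub hq) hq.2.1 hq.2.2)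
  have hS₁Y : Push Y S₁ := hS₁.mono (by
    rintro _ ⟨q, hq, rfl⟩
    exact hY₁ q (two_sub hq) hq.2.1 hq.2.2)
  have hax : ((0 : ℂ), x₁) ∈ two_Om := two_axis (by linarith) hx2
  let z : Y := ⟨T₀ (0, x₁), hY₀ _ (two_sub hax) hax.2.1 hax.2.2⟩
  have hz0 : T₀ (0, x₁) = z := rfl
  have hz1 : T₁ (0, x₁) = z := (heq _ (two_sub hax) hx1).symm
  obtain ⟨-, -, hya, hyb⟩ := repI_cont hc
  obtain ⟨-, -, hya', hyb'⟩ := repI_cont hc'
  have hmem : ∀ t ∈ uIcc (1 / 8 : ℝ) x₁, ((0 : ℂ), t) ∈ two_Om := by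
    intro t ht
    rw [uIcc_of_le (by linarith)] at ht
    exact two_axis (by linarith [ht.1]) (by linarith [ht.2])
  have hmem' : ∀ t ∈ uIcc x₁ (7 / 8 : ℝ), ((0 : ℂ), t) ∈ two_Om ∧ 3 / 4 < t := by
    intro t ht
    have h1 : min x₁ (7 / 8) ≤ t := ht.1
    have h2 : t ≤ max x₁ (7 / 8) := ht.2
    have h3 : 3 / 4 < min x₁ (7 / 8 : ℝ) := lt_min hx1 (by norm_num)
    have h4 : max x₁ (7 / 8 : ℝ) < 1 := max_lt hx2 (by norm_num)
    exact ⟨two_axis (by linarith) (by linarith), by linarith⟩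
  obtain ⟨d₀, hd₀⟩ := exists_repI (Y := Y) (y := y) (y' := z) (f := fun x => T₀ (0, x)) (a := 1 / 8) (b := x₁)
    (h₀.contOn.comp (by fun_prop) fun t ht => two_sub (hmem t ht))
    (fun t ht => hY₀ _ (two_sub (hmem t ht)) (hmem t ht).2.1 (hmem t ht).2.2) hya hz0
  obtain ⟨d₁, hd₁⟩ := exists_repI (Y := Y) (y := y) (y' := z) (f := fun x => T₁ (0, x)) (a := 1 / 8) (b := x₁)
    (h₁.contOn.comp (by fun_prop) fun t ht => two_sub (hmem t ht))
    (fun t ht => hY₁ _ (two_sub (hmem t ht)) (hmem t ht).2.1 (hmem t ht).2.2) hya' hz1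
  obtain ⟨g, hg⟩ := exists_repI (Y := Y) (y := z) (y' := y') (f := fun x => T₀ (0, x)) (a := x₁) (b := 7 / 8)
    (h₀.contOn.comp (by fun_prop) fun t ht => two_sub (hmem' t ht).1)
    (fun t ht => hY₀ _ (two_sub (hmem' t ht).1) (hmem' t ht).1.2.1 (hmem' t ht).1.2.2) hz0 hyb
  have hg' : RepI (fun x => T₁ (0, x)) x₁ (7 / 8) g :=
    repI_congr hg fun t ht => (heq _ (two_sub (hmem' t ht).1) (hmem' t ht).2).symm
  have k0 : c.Homotopic (d₀.trans g) := (repI_iff hc).mp (repI_trans hd₀ hg)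
  have k1 : c'.Homotopic (d₁.trans g) := (repI_iff hc').mp (repI_trans hd₁ hg')
  have k2 : d₀.Homotopic d₁ := two_cancel ((k0.symm.trans hcc).trans k1)
  have hF₀ : Follows S₀ d₀ := two_follows h₀ hY₀ hV₀' hfst hx3 hS₀a hya hd₀
  have hF₁ : Follows S₁ d₁ := two_follows h₁ hY₁ hV₀' hfst hx3 hS₁a hya' hd₁
  refine ⟨fun s => (S₀ s).trans (S₁ s).symm, hS₀Y.comp hS₁Y.inv, ?_, ?_⟩
  · have hF := follows_comp hS₀Y hS₁Y.inv hF₀ (follows_inv hS₁Y hF₁)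
    refine (rep_iff hF).mpr ?_
    have k3 : (d₀.trans d₁.symm).Homotopic (d₁.trans d₁.symm) :=
      Path.Homotopic.hcomp k2 (Path.Homotopic.refl _)
    exact k3.trans (Path.Homotopic.symm ⟨Path.Homotopy.reflTransSymm d₁⟩)
  · intro q hq1 hq2 hq3
    have hqT : q ∈ TD := ⟨by linarith, by linarith, hq3⟩
    show (S₁ 1).symm (S₀ 1 (T₀ q)) = T₁ q
    rw [Equiv.symm_apply_eq]
    by_cases hq4 : q.2 < 1
    · have hqO : q ∈ two_Om := ⟨by linarith, by linarith, hq4⟩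
      rw [hS₀a 1 q hqO, hS₁a 1 q hqO]
      exact heq _ (two_sub (hV₀'.mem 1 hqO)) (hx4 q hq1 hq2)
    · have hqn : q ∉ two_Om := fun h => hq4 h.2.2
      have hn0 : T₀ q ∉ T₀ '' two_Om := by
        rintro ⟨q', hq', he⟩
        exact hqn (h₀.inj (two_sub hq') hqT he ▸ hq')
      have hn1 : T₁ q ∉ T₁ '' two_Om := by
        rintro ⟨q', hq', he⟩
        exact hqn (h₁.inj (two_sub hq') hqT he ▸ hq')
      rw [hS₀b 1 _ hn0, hS₁b 1 _ hn1]
      exact heq q hqT (by linarith [not_lt.mp hq4])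

end

end Pool.Agent.NHE
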