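import Pool.Agent.NHE.Pth
import Pool.Agent.NHE.Thn

/-!
# NHE/Mvc: motion of classes under pushes (difficulty 2)

`class_move`: `rep_square` with `H (s, t) = X s (f (a + t (b - a)))` (continuous: `Push.cont`, `repI_cont`).  `fgr_congr`: `repI_iff`.  `fgr_move`: `chd_push` with `X 1 '' core κ = core κ`; `LEqN.diff`.
-/

open scoped Manifold ContDiff Topology
open Set Filter
open Pool.Agent.CSG (stp)
open Pool.Agent.RSG (E3 ex Thick)
open Pool.Agent.KNT (Dom Str Str2 BalC bmp)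
open Pool.Agent.NHP

namespace Pool.Agent.NHE

section
variable {N : Type*} [TopologicalSpace N] [ChartedSpace E3 N] [T2Space N]

theorem class_move {Y : Set N} {O : Set N} {X : ℝ → Equiv.Perm N} (hX : Push O X) (hXY : ∀ s ∈ Icc (0 : ℝ) 1, ∀ x ∈ Y, X s x ∈ Y)
    {f : ℝ → N} {a b : ℝ} {y y' y₁ y₁' : Y} {c : Path y y'} (hf : RepI f a b c) {d : Path y y₁} {d' : Path y' y₁'}
    (hd : RepI (fun s => X s (f a)) 0 1 d) (hd' : RepI (fun s => X s (f b)) 0 1 d') :
    RepI (fun t => X 1 (f t)) a b (d.symm.trans (c.trans d')) := by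
  obtain ⟨hfc, hfY, hfa, hfb⟩ := repI_cont hf
  obtain ⟨-, -, -, hda⟩ := repI_cont hd
  obtain ⟨-, -, -, hdb⟩ := repI_cont hd'
  have hmem : ∀ t ∈ Icc (0 : ℝ) 1, a + t * (b - a) ∈ uIcc a b := by
    intro t ht
    rw [mem_uIcc]
    rcases le_total a b with h | h
    · left
      constructor <;> nlinarith [ht.1, ht.2, mul_nonneg ht.1 (sub_nonneg.2 h), mul_nonneg (sub_nonneg.2 ht.2) (sub_nonneg.2 h)]
    · right
      constructor <;> nlinarith [ht.1, ht.2, mul_nonneg ht.1 (sub_nonneg.2 h), mul_nonneg (sub_nonneg.2 ht.2) (sub_nonneg.2 h)]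
  -- the upper side
  have hc1 : ContinuousOn (fun t => X 1 (f t)) (uIcc a b) := by
    have h1 : Continuous fun x : N => X 1 x := hX.cont.comp (continuous_const.prodMk continuous_id)
    exact h1.comp_continuousOn hfc
  obtain ⟨c₁, hc₁⟩ := exists_repI (y := y₁) (y' := y₁') hc1
    (fun t ht => hXY 1 ⟨zero_le_one, le_rfl⟩ _ (hfY t ht)) hda hdb
  -- the square
  have hcs : ContinuousOn (fun q : ℝ × ℝ => X q.1 (f (a + q.2 * (b - a)))) (Icc 0 1 ×ˢ Icc 0 1) := by
    have h1 : ContinuousOn (fun q : ℝ × ℝ => f (a + q.2 * (b - a))) (Icc 0 1 ×ˢ Icc 0 1) := by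
      refine hfc.comp (by fun_prop) ?_
      intro q hq
      exact hmem q.2 hq.2
    exact hX.cont.comp_continuousOn (continuous_fst.continuousOn.prodMk h1)
  have hsq : (d.trans c₁).Homotopic (c.trans d') := by
    refine rep_square (H := fun q : ℝ × ℝ => X q.1 (f (a + q.2 * (b - a)))) hcs ?_ ?_ ?_ ?_ ?_
    · intro q hq
      exact hXY q.1 hq.1 _ (hfY _ (hmem q.2 hq.2))
    · refine rep_congr hf ?_
      intro t _
      change X 0 (f (a + t * (b - a))) = _
      rw [hX.zero]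
      rfl
    · exact hc₁
    · refine rep_congr hd ?_
      intro s _
      change X s (f (a + 0 * (b - a))) = X (0 + s * (1 - 0)) (f a)
      rw [zero_mul, add_zero, sub_zero, mul_one, zero_add]
    · refine rep_congr hd' ?_
      intro s _
      change X s (f (a + 1 * (b - a))) = X (0 + s * (1 - 0)) (f b)
      rw [one_mul, sub_zero, mul_one, zero_add, add_sub_cancel]
  refine (repI_iff hc₁).2 ?_
  have h1 : c₁.Homotopic ((Path.refl y₁).trans c₁) := ⟨(Path.Homotopy.reflTrans c₁).symm⟩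
  have h2 : ((Path.refl y₁).trans c₁).Homotopic ((d.symm.trans d).trans c₁) :=
    Path.Homotopic.hcomp ⟨Path.Homotopy.reflSymmTrans d⟩ (Path.Homotopic.refl _)
  have h3 : ((d.symm.trans d).trans c₁).Homotopic (d.symm.trans (d.trans c₁)) := ⟨Path.Homotopy.transAssoc _ _ _⟩
  have h4 : (d.symm.trans (d.trans c₁)).Homotopic (d.symm.trans (c.trans d')) :=
    Path.Homotopic.hcomp (Path.Homotopic.refl _) hsq
  exact h1.trans (h2.trans (h3.trans h4))

theorem fgr_congr {κ : ℝ × ℂ → N} {p p' ε : ℝ} {y y' : ((core κ)ᶜ : Set N)} {c c' : Path y y'} (hc : c.Homotopic c') {K' : Set N}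
    (h : Fgr κ p p' ε c K') : Fgr κ p p' ε c' K' := by
  obtain ⟨σ, r, T, h1, h2, h3, h4⟩ := h
  exact ⟨σ, r, T, h1, h2, (repI_iff h3).2 hc, h4⟩

/-- a push which preserves the knot, and carries the chord to a chord with standard ends -/
theorem fgr_move {κ : ℝ × ℂ → N} {O : Set N} {X : ℝ → Equiv.Perm N} (hX : Push O X) (hK : ∀ s, X s '' core κ = core κ)
    {T : E → N} (hT : Chd (core κ) T) {y y' y₁ y₁' : ((core κ)ᶜ : Set N)} {c : Path y y'}
    (hc : RepI (fun x => T (0, x)) (1 / 8) (7 / 8) c) {d : Path y y₁} {d' : Path y' y₁'}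
    (hd : RepI (fun s => X s (T (0, 1 / 8))) 0 1 d) (hd' : RepI (fun s => X s (T (0, 7 / 8))) 0 1 d') {p₁ p₁' ε₁ σ r : ℝ}
    (hr : StdR κ p₁ p₁' ε₁ σ r fun q => X 1 (T q)) :
    ∃ K'' : Set N, Fgr κ p₁ p₁' ε₁ (d.symm.trans (c.trans d')) K'' ∧ LEqN (kn (core κ) T) K'' := by
  have hY : ∀ s ∈ Icc (0 : ℝ) 1, ∀ x ∈ (core κ)ᶜ, X s x ∈ (core κ)ᶜ := by
    intro s _ x hx hx'
    rw [← hK s] at hx'
    obtain ⟨z, hz, hzx⟩ := hx'
    exact hx ((X s).injective hzx ▸ hz)
  obtain ⟨h1, h2⟩ := chd_push hT hX 1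
  rw [hK 1] at h1 h2
  refine ⟨X 1 '' kn (core κ) T, ⟨σ, r, fun q => X 1 (T q), h1, hr, ?_, h2.symm⟩, ?_⟩
  · exact class_move (f := fun x => T (0, x)) hX hY hc hd hd'
  · exact LEqN.diff _ (hX.mono (subset_univ _))

end

end Pool.Agent.NHE
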