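import Pool.Agent.NHE.Scx
import Pool.Agent.NHE.Mvc

/-!
# NHE/Siz: change of the size of the ends (difficulty 3)

If `ε₁ ≤ ε`: `X` of `exists_scale` for `(ε, ε' = ε₁)`; apply `fgr_move` with the inverse push `fun s => (X s).symm`: `StdR κ p p' ε σ r T` gives `StdR κ p p' ε₁ σ r` (the standard ends have `nr (ε • (r w, x)) ≤ ε² (1/64 + 1/16) ≤ (ε/2)²`, so `footT κ p 1 (ε • ..) = X 1 (footT κ p 1 (ε₁ • ..))`; same for the tip with `tip_foot`).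
If `ε ≤ ε₁`: `X` of `exists_scale` for `(ε₁, ε' = ε)`.  The traces of `κ (p, ε/8)` run on the segment `κ (p, t)`, `0 < t < max ε ε₁` : continuous in `s` (the chart), so homotopic to the straight segment (`repI_comp`: write the trace as `κ (p, g s)`, `g` continuous: `g s` is read off with the inverse chart).
-/

open scoped Manifold ContDiff Topology
open Set Filter
open Pool.Agent.CSG (stp)
open Pool.Agent.RSG (E3 ex Thick)
open Pool.Agent.KNT (Dom Str Str2 BalC bmp)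
open Pool.Agent.NHP

namespace Pool.Agent.NHE

section
variable {N : Type*} [TopologicalSpace N] [ChartedSpace E3 N] [IsManifold (𝓡 3) ∞ N] [T2Space N]

omit [TopologicalSpace N] [ChartedSpace E3 N] [IsManifold (𝓡 3) ∞ N] [T2Space N] in
theorem siz_foot (κ : ℝ × ℂ → N) (p ε t : ℝ) : footT κ p ε ((0, t) : E) = κ (p, ((ε * t : ℝ) : ℂ)) := by
  unfold footT
  congr 1
  rw [Prod.mk.injEq]
  constructor
  · simp
  · apply Complex.ext <;> simp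

omit [TopologicalSpace N] [ChartedSpace E3 N] [IsManifold (𝓡 3) ∞ N] [T2Space N] in
theorem siz_tip (κ : ℝ × ℂ → N) (p ε σ t : ℝ) : tipT κ p ε σ ((0, t) : E) = κ (p, ((ε * (1 - t) : ℝ) : ℂ)) := by
  unfold tipT
  congr 1
  rw [Prod.mk.injEq]
  constructor
  · simp
  · apply Complex.ext <;> simp

/-- trace of a scaling push on a radius -/
theorem radial_trace {κ : ℝ × ℂ → N} (hκ : Thick κ) {p ε a b : ℝ} (hε : ε ≤ 1 / 2) {O : Set N} {X : ℝ → Equiv.Perm N} (hX : Push O X)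
    (hr : ∀ s, ∀ t ∈ Ioo (0 : ℝ) ε, ∃ t' ∈ Ioo (0 : ℝ) ε, X s (κ (p, (t : ℂ))) = κ (p, (t' : ℂ))) (ha : a ∈ Ioo (0 : ℝ) ε)
    (hb : b ∈ Ioo (0 : ℝ) ε) (h1 : X 1 (κ (p, (a : ℂ))) = κ (p, (b : ℂ))) {Y : Set N}
    (hY : ∀ t ∈ Ioo (0 : ℝ) ε, κ (p, (t : ℂ)) ∈ Y) {y y' : Y} {d : Path y y'}
    (hd : RepI (fun t => κ (p, (t : ℂ))) a b d) : RepI (fun s => X s (κ (p, (a : ℂ)))) 0 1 d := by
  have hb1 : ∀ t ∈ Ioo (0 : ℝ) ε, ((0, t) : E) ∈ Bl ε := by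
    intro t ht
    show nr ((0, t) : E) < ε ^ 2
    unfold nr
    have : t ^ 2 < ε ^ 2 := pow_lt_pow_left₀ ht.2 ht.1.le (by norm_num)
    simpa using this
  have hε0 : 0 < ε := lt_trans ha.1 ha.2
  have hch : Cht (Bl ε) (footT κ p 1) := (foot_cht hκ p).mono (isOpen_Bl ε) (Bl_sub hε0 hε)
  obtain ⟨G, g1, g2⟩ := hch.inv
  have hk : ∀ t : ℝ, κ (p, (t : ℂ)) = footT κ p 1 ((0, t) : E) := by
    intro t
    rw [siz_foot, one_mul]
  have hG : ∀ t ∈ Ioo (0 : ℝ) ε, (G (κ (p, (t : ℂ)))).2 = t := by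
    intro t ht
    rw [hk, g1 _ (hb1 t ht)]
  have hgs : ∀ s, (G (X s (κ (p, (a : ℂ))))).2 ∈ Ioo (0 : ℝ) ε ∧
      X s (κ (p, (a : ℂ))) = κ (p, (((G (X s (κ (p, (a : ℂ))))).2 : ℝ) : ℂ)) := by
    intro s
    obtain ⟨t', ht', h2⟩ := hr s a ha
    rw [h2, hG t' ht']
    exact ⟨ht', rfl⟩
  have hgc : Continuous fun s => (G (X s (κ (p, (a : ℂ))))).2 := by
    rw [continuous_iff_continuousAt]
    intro s
    have h3 : ContinuousAt G (X s (κ (p, (a : ℂ)))) := by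
      apply (g2 _ _).continuousAt
      rw [(hgs s).2, hk]
      exact mem_image_of_mem _ (hb1 _ (hgs s).1)
    have h4 : ContinuousAt (fun s => X s (κ (p, (a : ℂ)))) s :=
      (hX.cont.comp (continuous_id.prodMk continuous_const)).continuousAt
    exact continuousAt_snd.comp (ContinuousAt.comp (f := fun s => X s (κ (p, (a : ℂ)))) h3 h4)
  obtain ⟨u, hu, hu'⟩ := isCompact_Icc.exists_isMinOn (s := Icc (0 : ℝ) 1) ⟨0, by simp⟩ hgc.continuousOn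
  obtain ⟨v, hv, hv'⟩ := isCompact_Icc.exists_isMaxOn (s := Icc (0 : ℝ) 1) ⟨0, by simp⟩ hgc.continuousOn
  have hsub : uIcc (G (X u (κ (p, (a : ℂ))))).2 (G (X v (κ (p, (a : ℂ))))).2 ⊆ Ioo (0 : ℝ) ε :=
    ordConnected_Ioo.uIcc_subset (hgs u).1 (hgs v).1
  have h0 : (G (X 0 (κ (p, (a : ℂ))))).2 = a := by
    rw [hX.zero, Equiv.refl_apply, hG a ha]
  have h1' : (G (X 1 (κ (p, (a : ℂ))))).2 = b := by
    rw [h1, hG b hb]
  have hcomp := repI_comp (f := fun t => κ (p, (t : ℂ))) (g := fun s => (G (X s (κ (p, (a : ℂ))))).2) (a := 0) (b := 1)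
    (a' := (G (X u (κ (p, (a : ℂ))))).2) (b' := (G (X v (κ (p, (a : ℂ))))).2) (c := d)
    (by
      show RepI (fun t => κ (p, (t : ℂ))) (G (X 0 (κ (p, (a : ℂ))))).2 (G (X 1 (κ (p, (a : ℂ))))).2 d
      rw [h0, h1']
      exact hd) hgc.continuousOn
    (by
      intro t ht
      apply ContinuousAt.continuousWithinAt
      have h5 : ContinuousAt κ (p, (t : ℂ)) := by
        refine (hκ.loc p t ?_).contMDiffAt.continuousAt
        rw [Complex.norm_real, Real.norm_eq_abs, abs_lt]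
        have := hsub ht
        constructor <;> linarith [this.1, this.2]
      exact ContinuousAt.comp (f := fun t : ℝ => (p, (t : ℂ))) h5
        (continuous_const.prodMk Complex.continuous_ofReal).continuousAt)
    (fun t ht => hY t (hsub ht))
    (by
      intro t ht
      rw [uIcc_of_le zero_le_one] at ht
      apply Icc_subset_uIcc
      exact ⟨hu' ht, hv' ht⟩)
  exact repI_congr hcomp (fun t _ => (hgs t).2)

theorem siz_push {κ : ℝ × ℂ → N} (hκ : Thick κ) {p p' ε ε₁ : ℝ} (A : Adm p p' ε) (A₁ : Adm p p' ε₁) :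
    ∃ (O : Set N) (Z : ℝ → Equiv.Perm N) (m : ℝ), Push O Z ∧ (∀ s, Z s '' core κ = core κ) ∧ ε ≤ m ∧ ε₁ ≤ m ∧ m < 1 / 4 ∧
      ∀ p₀ : ℝ, p₀ = p ∨ p₀ = p' → (∀ u : E, nr u ≤ 1 / 4 → Z 1 (footT κ p₀ 1 (ε • u)) = footT κ p₀ 1 (ε₁ • u)) ∧
        ∀ s, ∀ t ∈ Ioo (0 : ℝ) m, ∃ t' ∈ Ioo (0 : ℝ) m, Z s (κ (p₀, (t : ℂ))) = κ (p₀, (t' : ℂ)) := by
  have e0 := A.pos
  have e1 := A₁.pos
  rcases le_total ε₁ ε with h | h
  · obtain ⟨X, x1, x2, x3, x4, x5⟩ := exists_scale hκ A A₁.pos h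
    refine ⟨_, fun s => (X s).symm, ε, x1.inv, ?_, le_rfl, h, A.lt, ?_⟩
    · intro s
      have h1 := x2 s
      show (X s).symm '' core κ = core κ
      conv_lhs => rw [← h1]
      rw [← Set.image_comp]
      simp
    · intro p₀ hp₀
      constructor
      · intro u hu
        show (X 1).symm _ = _
        rw [Equiv.symm_apply_eq]
        have h2 : nr (ε₁ • u) ≤ (ε₁ / 2) ^ 2 := by
          rw [nr_smul]
          nlinarith [sq_nonneg ε₁]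
        have h3 : (ε / ε₁) • (ε₁ • u) = ε • u := by
          rw [smul_smul]
          congr 1
          field_simp
        rcases hp₀ with rfl | rfl
        · rw [x3 _ h2, h3]
        · rw [x4 _ h2, h3]
      · intro s t ht
        exact (x5 p₀ hp₀ s t ht).2
  · obtain ⟨X, x1, x2, x3, x4, x5⟩ := exists_scale hκ A₁ A.pos h
    refine ⟨_, X, ε₁, x1, x2, h, le_rfl, A₁.lt, ?_⟩
    intro p₀ hp₀
    constructor
    · intro u hu
      have h2 : nr (ε • u) ≤ (ε / 2) ^ 2 := by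
        rw [nr_smul]
        nlinarith [sq_nonneg ε]
      have h3 : (ε₁ / ε) • (ε • u) = ε₁ • u := by
        rw [smul_smul]
        congr 1
        field_simp
      rcases hp₀ with rfl | rfl
      · rw [x3 _ h2, h3]
      · rw [x4 _ h2, h3]
    · intro s t ht
      exact (x5 p₀ hp₀ s t ht).1

omit [TopologicalSpace N] [ChartedSpace E3 N] [IsManifold (𝓡 3) ∞ N] [T2Space N] in
theorem siz_nr {r x a b : ℝ} {w : ℂ} (h0 : 0 < r) (h1 : r ≤ 1 / 8) (hw : ‖w‖ < 1) (hx : x ^ 2 ≤ 1 / 16)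
    (h : a ^ 2 + b ^ 2 = ‖(r : ℂ) * w‖ ^ 2) : nr ((⟨a, b⟩ : ℂ), x) ≤ 1 / 4 := by
  unfold nr
  show ‖(⟨a, b⟩ : ℂ)‖ ^ 2 + x ^ 2 ≤ 1 / 4
  rw [Complex.sq_norm, Complex.normSq_mk]
  rw [norm_mul, Complex.norm_real, Real.norm_eq_abs, abs_of_pos h0] at h
  have h2 : r * ‖w‖ ≤ 1 / 8 := by nlinarith [norm_nonneg w]
  have h3 : 0 ≤ r * ‖w‖ := by positivity
  nlinarith


theorem fgr_size {κ : ℝ × ℂ → N} (hκ : Thick κ) {p p' ε ε₁ : ℝ} (A : Adm p p' ε) (A₁ : Adm p p' ε₁)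
    {y y' y₁ y₁' : ((core κ)ᶜ : Set N)} {c : Path y y'} {K' : Set N} (h : Fgr κ p p' ε c K') {s : Path y₁ y} {s' : Path y' y₁'}
    (hs : RepI (fun t => κ (p, (t : ℂ))) (ε₁ / 8) (ε / 8) s) (hs' : RepI (fun t => κ (p', (t : ℂ))) (ε / 8) (ε₁ / 8) s') :
    ∃ K'' : Set N, Fgr κ p p' ε₁ (s.trans (c.trans s')) K'' ∧ LEqN K' K'' := by
  obtain ⟨σ, r, T, t1, t2, t3, t4⟩ := h
  obtain ⟨O, Z, m, z1, z2, z3, z4, z5, z6⟩ := siz_push hκ A A₁
  have e0 := A.pos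
  have e1 := A₁.pos
  have f1 : ∀ q ∈ TD, q.2 < 1 / 4 → Z 1 (T q) = footT κ p ε₁ ((r : ℂ) * q.1, q.2) := by
    intro q hq hq'
    rw [t2.foot q hq hq', foot_smul, foot_smul κ p ε₁]
    apply (z6 p (Or.inl rfl)).1
    exact siz_nr (a := ((r : ℂ) * q.1).re) (b := ((r : ℂ) * q.1).im) t2.pos t2.le hq.1 (by nlinarith [hq.2.1])
      (by rw [Complex.sq_norm, Complex.normSq_apply]; ring)
  have f2 : ∀ q ∈ TD, 3 / 4 < q.2 → Z 1 (T q) = tipT κ p' ε₁ σ ((r : ℂ) * q.1, q.2) := by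
    intro q hq hq'
    rw [t2.tip q hq hq', tip_foot, tip_foot κ p' ε₁]
    have h1 : ∀ e : ℝ, ((⟨σ * e * ((r : ℂ) * q.1).im, e * ((r : ℂ) * q.1).re⟩ : ℂ), e * (1 - q.2)) =
        e • (((⟨σ * ((r : ℂ) * q.1).im, ((r : ℂ) * q.1).re⟩ : ℂ), 1 - q.2) : E) := by
      intro e
      rw [Prod.smul_mk, smul_eq_mul, Prod.mk.injEq]
      refine ⟨?_, rfl⟩
      apply Complex.ext
      · rw [Complex.smul_re, smul_eq_mul]
        ring
      · rw [Complex.smul_im, smul_eq_mul]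
    show Z 1 (footT κ p' 1 ((⟨σ * ε * ((r : ℂ) * q.1).im, ε * ((r : ℂ) * q.1).re⟩ : ℂ), ε * (1 - q.2))) =
      footT κ p' 1 ((⟨σ * ε₁ * ((r : ℂ) * q.1).im, ε₁ * ((r : ℂ) * q.1).re⟩ : ℂ), ε₁ * (1 - q.2))
    rw [h1 ε, h1 ε₁]
    apply (z6 p' (Or.inr rfl)).1
    have hσ : σ ^ 2 = 1 := by
      rcases t2.sgn with h2 | h2 <;> rw [h2] <;> norm_num
    refine siz_nr t2.pos t2.le hq.1 (by nlinarith [hq.2.2]) ?_
    rw [Complex.sq_norm, Complex.normSq_apply, mul_pow, hσ]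
    ring
  have hS : StdR κ p p' ε₁ σ r fun q => Z 1 (T q) := ⟨t2.sgn, t2.pos, t2.le, f1, f2⟩
  have m1 : ((0, 1 / 8) : E) ∈ TD := ⟨by simp, by norm_num, by norm_num⟩
  have m2 : ((0, 7 / 8) : E) ∈ TD := ⟨by simp, by norm_num, by norm_num⟩
  have g1 : T ((0, 1 / 8) : E) = κ (p, ((ε / 8 : ℝ) : ℂ)) := by
    rw [t2.foot _ m1 (by norm_num), mul_zero, siz_foot]
    congr 3
    ring
  have g1' : Z 1 (T ((0, 1 / 8) : E)) = κ (p, ((ε₁ / 8 : ℝ) : ℂ)) := by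
    rw [f1 _ m1 (by norm_num), mul_zero, siz_foot]
    congr 3
    ring
  have g2 : T ((0, 7 / 8) : E) = κ (p', ((ε / 8 : ℝ) : ℂ)) := by
    rw [t2.tip _ m2 (by norm_num), mul_zero, siz_tip]
    congr 3
    ring
  have g2' : Z 1 (T ((0, 7 / 8) : E)) = κ (p', ((ε₁ / 8 : ℝ) : ℂ)) := by
    rw [f2 _ m2 (by norm_num), mul_zero, siz_tip]
    congr 3
    ring
  have hY : ∀ p₀ : ℝ, ∀ t ∈ Ioo (0 : ℝ) m, κ (p₀, (t : ℂ)) ∈ ((core κ)ᶜ : Set N) := by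
    intro p₀ t ht
    have h1 : ‖(t : ℂ)‖ < 1 := by
      rw [Complex.norm_real, Real.norm_eq_abs, abs_of_pos ht.1]
      linarith [ht.2]
    rw [mem_compl_iff, mem_core hκ h1]
    exact_mod_cast ht.1.ne'
  have ha : ε / 8 ∈ Ioo (0 : ℝ) m := ⟨by linarith, by linarith⟩
  have hb : ε₁ / 8 ∈ Ioo (0 : ℝ) m := ⟨by linarith, by linarith⟩
  have hd : RepI (fun u => Z u (T ((0, 1 / 8) : E))) 0 1 s.symm := by
    rw [g1] at g1' ⊢
    exact radial_trace hκ (by linarith) z1 (z6 p (Or.inl rfl)).2 ha hb g1' (hY p) (repI_symm hs)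
  have hd' : RepI (fun u => Z u (T ((0, 7 / 8) : E))) 0 1 s' := by
    rw [g2] at g2' ⊢
    exact radial_trace hκ (by linarith) z1 (z6 p' (Or.inr rfl)).2 ha hb g2' (hY p') hs'
  obtain ⟨K'', k1, k2⟩ := fgr_move z1 z2 t1 t3 hd hd' hS
  rw [Path.symm_symm] at k1
  rw [t4]
  exact ⟨K'', k1, k2⟩

end

end Pool.Agent.NHE
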