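import Pool.Agent.NHE.Ysd
import Pool.Agent.CSG.LDb
import Pool.Agent.NHP.Grp

/-!
# NHE/Rbm: one ribbon move (difficulty 4)

`Yf` from `exists_side`.  `ξ : ℝ → ℝ` smooth with positive derivative, `0 < ξ (-1)`, `ξ 1 < 1`, `ξ s ≤ a` for `s ≤ -1/2`, `1 - a ≤ ξ s` for `s ≥ 1/2` (for instance `ξ s = 1/2 + (1/2 - a/4) (δ s + (1 - δ) (2 stp (-1/2) (1/2) s - 1))`, `δ = a/4`).
`b l (z, s) = A l ((e Yf (ξ s)) z, ξ s)`: for `(z, s) ∈ Dom` the point is in `TD`, `‖e Yf z‖ < e/2 < e₀`, `0 < ξ s < 1`.  `TubesN b`: `sep` from `hsep` (`ξ s ≤ a` or `≥ 1 - a` for `|s| ≥ 1/2`; the points are different since `ξ` is injective).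
The strands: `b l '' Str = A l '' {(± e Yf x, x) : ξ (-1) < x < ξ 1}` = the part `ξ (-1) < x < ξ 1` of the finger `{(e u, 9/8 bmp u)}`.
`Z = (K \ A 0 '' {q ∈ TS, ‖q.1‖ < e}) ∪ A 0 '' {(e u, 9/8 bmp u) : |u| < 1, 9/8 bmp u ∉ Ioo (ξ (-1)) (ξ 1)} ∪ A 0 '' {q ∈ Tip, ‖q.1‖ < e}`.  For `l = 0, 1`: `kn K (A l (e ·, ·)) = Z ∪ b l '' Str` (`A l = A 0` on the end pieces; `K ∩ A l '' {thin TD} = A l '' {thin TS}` by `hK`).
`Z` is disjoint from `b l '' Dom`: the points of `K` by `hK` (`0 < ξ s < 1`), the others by `hends`, `hsep`.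
-/

open scoped Manifold ContDiff Topology
open Set Filter
open Pool.Agent.CSG (stp)
open Pool.Agent.RSG (E3 ex Thick)
open Pool.Agent.KNT (Dom Str Str2 BalC bmp)
open Pool.Agent.NHP

namespace Pool.Agent.NHE

/-- the reparametrisation -/
noncomputable def rbm_xi (a s : ℝ) : ℝ :=
  1 / 2 + (1 / 2 - a / 4) * (a / 4 * s + (1 - a / 4) * (2 * stp (-(1 / 2)) (1 / 2) s - 1))

theorem rbm_smooth (a : ℝ) : ContDiff ℝ ∞ (rbm_xi a) := by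
  unfold rbm_xi
  have h1 : ContDiff ℝ ∞ (stp (-(1 / 2)) (1 / 2)) := CSG.stp_smooth _ _
  exact contDiff_const.add (contDiff_const.mul ((contDiff_const.mul contDiff_id).add
    (contDiff_const.mul ((contDiff_const.mul h1).sub contDiff_const))))

theorem rbm_deriv {a : ℝ} (ha : 0 < a) (ha' : a < 1 / 8) (s : ℝ) : ∃ d : ℝ, 0 < d ∧ HasDerivAt (rbm_xi a) d s := by
  have h1 : HasDerivAt (stp (-(1 / 2)) (1 / 2)) (deriv (stp (-(1 / 2)) (1 / 2)) s) s :=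
    ((CSG.stp_smooth (-(1 / 2)) (1 / 2)).differentiable (by simp) s).hasDerivAt
  have h2 : 0 ≤ deriv (stp (-(1 / 2)) (1 / 2)) s := CSG.stp_deriv_nonneg (by norm_num) s
  refine ⟨(1 / 2 - a / 4) * (a / 4 * 1 + (1 - a / 4) * (2 * deriv (stp (-(1 / 2)) (1 / 2)) s)), ?_, ?_⟩
  · have h3 : 0 ≤ (1 - a / 4) * (2 * deriv (stp (-(1 / 2)) (1 / 2)) s) := mul_nonneg (by linarith) (by linarith)
    exact mul_pos (by linarith) (by linarith)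
  · unfold rbm_xi
    exact ((((hasDerivAt_id s).const_mul (a / 4)).add
      (((h1.const_mul 2).sub_const 1).const_mul (1 - a / 4))).const_mul (1 / 2 - a / 4)).const_add (1 / 2)

theorem rbm_mono {a : ℝ} (ha : 0 < a) (ha' : a < 1 / 8) : StrictMono (rbm_xi a) := by
  intro s s' h
  have h1 := CSG.stp_mono (a := -(1 / 2)) (b := 1 / 2) (by norm_num) h.le
  have h2 : 0 < a / 4 * (s' - s) := mul_pos (by linarith) (by linarith)
  have h3 : 0 ≤ (1 - a / 4) * (2 * (stp (-(1 / 2)) (1 / 2) s' - stp (-(1 / 2)) (1 / 2) s)) :=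
    mul_nonneg (by linarith) (by linarith)
  have h4 : rbm_xi a s' - rbm_xi a s = (1 / 2 - a / 4) * (a / 4 * (s' - s) +
      (1 - a / 4) * (2 * (stp (-(1 / 2)) (1 / 2) s' - stp (-(1 / 2)) (1 / 2) s))) := by
    unfold rbm_xi; ring
  have h5 : 0 < (1 / 2 - a / 4) * (a / 4 * (s' - s) +
      (1 - a / 4) * (2 * (stp (-(1 / 2)) (1 / 2) s' - stp (-(1 / 2)) (1 / 2) s))) := mul_pos (by linarith) (by linarith)
  linarith

theorem rbm_neg_one (a : ℝ) : rbm_xi a (-1) = a / 4 := by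
  unfold rbm_xi
  rw [CSG.stp_zero (by norm_num) (by norm_num)]
  ring

theorem rbm_one (a : ℝ) : rbm_xi a 1 = 1 - a / 4 := by
  unfold rbm_xi
  rw [CSG.stp_one (by norm_num) (by norm_num)]
  ring

theorem rbm_lo {a s : ℝ} (ha : 0 < a) (ha' : a < 1 / 8) (h : s ≤ -(1 / 2)) : rbm_xi a s ≤ a := by
  refine ((rbm_mono ha ha').monotone h).trans ?_
  unfold rbm_xi
  rw [CSG.stp_zero (by norm_num) (by norm_num)]
  nlinarith

theorem rbm_hi {a s : ℝ} (ha : 0 < a) (ha' : a < 1 / 8) (h : 1 / 2 ≤ s) : 1 - a ≤ rbm_xi a s := by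
  refine le_trans ?_ ((rbm_mono ha ha').monotone h)
  unfold rbm_xi
  rw [CSG.stp_one (by norm_num) (by norm_num)]
  nlinarith

theorem rbm_ends {a s : ℝ} (ha : 0 < a) (ha' : a < 1 / 8) (h : 1 / 2 ≤ |s|) : rbm_xi a s ≤ a ∨ 1 - a ≤ rbm_xi a s := by
  rcases le_abs'.1 h with h | h
  · exact Or.inl (rbm_lo ha ha' h)
  · exact Or.inr (rbm_hi ha ha' h)

theorem rbm_mem {a s : ℝ} (ha : 0 < a) (ha' : a < 1 / 8) (h : |s| < 1) : rbm_xi a s ∈ Ioo (a / 4) (1 - a / 4) := by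
  have h1 := abs_lt.1 h
  have h2 := rbm_mono ha ha' h1.1
  have h3 := rbm_mono ha ha' h1.2
  rw [rbm_neg_one] at h2
  rw [rbm_one] at h3
  exact ⟨h2, h3⟩

theorem rbm_surj {a x : ℝ} (h : x ∈ Ioo (a / 4) (1 - a / 4)) : ∃ s : ℝ, |s| < 1 ∧ rbm_xi a s = x := by
  have h1 : ContinuousOn (rbm_xi a) (Icc (-1) 1) := (rbm_smooth a).continuous.continuousOn
  have h2 := intermediate_value_Ioo (by norm_num : (-1 : ℝ) ≤ 1) h1
  rw [rbm_neg_one, rbm_one] at h2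
  obtain ⟨s, hs, hsx⟩ := h2 h
  exact ⟨s, abs_lt.2 hs, hsx⟩

/-- the map to the model tube -/
noncomputable def rbm_b (Yf : ℝ → ℝ) (a e : ℝ) (q : E) : E := ((e * Yf (rbm_xi a q.2)) • q.1, rbm_xi a q.2)

section
variable {Yf : ℝ → ℝ} (hY1 : ∀ x ∈ Ioo (0 : ℝ) (9 / 8), ContDiffAt ℝ ∞ Yf x)
  (hY2 : ∀ x ∈ Ioo (0 : ℝ) (9 / 8), 1 / 16 < Yf x ∧ Yf x < 1 / 8)
  {a e : ℝ} (ha : 0 < a) (ha' : a < 1 / 8) (he : 0 < e)

include ha ha' in
theorem rbm_x {q : E} (hq : q ∈ Dom) : rbm_xi a q.2 ∈ Ioo (0 : ℝ) (9 / 8) := by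
  have h := rbm_mem ha ha' hq.2
  exact ⟨by linarith [h.1], by linarith [h.2]⟩

include hY2 ha ha' he in
theorem rbm_norm {q : E} (hq : q ∈ Dom) : ‖(rbm_b Yf a e q).1‖ < e := by
  have h1 := hY2 _ (rbm_x ha ha' hq)
  change ‖(e * Yf (rbm_xi a q.2)) • q.1‖ < e
  have h2 : 0 < Yf (rbm_xi a q.2) := by linarith [h1.1]
  rw [norm_smul, Real.norm_eq_abs, abs_mul, abs_of_pos he, abs_of_pos h2]
  have h3 : ‖q.1‖ < 4 := hq.1
  have h4 : Yf (rbm_xi a q.2) * ‖q.1‖ < 1 := by nlinarith [norm_nonneg q.1]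
  calc e * Yf (rbm_xi a q.2) * ‖q.1‖ = e * (Yf (rbm_xi a q.2) * ‖q.1‖) := by ring
    _ < e * 1 := mul_lt_mul_of_pos_left h4 he
    _ = e := mul_one e

include hY1 ha ha' in
theorem rbm_bs {q : E} (hq : q ∈ Dom) : ContDiffAt ℝ ∞ (rbm_b Yf a e) q := by
  have h1 : ContDiffAt ℝ ∞ (fun q : E => rbm_xi a q.2) q := ((rbm_smooth a).comp contDiff_snd).contDiffAt
  have h2 : ContDiffAt ℝ ∞ (fun q : E => Yf (rbm_xi a q.2)) q :=
    ContDiffAt.comp (f := fun q : E => rbm_xi a q.2) (g := Yf) q (hY1 _ (rbm_x ha ha' hq)) h1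
  exact ((contDiffAt_const.mul h2).smul contDiffAt_fst).prodMk h1

theorem rbm_dom_open : IsOpen Dom := by
  have h1 : IsOpen {q : E | ‖q.1‖ < 4} := isOpen_lt (by fun_prop) continuous_const
  have h2 : IsOpen {q : E | |q.2| < 1} := isOpen_lt (by fun_prop) continuous_const
  exact h1.inter h2

include hY1 hY2 ha ha' he in
theorem rbm_bl {q : E} (hq : q ∈ Dom) : IsLocalDiffeomorphAt 𝓘(ℝ, ℂ × ℝ) 𝓘(ℝ, ℂ × ℝ) ∞ (rbm_b Yf a e) q := by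
  refine CSG.ld_of_fderiv ?_ rfl ?_
  · filter_upwards [rbm_dom_open.mem_nhds hq] with p hp
    exact rbm_bs hY1 ha ha' hp
  · intro v hv
    obtain ⟨d, hd, h1⟩ := rbm_deriv ha ha' q.2
    have h2 : HasDerivAt Yf (deriv Yf (rbm_xi a q.2)) (rbm_xi a q.2) :=
      ((hY1 _ (rbm_x ha ha' hq)).differentiableAt (by simp)).hasDerivAt
    have h3 : HasDerivAt (fun s => e * Yf (rbm_xi a s)) (e * (deriv Yf (rbm_xi a q.2) * d)) q.2 :=
      (h2.comp q.2 h1).const_mul e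
    have h4 : HasFDerivAt (fun q : E => e * Yf (rbm_xi a q.2))
        ((e * (deriv Yf (rbm_xi a q.2) * d)) • ContinuousLinearMap.snd ℝ ℂ ℝ) q :=
      h3.comp_hasFDerivAt q hasFDerivAt_snd
    have h5 : HasFDerivAt (fun q : E => rbm_xi a q.2) (d • ContinuousLinearMap.snd ℝ ℂ ℝ) q :=
      h1.comp_hasFDerivAt q hasFDerivAt_snd
    have h6 := (h4.smul (hasFDerivAt_fst (𝕜 := ℝ) (E := ℂ) (F := ℝ) (p := q))).prodMk h5
    have h7 := h6.fderiv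
    change fderiv ℝ (rbm_b Yf a e) q = _ at h7
    rw [h7] at hv
    have h8 := congrArg Prod.snd hv
    have h9 := congrArg Prod.fst hv
    change d * v.2 = 0 at h8
    have h10 : v.2 = 0 := by
      rcases mul_eq_zero.1 h8 with h | h
      · exact absurd h hd.ne'
      · exact h
    change (e * Yf (rbm_xi a q.2)) • v.1 + ((e * (deriv Yf (rbm_xi a q.2) * d)) * v.2) • q.1 = 0 at h9
    rw [h10, mul_zero, zero_smul, add_zero] at h9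
    have h11 := (hY2 _ (rbm_x ha ha' hq)).1
    have h12 : e * Yf (rbm_xi a q.2) ≠ 0 := (mul_pos he (by linarith)).ne'
    have h13 : v.1 = 0 := (smul_eq_zero.1 h9).resolve_left h12
    exact Prod.ext h13 h10

include hY2 ha ha' he in
theorem rbm_binj {q q' : E} (hq : q ∈ Dom) (h : rbm_b Yf a e q = rbm_b Yf a e q') : q = q' := by
  have h1 : rbm_xi a q.2 = rbm_xi a q'.2 := congrArg Prod.snd h
  have h2 : q.2 = q'.2 := (rbm_mono ha ha').injective h1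
  have h3 : (e * Yf (rbm_xi a q.2)) • q.1 = (e * Yf (rbm_xi a q'.2)) • q'.1 := congrArg Prod.fst h
  rw [← h1] at h3
  have h11 := (hY2 _ (rbm_x ha ha' hq)).1
  have h12 : e * Yf (rbm_xi a q.2) ≠ 0 := (mul_pos he (by linarith)).ne'
  exact Prod.ext (smul_right_injective ℂ h12 h3) h2

end

/-- the finger, part over `S` -/
def rbm_F (e : ℝ) (S : Set ℝ) : Set E := {q | ∃ u : ℝ, |u| < 1 ∧ 9 / 8 * bmp u ∈ S ∧ q = (((e * u : ℝ) : ℂ), 9 / 8 * bmp u)}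

/-- the tip strand -/
def rbm_P (e : ℝ) : Set E := {q | ‖q.1‖ < e ∧ q.1.re = 0 ∧ q.2 = 1}

/-- the thin tube -/
def rbm_D (e : ℝ) : Set E := {q | ‖q.1‖ < e ∧ -(1 / 4) < q.2 ∧ q.2 < 5 / 4}

theorem rbm_DT {e : ℝ} (he1 : e ≤ 1) {q : E} (hq : q ∈ rbm_D e) : q ∈ TD := ⟨hq.1.trans_le he1, hq.2⟩

theorem rbm_FD {e : ℝ} (he : 0 < e) {S : Set ℝ} {q : E} (hq : q ∈ rbm_F e S) : q ∈ rbm_D e := by
  obtain ⟨u, hu, -, rfl⟩ := hq
  have h1 := KNT.bmp_nonneg u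
  have h2 := KNT.bmp_le_one u
  refine ⟨?_, ?_, ?_⟩
  · change ‖((e * u : ℝ) : ℂ)‖ < e
    rw [Complex.norm_real, Real.norm_eq_abs, abs_mul, abs_of_pos he]
    nlinarith
  · change -(1 / 4) < 9 / 8 * bmp u
    linarith
  · change 9 / 8 * bmp u < 5 / 4
    linarith

theorem rbm_PD {e : ℝ} {q : E} (hq : q ∈ rbm_P e) : q ∈ rbm_D e :=
  ⟨hq.1, by rw [hq.2.2]; norm_num, by rw [hq.2.2]; norm_num⟩

theorem rbm_mul {e : ℝ} (he : 0 < e) (w : ℂ) : ‖(e : ℂ) * w‖ = e * ‖w‖ := by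
  rw [norm_mul, Complex.norm_real, Real.norm_of_nonneg he.le]

theorem rbm_imTD {N : Type*} {e : ℝ} (he : 0 < e) (f : E → N) :
    (fun q : E => f ((e : ℂ) * q.1, q.2)) '' TD = f '' rbm_D e := by
  have hec : (e : ℂ) ≠ 0 := by exact_mod_cast he.ne'
  apply Subset.antisymm
  · rintro _ ⟨q, hq, rfl⟩
    refine ⟨((e : ℂ) * q.1, q.2), ⟨?_, hq.2⟩, rfl⟩
    change ‖(e : ℂ) * q.1‖ < e
    rw [rbm_mul he]
    have h1 : ‖q.1‖ < 1 := hq.1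
    nlinarith [norm_nonneg q.1]
  · rintro _ ⟨q, hq, rfl⟩
    refine ⟨(q.1 / e, q.2), ⟨?_, hq.2⟩, ?_⟩
    · change ‖q.1 / e‖ < 1
      rw [norm_div, Complex.norm_real, Real.norm_of_nonneg he.le, div_lt_one he]
      exact hq.1
    · change f ((e : ℂ) * (q.1 / e), q.2) = f q
      congr 1
      refine Prod.ext ?_ rfl
      change (e : ℂ) * (q.1 / e) = q.1
      field_simp

theorem rbm_imTF {N : Type*} {e : ℝ} (he : 0 < e) (f : E → N) (S : Set ℝ) :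
    (fun q : E => f ((e : ℂ) * q.1, q.2)) '' TF = f '' rbm_F e S ∪ f '' rbm_F e Sᶜ ∪ f '' rbm_P e := by
  have hec : (e : ℂ) ≠ 0 := by exact_mod_cast he.ne'
  apply Subset.antisymm
  · rintro _ ⟨q, ⟨hq, h | h⟩, rfl⟩
    · have hu : |q.1.re| < 1 := (Complex.abs_re_le_norm _).trans_lt hq.1
      have e1 : (((e : ℂ) * q.1, q.2) : E) = (((e * q.1.re : ℝ) : ℂ), 9 / 8 * bmp q.1.re) := by
        refine Prod.ext (Complex.ext ?_ ?_) h.2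
        · simp
        · simp [h.1]
      left
      by_cases hS : 9 / 8 * bmp q.1.re ∈ S
      · exact Or.inl ⟨_, ⟨q.1.re, hu, hS, e1⟩, rfl⟩
      · exact Or.inr ⟨_, ⟨q.1.re, hu, hS, e1⟩, rfl⟩
    · right
      refine ⟨((e : ℂ) * q.1, q.2), ⟨?_, ?_, h.1⟩, rfl⟩
      · change ‖(e : ℂ) * q.1‖ < e
        rw [rbm_mul he]
        have h1 : ‖q.1‖ < 1 := hq.1
        nlinarith [norm_nonneg q.1]
      · change ((e : ℂ) * q.1).re = 0
        simp [h.2]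
  · have hF : ∀ S' : Set ℝ, f '' rbm_F e S' ⊆ (fun q : E => f ((e : ℂ) * q.1, q.2)) '' TF := by
      rintro S' _ ⟨_, ⟨u, hu, -, rfl⟩, rfl⟩
      have h1 := KNT.bmp_nonneg u
      have h2 := KNT.bmp_le_one u
      refine ⟨((u : ℂ), 9 / 8 * bmp u), ⟨⟨?_, ?_, ?_⟩, Or.inl ⟨Complex.ofReal_im u, ?_⟩⟩, ?_⟩
      · change ‖(u : ℂ)‖ < 1
        rw [Complex.norm_real]
        exact hu
      · change -(1 / 4) < 9 / 8 * bmp u
        linarith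
      · change 9 / 8 * bmp u < 5 / 4
        linarith
      · change 9 / 8 * bmp u = 9 / 8 * bmp ((u : ℂ)).re
        rw [Complex.ofReal_re]
      · change f ((e : ℂ) * (u : ℂ), 9 / 8 * bmp u) = f (((e * u : ℝ) : ℂ), 9 / 8 * bmp u)
        rw [Complex.ofReal_mul]
    rintro y ((h | h) | ⟨q, ⟨h1, h2, h3⟩, rfl⟩)
    · exact hF _ h
    · exact hF _ h
    · refine ⟨(q.1 / e, q.2), ⟨⟨?_, ?_, ?_⟩, Or.inr ⟨h3, ?_⟩⟩, ?_⟩
      · change ‖q.1 / e‖ < 1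
        rw [norm_div, Complex.norm_real, Real.norm_of_nonneg he.le, div_lt_one he]
        exact h1
      · change -(1 / 4) < q.2
        rw [h3]; norm_num
      · change q.2 < 5 / 4
        rw [h3]; norm_num
      · change (q.1 / (e : ℂ)).re = 0
        rw [Complex.div_ofReal_re, h2, zero_div]
      · change f ((e : ℂ) * (q.1 / e), q.2) = f q
        congr 1
        refine Prod.ext ?_ rfl
        change (e : ℂ) * (q.1 / e) = q.1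
        field_simp

theorem rbm_str {N : Type*} {Yf : ℝ → ℝ} (hY2 : ∀ x ∈ Ioo (0 : ℝ) (9 / 8), 1 / 16 < Yf x ∧ Yf x < 1 / 8)
    (hY3 : ∀ x ∈ Ioo (0 : ℝ) (9 / 8), ∀ u : ℝ, 9 / 8 * bmp u = x ↔ u = Yf x ∨ u = -Yf x)
    {a e : ℝ} (ha : 0 < a) (ha' : a < 1 / 8) (f : E → N) :
    (fun q => f (rbm_b Yf a e q)) '' Str = f '' rbm_F e (Ioo (a / 4) (1 - a / 4)) := by
  have hIoo : ∀ x ∈ Ioo (a / 4) (1 - a / 4), x ∈ Ioo (0 : ℝ) (9 / 8) :=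
    fun x hx => ⟨by linarith [hx.1], by linarith [hx.2]⟩
  apply Subset.antisymm
  · rintro _ ⟨⟨z, s⟩, ⟨hz, hs⟩, rfl⟩
    have hm := rbm_mem ha ha' hs
    have hY := hY2 _ (hIoo _ hm)
    rcases hz with hz | hz
    · have hz' : z = 1 := hz
      subst hz'
      have h1 := (hY3 _ (hIoo _ hm) (Yf (rbm_xi a s))).2 (Or.inl rfl)
      refine ⟨_, ⟨Yf (rbm_xi a s), ?_, ?_, rfl⟩, ?_⟩
      · rw [abs_lt]; constructor <;> linarith [hY.1, hY.2]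
      · rw [h1]; exact hm
      · change f (((e * Yf (rbm_xi a s) : ℝ) : ℂ), 9 / 8 * bmp (Yf (rbm_xi a s))) =
          f ((e * Yf (rbm_xi a s)) • (1 : ℂ), rbm_xi a s)
        rw [h1, Complex.real_smul, mul_one]
    · have hz' : z = -1 := hz
      subst hz'
      have h1 := (hY3 _ (hIoo _ hm) (-Yf (rbm_xi a s))).2 (Or.inr rfl)
      refine ⟨_, ⟨-Yf (rbm_xi a s), ?_, ?_, rfl⟩, ?_⟩
      · rw [abs_lt]; constructor <;> linarith [hY.1, hY.2]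
      · rw [h1]; exact hm
      · change f (((e * -Yf (rbm_xi a s) : ℝ) : ℂ), 9 / 8 * bmp (-Yf (rbm_xi a s))) =
          f ((e * Yf (rbm_xi a s)) • (-1 : ℂ), rbm_xi a s)
        rw [h1, Complex.real_smul]
        congr 2
        push_cast
        ring
  · rintro _ ⟨_, ⟨u, hu, hm, rfl⟩, rfl⟩
    obtain ⟨s, hs, hsx⟩ := rbm_surj hm
    rcases (hY3 _ (hIoo _ hm) u).1 rfl with h | h
    · refine ⟨(1, s), ⟨Or.inl rfl, hs⟩, ?_⟩
      change f ((e * Yf (rbm_xi a s)) • (1 : ℂ), rbm_xi a s) = _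
      rw [hsx, ← h, Complex.real_smul, mul_one]
    · refine ⟨(-1, s), ⟨Or.inr rfl, hs⟩, ?_⟩
      change f ((e * Yf (rbm_xi a s)) • (-1 : ℂ), rbm_xi a s) = _
      have h2 : Yf (9 / 8 * bmp u) = -u := by linarith
      rw [hsx, h2, Complex.real_smul]
      congr 2
      push_cast
      ring

section
variable {N : Type*} [TopologicalSpace N] [ChartedSpace E3 N] [IsManifold (𝓡 3) ∞ N] [T2Space N]

theorem rib_move {K : Set N} {A : ℝ → E → N} {e₀ a : ℝ} (he₀ : 0 < e₀) (he₁ : e₀ ≤ 1) (ha : 0 < a) (ha' : a < 1 / 8)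
    (hs : ∀ l ∈ Icc (0 : ℝ) 1, ∀ q ∈ TD, ‖q.1‖ < e₀ →
      ContMDiffAt 𝓘(ℝ, ℝ × (ℂ × ℝ)) (𝓡 3) ∞ (fun p : ℝ × (ℂ × ℝ) => A p.1 p.2) (l, q))
    (hl : ∀ l ∈ Icc (0 : ℝ) 1, ∀ q ∈ TD, ‖q.1‖ < e₀ → IsLocalDiffeomorphAt 𝓘(ℝ, ℂ × ℝ) (𝓡 3) ∞ (A l) q)
    (hends : ∀ l ∈ Icc (0 : ℝ) 1, ∀ q ∈ TD, ‖q.1‖ < e₀ → q.2 ≤ a ∨ 1 - a ≤ q.2 → A l q = A 0 q)
    (hinj : ∀ l : ℝ, l = 0 ∨ l = 1 → InjOn (A l) {q | q ∈ TD ∧ ‖q.1‖ < e₀})
    (hsep : ∀ l ∈ Icc (0 : ℝ) 1, ∀ q ∈ TD, ‖q.1‖ < e₀ → q.2 ≤ a ∨ 1 - a ≤ q.2 → ∀ q' ∈ TD, ‖q'.1‖ < e₀ →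
      A l q = A l q' → q = q')
    (hK : ∀ l ∈ Icc (0 : ℝ) 1, ∀ q ∈ TD, ‖q.1‖ < e₀ → (A l q ∈ K ↔ q ∈ TS)) {e : ℝ} (he : 0 < e) (he' : e ≤ e₀) :
    LEqN (kn K fun q => A 0 ((e : ℂ) * q.1, q.2)) (kn K fun q => A 1 ((e : ℂ) * q.1, q.2)) := by
  obtain ⟨Yf, hY1, hY2, hY3⟩ := exists_side
  have he1 : e ≤ 1 := he'.trans he₁
  let b : ℝ → E → N := fun l q => A l (rbm_b Yf a e q)
  let Z : Set N := (K \ A 0 '' (rbm_D e ∩ TS)) ∪ (A 0 '' rbm_F e (Ioo (a / 4) (1 - a / 4))ᶜ ∪ A 0 '' rbm_P e)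
  have hDe : ∀ q ∈ rbm_D e, q ∈ TD ∧ ‖q.1‖ < e₀ := fun q hq => ⟨rbm_DT he1 hq, hq.1.trans_le he'⟩
  -- the points `rbm_b q`
  have hbD : ∀ q ∈ Dom, rbm_b Yf a e q ∈ rbm_D e := by
    intro q hq
    have h1 := rbm_x ha ha' hq
    refine ⟨rbm_norm hY2 ha ha' he hq, ?_, ?_⟩
    · change -(1 / 4) < rbm_xi a q.2
      linarith [h1.1]
    · change rbm_xi a q.2 < 5 / 4
      linarith [h1.2]
  have hFend : ∀ q ∈ rbm_F e (Ioo (a / 4) (1 - a / 4))ᶜ, q.2 ≤ a ∨ 1 - a ≤ q.2 := by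
    rintro _ ⟨u, -, hu, rfl⟩
    change 9 / 8 * bmp u ≤ a ∨ 1 - a ≤ 9 / 8 * bmp u
    by_contra h
    rw [not_or, not_le, not_le] at h
    exact hu ⟨by linarith [h.1], by linarith [h.2]⟩
  have hPend : ∀ q ∈ rbm_P e, q.2 ≤ a ∨ 1 - a ≤ q.2 := fun q hq => Or.inr (by rw [hq.2.2]; linarith)
  have hSend : ∀ q ∈ rbm_D e ∩ TS, q.2 ≤ a ∨ 1 - a ≤ q.2 := by
    rintro q ⟨-, -, ⟨h, -⟩ | ⟨h, -⟩⟩
    · exact Or.inl (by rw [h]; linarith)
    · exact Or.inr (by rw [h]; linarith)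
  have hsame : ∀ l ∈ Icc (0 : ℝ) 1, ∀ S : Set E, S ⊆ rbm_D e → (∀ q ∈ S, q.2 ≤ a ∨ 1 - a ≤ q.2) →
      A l '' S = A 0 '' S := by
    intro l hl S hS hSe
    apply image_congr
    intro q hq
    exact hends l hl q (hDe q (hS hq)).1 (hDe q (hS hq)).2 (hSe q hq)
  -- the knots
  have hkn : ∀ l ∈ Icc (0 : ℝ) 1, kn K (fun q => A l ((e : ℂ) * q.1, q.2)) = Z ∪ b l '' Str := by
    intro l hl
    unfold kn
    rw [rbm_imTD he (A l), rbm_imTF he (A l) (Ioo (a / 4) (1 - a / 4)), rbm_str hY2 hY3 ha ha' (A l)]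
    have h1 : K \ A l '' rbm_D e = K \ A 0 '' (rbm_D e ∩ TS) := by
      rw [← hsame l hl (rbm_D e ∩ TS) inter_subset_left hSend]
      ext y
      constructor
      · rintro ⟨hy, h⟩
        exact ⟨hy, fun ⟨q, hq, hqy⟩ => h ⟨q, hq.1, hqy⟩⟩
      · rintro ⟨hy, h⟩
        refine ⟨hy, ?_⟩
        rintro ⟨q, hq, rfl⟩
        exact h ⟨q, ⟨hq, (hK l hl q (hDe q hq).1 (hDe q hq).2).1 hy⟩, rfl⟩
    rw [h1, hsame l hl (rbm_F e (Ioo (a / 4) (1 - a / 4))ᶜ) (fun q hq => rbm_FD he hq) hFend,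
      hsame l hl (rbm_P e) (fun q hq => rbm_PD hq) hPend]
    ext y
    simp only [Z, mem_union]
    tauto
  have h0 : (0 : ℝ) ∈ Icc (0 : ℝ) 1 := ⟨le_rfl, zero_le_one⟩
  have h1 : (1 : ℝ) ∈ Icc (0 : ℝ) 1 := ⟨zero_le_one, le_rfl⟩
  rw [hkn 0 h0, hkn 1 h1]
  have hbends : ∀ l ∈ Icc (0 : ℝ) 1, ∀ q ∈ Dom, 1 / 2 ≤ |q.2| → b l q = b 0 q := by
    intro l hl q hq h
    exact hends l hl _ (hDe _ (hbD q hq)).1 (hDe _ (hbD q hq)).2 (rbm_ends ha ha' h)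
  have hinjb : ∀ l : ℝ, l = 0 ∨ l = 1 → InjOn (b l) Dom := by
    intro l hl q hq q' hq' h
    exact rbm_binj hY2 ha ha' he hq (hinj l hl (hDe _ (hbD q hq)) (hDe _ (hbD q' hq')) h)
  apply LEqN.rib
  · refine ⟨?_, ?_, hbends, hinjb 0 (Or.inl rfl), hinjb 1 (Or.inr rfl), ?_⟩
    · intro l hl q hq
      have h2 := hs l hl _ (hDe _ (hbD q hq)).1 (hDe _ (hbD q hq)).2
      have h3 : ContDiffAt ℝ ∞ (fun p : ℝ × (ℂ × ℝ) => (p.1, rbm_b Yf a e p.2)) (l, q) := by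
        refine contDiffAt_fst.prodMk ?_
        exact ContDiffAt.comp (f := fun p : ℝ × (ℂ × ℝ) => p.2) (g := rbm_b Yf a e) (l, q)
          (rbm_bs hY1 ha ha' hq) contDiffAt_snd
      exact ContMDiffAt.comp (f := fun p : ℝ × (ℂ × ℝ) => (p.1, rbm_b Yf a e p.2))
        (g := fun p : ℝ × (ℂ × ℝ) => A p.1 p.2) (l, q) h2 h3.contMDiffAt
    · intro l hl' q hq
      exact IsLocalDiffeomorphAt.comp (hf := rbm_bl hY1 hY2 ha ha' he hq)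
        (hg := hl l hl' _ (hDe _ (hbD q hq)).1 (hDe _ (hbD q hq)).2)
    · intro l hl q hq h2 q' hq' h3 h4
      rw [← hbends l hl q' hq' (by linarith)] at h4
      have h5 := hsep l hl _ (hDe _ (hbD q' hq')).1 (hDe _ (hbD q' hq')).2 (rbm_ends ha ha' (by linarith)) _
        (hDe _ (hbD q hq)).1 (hDe _ (hbD q hq)).2 h4.symm
      have h6 := rbm_binj hY2 ha ha' he hq' h5
      rw [h6] at h3
      linarith
  · intro l hl'
    rw [Set.disjoint_right]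
    rintro _ ⟨q, hq, rfl⟩ hz
    have hp := hDe _ (hbD q hq)
    have hm := rbm_mem ha ha' hq.2
    rcases hz with ⟨hz, -⟩ | (⟨q', hq', hqq⟩ | ⟨q', hq', hqq⟩)
    · have h2 := (hK l hl' _ hp.1 hp.2).1 hz
      rcases h2.2 with ⟨h3, -⟩ | ⟨h3, -⟩
      · change rbm_xi a q.2 = 0 at h3
        linarith [hm.1]
      · change rbm_xi a q.2 = 1 at h3
        linarith [hm.2]
    · have hq1 := hDe _ (rbm_FD he hq')
      rw [← hends l hl' q' hq1.1 hq1.2 (hFend q' hq')] at hqq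
      have h5 := hsep l hl' q' hq1.1 hq1.2 (hFend q' hq') _ hp.1 hp.2 hqq
      obtain ⟨u, -, hu, hqu⟩ := hq'
      apply hu
      have h6 : 9 / 8 * bmp u = rbm_xi a q.2 := by
        have h7 := congrArg Prod.snd (hqu.symm.trans h5)
        exact h7
      rw [h6]
      exact hm
    · have hq1 := hDe _ (rbm_PD hq')
      rw [← hends l hl' q' hq1.1 hq1.2 (hPend q' hq')] at hqq
      have h5 := hsep l hl' q' hq1.1 hq1.2 (hPend q' hq') _ hp.1 hp.2 hqq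
      have h6 : q'.2 = rbm_xi a q.2 := congrArg Prod.snd h5
      rw [hq'.2.2] at h6
      linarith [hm.2]

end

end Pool.Agent.NHE
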