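import Pool.Agent.NHP.Lft
import Pool.Agent.NHP.Gld
import Pool.Agent.NHP.Grp

/-!
# NHE/Sgn: no reflections (difficulty 3)

`fix_trace`: `V'` with `V' 1 = V 1`, `V' s r = r`.  `g` inverse of `β` (`Cht.inv`).  `D s = fderiv (fun q => g (V' s (β q))) 0`: continuous in `s ∈ [0, 1]` (the map `(s, q) ↦ g (V' s (β q))` is smooth near `[0, 1] × {0}`), bijective (`Push.loc`, `Cht`), `D 0 = id`, `D 1 = refL` (near `0` the map is `refL`).
`LinearMap.det` (or `ContinuousLinearMap.det`) is continuous and not `0`, `det id = 1`, `det refL < 0`: contradiction (intermediate value theorem).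
-/

open scoped Manifold ContDiff Topology
open Set Filter
open Pool.Agent.CSG (stp)
open Pool.Agent.RSG (E3 ex Thick)
open Pool.Agent.KNT (Dom Str Str2 BalC bmp)
open Pool.Agent.NHP

namespace Pool.Agent.NHE

section
variable {N : Type*} [TopologicalSpace N] [ChartedSpace E3 N] [IsManifold (𝓡 3) ∞ N] [T2Space N]

omit [IsManifold (𝓡 3) ∞ N] [T2Space N] in
theorem sgn_smooth {β : E → N} {δ₀ : ℝ} (hβ : Cht (Bl δ₀) β) (hδ₀ : 0 < δ₀) {r : N} (h0 : β 0 = r)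
    {g : N → E} (hg : ∀ x ∈ β '' Bl δ₀, ContMDiffAt (𝓡 3) 𝓘(ℝ, ℂ × ℝ) ∞ g x) {W : ℝ → Equiv.Perm N} {Y : Set N}
    (hW : Push Y W) (hr : ∀ s, W s r = r) (s : ℝ) :
    ContDiffAt ℝ ∞ (fun p : ℝ × E => g (W p.1 (β p.2))) (s, 0) := by
  have h1 : ContMDiffAt 𝓘(ℝ, ℝ × E) 𝓘(ℝ, ℝ) ∞ (fun p : ℝ × E => p.1) (s, 0) :=
    contDiff_fst.contMDiff.contMDiffAt
  have h2 : ContMDiffAt 𝓘(ℝ, ℝ × E) 𝓘(ℝ, E) ∞ (fun p : ℝ × E => p.2) (s, 0) :=
    contDiff_snd.contMDiff.contMDiffAt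
  have h3 : ContMDiffAt 𝓘(ℝ, E) (𝓡 3) ∞ β ((fun p : ℝ × E => p.2) (s, 0)) :=
    (hβ.loc 0 (zero_mem_Bl hδ₀)).contMDiffAt
  have h4 : ContMDiffAt 𝓘(ℝ, ℝ × E) (𝓡 3) ∞ (fun p : ℝ × E => β p.2) (s, 0) := h3.comp (s, 0) h2
  have h5 : ContMDiffAt 𝓘(ℝ, ℝ × E) (𝓘(ℝ, ℝ).prod (𝓡 3)) ∞ (fun p : ℝ × E => (p.1, β p.2)) (s, 0) :=
    h1.prodMk h4
  have h6 : ContMDiffAt (𝓘(ℝ, ℝ).prod (𝓡 3)) (𝓡 3) ∞ (fun q : ℝ × N => W q.1 q.2)
      ((fun p : ℝ × E => (p.1, β p.2)) (s, 0)) := hW.smooth.contMDiffAt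
  have h7 : ContMDiffAt 𝓘(ℝ, ℝ × E) (𝓡 3) ∞ (fun p : ℝ × E => W p.1 (β p.2)) (s, 0) :=
    h6.comp (s, 0) h5
  have h8 : ContMDiffAt (𝓡 3) 𝓘(ℝ, E) ∞ g ((fun p : ℝ × E => W p.1 (β p.2)) (s, 0)) := by
    apply hg
    show W s (β 0) ∈ β '' Bl δ₀
    rw [h0, hr]
    exact ⟨0, zero_mem_Bl hδ₀, h0⟩
  exact contMDiffAt_iff_contDiffAt.mp (h8.comp (s, 0) h7)

omit [IsManifold (𝓡 3) ∞ N] [T2Space N] in
theorem sgn_near {β : E → N} {δ₀ : ℝ} (hβ : Cht (Bl δ₀) β) (hδ₀ : 0 < δ₀) {r : N} (h0 : β 0 = r)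
    {g : N → E} (hg' : ∀ q ∈ Bl δ₀, g (β q) = q) {W : ℝ → Equiv.Perm N} {Y : Set N}
    (hW : Push Y W) (hr : ∀ s, W s r = r) (s : ℝ) :
    ∀ᶠ q in 𝓝 (0 : E), β (g (W s (β q))) = W s (β q) := by
  have h3 : ContinuousAt β 0 := (hβ.loc 0 (zero_mem_Bl hδ₀)).contMDiffAt.continuousAt
  have h1 : Continuous fun q : ℝ × N => W q.1 q.2 := hW.smooth.continuous
  have h2 : Continuous (W s) := h1.comp (Continuous.prodMk_right s)
  have h4 : ContinuousAt (fun q : E => W s (β q)) 0 := h2.continuousAt.comp h3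
  have h5 : IsOpen (β '' Bl δ₀) := hβ.img (isOpen_Bl δ₀) (Subset.refl _)
  have h6 : β '' Bl δ₀ ∈ 𝓝 (W s (β 0)) := by
    apply h5.mem_nhds
    rw [h0, hr]
    exact ⟨0, zero_mem_Bl hδ₀, h0⟩
  filter_upwards [h4 h6] with q hq
  obtain ⟨q', hq', he⟩ := hq
  show β (g (W s (β q))) = W s (β q)
  have he' : β q' = W s (β q) := he
  rw [← he', hg' q' hq']

theorem sgn_det : (refL : E →L[ℝ] E).det = -1 := by
  show LinearMap.det ((refL : E →L[ℝ] E) : E →ₗ[ℝ] E) = -1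
  have h1 : ((refL : E →L[ℝ] E) : E →ₗ[ℝ] E) =
      LinearMap.prodMap (Complex.conjAe.toLinearMap) (LinearMap.id : ℝ →ₗ[ℝ] ℝ) := by
    ext x <;> simp [refL]
  rw [h1, LinearMap.det_prodMap, Complex.det_conjAe, LinearMap.det_id, mul_one]

theorem sgn_nr (q : E) : nr (refL q) = nr q := by
  rw [refL_apply]
  unfold nr
  simp

theorem no_reflection {Y : Set N} (hY : IsOpen Y) {r : Y} {V : ℝ → Equiv.Perm N} (hV : Push Y V) (hf : Follows V (Path.refl r))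
    {β : E → N} {δ₀ : ℝ} (hδ₀ : 0 < δ₀) (hβ : Cht (Bl δ₀) β) (h0 : β 0 = r)
    (h : ∃ ρ : ℝ, 0 < ρ ∧ ∀ q ∈ Bl ρ, V 1 (β q) = β (refL q)) : False := by
  obtain ⟨W, hW, hW1, hWr⟩ := fix_trace hY hV hf
  obtain ⟨g, hg', hg⟩ := hβ.inv
  obtain ⟨ρ, hρ, hρV⟩ := h
  have hW' : Push Y (fun s => (W s).symm) := hW.inv
  have hWr' : ∀ s, (W s).symm (r : N) = r := fun s => by
    rw [Equiv.symm_apply_eq]
    exact (hWr s).symm
  have hF := sgn_smooth hβ hδ₀ h0 hg hW hWr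
  have hG := sgn_smooth hβ hδ₀ h0 hg hW' hWr'
  have hnear := sgn_near hβ hδ₀ h0 hg' hW hWr
  have hg0 : g (r : N) = 0 := by
    rw [← h0]
    exact hg' 0 (zero_mem_Bl hδ₀)
  have hF0 : ∀ s, g (W s (β 0)) = 0 := fun s => by rw [h0, hWr, hg0]
  -- differentiability in the second variable
  have dF : ∀ s, DifferentiableAt ℝ (fun q : E => g (W s (β q))) 0 := fun s => by
    have h1 : DifferentiableAt ℝ (fun p : ℝ × E => g (W p.1 (β p.2))) ((fun q : E => (s, q)) 0) :=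
      (hF s).differentiableAt (by norm_num)
    exact h1.comp (0 : E) (by fun_prop)
  have dG : ∀ s, DifferentiableAt ℝ (fun q : E => g ((W s).symm (β q))) 0 := fun s => by
    have h1 : DifferentiableAt ℝ (fun p : ℝ × E => g ((W p.1).symm (β p.2))) ((fun q : E => (s, q)) 0) :=
      (hG s).differentiableAt (by norm_num)
    exact h1.comp (0 : E) (by fun_prop)
  let D : ℝ → E →L[ℝ] E := fun s => fderiv ℝ (fun q : E => g (W s (β q))) 0
  have hDc : Continuous D := by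
    rw [continuous_iff_continuousAt]
    intro s
    have h1 : ContDiffAt ℝ ∞ (Function.uncurry fun (s : ℝ) (q : E) => g (W s (β q))) (s, (0 : E)) := hF s
    have h2 := ContDiffAt.fderiv (m := 0) (f := fun (s : ℝ) (q : E) => g (W s (β q))) (g := fun _ : ℝ => (0 : E))
      (x₀ := s) h1 contDiffAt_const (by norm_num)
    exact h2.continuousAt
  have hdet : ∀ s, (D s).det ≠ 0 := by
    intro s
    have h1 : (fun q : E => g ((W s).symm (β (g (W s (β q)))))) =ᶠ[𝓝 0] id := by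
      have h3 : ∀ᶠ q in 𝓝 (0 : E), q ∈ Bl δ₀ := (isOpen_Bl δ₀).mem_nhds (zero_mem_Bl hδ₀)
      filter_upwards [hnear s, h3] with q hq hq'
      show g ((W s).symm (β (g (W s (β q))))) = q
      rw [hq, Equiv.symm_apply_apply, hg' q hq']
    have h2 : HasFDerivAt (fun q : E => g ((W s).symm (β q))) (fderiv ℝ (fun q : E => g ((W s).symm (β q))) 0)
        ((fun q : E => g (W s (β q))) 0) := by
      show HasFDerivAt _ _ (g (W s (β 0)))
      rw [hF0 s]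
      exact (dG s).hasFDerivAt
    have h4 := h2.comp (0 : E) (dF s).hasFDerivAt
    have h5 : HasFDerivAt (fun q : E => g ((W s).symm (β (g (W s (β q)))))) (ContinuousLinearMap.id ℝ E) 0 :=
      (hasFDerivAt_id (0 : E)).congr_of_eventuallyEq h1
    have h6 := h4.unique h5
    have h7 : ((fderiv ℝ (fun q : E => g ((W s).symm (β q))) 0).comp (D s)).det = 1 := by
      have : ((fderiv ℝ (fun q : E => g ((W s).symm (β q))) 0).comp (D s)) = ContinuousLinearMap.id ℝ E := h6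
      rw [this]
      exact LinearMap.det_id
    have h8 : ((fderiv ℝ (fun q : E => g ((W s).symm (β q))) 0).comp (D s)).det =
        (fderiv ℝ (fun q : E => g ((W s).symm (β q))) 0).det * (D s).det :=
      LinearMap.det_comp _ _
    rw [h8] at h7
    intro h9
    rw [h9, mul_zero] at h7
    exact zero_ne_one h7
  have hD0 : D 0 = ContinuousLinearMap.id ℝ E := by
    have h1 : (fun q : E => g (W 0 (β q))) =ᶠ[𝓝 0] id := by
      have h3 : ∀ᶠ q in 𝓝 (0 : E), q ∈ Bl δ₀ := (isOpen_Bl δ₀).mem_nhds (zero_mem_Bl hδ₀)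
      filter_upwards [h3] with q hq'
      show g (W 0 (β q)) = q
      rw [hW.zero, Equiv.refl_apply, hg' q hq']
    exact ((hasFDerivAt_id (0 : E)).congr_of_eventuallyEq h1).fderiv
  have hD1 : D 1 = refL := by
    have h1 : (fun q : E => g (W 1 (β q))) =ᶠ[𝓝 0] refL := by
      have h3 : ∀ᶠ q in 𝓝 (0 : E), q ∈ Bl δ₀ := (isOpen_Bl δ₀).mem_nhds (zero_mem_Bl hδ₀)
      have h4 : ∀ᶠ q in 𝓝 (0 : E), q ∈ Bl ρ := (isOpen_Bl ρ).mem_nhds (zero_mem_Bl hρ)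
      filter_upwards [h3, h4] with q hq' hq
      show g (W 1 (β q)) = refL q
      rw [hW1, hρV q hq]
      apply hg'
      show nr (refL q) < δ₀ ^ 2
      rw [sgn_nr]
      exact hq'
    exact ((refL : E →L[ℝ] E).hasFDerivAt.congr_of_eventuallyEq h1).fderiv
  have hc : Continuous fun s => (D s).det := ContinuousLinearMap.continuous_det.comp hDc
  have h10 : (D 0).det = 1 := by rw [hD0]; exact LinearMap.det_id
  have h11 : (D 1).det = -1 := by rw [hD1]; exact sgn_det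
  have h12 : (0 : ℝ) ∈ Icc ((D 1).det) ((D 0).det) := by
    rw [h10, h11]
    constructor <;> norm_num
  obtain ⟨s, -, hs⟩ := intermediate_value_Icc' (zero_le_one (α := ℝ)) hc.continuousOn h12
  exact hdet s hs

end

end Pool.Agent.NHE
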