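import Pool.Agent.NHE.Defs
import Pool.Agent.NHP.Grp

/-!
# NHE/RoP: rotation pushes (difficulty 2)

`V s (w, x) = (ex (s f (w, x)) w, x)`; `f` is constant on the orbits of the rotations, so the inverse is `(ex (-s f) w, x)`.  Smooth (`ex` is smooth, see `KNF.Fou_ex_smooth` for the proof).
-/

open scoped Manifold ContDiff Topology
open Set Filter
open Pool.Agent.CSG (stp)
open Pool.Agent.RSG (E3 ex Thick)
open Pool.Agent.KNT (Dom Str Str2 BalC bmp)
open Pool.Agent.NHP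

namespace Pool.Agent.NHE

theorem rop_ex_zero : ex 0 = 1 := by
  unfold ex
  simp

theorem rop_ex_add (a b : ℝ) : ex (a + b) = ex a * ex b := by
  unfold ex
  rw [← Complex.exp_add]
  congr 1
  push_cast
  ring

theorem rop_ex_norm (a : ℝ) : ‖ex a‖ = 1 := by
  unfold ex
  exact Complex.norm_exp_ofReal_mul_I _

theorem rop_ex_smooth : ContDiff ℝ ∞ ex := by
  have h : ContDiff ℝ ∞ fun x : ℝ => ((2 * Real.pi * x : ℝ) : ℂ) * Complex.I :=
    (Complex.ofRealCLM.contDiff.comp (contDiff_const.mul contDiff_id)).mul contDiff_const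
  exact h.cexp

/-- rotation of the orbits -/
noncomputable def ropV {f : E → ℝ} (hi : ∀ (a : ℂ) (q : E), ‖a‖ = 1 → f (a * q.1, q.2) = f q) (s : ℝ) : Equiv.Perm E where
  toFun q := (ex (s * f q) * q.1, q.2)
  invFun q := (ex (-(s * f q)) * q.1, q.2)
  left_inv q := by
    show (ex (-(s * f (ex (s * f q) * q.1, q.2))) * (ex (s * f q) * q.1), q.2) = q
    rw [hi _ _ (rop_ex_norm _), ← mul_assoc, ← rop_ex_add, neg_add_cancel, rop_ex_zero, one_mul]
  right_inv q := by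
    show (ex (s * f (ex (-(s * f q)) * q.1, q.2)) * (ex (-(s * f q)) * q.1), q.2) = q
    rw [hi _ _ (rop_ex_norm _), ← mul_assoc, ← rop_ex_add, add_neg_cancel, rop_ex_zero, one_mul]

theorem rot_push {O : Set E} {f : E → ℝ} (hf : ContDiff ℝ ∞ f) (hi : ∀ (a : ℂ) (q : E), ‖a‖ = 1 → f (a * q.1, q.2) = f q)
    {C : Set E} (hC : IsCompact C) (hCO : C ⊆ O) (hs : ∀ q ∉ C, f q = 0) :
    ∃ V : ℝ → Equiv.Perm E, PushE O V ∧ ∀ s q, V s q = (ex (s * f q) * q.1, q.2) := by
  refine ⟨ropV hi, ⟨?_, ?_, ?_, C, hC, hCO, ?_⟩, fun s q => rfl⟩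
  · have h1 : ContDiff ℝ ∞ fun p : ℝ × E => ex (p.1 * f p.2) :=
      rop_ex_smooth.comp (contDiff_fst.mul (hf.comp contDiff_snd))
    exact (h1.mul (contDiff_fst.comp contDiff_snd)).prodMk (contDiff_snd.comp contDiff_snd)
  · have h1 : ContDiff ℝ ∞ fun p : ℝ × E => ex (-(p.1 * f p.2)) :=
      rop_ex_smooth.comp (contDiff_fst.mul (hf.comp contDiff_snd)).neg
    exact (h1.mul (contDiff_fst.comp contDiff_snd)).prodMk (contDiff_snd.comp contDiff_snd)
  · ext1 q
    show (ex (0 * f q) * q.1, q.2) = q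
    rw [zero_mul, rop_ex_zero, one_mul]
  · intro s q hq
    show (ex (s * f q) * q.1, q.2) = q
    rw [hs q hq, mul_zero, rop_ex_zero, one_mul]

end Pool.Agent.NHE
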