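import Pool.Agent.NHE.TwA
import Pool.Agent.NHE.RoP
import Pool.Agent.NHP.Gld

/-!
# NHE/Twk: a full twist near the foot is free (difficulty 3)

`φ = stp (1/4) (3/4)`.  `f (w, x) = χ (‖w‖²) (k φ x + (if x ≤ 1/8 then 0 else k (bum (1/32) (w, x - 1/8) - 1)))` with `χ = 1 - stp (1/512 ^ 2) (1/256 ^ 2)`: smooth (near `x = 1/8` and `‖w‖ < 1/256` `bum = 1`, i.e. `nr ≤ (1/32)²/16`), compact support in `TD`
(`x ∈ [1/8, 3/4]`: for `x ≥ 3/4` `bum = 0`, `k - k = 0`), invariant under rotations.  `rot_push`: `V 1`.  For `‖w‖ < 1/512`: `V 1 (rt (-2 k) q) = gk k q` since the angles are `-k φ + f = k (bum - 1)` for `x > 1/8`, `ex (-k) = 1`.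
`V 1 '' (rt (-2k) '' TGd e 1) = gk k '' TGd e 1` for `e < 1/512` (the points of `TGd e 1` with `‖w‖ ≥ e / 8` are in `TS`, where all maps are the identity: `f = 0`, full turns at `x = 1`).
So `TGd e 1 ~ TF ~ rt (-2k) '' TF ~ rt (-2k) '' TGd e 1 ~ gk k '' TGd e 1`.
-/

open scoped Manifold ContDiff Topology
open Set Filter
open Pool.Agent.CSG (stp)
open Pool.Agent.RSG (E3 ex Thick)
open Pool.Agent.KNT (Dom Str Str2 BalC bmp)
open Pool.Agent.NHP

namespace Pool.Agent.NHE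

/-- `k` full turns near the foot -/
noncomputable def gk (k : ℤ) (q : E) : E :=
  if q.2 ≤ 1 / 8 then q else (ex (k * bum (1 / 32) (q.1, q.2 - 1 / 8)) * q.1, q.2)

/-- the angle of the rotation -/
noncomputable def Twk_f (k : ℤ) (q : E) : ℝ :=
  (1 - stp ((1 / 512) ^ 2) ((1 / 256) ^ 2) (‖q.1‖ ^ 2)) *
    ((k : ℝ) * (stp (1 / 4) (3 / 4) q.2 + stp (1 / 8) (1 / 8 + 1 / 256) q.2 * (bum (1 / 32) (q.1, q.2 - 1 / 8) - 1)))

theorem Twk_smooth (k : ℤ) : ContDiff ℝ ∞ (Twk_f k) := by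
  have h1 : ContDiff ℝ ∞ fun q : E => ‖q.1‖ ^ 2 := contDiff_fst.norm_sq ℝ
  have h2 : ContDiff ℝ ∞ fun q : E => ((q.1, q.2 - 1 / 8) : E) := by
    exact contDiff_fst.prodMk (contDiff_snd.sub contDiff_const)
  have h3 : ContDiff ℝ ∞ fun q : E => bum (1 / 32) ((q.1, q.2 - 1 / 8) : E) := (bum_smooth (1 / 32)).comp h2
  have h4 : ContDiff ℝ ∞ fun q : E => stp ((1 / 512) ^ 2) ((1 / 256) ^ 2) (‖q.1‖ ^ 2) :=
    (CSG.stp_smooth _ _).comp h1
  have h5 : ContDiff ℝ ∞ fun q : E => stp (1 / 4) (3 / 4) q.2 := (CSG.stp_smooth _ _).comp contDiff_snd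
  have h6 : ContDiff ℝ ∞ fun q : E => stp (1 / 8) (1 / 8 + 1 / 256) q.2 := (CSG.stp_smooth _ _).comp contDiff_snd
  exact (contDiff_const.sub h4).mul (contDiff_const.mul (h5.add (h6.mul (h3.sub contDiff_const))))

theorem Twk_rot (k : ℤ) (a : ℂ) (q : E) (ha : ‖a‖ = 1) : Twk_f k (a * q.1, q.2) = Twk_f k q := by
  have h : ‖a * q.1‖ = ‖q.1‖ := by rw [norm_mul, ha, one_mul]
  have hb : bum (1 / 32) ((a * q.1, q.2 - 1 / 8) : E) = bum (1 / 32) ((q.1, q.2 - 1 / 8) : E) := by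
    unfold bum nr
    simp only [h]
  unfold Twk_f
  simp only [h, hb]

/-- at the top -/
theorem Twk_bum_top {q : E} (h : 3 / 4 ≤ q.2) : bum (1 / 32) ((q.1, q.2 - 1 / 8) : E) = 0 := by
  apply bum_zero (by norm_num)
  unfold nr
  have h1 : 0 ≤ ‖q.1‖ ^ 2 := by positivity
  have h2 : (5 / 8 : ℝ) ^ 2 ≤ (q.2 - 1 / 8) ^ 2 := by
    apply pow_le_pow_left₀ (by norm_num)
    linarith
  show (1 / 32 : ℝ) ^ 2 / 4 ≤ ‖q.1‖ ^ 2 + (q.2 - 1 / 8) ^ 2
  linarith [show (1 / 32 : ℝ) ^ 2 / 4 ≤ (5 / 8) ^ 2 by norm_num]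

theorem Twk_low (k : ℤ) {q : E} (h : q.2 ≤ 1 / 8) : Twk_f k q = 0 := by
  unfold Twk_f
  rw [CSG.stp_zero (by norm_num : (1 / 4 : ℝ) < 3 / 4) (by linarith : q.2 ≤ 1 / 4),
    CSG.stp_zero (by norm_num : (1 / 8 : ℝ) < 1 / 8 + 1 / 256) h]
  ring

theorem Twk_high (k : ℤ) {q : E} (h : 3 / 4 ≤ q.2) : Twk_f k q = 0 := by
  unfold Twk_f
  rw [CSG.stp_one (by norm_num : (1 / 4 : ℝ) < 3 / 4) h,
    CSG.stp_one (by norm_num : (1 / 8 : ℝ) < 1 / 8 + 1 / 256) (by linarith), Twk_bum_top h]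
  ring

theorem Twk_far (k : ℤ) {q : E} (h : 1 / 256 ≤ ‖q.1‖) : Twk_f k q = 0 := by
  unfold Twk_f
  rw [CSG.stp_one (by norm_num : ((1 / 512 : ℝ)) ^ 2 < (1 / 256) ^ 2) (pow_le_pow_left₀ (by norm_num) h 2)]
  ring

/-- near the axis, below the ball -/
theorem Twk_near (k : ℤ) {q : E} (h : ‖q.1‖ ≤ 1 / 512) (h1 : 1 / 8 < q.2) :
    Twk_f k q = k * stp (1 / 4) (3 / 4) q.2 + k * (bum (1 / 32) ((q.1, q.2 - 1 / 8) : E) - 1) := by
  unfold Twk_f
  rw [CSG.stp_zero (by norm_num : ((1 / 512 : ℝ)) ^ 2 < (1 / 256) ^ 2) (pow_le_pow_left₀ (norm_nonneg _) h 2)]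
  rcases le_total (1 / 8 + 1 / 256) q.2 with h2 | h2
  · rw [CSG.stp_one (by norm_num : (1 / 8 : ℝ) < 1 / 8 + 1 / 256) h2]
    ring
  · have hb : bum (1 / 32) ((q.1, q.2 - 1 / 8) : E) = 1 := by
      apply bum_one (by norm_num)
      unfold nr
      show ‖q.1‖ ^ 2 + (q.2 - 1 / 8) ^ 2 ≤ (1 / 32 : ℝ) ^ 2 / 16
      have h3 : ‖q.1‖ ^ 2 ≤ (1 / 512) ^ 2 := pow_le_pow_left₀ (norm_nonneg _) h 2
      have h4 : (q.2 - 1 / 8) ^ 2 ≤ (1 / 256) ^ 2 := pow_le_pow_left₀ (by linarith) (by linarith) 2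
      linarith [show (1 / 512 : ℝ) ^ 2 + (1 / 256) ^ 2 ≤ (1 / 32) ^ 2 / 16 by norm_num]
    rw [hb]
    ring

theorem Twk_push (k : ℤ) : ∃ V : ℝ → Equiv.Perm E, PushE TD V ∧ ∀ s q, V s q = (ex (s * Twk_f k q) * q.1, q.2) := by
  have hC : IsCompact (Metric.closedBall (0 : ℂ) (1 / 256) ×ˢ Icc (1 / 8 : ℝ) (3 / 4)) :=
    (isCompact_closedBall _ _).prod isCompact_Icc
  refine rot_push (Twk_smooth k) (fun a q ha => Twk_rot k a q ha) hC ?_ ?_
  · rintro q ⟨h1, h2, h3⟩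
    rw [mem_closedBall_zero_iff] at h1
    exact ⟨by linarith, by linarith, by linarith⟩
  · intro q hq
    by_cases h1 : q.2 ≤ 1 / 8
    · exact Twk_low k h1
    by_cases h2 : 3 / 4 ≤ q.2
    · exact Twk_high k h2
    push Not at h1 h2
    apply Twk_far
    by_contra h3
    push Not at h3
    apply hq
    refine ⟨?_, ⟨h1.le, h2.le⟩⟩
    rw [mem_closedBall_zero_iff]
    exact h3.le

/-- the rotation and the half turns -/
theorem Twk_key (k : ℤ) {q : E} (h : ‖q.1‖ ≤ 1 / 512 ∨ q.2 ≤ 1 / 8 ∨ 3 / 4 ≤ q.2) :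
    ((ex (1 * Twk_f k (rt (-2 * k) q)) * (rt (-2 * k) q).1, (rt (-2 * k) q).2) : E) = gk k q := by
  have hm : (((-2 * k : ℤ) : ℝ)) / 2 = -(k : ℝ) := by push_cast; ring
  have hr : rt (-2 * k) q = (ex (-(k : ℝ) * stp (1 / 4) (3 / 4) q.2) * q.1, q.2) := by
    unfold rt
    rw [hm]
  rw [hr, Twk_rot k _ q (RSG.ex_norm _), ← mul_assoc, ← RSG.ex_add, one_mul]
  unfold gk
  by_cases h1 : q.2 ≤ 1 / 8
  · rw [if_pos h1, Twk_low k h1, CSG.stp_zero (by norm_num : (1 / 4 : ℝ) < 3 / 4) (by linarith : q.2 ≤ 1 / 4)]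
    rw [mul_zero, add_zero, RSG.ex_zero, one_mul]
  rw [if_neg h1]
  push Not at h1
  by_cases h2 : 3 / 4 ≤ q.2
  · rw [Twk_high k h2, CSG.stp_one (by norm_num : (1 / 4 : ℝ) < 3 / 4) h2, Twk_bum_top h2]
    have h3 : ex (0 + -(k : ℝ) * 1) = 1 := by
      have : (0 + -(k : ℝ) * 1) = ((-k : ℤ) : ℝ) := by push_cast; ring
      rw [this, RSG.ex_int]
    rw [h3, mul_zero, RSG.ex_zero]
  · have h3 : ‖q.1‖ ≤ 1 / 512 := by
      rcases h with h | h | h
      · exact h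
      · exact absurd h (not_le.2 h1)
      · exact absurd h h2
    rw [Twk_near k h3 h1]
    have h4 : (k : ℝ) * stp (1 / 4) (3 / 4) q.2 + k * (bum (1 / 32) ((q.1, q.2 - 1 / 8) : E) - 1) +
        -(k : ℝ) * stp (1 / 4) (3 / 4) q.2 = k * bum (1 / 32) ((q.1, q.2 - 1 / 8) : E) + ((-k : ℤ) : ℝ) := by
      push_cast
      ring
    rw [h4, RSG.ex_add_int]

theorem full_turn (k : ℤ) {e : ℝ} (he : 0 < e) (he' : e < 1 / 512) :
    LEqO TD (TGd e fun _ => 1) (gk k '' TGd e fun _ => 1) := by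
  have he1 : e ≤ 1 := by linarith
  have hA : LEqO TD (TGd e fun _ => 1) TF := by
    rw [TGd_one he he1, TF_eq]
    have hb := KNT.bmp_smooth
    refine leqO_graph₂ (contDiff_const.mul (hb.comp (contDiff_id.div_const e))) (contDiff_const.mul hb) ?_ ?_ ?_ ?_
    · intro u hu
      have h1 : KNT.bmp u = 0 := KNT.bmp_zero (by linarith)
      have h2 : KNT.bmp (u / e) = 0 := by
        apply KNT.bmp_zero
        rw [abs_div, abs_of_pos he, le_div_iff₀ he]
        linarith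
      simp only [h1, h2, mul_zero, and_self]
    · intro u
      have h1 := KNT.bmp_nonneg (u / e)
      have h2 := KNT.bmp_le_one (u / e)
      constructor <;> linarith
    · intro u
      have h1 := KNT.bmp_nonneg u
      have h2 := KNT.bmp_le_one u
      constructor <;> linarith
    · left
      have h1 : KNT.bmp 0 = 1 := KNT.bmp_one (by norm_num)
      simp only [zero_div, h1]
      norm_num
  have hB : LEqO TD TF (rt (-2 * k) '' TF) := half_turn (-2 * k)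
  have hC : LEqO TD (rt (-2 * k) '' TF) (rt (-2 * k) '' TGd e fun _ => 1) := leqO_rt (-2 * k) hA.symm
  obtain ⟨V, hV, hV'⟩ := Twk_push k
  have hD : LEqO TD (rt (-2 * k) '' TGd e fun _ => 1) (V 1 '' (rt (-2 * k) '' TGd e fun _ => 1)) := LEqO.diff _ hV
  have hE : V 1 '' (rt (-2 * k) '' TGd e fun _ => 1) = gk k '' TGd e fun _ => 1 := by
    rw [image_image]
    apply image_congr
    intro q hq
    rw [hV']
    apply Twk_key
    rcases hq with ⟨y, hy, rfl⟩ | hq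
    · rcases le_total (|e * y|) (1 / 512) with h | h
      · left
        simp only [mul_one, Complex.norm_real, Real.norm_eq_abs]
        exact h
      · right; left
        have h1 : (1 : ℝ) ≤ |y| := by
          by_contra h1
          push Not at h1
          rw [abs_mul, abs_of_pos he] at h
          have h2 : e * |y| < 1 / 512 * 1 := by
            apply mul_lt_mul he' h1.le
            · by_contra h3
              push Not at h3
              have : |y| = 0 := le_antisymm h3 (abs_nonneg _)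
              rw [this, mul_zero] at h
              norm_num at h
            · norm_num
          linarith
        have h2 : KNT.bmp y = 0 := KNT.bmp_zero (by linarith)
        simp only [h2, mul_zero]
        norm_num
    · right; right
      rw [hq.2.1]
      norm_num
  rw [hE] at hD
  exact hA.trans (hB.trans (hC.trans hD))

end Pool.Agent.NHE
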