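import Pool.Agent.NHE.KCh
import Pool.Agent.NHE.Thn
import Pool.Agent.NHE.Rbm
import Pool.Agent.NHE.Two
import Pool.Agent.NHE.Sgn
import Pool.Agent.NHE.Twk
import Pool.Agent.NHP.Lfn

/-!
# NHE/Unq: THE FINGER DEPENDS ONLY ON THE CLASS (difficulty 4, assembly)

`(σ₀, r₀, T₀)`, `(σ₁, r₁, T₁)` from the two hypotheses.  (1) `chd_thin` with `e = r / r_i`, `r = min r₀ r₁`: WLOG `r₀ = r₁ = r`.  `Y = (core κ)ᶜ` is open.
(2) `σ₀ = σ₁`: otherwise `T₁' q = T₁ (conj w, x)` has the tip of `T₀` and the core of `T₁`; `two_tubes` for `T₀`, `T₁'` gives `V` with `V 1 (T₀ q) = T₁ (conj w, x) = T₀ (conj w, x)` for `‖w‖` small and `x` near `1/8` (both have the standard foot): `no_reflection` with `β q = T₀ (w, 1/8 + x)`.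
(3) `two_tubes` for `T₀`, `T₁`: `V`; `V 1 (β q) = β q` near `0`, `β q = T₀ (w, 1/8 + x)`, `Cht (Bl (1/32)) β`, image in `Y`.  `lifting` with `δ = δ₀ = 1/32`: `W, R, k`.
(4) `A l q = if q.2 ≤ 1/8 then T₀ q else W l (R 1 (T₀ q))`.  `A 0 q = T₀ (gk k q)` (`R 1 (β q) = β (rotP k (1/32) 1 q)`, `rotP_apply`, `stp (1/8) (7/8) 1 = 1`; `R 1` is the identity off `β '' Bl (1/32)`).  `A 1 q = T₁ q` for `‖w‖ ≤ 1/2` (for `x ≤ 1/8` both are the standard foot).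
`W l` is the identity near `β 0` (uniformly in `l`) and on a neighbourhood of `core κ` (compact support in `Y`), so there are `e₀ ≤ 1/1024`, `a < 1/16` such that for `‖w‖ < e₀`: `W l (T₀ q) = T₀ q` and `R 1 (T₀ q) = T₀ q` if `|x - 1/8| < a`; `W l (T₀ q) = T₀ q` if `|x| ≤ a` or `1 - a ≤ x`.
Check the hypotheses of `rib_move` (`hsep`: for `q.2 ≤ a` `A l q = T₀ q = W l (T₀ q)`, and `W l`, `T₀` are injective, `gk k` is injective and preserves `x`; `hK`: `W l`, `R 1` preserve `core κ` and its complement).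
(5) for `e < e₀`: `kn K T₀ ~ kn K (T₀ (e ·, ·)) = (K \ T₀ '' TD) ∪ T₀ '' TGd e 1 ~ (K \ T₀ '' TD) ∪ T₀ '' (gk k '' TGd e 1) = kn K (A 0 (e ·, ·)) ~ kn K (A 1 (e ·, ·)) = kn K (T₁ (e ·, ·)) ~ kn K T₁` (`chd_thin`, `full_turn`, `leqN_of_leqO`, `rib_move`).
-/

open scoped Manifold ContDiff Topology
open Set Filter
open Pool.Agent.CSG (stp)
open Pool.Agent.RSG (E3 ex Thick)
open Pool.Agent.KNT (Dom Str Str2 BalC bmp)
open Pool.Agent.NHP

namespace Pool.Agent.NHE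


theorem Unq_ex_zero : ex 0 = 1 := by
  simp [RSG.ex]

theorem Unq_ex_int (k : ℤ) : ex (k : ℝ) = 1 := by
  unfold RSG.ex
  rw [Complex.exp_eq_one_iff]
  refine ⟨k, ?_⟩
  push_cast
  ring

theorem Unq_ex_norm (x : ℝ) : ‖ex x‖ = 1 := by
  unfold RSG.ex
  rw [Complex.norm_exp_ofReal_mul_I]

theorem Unq_bmp_zero {y : ℝ} (h : 1 / 8 ≤ |y|) : bmp y = 0 := by
  unfold KNT.bmp
  rw [CSG.stp_one (by norm_num), sub_self]
  have h1 : (1 / 8 : ℝ) ^ 2 ≤ |y| ^ 2 := by gcongr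
  rw [sq_abs] at h1
  linarith

theorem Unq_bmp_mem (y : ℝ) : 0 ≤ bmp y ∧ bmp y ≤ 1 := by
  unfold KNT.bmp
  have h1 := CSG.stp_nonneg (1 / 256) (1 / 64) (y ^ 2)
  have h2 := CSG.stp_le_one (1 / 256) (1 / 64) (y ^ 2)
  constructor <;> linarith

theorem Unq_bmp_at : bmp 0 = 1 := by
  unfold KNT.bmp
  rw [CSG.stp_zero (by norm_num) (by norm_num), sub_zero]

theorem Unq_bmp_smooth : ContDiff ℝ ∞ bmp := by
  unfold KNT.bmp
  exact contDiff_const.sub ((CSG.stp_smooth _ _).comp (contDiff_id.pow 2))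

theorem Unq_gk_low (k : ℤ) {q : E} (h : q.2 ≤ 1 / 8) : gk k q = q := by
  unfold gk
  rw [if_pos h]

theorem Unq_gk_snd (k : ℤ) (q : E) : (gk k q).2 = q.2 := by
  unfold gk
  split_ifs <;> rfl

theorem Unq_gk_norm (k : ℤ) (q : E) : ‖(gk k q).1‖ = ‖q.1‖ := by
  unfold gk
  split_ifs
  · rfl
  · show ‖ex _ * q.1‖ = ‖q.1‖
    rw [norm_mul, Unq_ex_norm, one_mul]

theorem Unq_gk_mem (k : ℤ) {q : E} (h : q ∈ TD) : gk k q ∈ TD := by
  refine ⟨?_, ?_, ?_⟩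
  · rw [Unq_gk_norm]
    exact h.1
  · rw [Unq_gk_snd]
    exact h.2.1
  · rw [Unq_gk_snd]
    exact h.2.2

theorem Unq_gk_far (k : ℤ) {q : E} (h : (1 / 32 : ℝ) ^ 2 / 4 ≤ nr (q.1, q.2 - 1 / 8)) : gk k q = q := by
  unfold gk
  split_ifs
  · rfl
  · rw [bum_zero (by norm_num) h, mul_zero, Unq_ex_zero, one_mul]

theorem Unq_gk_high (k : ℤ) {q : E} (h : 1 ≤ q.2) : gk k q = q := by
  apply Unq_gk_far
  unfold nr
  have h1 : (7 / 8 : ℝ) ^ 2 ≤ (q.2 - 1 / 8) ^ 2 := by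
    have : (7 / 8 : ℝ) ≤ q.2 - 1 / 8 := by linarith
    gcongr
  have h2 : 0 ≤ ‖q.1‖ ^ 2 := by positivity
  show (1 / 32 : ℝ) ^ 2 / 4 ≤ ‖q.1‖ ^ 2 + (q.2 - 1 / 8) ^ 2
  nlinarith

theorem Unq_gk_TS (k : ℤ) {q : E} (h : q ∈ TS) : gk k q = q := by
  rcases h.2 with h1 | h1
  · exact Unq_gk_low k (by rw [h1.1]; norm_num)
  · exact Unq_gk_high k (by rw [h1.1])

theorem Unq_xi {a₁ : ℝ} (h0 : 0 < a₁) (h1 : a₁ < 1 / 16) : ∃ ξ : ℝ → ℝ, ContDiff ℝ ∞ ξ ∧ (∀ x, 0 < deriv ξ x) ∧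
    StrictMono ξ ∧ ξ 0 = 0 ∧ ξ 1 = 1 ∧ -a₁ ≤ ξ (-(1 / 4)) ∧ ξ (5 / 4) ≤ 1 + a₁ ∧
    ∃ a : ℝ, 0 < a ∧ a < 1 / 8 ∧ ξ a ≤ a₁ ∧ 1 - a₁ ≤ ξ (1 - a) := by
  have hs : ContDiff ℝ ∞ fun x : ℝ => a₁ * x + (1 - a₁) * stp 0 1 x :=
    (contDiff_const.mul contDiff_id).add (contDiff_const.mul (CSG.stp_smooth 0 1))
  have hd : ∀ x : ℝ, 0 < deriv (fun x : ℝ => a₁ * x + (1 - a₁) * stp 0 1 x) x := by
    intro x
    have hst : DifferentiableAt ℝ (stp 0 1) x := (CSG.stp_smooth 0 1).differentiable (by simp) x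
    have h2 : HasDerivAt (fun x : ℝ => a₁ * x + (1 - a₁) * stp 0 1 x) (a₁ * 1 + (1 - a₁) * deriv (stp 0 1) x) x :=
      ((hasDerivAt_id x).const_mul a₁).add (hst.hasDerivAt.const_mul (1 - a₁))
    rw [h2.deriv]
    have h3 := CSG.stp_deriv_nonneg (a := 0) (b := 1) one_pos x
    have h4 : 0 ≤ (1 - a₁) * deriv (stp 0 1) x := mul_nonneg (by linarith) h3
    linarith
  have hm : StrictMono fun x : ℝ => a₁ * x + (1 - a₁) * stp 0 1 x := strictMono_of_deriv_pos hd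
  have e0 : a₁ * 0 + (1 - a₁) * stp 0 1 0 = 0 := by
    rw [CSG.stp_zero one_pos le_rfl]; ring
  have e1 : a₁ * 1 + (1 - a₁) * stp 0 1 1 = 1 := by
    rw [CSG.stp_one one_pos le_rfl]; ring
  refine ⟨fun x : ℝ => a₁ * x + (1 - a₁) * stp 0 1 x, hs, hd, hm, e0, e1, ?_, ?_, ?_⟩
  · show -a₁ ≤ a₁ * (-(1 / 4)) + (1 - a₁) * stp 0 1 (-(1 / 4))
    rw [CSG.stp_zero one_pos (by norm_num)]
    linarith
  · show a₁ * (5 / 4) + (1 - a₁) * stp 0 1 (5 / 4) ≤ 1 + a₁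
    rw [CSG.stp_one one_pos (by norm_num)]
    linarith
  · have hc := hs.continuous
    have c0 : ∀ᶠ x in 𝓝 (0 : ℝ), a₁ * x + (1 - a₁) * stp 0 1 x < a₁ := by
      apply hc.continuousAt.eventually_lt_const
      show a₁ * 0 + (1 - a₁) * stp 0 1 0 < a₁
      rw [e0]
      exact h0
    have c1 : ∀ᶠ x in 𝓝 (0 : ℝ), 1 - a₁ < a₁ * (1 - x) + (1 - a₁) * stp 0 1 (1 - x) := by
      have hc' : ContinuousAt (fun x : ℝ => a₁ * (1 - x) + (1 - a₁) * stp 0 1 (1 - x)) 0 :=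
        (hc.comp (continuous_const.sub continuous_id)).continuousAt
      apply hc'.eventually_const_lt
      show 1 - a₁ < a₁ * (1 - 0) + (1 - a₁) * stp 0 1 (1 - 0)
      rw [sub_zero, e1]
      linarith
    have c2 : ∀ᶠ x in 𝓝 (0 : ℝ), x < 1 / 8 := eventually_lt_nhds (by norm_num)
    obtain ⟨a, ha, hb⟩ := (((c0.and (c1.and c2)).filter_mono nhdsWithin_le_nhds).and
      (self_mem_nhdsWithin (a := (0 : ℝ)) (s := Ioi 0))).exists
    exact ⟨a, hb, ha.2.2, ha.1.le, ha.2.1.le⟩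

section
variable {N : Type*} [TopologicalSpace N] [ChartedSpace E3 N]

theorem Unq_kn_congr {K : Set N} {T T' : E → N} (h : ∀ q ∈ TD, T q = T' q) : kn K T = kn K T' := by
  have h1 : T '' TD = T' '' TD := image_congr h
  have h2 : T '' TF = T' '' TF := image_congr fun q hq => h q hq.1
  unfold kn
  rw [h1, h2]

theorem Unq_hit {K : Set N} {T : E → N} (h : Chd K T) {q : E} (hq : q ∈ TD) : T q ∈ K ↔ q ∈ TS := by
  constructor
  · intro h1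
    have h2 : T q ∈ K ∩ T '' TD := ⟨h1, q, hq, rfl⟩
    rw [h.hit] at h2
    obtain ⟨s, hs, he⟩ := h2
    rw [← h.cht.inj hs.1 hq he]
    exact hs
  · intro h1
    have h2 : T q ∈ T '' TS := ⟨q, h1, rfl⟩
    rw [← h.hit] at h2
    exact h2.1

theorem Unq_mkChd {K : Set N} {T : E → N} (h : Cht TD T) (h' : ∀ q ∈ TD, (T q ∈ K ↔ q ∈ TS)) : Chd K T := by
  refine ⟨h, ?_⟩
  ext x
  constructor
  · rintro ⟨h1, q, hq, rfl⟩
    exact ⟨q, (h' q hq).1 h1, rfl⟩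
  · rintro ⟨q, hq, rfl⟩
    exact ⟨(h' q hq.1).2 hq, q, hq.1, rfl⟩

/-- the family -/
noncomputable def UnqA (T : E → N) (W : ℝ → Equiv.Perm N) (R : Equiv.Perm N) (l : ℝ) (q : E) : N :=
  if q.2 ≤ 1 / 8 then T q else W l (R (T q))

/-- the data -/
structure UnqD (K : Set N) (T₀ T₁ : E → N) (W : ℝ → Equiv.Perm N) (R : Equiv.Perm N) (k : ℤ) (e₀ a₁ : ℝ) : Prop where
  chd : Chd K T₀
  chd1 : Chd K T₁
  W0 : W 0 = Equiv.refl N
  Wsm : ContMDiff (𝓘(ℝ, ℝ).prod (𝓡 3)) (𝓡 3) ∞ fun q : ℝ × N => W q.1 q.2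
  Wloc : ∀ l x, IsLocalDiffeomorphAt (𝓡 3) (𝓡 3) ∞ (W l) x
  Rloc : ∀ x, IsLocalDiffeomorphAt (𝓡 3) (𝓡 3) ∞ R x
  WK : ∀ l x, W l x ∈ K ↔ x ∈ K
  RK : ∀ x, R x ∈ K ↔ x ∈ K
  e0 : 0 < e₀
  e1 : e₀ < 1 / 1024
  a0 : 0 < a₁
  a1 : a₁ < 1 / 16
  base : ∀ q ∈ TD, ‖q.1‖ < e₀ → |q.2 - 1 / 8| < a₁ → R (T₀ q) = T₀ q ∧ ∀ l, W l (T₀ q) = T₀ q
  ends : ∀ q ∈ TD, ‖q.1‖ < e₀ → (|q.2| ≤ a₁ ∨ |q.2 - 1| ≤ a₁) → R (T₀ q) = T₀ q ∧ ∀ l, W l (T₀ q) = T₀ q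
  Rgk : ∀ q ∈ TD, ‖q.1‖ < e₀ → 1 / 8 < q.2 → R (T₀ q) = T₀ (gk k q)
  one : ∀ q ∈ TD, ‖q.1‖ < e₀ → 1 / 8 < q.2 → W 1 (R (T₀ q)) = T₁ q
  foot : ∀ q ∈ TD, q.2 ≤ 1 / 8 → T₁ q = T₀ q

variable {K : Set N} {T₀ T₁ : E → N} {W : ℝ → Equiv.Perm N} {R : Equiv.Perm N} {k : ℤ} {e₀ a₁ : ℝ}

theorem Unq_low (D : UnqD K T₀ T₁ W R k e₀ a₁) (l : ℝ) {q : E} (hq : q ∈ TD) (hw : ‖q.1‖ < e₀) (hx : q.2 < 1 / 8 + a₁) :
    UnqA T₀ W R l q = T₀ q := by
  unfold UnqA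
  split_ifs with h
  · rfl
  · push Not at h
    obtain ⟨h1, h2⟩ := D.base q hq hw (by rw [abs_lt]; constructor <;> linarith [D.a0])
    rw [h1, h2]

theorem Unq_up {T₀ : E → N} {W : ℝ → Equiv.Perm N} {R : Equiv.Perm N} (l : ℝ) {q : E} (hx : 1 / 8 < q.2) :
    UnqA T₀ W R l q = W l (R (T₀ q)) := by
  unfold UnqA
  rw [if_neg (by push Not; exact hx)]

theorem Unq_ends (D : UnqD K T₀ T₁ W R k e₀ a₁) (l : ℝ) {q : E} (hq : q ∈ TD) (hw : ‖q.1‖ < e₀)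
    (hx : |q.2| ≤ a₁ ∨ |q.2 - 1| ≤ a₁) : UnqA T₀ W R l q = T₀ q := by
  unfold UnqA
  split_ifs with h
  · rfl
  · obtain ⟨h1, h2⟩ := D.ends q hq hw hx
    rw [h1, h2]

theorem Unq_A0 (D : UnqD K T₀ T₁ W R k e₀ a₁) {q : E} (hq : q ∈ TD) (hw : ‖q.1‖ < e₀) :
    UnqA T₀ W R 0 q = T₀ (gk k q) := by
  unfold UnqA
  split_ifs with h
  · rw [Unq_gk_low k h]
  · push Not at h
    rw [D.W0]
    exact D.Rgk q hq hw h

theorem Unq_A1 (D : UnqD K T₀ T₁ W R k e₀ a₁) {q : E} (hq : q ∈ TD) (hw : ‖q.1‖ < e₀) :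
    UnqA T₀ W R 1 q = T₁ q := by
  unfold UnqA
  split_ifs with h
  · rw [D.foot q hq h]
  · push Not at h
    exact D.one q hq hw h

theorem Unq_sep (D : UnqD K T₀ T₁ W R k e₀ a₁) (l : ℝ) {q q' : E} (hq : q ∈ TD) (hw : ‖q.1‖ < e₀)
    (hx : |q.2| ≤ a₁ ∨ |q.2 - 1| ≤ a₁) (hq' : q' ∈ TD) (h : UnqA T₀ W R l q = UnqA T₀ W R l q') :
    q = q' := by
  rw [Unq_ends D l hq hw hx] at h
  by_cases hc : q'.2 ≤ 1 / 8
  · unfold UnqA at h
    rw [if_pos hc] at h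
    exact D.chd.cht.inj hq hq' h
  · push Not at hc
    rw [Unq_up l hc] at h
    obtain ⟨h1, h2⟩ := D.ends q hq hw hx
    have h3 : T₀ q = W l (R (T₀ q)) := by rw [h1, h2]
    rw [h3] at h
    exact D.chd.cht.inj hq hq' (R.injective ((W l).injective h))

theorem Unq_K (D : UnqD K T₀ T₁ W R k e₀ a₁) (l : ℝ) {q : E} (hq : q ∈ TD) :
    UnqA T₀ W R l q ∈ K ↔ q ∈ TS := by
  unfold UnqA
  split_ifs with h
  · exact Unq_hit D.chd hq
  · rw [D.WK, D.RK]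
    exact Unq_hit D.chd hq

theorem Unq_inj0 (D : UnqD K T₀ T₁ W R k e₀ a₁) {q q' : E} (hq : q ∈ TD) (hw : ‖q.1‖ < e₀)
    (hq' : q' ∈ TD) (hw' : ‖q'.1‖ < e₀) (h : UnqA T₀ W R 0 q = UnqA T₀ W R 0 q') : q = q' := by
  have h2 : (gk k q).2 = (gk k q').2 := by
    rw [Unq_A0 D hq hw, Unq_A0 D hq' hw'] at h
    rw [D.chd.cht.inj (Unq_gk_mem k hq) (Unq_gk_mem k hq') h]
  rw [Unq_gk_snd, Unq_gk_snd] at h2
  by_cases hc : q.2 ≤ 1 / 8
  · unfold UnqA at h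
    rw [if_pos hc, if_pos (by rw [← h2]; exact hc)] at h
    exact D.chd.cht.inj hq hq' h
  · push Not at hc
    rw [Unq_up 0 hc, Unq_up 0 (by rw [← h2]; exact hc)] at h
    exact D.chd.cht.inj hq hq' (R.injective ((W 0).injective h))

end

section
variable {N : Type*} [TopologicalSpace N] [ChartedSpace E3 N]
variable {K : Set N} {T₀ T₁ : E → N} {W : ℝ → Equiv.Perm N} {R : Equiv.Perm N} {k : ℤ} {e₀ a₁ : ℝ}

/-- local smoothness of the composed family -/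
theorem Unq_smooth (D : UnqD K T₀ T₁ W R k e₀ a₁) {f : E → E} (hf : Continuous f) (hT : Cht TD fun q => T₀ (f q))
    (hfT : ∀ q ∈ TD, f q ∈ TD) {O : Set E} (hO : IsOpen O) (hfw : ∀ q ∈ O, ‖(f q).1‖ < e₀) (l : ℝ) {q : E} (hq : q ∈ TD)
    (hqO : q ∈ O) :
    ContMDiffAt 𝓘(ℝ, ℝ × (ℂ × ℝ)) (𝓡 3) ∞ (fun p : ℝ × (ℂ × ℝ) => UnqA T₀ W R p.1 (f p.2)) (l, q) ∧
      IsLocalDiffeomorphAt 𝓘(ℝ, ℂ × ℝ) (𝓡 3) ∞ (fun s => UnqA T₀ W R l (f s)) q := by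
  have hTq := hT.loc q hq
  have hU : ∀ᶠ s in 𝓝 q, s ∈ TD ∩ O := (hT.opn.inter hO).mem_nhds ⟨hq, hqO⟩
  have hsn : ContMDiffAt 𝓘(ℝ, ℝ × (ℂ × ℝ)) 𝓘(ℝ, ℂ × ℝ) ∞ (fun p : ℝ × (ℂ × ℝ) => p.2) (l, q) :=
    contDiff_snd.contMDiff.contMDiffAt
  have hfs : ContMDiffAt 𝓘(ℝ, ℝ × (ℂ × ℝ)) 𝓘(ℝ, ℝ) ∞ (fun p : ℝ × (ℂ × ℝ) => p.1) (l, q) :=
    contDiff_fst.contMDiff.contMDiffAt
  have hT2 : ContMDiffAt 𝓘(ℝ, ℝ × (ℂ × ℝ)) (𝓡 3) ∞ (fun p : ℝ × (ℂ × ℝ) => T₀ (f p.2)) (l, q) :=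
    ContMDiffAt.comp (x := ((l, q) : ℝ × (ℂ × ℝ))) (g := fun s : ℂ × ℝ => T₀ (f s)) (f := fun p : ℝ × (ℂ × ℝ) => p.2)
      hTq.contMDiffAt hsn
  by_cases hc : (f q).2 < 1 / 8 + a₁
  · have hn : ∀ᶠ s in 𝓝 q, s ∈ TD ∩ O ∧ (f s).2 < 1 / 8 + a₁ :=
      hU.and ((continuous_snd.comp hf).continuousAt.eventually_lt_const hc)
    constructor
    · refine hT2.congr_of_eventuallyEq ?_
      have hn2 : ∀ᶠ p : ℝ × (ℂ × ℝ) in 𝓝 (l, q), p.2 ∈ TD ∩ O ∧ (f p.2).2 < 1 / 8 + a₁ :=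
        (continuous_snd.tendsto (l, q)).eventually hn
      filter_upwards [hn2] with p hp
      exact Unq_low D p.1 (hfT _ hp.1.1) (hfw _ hp.1.2) hp.2
    · refine CSG.ld_congr hTq ?_
      filter_upwards [hn] with s hs
      exact Unq_low D l (hfT _ hs.1.1) (hfw _ hs.1.2) hs.2
  · have hc' : 1 / 8 < (f q).2 := by
      push Not at hc
      linarith [D.a0]
    have hn : ∀ᶠ s in 𝓝 q, 1 / 8 < (f s).2 :=
      (continuous_snd.comp hf).continuousAt.eventually_const_lt hc'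
    constructor
    · have hR2 : ContMDiffAt 𝓘(ℝ, ℝ × (ℂ × ℝ)) (𝓡 3) ∞ (fun p : ℝ × (ℂ × ℝ) => R (T₀ (f p.2))) (l, q) :=
        ContMDiffAt.comp (x := ((l, q) : ℝ × (ℂ × ℝ))) (g := fun x : N => R x) (f := fun p : ℝ × (ℂ × ℝ) => T₀ (f p.2))
          (D.Rloc _).contMDiffAt hT2
      have hW2 : ContMDiffAt 𝓘(ℝ, ℝ × (ℂ × ℝ)) (𝓡 3) ∞ (fun p : ℝ × (ℂ × ℝ) => W p.1 (R (T₀ (f p.2)))) (l, q) :=
        ContMDiffAt.comp (x := ((l, q) : ℝ × (ℂ × ℝ))) (g := fun r : ℝ × N => W r.1 r.2)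
          (f := fun p : ℝ × (ℂ × ℝ) => (p.1, R (T₀ (f p.2)))) (D.Wsm.contMDiffAt) (hfs.prodMk hR2)
      refine hW2.congr_of_eventuallyEq ?_
      have hn2 : ∀ᶠ p : ℝ × (ℂ × ℝ) in 𝓝 (l, q), 1 / 8 < (f p.2).2 :=
        (continuous_snd.tendsto (l, q)).eventually hn
      filter_upwards [hn2] with p hp
      exact Unq_up p.1 hp
    · have h1 : IsLocalDiffeomorphAt 𝓘(ℝ, ℂ × ℝ) (𝓡 3) ∞ (fun s => R (T₀ (f s))) q :=
        IsLocalDiffeomorphAt.comp (hf := hTq) (hg := D.Rloc _)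
      have h2 : IsLocalDiffeomorphAt 𝓘(ℝ, ℂ × ℝ) (𝓡 3) ∞ (fun s => W l (R (T₀ (f s)))) q :=
        IsLocalDiffeomorphAt.comp (hf := h1) (hg := D.Wloc l _)
      refine CSG.ld_congr h2 ?_
      filter_upwards [hn] with s hs
      exact Unq_up l hs

end

theorem Unq_scale {q : E} (hq : q ∈ TD) {e : ℝ} (h0 : 0 < e) (h1 : e ≤ 1) :
    (((e : ℂ) * q.1, q.2) : E) ∈ TD ∧ ‖(e : ℂ) * q.1‖ < e := by
  have h2 : ‖(e : ℂ) * q.1‖ < e := by
    rw [norm_mul, Complex.norm_real, Real.norm_eq_abs, abs_of_pos h0]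
    nlinarith [hq.1, norm_nonneg q.1]
  exact ⟨⟨lt_of_lt_of_le h2 h1, hq.2⟩, h2⟩

theorem Unq_scale_TS {q : E} (hq : q ∈ TD) {e : ℝ} (h0 : 0 < e) (h1 : e ≤ 1) :
    (((e : ℂ) * q.1, q.2) : E) ∈ TS ↔ q ∈ TS := by
  have h3 : ((e : ℂ) * q.1).im = e * q.1.im := by simp
  have h4 : ((e : ℂ) * q.1).re = e * q.1.re := by simp
  constructor
  · rintro ⟨_, ha | ha⟩
    · refine ⟨hq, Or.inl ⟨ha.1, ?_⟩⟩
      have h5 := ha.2
      change ((e : ℂ) * q.1).im = 0 at h5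
      rw [h3] at h5
      rcases mul_eq_zero.1 h5 with h6 | h6
      · exact absurd h6 h0.ne'
      · exact h6
    · refine ⟨hq, Or.inr ⟨ha.1, ?_⟩⟩
      have h5 := ha.2
      change ((e : ℂ) * q.1).re = 0 at h5
      rw [h4] at h5
      rcases mul_eq_zero.1 h5 with h6 | h6
      · exact absurd h6 h0.ne'
      · exact h6
  · rintro ⟨_, ha | ha⟩
    · refine ⟨(Unq_scale hq h0 h1).1, Or.inl ⟨ha.1, ?_⟩⟩
      change ((e : ℂ) * q.1).im = 0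
      rw [h3, ha.2, mul_zero]
    · refine ⟨(Unq_scale hq h0 h1).1, Or.inr ⟨ha.1, ?_⟩⟩
      change ((e : ℂ) * q.1).re = 0
      rw [h4, ha.2, mul_zero]

theorem Unq_ofReal_mul (e y : ℝ) : ((e : ℂ) * (y : ℂ)) = (((e * y : ℝ) : ℂ)) := by
  push_cast
  ring

theorem Unq_real_of_im {z : ℂ} (h : z.im = 0) : z = (z.re : ℂ) := by
  apply Complex.ext <;> simp [h]

section
variable {N : Type*} [TopologicalSpace N] [ChartedSpace E3 N] [T2Space N]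
variable {K : Set N} {T₀ T₁ : E → N} {W : ℝ → Equiv.Perm N} {R : Equiv.Perm N} {k : ℤ} {e₀ a₁ : ℝ}

theorem Unq_G (D : UnqD K T₀ T₁ W R k e₀ a₁) {e : ℝ} (h0 : 0 < e) (h1 : e ≤ e₀) :
    Chd K fun q : E => T₀ (gk k ((e : ℂ) * q.1, q.2)) := by
  have he1 : e ≤ 1 := by linarith [D.e1]
  have hth := (chd_thin D.chd h0 he1).1
  have hf : Continuous fun q : E => (((e : ℂ) * q.1, q.2) : E) := by fun_prop
  have hfw : ∀ q ∈ TD, ‖((((e : ℂ) * q.1, q.2) : E)).1‖ < e₀ := fun q hq =>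
    lt_of_lt_of_le (Unq_scale hq h0 he1).2 h1
  have heq : ∀ q ∈ TD, T₀ (gk k ((e : ℂ) * q.1, q.2)) = UnqA T₀ W R 0 ((e : ℂ) * q.1, q.2) := fun q hq =>
    (Unq_A0 D (Unq_scale hq h0 he1).1 (hfw q hq)).symm
  refine Unq_mkChd ⟨hth.cht.opn, ?_, ?_⟩ ?_
  · intro q hq
    have h2 := (Unq_smooth D hf hth.cht (fun q hq => (Unq_scale hq h0 he1).1) hth.cht.opn hfw 0 hq hq).2
    refine CSG.ld_congr h2 ?_
    filter_upwards [hth.cht.opn.mem_nhds hq] with s hs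
    exact heq s hs
  · intro q hq q' hq' h
    change T₀ (gk k ((e : ℂ) * q.1, q.2)) = T₀ (gk k ((e : ℂ) * q'.1, q'.2)) at h
    rw [heq q hq, heq q' hq'] at h
    have h2 := Unq_inj0 D (Unq_scale hq h0 he1).1 (hfw q hq) (Unq_scale hq' h0 he1).1 (hfw q' hq') h
    have h3 : (e : ℂ) * q.1 = (e : ℂ) * q'.1 := (Prod.ext_iff.1 h2).1
    have h4 : q.2 = q'.2 := (Prod.ext_iff.1 h2).2
    have h5 : (e : ℂ) ≠ 0 := by exact_mod_cast h0.ne'
    exact Prod.ext (mul_left_cancel₀ h5 h3) h4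
  · intro q hq
    rw [heq q hq, Unq_K D 0 (Unq_scale hq h0 he1).1]
    exact Unq_scale_TS hq h0 he1

theorem Unq_knG (D : UnqD K T₀ T₁ W R k e₀ a₁) {e : ℝ} (h0 : 0 < e) (h1 : e ≤ e₀) :
    (K \ T₀ '' TD) ∪ T₀ '' (gk k '' TGd e fun _ => 1) = kn K fun q : E => T₀ (gk k ((e : ℂ) * q.1, q.2)) := by
  have he1 : e ≤ 1 := by linarith [D.e1]
  have hec : (e : ℂ) ≠ 0 := by exact_mod_cast h0.ne'
  have hGT : ∀ q ∈ TD, gk k ((e : ℂ) * q.1, q.2) ∈ TD := fun q hq => Unq_gk_mem k (Unq_scale hq h0 he1).1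
  have hinj : ∀ s ∈ TD, e ≤ ‖s.1‖ → T₀ s ∉ (fun q : E => T₀ (gk k ((e : ℂ) * q.1, q.2))) '' TD := by
    rintro s hs hn ⟨q, hq, he⟩
    have h2 := D.chd.cht.inj (hGT q hq) hs he
    have h3 : ‖s.1‖ = ‖(e : ℂ) * q.1‖ := by rw [← h2, Unq_gk_norm]
    have h4 := (Unq_scale hq h0 he1).2
    linarith
  unfold kn
  ext x
  constructor
  · rintro (⟨hxK, hx⟩ | ⟨_, ⟨s, hs, rfl⟩, rfl⟩)
    · refine Or.inl ⟨hxK, ?_⟩
      rintro ⟨q, hq, rfl⟩
      exact hx ⟨_, hGT q hq, rfl⟩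
    · rcases hs with ⟨y, hy, rfl⟩ | ⟨hs1, hs2, hs3⟩
      · change |e * y| < 1 at hy
        by_cases hy1 : |y| < 1
        · refine Or.inr ⟨((y : ℂ), 9 / 8 * bmp y), ⟨⟨?_, ?_, ?_⟩, Or.inl ⟨?_, ?_⟩⟩, ?_⟩
          · show ‖(y : ℂ)‖ < 1
            rw [Complex.norm_real, Real.norm_eq_abs]
            exact hy1
          · show -(1 / 4) < 9 / 8 * bmp y
            linarith [(Unq_bmp_mem y).1]
          · show 9 / 8 * bmp y < 5 / 4
            linarith [(Unq_bmp_mem y).2]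
          · show (y : ℂ).im = 0
            simp
          · show 9 / 8 * bmp y = 9 / 8 * bmp (y : ℂ).re
            simp
          · show T₀ (gk k ((e : ℂ) * (y : ℂ), 9 / 8 * bmp y)) = T₀ (gk k (((e * y : ℝ) : ℂ) * 1, 9 / 8 * bmp y))
            rw [Unq_ofReal_mul, mul_one]
        · push Not at hy1
          have hb : bmp y = 0 := Unq_bmp_zero (by linarith)
          have hs0 : (((((e * y : ℝ) : ℂ) * 1, 9 / 8 * bmp y)) : E) ∈ TS := by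
            refine ⟨⟨?_, ?_, ?_⟩, Or.inl ⟨?_, ?_⟩⟩
            · show ‖((e * y : ℝ) : ℂ) * 1‖ < 1
              rw [mul_one, Complex.norm_real, Real.norm_eq_abs]
              exact hy
            · show -(1 / 4) < 9 / 8 * bmp y
              rw [hb]; norm_num
            · show 9 / 8 * bmp y < 5 / 4
              rw [hb]; norm_num
            · show 9 / 8 * bmp y = 0
              rw [hb, mul_zero]
            · show (((e * y : ℝ) : ℂ) * 1).im = 0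
              rw [mul_one, Complex.ofReal_im]
          change T₀ (gk k (((((e * y : ℝ) : ℂ) * 1, 9 / 8 * bmp y)) : E)) ∈ _
          rw [Unq_gk_TS k hs0]
          refine Or.inl ⟨(Unq_hit D.chd hs0.1).2 hs0, hinj _ hs0.1 ?_⟩
          show e ≤ ‖((e * y : ℝ) : ℂ) * 1‖
          rw [mul_one, Complex.norm_real, Real.norm_eq_abs, abs_mul, abs_of_pos h0]
          nlinarith
      · have hs0 : s ∈ TS := ⟨hs1, Or.inr ⟨hs2, hs3⟩⟩
        by_cases hn : ‖s.1‖ < e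
        · refine Or.inr ⟨((e : ℂ)⁻¹ * s.1, s.2), ⟨⟨?_, hs1.2⟩, Or.inr ⟨hs2, ?_⟩⟩, ?_⟩
          · show ‖(e : ℂ)⁻¹ * s.1‖ < 1
            rw [norm_mul, norm_inv, Complex.norm_real, Real.norm_eq_abs, abs_of_pos h0, inv_mul_lt_iff₀ h0, mul_one]
            exact hn
          · show ((e : ℂ)⁻¹ * s.1).re = 0
            rw [← Complex.ofReal_inv, Complex.re_ofReal_mul, hs3, mul_zero]
          · show T₀ (gk k ((e : ℂ) * ((e : ℂ)⁻¹ * s.1), s.2)) = T₀ (gk k s)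
            rw [mul_inv_cancel_left₀ hec]
        · push Not at hn
          rw [Unq_gk_TS k hs0]
          exact Or.inl ⟨(Unq_hit D.chd hs1).2 hs0, hinj _ hs1 hn⟩
  · rintro (⟨hxK, hx⟩ | ⟨q, ⟨hq, hq'⟩, rfl⟩)
    · by_cases hxT : x ∈ T₀ '' TD
      · obtain ⟨s, hs, rfl⟩ := hxT
        have hs0 := (Unq_hit D.chd hs).1 hxK
        have hn : e ≤ ‖s.1‖ := by
          by_contra hn
          push Not at hn
          apply hx
          refine ⟨((e : ℂ)⁻¹ * s.1, s.2), ⟨?_, hs.2⟩, ?_⟩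
          · show ‖(e : ℂ)⁻¹ * s.1‖ < 1
            rw [norm_mul, norm_inv, Complex.norm_real, Real.norm_eq_abs, abs_of_pos h0, inv_mul_lt_iff₀ h0, mul_one]
            exact hn
          · show T₀ (gk k ((e : ℂ) * ((e : ℂ)⁻¹ * s.1), s.2)) = T₀ s
            rw [mul_inv_cancel_left₀ hec]
            show T₀ (gk k s) = T₀ s
            rw [Unq_gk_TS k hs0]
        refine Or.inr ⟨s, ⟨s, ?_, Unq_gk_TS k hs0⟩, rfl⟩
        rcases hs0.2 with ⟨h2, h3⟩ | ⟨h2, h3⟩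
        · left
          have hr := Unq_real_of_im h3
          have hey : e * (s.1.re / e) = s.1.re := by field_simp
          have hnr : ‖s.1‖ = |s.1.re| := by
            conv_lhs => rw [hr]
            rw [Complex.norm_real, Real.norm_eq_abs]
          have hb : bmp (s.1.re / e) = 0 := by
            apply Unq_bmp_zero
            rw [abs_div, abs_of_pos h0, le_div_iff₀ h0, ← hnr]
            linarith
          refine ⟨s.1.re / e, ?_, ?_⟩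
          · show |e * (s.1.re / e)| < 1
            rw [hey, ← hnr]
            exact hs.1
          · show ((((e * (s.1.re / e) : ℝ) : ℂ) * 1, 9 / 8 * bmp (s.1.re / e)) : E) = s
            rw [hey, hb, mul_one, mul_zero, ← hr, ← h2]
        · right
          exact ⟨hs, h2, h3⟩
      · exact Or.inl ⟨hxK, hxT⟩
    · refine Or.inr ⟨_, ⟨((e : ℂ) * q.1, q.2), ?_, rfl⟩, rfl⟩
      have hsc := Unq_scale hq h0 he1
      rcases hq' with ⟨h2, h3⟩ | ⟨h2, h3⟩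
      · left
        have hr := Unq_real_of_im h2
        refine ⟨q.1.re, ?_, ?_⟩
        · show |e * q.1.re| < 1
          have h5 := hsc.1.1
          change ‖(e : ℂ) * q.1‖ < 1 at h5
          rw [hr, Unq_ofReal_mul, Complex.norm_real, Real.norm_eq_abs] at h5
          exact h5
        · show ((((e * q.1.re : ℝ) : ℂ) * 1, 9 / 8 * bmp q.1.re) : E) = ((e : ℂ) * q.1, q.2)
          rw [← h3, mul_one, ← Unq_ofReal_mul, ← hr]
      · right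
        refine ⟨hsc.1, h2, ?_⟩
        show ((e : ℂ) * q.1).re = 0
        rw [Complex.re_ofReal_mul, h3, mul_zero]

theorem Unq_TF_TGd {e : ℝ} (h0 : 0 < e) (h1 : e < 1 / 512) (k : ℤ) : LEqO TD TF (gk k '' TGd e fun _ => 1) := by
  refine LEqO.trans ?_ (full_turn k h0 h1)
  rw [TF_eq, TGd_one h0 (by linarith)]
  refine leqO_graph₂ ?_ ?_ ?_ ?_ ?_ ?_
  · exact contDiff_const.mul Unq_bmp_smooth
  · exact contDiff_const.mul (Unq_bmp_smooth.comp (contDiff_id.div_const e))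
  · intro u hu
    have h2 : 1 / 8 ≤ |u / e| := by
      rw [abs_div, abs_of_pos h0, le_div_iff₀ h0]
      linarith
    rw [Unq_bmp_zero (by linarith : 1 / 8 ≤ |u|), Unq_bmp_zero h2, mul_zero]
    exact ⟨rfl, rfl⟩
  · intro u
    have := Unq_bmp_mem u
    constructor <;> linarith
  · intro u
    have := Unq_bmp_mem (u / e)
    constructor <;> linarith
  · left
    rw [zero_div, Unq_bmp_at]
    norm_num

end

section
variable {N : Type*} [TopologicalSpace N] [ChartedSpace E3 N] [IsManifold (𝓡 3) ∞ N] [T2Space N]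
variable {K : Set N} {T₀ T₁ : E → N} {W : ℝ → Equiv.Perm N} {R : Equiv.Perm N} {k : ℤ} {e₀ a₁ : ℝ}

theorem Unq_main (D : UnqD K T₀ T₁ W R k e₀ a₁) : LEqN (kn K T₀) (kn K T₁) := by
  obtain ⟨ξ, hξ, hd, hm, hξ0, hξ1, hlo, hhi, a, ha0, ha1, haa, hab⟩ := Unq_xi D.a0 D.a1
  have he0 := D.e0
  have he1 := D.e1
  have ha10 := D.a0
  have ha11 := D.a1
  obtain ⟨e, he⟩ : ∃ e : ℝ, e = e₀ := ⟨_, rfl⟩
  have hep : 0 < e := by rw [he]; exact he0
  have hee : e ≤ e₀ := he.le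
  have he5 : e < 1 / 512 := by linarith
  have hee1 : e ≤ 1 := by linarith
  have hfTD : ∀ q ∈ TD, ((q.1, ξ q.2) : E) ∈ TD ∧ -a₁ ≤ ξ q.2 ∧ ξ q.2 ≤ 1 + a₁ := by
    intro q hq
    have h1 : ξ (-(1 / 4)) < ξ q.2 := hm hq.2.1
    have h2 : ξ q.2 < ξ (5 / 4) := hm hq.2.2
    refine ⟨⟨hq.1, ?_, ?_⟩, by linarith, by linarith⟩
    · show -(1 / 4) < ξ q.2
      linarith
    · show ξ q.2 < 5 / 4
      linarith
  have hfTS : ∀ q ∈ TD, (((q.1, ξ q.2) : E) ∈ TS ↔ q ∈ TS) := by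
    intro q hq
    have i0 : ξ q.2 = 0 ↔ q.2 = 0 := by
      constructor
      · intro h
        exact hm.injective (h.trans hξ0.symm)
      · intro h
        rw [h, hξ0]
    have i1 : ξ q.2 = 1 ↔ q.2 = 1 := by
      constructor
      · intro h
        exact hm.injective (h.trans hξ1.symm)
      · intro h
        rw [h, hξ1]
    constructor
    · rintro ⟨_, h | h⟩
      · exact ⟨hq, Or.inl ⟨i0.1 h.1, h.2⟩⟩
      · exact ⟨hq, Or.inr ⟨i1.1 h.1, h.2⟩⟩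
    · rintro ⟨_, h | h⟩
      · exact ⟨(hfTD q hq).1, Or.inl ⟨i0.2 h.1, h.2⟩⟩
      · exact ⟨(hfTD q hq).1, Or.inr ⟨i1.2 h.1, h.2⟩⟩
  have hrl : -(1 / 4) ≤ ξ (-(1 / 4)) := by linarith
  have hrh : ξ (5 / 4) ≤ 5 / 4 := by linarith
  -- step 1
  have s1 : LEqN (kn K T₀) (kn K fun q : E => T₀ (gk k ((e : ℂ) * q.1, q.2))) := by
    have h1 := kn_of_leqO D.chd (Unq_TF_TGd hep he5 k)
    rw [Unq_knG D hep hee] at h1
    exact h1
  -- step 2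
  have s2 := (chd_repar (Unq_G D hep hee) (e := 1) one_pos le_rfl hξ hd hξ0 hξ1 hrl hrh).2
  have e2 : (kn K fun q : E => (fun q : E => T₀ (gk k ((e : ℂ) * q.1, q.2))) (((1 : ℝ) : ℂ) * q.1, ξ q.2)) =
      kn K fun q : E => (fun l q => UnqA T₀ W R l (q.1, ξ q.2)) 0 ((e : ℂ) * q.1, q.2) := by
    apply Unq_kn_congr
    intro q hq
    show T₀ (gk k ((e : ℂ) * (((1 : ℝ) : ℂ) * q.1), ξ q.2)) = UnqA T₀ W R 0 ((e : ℂ) * q.1, ξ q.2)
    have h1 := Unq_scale (hfTD q hq).1 hep hee1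
    rw [Unq_A0 D h1.1 (lt_of_lt_of_le h1.2 hee), Complex.ofReal_one, one_mul]
  rw [e2] at s2
  -- step 3
  have hT0 : Cht TD fun q : E => T₀ (q.1, ξ q.2) := by
    have h1 := (chd_repar D.chd (e := 1) one_pos le_rfl hξ hd hξ0 hξ1 hrl hrh).1.cht
    simpa only [Complex.ofReal_one, one_mul] using h1
  have hf : Continuous fun q : E => ((q.1, ξ q.2) : E) := by
    have := hξ.continuous
    fun_prop
  have hO : IsOpen {q : E | ‖q.1‖ < e₀} := isOpen_lt (by fun_prop) continuous_const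
  have hsm := fun (l : ℝ) (q : E) (hq : q ∈ TD) (hw : ‖q.1‖ < e₀) =>
    Unq_smooth D hf hT0 (fun q hq => (hfTD q hq).1) hO (fun q hq => hq) l hq hw
  have hend : ∀ q ∈ TD, q.2 ≤ a ∨ 1 - a ≤ q.2 → |ξ q.2| ≤ a₁ ∨ |ξ q.2 - 1| ≤ a₁ := by
    intro q hq h
    have h0 := hfTD q hq
    rcases h with h | h
    · left
      have h1 : ξ q.2 ≤ ξ a := hm.monotone h
      rw [abs_le]
      constructor <;> linarith
    · right
      have h1 : ξ (1 - a) ≤ ξ q.2 := hm.monotone h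
      rw [abs_le]
      constructor <;> linarith
  have hback : ∀ q q' : E, ((q.1, ξ q.2) : E) = (q'.1, ξ q'.2) → q = q' := by
    intro q q' h
    have h1 : q.1 = q'.1 := (Prod.ext_iff.1 h).1
    have h2 : ξ q.2 = ξ q'.2 := (Prod.ext_iff.1 h).2
    exact Prod.ext h1 (hm.injective h2)
  have s3 := rib_move (K := K) (A := fun l q => UnqA T₀ W R l (q.1, ξ q.2)) (e₀ := e₀) (a := a) he0 (by linarith) ha0 ha1
    (fun l _ q hq hw => (hsm l q hq hw).1) (fun l _ q hq hw => (hsm l q hq hw).2)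
    (fun l _ q hq hw h => by
      show UnqA T₀ W R l (q.1, ξ q.2) = UnqA T₀ W R 0 (q.1, ξ q.2)
      rw [Unq_ends D l (hfTD q hq).1 hw (hend q hq h), Unq_ends D 0 (hfTD q hq).1 hw (hend q hq h)])
    (fun l hl q hq q' hq' h => by
      change UnqA T₀ W R l (q.1, ξ q.2) = UnqA T₀ W R l (q'.1, ξ q'.2) at h
      rcases hl with rfl | rfl
      · exact hback q q' (Unq_inj0 D (hfTD q hq.1).1 hq.2 (hfTD q' hq'.1).1 hq'.2 h)
      · rw [Unq_A1 D (hfTD q hq.1).1 hq.2, Unq_A1 D (hfTD q' hq'.1).1 hq'.2] at h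
        exact hback q q' (D.chd1.cht.inj (hfTD q hq.1).1 (hfTD q' hq'.1).1 h))
    (fun l _ q hq hw h q' hq' hw' he => hback q q' (Unq_sep D l (hfTD q hq).1 hw (hend q hq h) (hfTD q' hq').1 he))
    (fun l _ q hq hw => by
      show UnqA T₀ W R l (q.1, ξ q.2) ∈ K ↔ q ∈ TS
      rw [Unq_K D l (hfTD q hq).1]
      exact hfTS q hq) hep hee
  -- step 4
  have s4 := (chd_repar D.chd1 hep hee1 hξ hd hξ0 hξ1 hrl hrh).2
  have e4 : (kn K fun q : E => (fun l q => UnqA T₀ W R l (q.1, ξ q.2)) 1 ((e : ℂ) * q.1, q.2)) =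
      kn K fun q : E => T₁ ((e : ℂ) * q.1, ξ q.2) := by
    apply Unq_kn_congr
    intro q hq
    show UnqA T₀ W R 1 ((e : ℂ) * q.1, ξ q.2) = T₁ ((e : ℂ) * q.1, ξ q.2)
    have h1 := Unq_scale (hfTD q hq).1 hep hee1
    exact Unq_A1 D h1.1 (lt_of_lt_of_le h1.2 hee)
  rw [e4] at s3
  exact s1.trans (s2.trans (s3.trans s4.symm))

end

section
variable {N : Type*} [TopologicalSpace N] [ChartedSpace E3 N] [IsManifold (𝓡 3) ∞ N] [T2Space N]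

theorem Unq_off {K : Set N} {T : E → N} (h : Chd K T) {q : E} (hq : q ∈ TD) (h0 : 0 < q.2) (h1 : q.2 < 1) : T q ∈ Kᶜ := by
  intro h2
  have h3 := (Unq_hit h hq).1 h2
  rcases h3.2 with h4 | h4
  · linarith [h4.1]
  · linarith [h4.1]

theorem Unq_shift {q : E} (h : q ∈ Bl (1 / 32)) : ((q.1, 1 / 8 + q.2) : E) ∈ TD ∧ ‖q.1‖ < 1 / 32 ∧ |q.2| < 1 / 32 := by
  have h1 : ‖q.1‖ ^ 2 + q.2 ^ 2 < (1 / 32 : ℝ) ^ 2 := h
  have h2 : ‖q.1‖ < 1 / 32 := by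
    apply lt_of_pow_lt_pow_left₀ 2 (by norm_num)
    nlinarith [sq_nonneg q.2]
  have h3 : |q.2| < 1 / 32 := by
    apply lt_of_pow_lt_pow_left₀ 2 (by norm_num)
    rw [sq_abs]
    nlinarith [sq_nonneg ‖q.1‖]
  have h4 := abs_lt.1 h3
  refine ⟨⟨?_, ?_, ?_⟩, h2, h3⟩
  · show ‖q.1‖ < 1
    linarith
  · show -(1 / 4) < 1 / 8 + q.2
    linarith [h4.1]
  · show 1 / 8 + q.2 < 5 / 4
    linarith [h4.2]

theorem Unq_beta {T : E → N} (h : Cht TD T) : Cht (Bl (1 / 32)) fun q : E => T (q.1, 1 / 8 + q.2) := by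
  refine h.comp (f := fun q : E => ((q.1, 1 / 8 + q.2) : E)) (isOpen_Bl _) ?_ ?_ ?_ ?_
  · intro q _
    exact (contDiff_fst.prodMk (contDiff_const.add contDiff_snd)).contDiffAt
  · intro q _
    have h1 : HasFDerivAt (fun q : E => ((q.1, 1 / 8 + q.2) : E)) (ContinuousLinearMap.id ℝ E) q := by
      have h2 := ((hasFDerivAt_id (𝕜 := ℝ) (E := E) q).add_const (((0 : ℂ), (1 / 8 : ℝ)) : E))
      refine h2.congr_of_eventuallyEq (Eventually.of_forall fun s => ?_)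
      show ((s.1, 1 / 8 + s.2) : E) = s + (0, 1 / 8)
      ext1
      · simp
      · simp [add_comm]
    rw [h1.fderiv]
    exact Function.bijective_id
  · intro q _ q' _ he
    have h1 : q.1 = q'.1 := (Prod.ext_iff.1 he).1
    have h2 : 1 / 8 + q.2 = 1 / 8 + q'.2 := (Prod.ext_iff.1 he).2
    exact Prod.ext h1 (by linarith)
  · intro q hq
    exact (Unq_shift hq).1

theorem Unq_conj_mem {q : E} (h : q ∈ TD) : refL q ∈ TD := by
  rw [refL_apply]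
  refine ⟨?_, h.2⟩
  show ‖(starRingEnd ℂ) q.1‖ < 1
  rw [RCLike.norm_conj]
  exact h.1

theorem Unq_conj {T : E → N} (h : Cht TD T) : Cht TD fun q : E => T (refL q) := by
  have hinv : ∀ q : E, refL (refL q) = q := by
    intro q
    rw [refL_apply, refL_apply]
    exact Prod.ext (Complex.conj_conj q.1) rfl
  refine h.comp (f := fun q : E => refL q) h.opn ?_ ?_ ?_ ?_
  · intro q _
    exact refL.contDiff.contDiffAt
  · intro q _
    rw [show (fun q : E => refL q) = ⇑refL from rfl, refL.fderiv]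
    constructor
    · intro a b hab
      rw [← hinv a, ← hinv b, hab]
    · intro b
      exact ⟨refL b, hinv b⟩
  · intro a _ b _ hab
    change refL a = refL b at hab
    rw [← hinv a, ← hinv b, hab]
  · intro q hq
    exact Unq_conj_mem hq

/-- the signs agree -/
theorem Unq_sign {κ : ℝ × ℂ → N} (hκ : Thick κ) {p p' ε : ℝ} {y y' : ((core κ)ᶜ : Set N)}
    {c c' : Path y y'} (hc : c.Homotopic c') {r : ℝ} {T₀ T₁ : E → N} (h₀ : Chd (core κ) T₀)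
    (h₁ : Chd (core κ) T₁) {σ : ℝ} (s₀ : StdR κ p p' ε σ r T₀) (s₁ : StdR κ p p' ε (-σ) r T₁)
    (r₀ : RepI (fun x => T₀ (0, x)) (1 / 8) (7 / 8) c) (r₁ : RepI (fun x => T₁ (0, x)) (1 / 8) (7 / 8) c') : False := by
  have hYo : IsOpen ((core κ)ᶜ : Set N) := (core_compact hκ).isClosed.isOpen_compl
  obtain ⟨V, hV, hf, hV1⟩ := two_tubes (Y := (core κ)ᶜ) (T₀ := T₀) (T₁ := fun q : E => T₁ (refL q)) h₀.cht (Unq_conj h₁.cht)
    (fun q hq h0 h1 => Unq_off h₀ hq h0 h1)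
    (fun q hq h0 h1 => Unq_off h₁ (Unq_conj_mem hq) (by rw [refL_apply]; exact h0) (by rw [refL_apply]; exact h1))
    (fun q hq hx => by
      show T₀ q = T₁ (refL q)
      rw [s₀.tip q hq hx, s₁.tip (refL q) (Unq_conj_mem hq) (by rw [refL_apply]; exact hx), refL_apply]
      unfold tipT
      simp)
    (c := c) (c' := c') r₀
    (repI_congr r₁ fun t _ => by
      show T₁ (refL (0, t)) = T₁ (0, t)
      rw [refL_apply, map_zero]) hc
  have hy : T₀ (0, 1 / 8) = y := (repI_cont r₀).2.2.1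
  refine no_reflection hYo hV hf (β := fun q : E => T₀ (q.1, 1 / 8 + q.2)) (δ₀ := 1 / 32) (by norm_num) (Unq_beta h₀.cht) ?_
    ⟨1 / 32, by norm_num, ?_⟩
  · show T₀ (0, 1 / 8 + 0) = y
    rw [add_zero]
    exact hy
  · intro q hq
    obtain ⟨hm, hw, hx⟩ := Unq_shift hq
    have hx' := abs_lt.1 hx
    show V 1 (T₀ (q.1, 1 / 8 + q.2)) = T₀ ((refL q).1, 1 / 8 + (refL q).2)
    rw [hV1 (q.1, 1 / 8 + q.2) (by show ‖q.1‖ ≤ 1 / 2; linarith) (by show 3 / 32 ≤ 1 / 8 + q.2; linarith [hx'.1])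
      (by show 1 / 8 + q.2 < 5 / 4; linarith [hx'.2])]
    rw [refL_apply, refL_apply]
    have hm2 : (((starRingEnd ℂ) q.1, 1 / 8 + q.2) : E) ∈ TD := by
      have := Unq_conj_mem hm
      rw [refL_apply] at this
      exact this
    show T₁ ((starRingEnd ℂ) q.1, 1 / 8 + q.2) = T₀ ((starRingEnd ℂ) q.1, 1 / 8 + q.2)
    rw [s₁.foot _ hm2 (by show 1 / 8 + q.2 < 1 / 4; linarith [hx'.2]),
      s₀.foot _ hm2 (by show 1 / 8 + q.2 < 1 / 4; linarith [hx'.2])]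

theorem Unq_core {κ : ℝ × ℂ → N} (hκ : Thick κ) {p p' ε : ℝ} {y y' : ((core κ)ᶜ : Set N)}
    {c c' : Path y y'} (hc : c.Homotopic c') {r : ℝ} {T₀ T₁ : E → N} (h₀ : Chd (core κ) T₀)
    (h₁ : Chd (core κ) T₁) {σ : ℝ} (s₀ : StdR κ p p' ε σ r T₀) (s₁ : StdR κ p p' ε σ r T₁)
    (r₀ : RepI (fun x => T₀ (0, x)) (1 / 8) (7 / 8) c) (r₁ : RepI (fun x => T₁ (0, x)) (1 / 8) (7 / 8) c') :
    LEqN (kn (core κ) T₀) (kn (core κ) T₁) := by
  have hYo : IsOpen ((core κ)ᶜ : Set N) := (core_compact hκ).isClosed.isOpen_compl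
  obtain ⟨V, hV, hf, hV1⟩ := two_tubes (Y := (core κ)ᶜ) (T₀ := T₀) (T₁ := T₁) h₀.cht h₁.cht
    (fun q hq h0 h1 => Unq_off h₀ hq h0 h1) (fun q hq h0 h1 => Unq_off h₁ hq h0 h1)
    (fun q hq hx => by rw [s₀.tip q hq hx, s₁.tip q hq hx])
    (c := c) (c' := c') r₀ r₁ hc
  have hy : T₀ (0, 1 / 8) = y := (repI_cont r₀).2.2.1
  have hfoot : ∀ q ∈ TD, q.2 < 1 / 4 → T₁ q = T₀ q := fun q hq hx => by rw [s₀.foot q hq hx, s₁.foot q hq hx]
  have hβ := Unq_beta h₀.cht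
  have hβY : (fun q : E => T₀ (q.1, 1 / 8 + q.2)) '' Bl (1 / 32) ⊆ (core κ)ᶜ := by
    rintro _ ⟨q, hq, rfl⟩
    obtain ⟨hm, hw, hx⟩ := Unq_shift hq
    have hx' := abs_lt.1 hx
    exact Unq_off h₀ hm (by show 0 < 1 / 8 + q.2; linarith [hx'.1]) (by show 1 / 8 + q.2 < 1; linarith [hx'.2])
  obtain ⟨W, R, k, hW, hR, ⟨ρ, hρ, hgerm⟩, hrot, hfac⟩ := lifting hYo hV hf (β := fun q : E => T₀ (q.1, 1 / 8 + q.2))
    (δ₀ := 1 / 32) (by norm_num) hβ hβY (by show T₀ (0, 1 / 8 + 0) = y; rw [add_zero]; exact hy)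
    ⟨1 / 32, by norm_num, fun q hq => by
      obtain ⟨hm, hw, hx⟩ := Unq_shift hq
      have hx' := abs_lt.1 hx
      show V 1 (T₀ (q.1, 1 / 8 + q.2)) = T₀ (q.1, 1 / 8 + q.2)
      rw [hV1 (q.1, 1 / 8 + q.2) (by show ‖q.1‖ ≤ 1 / 2; linarith) (by show 3 / 32 ≤ 1 / 8 + q.2; linarith [hx'.1])
        (by show 1 / 8 + q.2 < 5 / 4; linarith [hx'.2])]
      exact hfoot _ hm (by show 1 / 8 + q.2 < 1 / 4; linarith [hx'.2])⟩ (δ := 1 / 32) (by norm_num) le_rfl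
  obtain ⟨C, hC, hCY, hCW⟩ := hW.supp
  have hnear : ∀ x₀ : ℝ, (x₀ = 0 ∨ x₀ = 1) → ∃ δ : ℝ, 0 < δ ∧ ∀ q : E, ‖q.1‖ < δ → |q.2 - x₀| < δ → T₀ q ∉ C := by
    intro x₀ hx₀
    have hmem : (((0 : ℂ), x₀) : E) ∈ TS := by
      refine ⟨⟨?_, ?_, ?_⟩, ?_⟩
      · show ‖(0 : ℂ)‖ < 1
        simp
      · show -(1 / 4) < x₀
        rcases hx₀ with rfl | rfl <;> norm_num
      · show x₀ < 5 / 4
        rcases hx₀ with rfl | rfl <;> norm_num
      · rcases hx₀ with rfl | rfl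
        · exact Or.inl ⟨rfl, by simp⟩
        · exact Or.inr ⟨rfl, by simp⟩
    have hK : T₀ ((0 : ℂ), x₀) ∈ core κ := (Unq_hit h₀ hmem.1).2 hmem
    have hnC : T₀ ((0 : ℂ), x₀) ∈ Cᶜ := fun h => hCY h hK
    have hct : ContinuousAt T₀ ((0 : ℂ), x₀) := (h₀.cht.contOn).continuousAt (h₀.cht.opn.mem_nhds hmem.1)
    have hev : ∀ᶠ q in 𝓝 (((0 : ℂ), x₀) : E), T₀ q ∈ Cᶜ := hct.eventually (hC.isClosed.isOpen_compl.mem_nhds hnC)
    obtain ⟨δ, hδ, hb⟩ := Metric.eventually_nhds_iff.1 hev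
    refine ⟨δ, hδ, fun q h1 h2 => hb ?_⟩
    rw [Prod.dist_eq]
    refine max_lt ?_ ?_
    · rw [dist_zero_right]
      exact h1
    · rw [Real.dist_eq]
      exact h2
  obtain ⟨δ₀, hδ₀, hn0⟩ := hnear 0 (Or.inl rfl)
  obtain ⟨δ₁, hδ₁, hn1⟩ := hnear 1 (Or.inr rfl)
  obtain ⟨η, hη0, hη1, hη2, hη3, hη4⟩ : ∃ η : ℝ, 0 < η ∧ η < 1 / 1024 ∧ η < δ₀ ∧ η < δ₁ ∧ 2 * η < ρ := by
    refine ⟨min (min (1 / 2048) (δ₀ / 2)) (min (δ₁ / 2) (ρ / 4)), ?_, ?_, ?_, ?_, ?_⟩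
    · positivity
    · calc _ ≤ min (1 / 2048) (δ₀ / 2) := min_le_left _ _
        _ ≤ 1 / 2048 := min_le_left _ _
        _ < _ := by norm_num
    · calc _ ≤ min (1 / 2048) (δ₀ / 2) := min_le_left _ _
        _ ≤ δ₀ / 2 := min_le_right _ _
        _ < _ := by linarith
    · calc _ ≤ min (δ₁ / 2) (ρ / 4) := min_le_right _ _
        _ ≤ δ₁ / 2 := min_le_left _ _
        _ < _ := by linarith
    · have : min (min (1 / 2048) (δ₀ / 2)) (min (δ₁ / 2) (ρ / 4)) ≤ ρ / 4 :=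
        (min_le_right _ _).trans (min_le_right _ _)
      linarith
  have hstp1 : stp (1 / 8) (7 / 8) 1 = 1 := CSG.stp_one (by norm_num) (by norm_num)
  have hT0s : ∀ q : E, T₀ q = (fun q : E => T₀ (q.1, 1 / 8 + q.2)) (q.1, q.2 - 1 / 8) := by
    intro q
    show T₀ q = T₀ (q.1, 1 / 8 + (q.2 - 1 / 8))
    rw [add_sub_cancel]
  have hRout : ∀ q ∈ TD, ((q.1, q.2 - 1 / 8) : E) ∉ Bl (1 / 32) → R 1 (T₀ q) = T₀ q := by
    intro q hq hn
    apply hR.out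
    rintro ⟨s, hs, he⟩
    have h2 := h₀.cht.inj (Unq_shift hs).1 hq he
    apply hn
    have h3 : s.1 = q.1 := (Prod.ext_iff.1 h2).1
    have h4 : 1 / 8 + s.2 = q.2 := (Prod.ext_iff.1 h2).2
    have h5 : ((q.1, q.2 - 1 / 8) : E) = s := Prod.ext h3.symm (by show q.2 - 1 / 8 = s.2; linarith)
    rw [h5]
    exact hs
  have hRin : ∀ q : E, ((q.1, q.2 - 1 / 8) : E) ∈ Bl (1 / 32) →
      R 1 (T₀ q) = T₀ (ex (k * bum (1 / 32) (q.1, q.2 - 1 / 8)) * q.1, q.2) := by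
    intro q hs
    rw [hT0s q, hrot 1 _ hs, rotP_apply, hstp1, mul_one]
    show T₀ (ex (k * bum (1 / 32) (q.1, q.2 - 1 / 8)) * q.1, 1 / 8 + (q.2 - 1 / 8)) = _
    rw [add_sub_cancel]
  have D : UnqD (core κ) T₀ T₁ W (R 1) k η η := by
    refine ⟨h₀, h₁, hW.zero, hW.smooth, hW.loc, hR.loc 1, ?_, ?_, hη0, hη1, hη0, by linarith, ?_, ?_, ?_, ?_, ?_⟩
    · intro l x
      constructor
      · intro h
        by_contra hx
        exact hW.mem l hx h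
      · intro h
        rw [hW.out l (fun hx => hx h)]
        exact h
    · intro x
      have hR' := hR.mono hβY
      constructor
      · intro h
        by_contra hx
        exact hR'.mem 1 hx h
      · intro h
        rw [hR'.out 1 (fun hx => hx h)]
        exact h
    · intro q hq hw hx
      have hx' := abs_lt.1 hx
      have hnr : nr ((q.1, q.2 - 1 / 8) : E) ≤ 2 * η ^ 2 := by
        show ‖q.1‖ ^ 2 + (q.2 - 1 / 8) ^ 2 ≤ 2 * η ^ 2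
        have e1 : ‖q.1‖ ^ 2 ≤ η ^ 2 := by gcongr
        have e2 : (q.2 - 1 / 8) ^ 2 ≤ η ^ 2 := by
          rw [← sq_abs (q.2 - 1 / 8)]
          gcongr
        linarith
      have hη5 : η ^ 2 ≤ (1 / 1024) ^ 2 := by gcongr
      constructor
      · rw [hRin q (by show nr ((q.1, q.2 - 1 / 8) : E) < (1 / 32) ^ 2; nlinarith),
          bum_one (by norm_num) (by nlinarith), mul_one, Unq_ex_int, one_mul]
      · intro l
        have h1 : ((q.1, q.2 - 1 / 8) : E) ∈ Bl ρ := by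
          show nr ((q.1, q.2 - 1 / 8) : E) < ρ ^ 2
          nlinarith
        rw [hT0s q]
        exact hgerm l _ h1
    · intro q hq hw hx
      constructor
      · apply hRout q hq
        intro hb
        have h2 := abs_lt.1 (Unq_shift hb).2.2
        have h3 : -(1 / 32) < q.2 - 1 / 8 := h2.1
        have h4 : q.2 - 1 / 8 < 1 / 32 := h2.2
        rcases hx with hx | hx
        · have := abs_le.1 hx
          linarith [this.2]
        · have := abs_le.1 hx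
          linarith [this.1]
      · intro l
        apply hCW
        rcases hx with hx | hx
        · apply hn0 q (by linarith)
          rw [sub_zero]
          linarith
        · exact hn1 q (by linarith) (by linarith)
    · intro q hq hw hx
      by_cases hb : ((q.1, q.2 - 1 / 8) : E) ∈ Bl (1 / 32)
      · rw [hRin q hb]
        unfold gk
        rw [if_neg (by push Not; exact hx)]
      · rw [hRout q hq hb, Unq_gk_far k]
        have h2 : ¬ nr ((q.1, q.2 - 1 / 8) : E) < (1 / 32) ^ 2 := hb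
        push Not at h2
        linarith
    · intro q hq hw hx
      rw [← hfac]
      exact hV1 q (by linarith) (by linarith) hq.2.2
    · intro q hq hx
      exact hfoot q hq (by linarith)
  exact Unq_main D

/-- thin the chord -/
theorem Unq_thin {κ : ℝ × ℂ → N} {p p' ε : ℝ} {y y' : ((core κ)ᶜ : Set N)} {c : Path y y'} {σ r : ℝ} {T : E → N}
    (h : Chd (core κ) T) (s : StdR κ p p' ε σ r T) (hr : RepI (fun x => T (0, x)) (1 / 8) (7 / 8) c) {r' : ℝ} (h0 : 0 < r')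
    (h1 : r' ≤ r) : ∃ T' : E → N, Chd (core κ) T' ∧ StdR κ p p' ε σ r' T' ∧ RepI (fun x => T' (0, x)) (1 / 8) (7 / 8) c ∧
      LEqN (kn (core κ) T) (kn (core κ) T') := by
  have hrp := s.pos
  have he0 : 0 < r' / r := div_pos h0 hrp
  have he1 : r' / r ≤ 1 := (div_le_one hrp).2 h1
  obtain ⟨h2, h3⟩ := chd_thin h he0 he1
  have hm : (r : ℂ) * ((r' / r : ℝ) : ℂ) = (r' : ℂ) := by
    rw [Unq_ofReal_mul]
    congr 1
    field_simp
  refine ⟨_, h2, ⟨s.sgn, h0, h1.trans s.le, ?_, ?_⟩, ?_, h3⟩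
  · intro q hq hx
    show T (((r' / r : ℝ) : ℂ) * q.1, q.2) = _
    rw [s.foot _ (Unq_scale hq he0 he1).1 hx, ← hm]
    show footT κ p ε ((r : ℂ) * (((r' / r : ℝ) : ℂ) * q.1), q.2) = _
    rw [mul_assoc]
  · intro q hq hx
    show T (((r' / r : ℝ) : ℂ) * q.1, q.2) = _
    rw [s.tip _ (Unq_scale hq he0 he1).1 hx, ← hm]
    show tipT κ p' ε σ ((r : ℂ) * (((r' / r : ℝ) : ℂ) * q.1), q.2) = _
    rw [mul_assoc]
  · refine repI_congr hr fun t _ => ?_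
    show T (((r' / r : ℝ) : ℂ) * 0, t) = T (0, t)
    rw [mul_zero]

theorem fgr_unique {κ : ℝ × ℂ → N} (hκ : Thick κ) {p p' ε : ℝ} (A : Adm p p' ε) {y y' : ((core κ)ᶜ : Set N)} {c c' : Path y y'}
    (hc : c.Homotopic c') {K' K'' : Set N} (h : Fgr κ p p' ε c K') (h' : Fgr κ p p' ε c' K'') : LEqN K' K'' := by
  obtain ⟨σ, r, T, hT, hS, hR, rfl⟩ := h
  obtain ⟨σ', r', T', hT', hS', hR', rfl⟩ := h'
  obtain ⟨T₀, h1, h2, h3, h4⟩ := Unq_thin hT hS hR (r' := min r r') (lt_min hS.pos hS'.pos) (min_le_left _ _)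
  obtain ⟨T₁, g1, g2, g3, g4⟩ := Unq_thin hT' hS' hR' (r' := min r r') (lt_min hS.pos hS'.pos) (min_le_right _ _)
  have hσ : σ' = σ := by
    rcases hS.sgn with rfl | rfl <;> rcases hS'.sgn with rfl | rfl
    · rfl
    · exact (Unq_sign hκ hc h1 g1 h2 g2 h3 g3).elim
    · exact (Unq_sign hκ hc h1 g1 h2 (by rw [neg_neg]; exact g2) h3 g3).elim
    · rfl
  rw [hσ] at g2
  exact h4.trans ((Unq_core hκ hc h1 g1 h2 g2 h3 g3).trans g4.symm)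

end

end Pool.Agent.NHE
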