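import Pool.Agent.NHE.Tyc
import Pool.Agent.NHE.Siz
import Pool.Agent.NHE.Unq

/-!
# NHE/Exf: EXISTENCE OF THE FINGER IN AN OPEN SET (difficulty 3, assembly)

`exists_tiny`: `ε'`, `c₁`; `tiny_chord` for `ε'` (`Adm p p' ε'`): `T`.  `exists_scale` with `ε' ≤ ε`: `X`.  `T^ q = X 1 (T q)`: `chd_push`, `X 1 '' O = O` (`Push.mono`, `Push.image`), `StdR κ p p' ε σ r T^`: for `x < 1/4` `T q = footT κ p 1 (ε' • (r w, x))` with `nr ≤ (ε'/2)²`, so `X 1` of it is `footT κ p 1 (ε • (r w, x))`; the tip with `tip_foot`.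
Class: `class_move` in `Y = O ∩ (core κ)ᶜ` with the traces of `κ (p, ε'/8)`, `κ (p', ε'/8)` (`radial_trace`): `d.symm ≈` the segment from `ε/8` to `ε'/8`; the product `(ε/8 → ε'/8)(ε'/8 → ε'/2)(ε'/2 → ε/8) c (ε/8 → ε'/2)(ε'/2 → ε'/8)(ε'/8 → ε/8) ≈ c` (`repI_trans`, `repI_const`, `repI_iff`).
-/

open scoped Manifold ContDiff Topology
open Set Filter
open Pool.Agent.CSG (stp)
open Pool.Agent.RSG (E3 ex Thick)
open Pool.Agent.KNT (Dom Str Str2 BalC bmp)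
open Pool.Agent.NHP

namespace Pool.Agent.NHE

section
variable {N : Type*} [TopologicalSpace N] [ChartedSpace E3 N] [IsManifold (𝓡 3) ∞ N] [T2Space N]

omit [TopologicalSpace N] [ChartedSpace E3 N] [IsManifold (𝓡 3) ∞ N] [T2Space N] in
theorem Exf_foot (κ : ℝ × ℂ → N) (p ε t : ℝ) : footT κ p ε ((0, t) : E) = κ (p, ((ε * t : ℝ) : ℂ)) := by
  unfold footT
  congr 1
  rw [Prod.mk.injEq]
  constructor
  · simp
  · apply Complex.ext <;> simp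

omit [TopologicalSpace N] [ChartedSpace E3 N] [IsManifold (𝓡 3) ∞ N] [T2Space N] in
theorem Exf_tip (κ : ℝ × ℂ → N) (p ε σ t : ℝ) : tipT κ p ε σ ((0, t) : E) = κ (p, ((ε * (1 - t) : ℝ) : ℂ)) := by
  unfold tipT
  congr 1
  rw [Prod.mk.injEq]
  constructor
  · simp
  · apply Complex.ext <;> simp

omit [TopologicalSpace N] [ChartedSpace E3 N] [IsManifold (𝓡 3) ∞ N] [T2Space N] in
theorem Exf_nr {r x a b : ℝ} {w : ℂ} (h0 : 0 < r) (h1 : r ≤ 1 / 8) (hw : ‖w‖ < 1) (hx : x ^ 2 ≤ 1 / 16)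
    (h : a ^ 2 + b ^ 2 = ‖(r : ℂ) * w‖ ^ 2) : nr ((⟨a, b⟩ : ℂ), x) ≤ 1 / 4 := by
  unfold nr
  show ‖(⟨a, b⟩ : ℂ)‖ ^ 2 + x ^ 2 ≤ 1 / 4
  rw [Complex.sq_norm, Complex.normSq_mk]
  rw [norm_mul, Complex.norm_real, Real.norm_eq_abs, abs_of_pos h0] at h
  have h2 : r * ‖w‖ ≤ 1 / 8 := by nlinarith [norm_nonneg w]
  have h3 : 0 ≤ r * ‖w‖ := by positivity
  nlinarith

omit [TopologicalSpace N] [ChartedSpace E3 N] [IsManifold (𝓡 3) ∞ N] [T2Space N] in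
theorem Exf_eb_mono (κ : ℝ × ℂ → N) (p : ℝ) {ε' ε : ℝ} (h0 : 0 < ε') (h : ε' ≤ ε) : eb κ p ε' ⊆ eb κ p ε := by
  rintro x ⟨q, hq, rfl⟩
  refine ⟨q, ?_, rfl⟩
  have hq' : (q.1 - p) ^ 2 + ‖q.2‖ ^ 2 < ε' ^ 2 := hq
  show (q.1 - p) ^ 2 + ‖q.2‖ ^ 2 < ε ^ 2
  nlinarith

omit [IsManifold (𝓡 3) ∞ N] [T2Space N] in
theorem Exf_mem {κ : ℝ × ℂ → N} (hκ : Thick κ) {p₀ ε : ℝ} (h1 : ε < 1 / 4) {O : Set N} (hO : eb κ p₀ ε ⊆ O)
    {t : ℝ} (ht : t ∈ Ioo (0 : ℝ) ε) : κ (p₀, (t : ℂ)) ∈ O ∩ (core κ)ᶜ := by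
  have hn : ‖(t : ℂ)‖ = t := by
    rw [Complex.norm_real, Real.norm_eq_abs, abs_of_pos ht.1]
  constructor
  · apply hO
    refine ⟨(p₀, (t : ℂ)), ?_, rfl⟩
    show (p₀ - p₀) ^ 2 + ‖(t : ℂ)‖ ^ 2 < ε ^ 2
    rw [hn]
    nlinarith [ht.1, ht.2]
  · rw [mem_compl_iff, mem_core hκ (by rw [hn]; linarith [ht.2])]
    exact_mod_cast ht.1.ne'

omit [IsManifold (𝓡 3) ∞ N] [T2Space N] in
theorem Exf_rep {κ : ℝ × ℂ → N} (hκ : Thick κ) {p₀ ε : ℝ} (h1 : ε < 1 / 4) {O : Set N} (hO : eb κ p₀ ε ⊆ O)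
    {a b : ℝ} (ha : a ∈ Ioo (0 : ℝ) ε) (hb : b ∈ Ioo (0 : ℝ) ε) {y y' : (O ∩ (core κ)ᶜ : Set N)}
    (hy : (y : N) = κ (p₀, (a : ℂ))) (hy' : (y' : N) = κ (p₀, (b : ℂ))) :
    ∃ d : Path y y', RepI (fun t => κ (p₀, (t : ℂ))) a b d := by
  have hsub : uIcc a b ⊆ Ioo (0 : ℝ) ε := ordConnected_Ioo.uIcc_subset ha hb
  refine exists_repI ?_ (fun t ht => Exf_mem hκ h1 hO (hsub ht)) hy.symm hy'.symm
  intro t ht
  apply ContinuousAt.continuousWithinAt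
  have h5 : ContinuousAt κ (p₀, (t : ℂ)) := by
    refine (hκ.loc p₀ t ?_).contMDiffAt.continuousAt
    rw [Complex.norm_real, Real.norm_eq_abs, abs_lt]
    have := hsub ht
    constructor <;> linarith [this.1, this.2]
  exact ContinuousAt.comp (f := fun t : ℝ => (p₀, (t : ℂ))) h5
    (continuous_const.prodMk Complex.continuous_ofReal).continuousAt

omit [ChartedSpace E3 N] [IsManifold (𝓡 3) ∞ N] [T2Space N] in
theorem Exf_hom {Y : Set N} {y y' u u' z z' : Y} {c : Path y y'} {d : Path u y} {d' : Path u' y'} {s₁ : Path u z}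
    {s₂ : Path z' u'} {a₁ : Path z y} {a₂ : Path y' z'} {i : Path z z'} (hi : i.Homotopic (a₁.trans (c.trans a₂)))
    (h1 : ((d.symm.trans s₁).trans a₁).Homotopic (Path.refl y))
    (h2 : ((a₂.trans s₂).trans d').Homotopic (Path.refl y')) :
    (d.symm.trans ((s₁.trans (i.trans s₂)).trans d')).Homotopic c := by
  rw [← Path.Homotopic.Quotient.eq] at hi h1 h2 ⊢
  simp only [Path.Homotopic.Quotient.mk_trans] at hi h1 h2 ⊢
  rw [Path.Homotopic.Quotient.trans_assoc] at h1 h2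
  rw [hi]
  simp only [Path.Homotopic.Quotient.trans_assoc]
  rw [h2, Path.Homotopic.Quotient.mk_refl, Path.Homotopic.Quotient.trans_refl,
    ← Path.Homotopic.Quotient.trans_assoc (Path.Homotopic.Quotient.mk s₁),
    ← Path.Homotopic.Quotient.trans_assoc (Path.Homotopic.Quotient.mk d.symm), h1,
    Path.Homotopic.Quotient.mk_refl, Path.Homotopic.Quotient.refl_trans]

theorem exists_chord {κ : ℝ × ℂ → N} (hκ : Thick κ) {p p' ε : ℝ} (A : Adm p p' ε) {O : Set N} (hO : IsOpen O)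
    (hOp : eb κ p ε ⊆ O) (hOp' : eb κ p' ε ⊆ O) {y y' : (O ∩ (core κ)ᶜ : Set N)} (c : Path y y')
    (hy : (y : N) = κ (p, ((ε / 8 : ℝ) : ℂ))) (hy' : (y' : N) = κ (p', ((ε / 8 : ℝ) : ℂ))) :
    ∃ (σ r : ℝ) (T : E → N), Chd (core κ) T ∧ StdR κ p p' ε σ r T ∧ T '' TD ⊆ O ∧
      RepI (fun x => T (0, x)) (1 / 8) (7 / 8) c := by
  obtain ⟨ε', e0', e1', z, z', c₁, hz, hz', htiny⟩ := exists_tiny hκ A hO hOp hOp' c hy hy'
  have e0 := A.pos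
  have e1 := A.lt
  have hεε : ε' ≤ ε := by linarith
  have A' : Adm p p' ε' := ⟨e0', by linarith, fun k => by have := A.far k; linarith⟩
  obtain ⟨σ, r, T, hT, hS, hTO, hcls⟩ := tiny_chord hκ A' hO ((Exf_eb_mono κ p e0' hεε).trans hOp)
    ((Exf_eb_mono κ p' e0' hεε).trans hOp') c₁ hz hz'
  obtain ⟨X, x1, x2, x3, x4, x5⟩ := exists_scale hκ A e0' hεε
  have xO : Push O X := x1.mono (union_subset hOp hOp')
  have hsm : ∀ q : E, (ε / ε') • (ε' • q) = ε • q := by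
    intro q
    rw [smul_smul, div_mul_cancel₀ _ e0'.ne']
  have hnr : ∀ q : E, nr q ≤ 1 / 4 → nr (ε' • q) ≤ (ε' / 2) ^ 2 := by
    intro q hq
    rw [nr_smul]
    nlinarith [sq_nonneg ε']
  have f1 : ∀ q ∈ TD, q.2 < 1 / 4 → X 1 (T q) = footT κ p ε ((r : ℂ) * q.1, q.2) := by
    intro q hq hq'
    rw [hS.foot q hq hq', foot_smul, foot_smul κ p ε, x3 _ (hnr _ ?_), hsm]
    exact Exf_nr (a := ((r : ℂ) * q.1).re) (b := ((r : ℂ) * q.1).im) hS.pos hS.le hq.1 (by nlinarith [hq.2.1])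
      (by rw [Complex.sq_norm, Complex.normSq_apply]; ring)
  have f2 : ∀ q ∈ TD, 3 / 4 < q.2 → X 1 (T q) = tipT κ p' ε σ ((r : ℂ) * q.1, q.2) := by
    intro q hq hq'
    rw [hS.tip q hq hq', tip_foot, tip_foot κ p' ε]
    have h1 : ∀ e : ℝ, ((⟨σ * e * ((r : ℂ) * q.1).im, e * ((r : ℂ) * q.1).re⟩ : ℂ), e * (1 - q.2)) =
        e • (((⟨σ * ((r : ℂ) * q.1).im, ((r : ℂ) * q.1).re⟩ : ℂ), 1 - q.2) : E) := by
      intro e
      rw [Prod.smul_mk, smul_eq_mul, Prod.mk.injEq]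
      refine ⟨?_, rfl⟩
      apply Complex.ext
      · rw [Complex.smul_re, smul_eq_mul]
        ring
      · rw [Complex.smul_im, smul_eq_mul]
    show X 1 (footT κ p' 1 ((⟨σ * ε' * ((r : ℂ) * q.1).im, ε' * ((r : ℂ) * q.1).re⟩ : ℂ), ε' * (1 - q.2))) =
      footT κ p' 1 ((⟨σ * ε * ((r : ℂ) * q.1).im, ε * ((r : ℂ) * q.1).re⟩ : ℂ), ε * (1 - q.2))
    rw [h1 ε, h1 ε', x4 _ (hnr _ ?_), hsm]
    have hσ : σ ^ 2 = 1 := by
      rcases hS.sgn with h2 | h2 <;> rw [h2] <;> norm_num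
    refine Exf_nr hS.pos hS.le hq.1 (by nlinarith [hq.2.2]) ?_
    rw [Complex.sq_norm, Complex.normSq_apply, mul_pow, hσ]
    ring
  have hS' : StdR κ p p' ε σ r fun q => X 1 (T q) := ⟨hS.sgn, hS.pos, hS.le, f1, f2⟩
  have hT' : Chd (core κ) fun q => X 1 (T q) := by
    have h1 := (chd_push hT x1 1).1
    rw [x2] at h1
    exact h1
  have m1 : ((0, 1 / 8) : E) ∈ TD := ⟨by simp, by norm_num, by norm_num⟩
  have m2 : ((0, 7 / 8) : E) ∈ TD := ⟨by simp, by norm_num, by norm_num⟩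
  have g1 : T ((0, 1 / 8) : E) = κ (p, ((ε' / 8 : ℝ) : ℂ)) := by
    rw [hS.foot _ m1 (by norm_num), mul_zero, Exf_foot]
    congr 3
    ring
  have g1' : X 1 (T ((0, 1 / 8) : E)) = κ (p, ((ε / 8 : ℝ) : ℂ)) := by
    rw [f1 _ m1 (by norm_num), mul_zero, Exf_foot]
    congr 3
    ring
  have g2 : T ((0, 7 / 8) : E) = κ (p', ((ε' / 8 : ℝ) : ℂ)) := by
    rw [hS.tip _ m2 (by norm_num), mul_zero, Exf_tip]
    congr 3
    ring
  have g2' : X 1 (T ((0, 7 / 8) : E)) = κ (p', ((ε / 8 : ℝ) : ℂ)) := by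
    rw [f2 _ m2 (by norm_num), mul_zero, Exf_tip]
    congr 3
    ring
  rw [g1] at g1'
  rw [g2] at g2'
  have i8' : ε' / 8 ∈ Ioo (0 : ℝ) ε := ⟨by linarith, by linarith⟩
  have i2' : ε' / 2 ∈ Ioo (0 : ℝ) ε := ⟨by linarith, by linarith⟩
  have i8 : ε / 8 ∈ Ioo (0 : ℝ) ε := ⟨by linarith, by linarith⟩
  obtain ⟨u, hu⟩ : ∃ u : (O ∩ (core κ)ᶜ : Set N), (u : N) = κ (p, ((ε' / 8 : ℝ) : ℂ)) :=
    ⟨⟨_, Exf_mem hκ e1 hOp i8'⟩, rfl⟩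
  obtain ⟨u', hu'⟩ : ∃ u : (O ∩ (core κ)ᶜ : Set N), (u : N) = κ (p', ((ε' / 8 : ℝ) : ℂ)) :=
    ⟨⟨_, Exf_mem hκ e1 hOp' i8'⟩, rfl⟩
  obtain ⟨s₁, hs₁⟩ := Exf_rep hκ e1 hOp i8' i2' hu (y' := ⟨z, Yt_sub z.2⟩) hz
  obtain ⟨s₂, hs₂⟩ := Exf_rep hκ e1 hOp' i2' i8' (y := ⟨z', Yt_sub z'.2⟩) hz' hu'
  obtain ⟨a₁, ha₁⟩ := Exf_rep hκ e1 hOp i2' i8 (y := ⟨z, Yt_sub z.2⟩) hz hy
  obtain ⟨a₂, ha₂⟩ := Exf_rep hκ e1 hOp' i8 i2' hy' (y' := ⟨z', Yt_sub z'.2⟩) hz'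
  obtain ⟨d, hd⟩ := Exf_rep hκ e1 hOp i8' i8 hu hy
  obtain ⟨d', hd'⟩ := Exf_rep hκ e1 hOp' i8' i8 hu' hy'
  have hXY : ∀ s ∈ Icc (0 : ℝ) 1, ∀ x ∈ (O ∩ (core κ)ᶜ : Set N), X s x ∈ (O ∩ (core κ)ᶜ : Set N) := by
    intro s _ x hx
    refine ⟨xO.mem s hx.1, ?_⟩
    intro h
    rw [← x2 s] at h
    obtain ⟨w, hw, hwx⟩ := h
    rw [(X s).injective hwx] at hw
    exact hx.2 hw
  have hD : RepI (fun s => X s (T ((0, 1 / 8) : E))) 0 1 d := by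
    rw [g1]
    exact radial_trace hκ (by linarith) x1 (fun s t ht => (x5 p (Or.inl rfl) s t ht).1) i8' i8 g1'
      (fun t ht => Exf_mem hκ e1 hOp ht) hd
  have hD' : RepI (fun s => X s (T ((0, 7 / 8) : E))) 0 1 d' := by
    rw [g2]
    exact radial_trace hκ (by linarith) x1 (fun s t ht => (x5 p' (Or.inr rfl) s t ht).1) i8' i8 g2'
      (fun t ht => Exf_mem hκ e1 hOp' ht) hd'
  have hmove := class_move x1 hXY (f := fun x => T (0, x)) (hcls s₁ s₂ hs₁ hs₂) hD hD'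
  have h1 : ((d.symm.trans s₁).trans a₁).Homotopic (Path.refl y) := by
    refine (repI_iff (repI_trans (repI_trans (repI_symm hd) hs₁) ha₁)).mp (repI_const ?_)
    intro t ht
    rw [uIcc_self, mem_singleton_iff] at ht
    rw [ht]
    exact hy.symm
  have h2 : ((a₂.trans s₂).trans d').Homotopic (Path.refl y') := by
    refine (repI_iff (repI_trans (repI_trans ha₂ hs₂) hd')).mp (repI_const ?_)
    intro t ht
    rw [uIcc_self, mem_singleton_iff] at ht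
    rw [ht]
    exact hy'.symm
  refine ⟨σ, r, fun q => X 1 (T q), hT', hS', ?_, ?_⟩
  · rintro x ⟨q, hq, rfl⟩
    exact xO.mem 1 (hTO ⟨q, hq, rfl⟩)
  · exact (repI_iff hmove).mpr (Exf_hom (htiny a₁ a₂ ha₁ ha₂) h1 h2)

theorem exists_fgr {κ : ℝ × ℂ → N} (hκ : Thick κ) {p p' ε : ℝ} (A : Adm p p' ε) {y y' : ((core κ)ᶜ : Set N)} (c : Path y y')
    (hy : (y : N) = κ (p, ((ε / 8 : ℝ) : ℂ))) (hy' : (y' : N) = κ (p', ((ε / 8 : ℝ) : ℂ))) :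
    ∃ K' : Set N, Fgr κ p p' ε c K' := by
  have h1 : ((core κ)ᶜ : Set N) ⊆ (univ ∩ (core κ)ᶜ : Set N) := fun x hx => ⟨mem_univ x, hx⟩
  have h2 : (univ ∩ (core κ)ᶜ : Set N) ⊆ ((core κ)ᶜ : Set N) := fun x hx => hx.2
  obtain ⟨σ, r, T, t1, t2, _, t4⟩ := exists_chord hκ A isOpen_univ (subset_univ _) (subset_univ _)
    (inc h1 c) hy hy'
  have h3 := repI_inc h2 t4
  have h4 : inc h2 (inc h1 c) = c := by
    ext t
    rfl
  rw [h4] at h3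
  exact ⟨kn (core κ) T, σ, r, T, t1, t2, h3, rfl⟩

end

end Pool.Agent.NHE
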