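import Pool.Agent.NHP.Defs

/-!
# NHE/Defs: standard ends, finger classes, explicit fingers in the model tube

`κ` is a thick knot, `K = core κ`.
* `StdR κ p p' ε σ r T`: the chord `T` has standard ends of size `ε`, rescaled by `r ≤ 1/8` in the direction of `w`.
* `Fgr κ p p' ε c K'`: `K'` is `K` with the finger along a chord with standard ends whose core, from `κ (p, ε/8)` to
  `κ (p', ε/8)`, has the class `c` in `N - K`.
* `eb κ p ε`: the ball of radius `ε` around `κ (p, 0)`.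
* `Tip`: the tip strand; `TG h`: the finger `x = h (re w)` in the plane `im w = 0`; `TGd e d`: the thin finger (width `e`) in
  the direction `d (x)`.
* `rt m`: the diffeomorphism of `E` which makes `m` half turns for `1/4 ≤ x ≤ 3/4`.
* `RepI f a b c`: the function `f`, restricted to the interval from `a` to `b` (`a > b` is allowed), is a path homotopic to `c`.
-/

open scoped Manifold ContDiff Topology
open Set Filter
open Pool.Agent.CSG (stp)
open Pool.Agent.RSG (E3 ex Thick)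
open Pool.Agent.KNT (Dom Str Str2 BalC bmp)
open Pool.Agent.NHP

namespace Pool.Agent.NHE

/-- the tip strand -/
def Tip : Set E := {q | q ∈ TD ∧ q.2 = 1 ∧ q.1.re = 0}

/-- the foot strand, deformed to the graph of `h`, and the tip strand -/
def TG (h : ℝ → ℝ) : Set E := {q | q ∈ TD ∧ q.1.im = 0 ∧ q.2 = h q.1.re} ∪ Tip

/-- the thin finger in the direction `d x` -/
def TGd (e : ℝ) (d : ℝ → ℂ) : Set E :=
  (fun y : ℝ => (((e * y : ℝ) : ℂ) * d (9 / 8 * bmp y), 9 / 8 * bmp y)) '' {y | |e * y| < 1} ∪ Tip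

/-- `m` half turns -/
noncomputable def rt (m : ℤ) (q : E) : E := (ex (m / 2 * stp (1 / 4) (3 / 4) q.2) * q.1, q.2)

/-- the path of `f` from `f a` to `f b` -/
def RepI {N : Type*} [TopologicalSpace N] {Y : Set N} {y y' : Y} (f : ℝ → N) (a b : ℝ) (c : Path y y') : Prop :=
  Rep (fun t => f (a + t * (b - a))) c

/-- inclusion of paths -/
def inc {N : Type*} [TopologicalSpace N] {Y Y' : Set N} (h : Y ⊆ Y') {y y' : Y} (c : Path y y') :
    Path (⟨y, h y.2⟩ : Y') (⟨y', h y'.2⟩ : Y') :=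
  c.map (f := fun x : Y => (⟨x, h x.2⟩ : Y')) (continuous_subtype_val.subtype_mk _)

section
variable {N : Type*} [TopologicalSpace N] [ChartedSpace E3 N]

/-- the ball of radius `ε` around the point `κ (p, 0)` -/
def eb (κ : ℝ × ℂ → N) (p ε : ℝ) : Set N := κ '' {q | (q.1 - p) ^ 2 + ‖q.2‖ ^ 2 < ε ^ 2}

/-- standard thin ends -/
structure StdR (κ : ℝ × ℂ → N) (p p' ε σ r : ℝ) (T : E → N) : Prop where
  sgn : σ = 1 ∨ σ = -1
  pos : 0 < r
  le : r ≤ 1 / 8
  foot : ∀ q ∈ TD, q.2 < 1 / 4 → T q = footT κ p ε ((r : ℂ) * q.1, q.2)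
  tip : ∀ q ∈ TD, 3 / 4 < q.2 → T q = tipT κ p' ε σ ((r : ℂ) * q.1, q.2)

/-- `K'` is `core κ` with a finger of class `c` -/
def Fgr (κ : ℝ × ℂ → N) (p p' ε : ℝ) {y y' : ((core κ)ᶜ : Set N)} (c : Path y y') (K' : Set N) : Prop :=
  ∃ (σ r : ℝ) (T : E → N), Chd (core κ) T ∧ StdR κ p p' ε σ r T ∧ RepI (fun x => T (0, x)) (1 / 8) (7 / 8) c ∧
    K' = kn (core κ) T

end

end Pool.Agent.NHE
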