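import Pool.Agent.NHP.Gld
import Pool.Agent.NHP.Sma
import Pool.Agent.NHE.Defs

/-!
# NHE/Rad: radial scaling (difficulty 3)

ONE STEP: there is `Λ > 1` (depending on `b`, `c`) such that for every `λ ∈ [1, Λ]`: `G (u, q) = stp 0 1 u • (λ - 1) • χ (nr q) • q`, `χ = 1` for `nr q ≤ b²`, `0` for `nr q ≥ ((b + c)/2)²`: for `Λ - 1` small `small_fam` applies (`P = ℝ`): push of `Bl c`, `P u q = (1 + ..) • q`, and `P 1 q = λ q` for `nr q ≤ b²`.
`n` steps with `λ = (b/a)^(1/n) ≤ Λ`: composition of the `n` pushes; if `nr q ≤ a²` then `nr (λ^j q) ≤ b²` for `j ≤ n`, so `X 1 q = λ^n q`.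
-/

open scoped Manifold ContDiff Topology
open Set Filter
open Pool.Agent.CSG (stp)
open Pool.Agent.RSG (E3 ex Thick)
open Pool.Agent.KNT (Dom Str Str2 BalC bmp)
open Pool.Agent.NHP

namespace Pool.Agent.NHE

theorem Rad_step {b c : ℝ} (hb : 0 < b) (hbc : b < c) : ∃ Λ : ℝ, 1 < Λ ∧ ∀ l : ℝ, 1 ≤ l → l ≤ Λ →
    ∃ X : ℝ → Equiv.Perm E, PushE (Bl c) X ∧ (∀ s q, ∃ μ : ℝ, 0 < μ ∧ X s q = μ • q) ∧
      ∀ q, nr q ≤ b ^ 2 → X 1 q = l • q := by
  obtain ⟨d, hd⟩ : ∃ d : ℝ, d = (b + c) / 2 := ⟨_, rfl⟩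
  have hbd : b < d := by rw [hd]; linarith
  have hdc : d < c := by rw [hd]; linarith
  have hbd2 : b ^ 2 < d ^ 2 := pow_lt_pow_left₀ hbd hb.le (by norm_num)
  have hdc2 : d ^ 2 < c ^ 2 := pow_lt_pow_left₀ hdc (by linarith) (by norm_num)
  obtain ⟨Y, hY⟩ : ∃ Y : E → E, Y = fun q => (1 - stp (b ^ 2) (d ^ 2) (nr q)) • q := ⟨_, rfl⟩
  have hYs : ContDiff ℝ ∞ Y := by
    rw [hY]
    exact (contDiff_const.sub ((CSG.stp_smooth _ _).comp nr_smooth)).smul contDiff_id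
  have hK := isCompact_Bl d
  have hY0 : ∀ q : E, ¬ nr q ≤ d ^ 2 → Y q = 0 := by
    intro q hq
    rw [hY]
    show (1 - stp (b ^ 2) (d ^ 2) (nr q)) • q = 0
    rw [CSG.stp_one hbd2 (by linarith), sub_self, zero_smul]
  have hYc : HasCompactSupport Y := HasCompactSupport.intro hK (fun q hq => hY0 q hq)
  obtain ⟨C, hC⟩ := (hYc.fderiv ℝ).exists_bound_of_continuous (hYs.continuous_fderiv (by simp))
  have hC0 : 0 ≤ C := (norm_nonneg _).trans (hC 0)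
  have hΛ0 : 0 < 1 / (2 * (C + 1)) := by positivity
  refine ⟨1 + 1 / (2 * (C + 1)), by linarith, ?_⟩
  intro l hl1 hl2
  obtain ⟨G, hG⟩ : ∃ G : ℝ × E → E, G = fun p => (stp 0 1 p.1 * (l - 1)) • Y p.2 := ⟨_, rfl⟩
  have hGs : ContDiff ℝ ∞ G := by
    rw [hG]
    exact (((CSG.stp_smooth 0 1).comp contDiff_fst).mul contDiff_const).smul (hYs.comp contDiff_snd)
  have hGd : ∀ q : ℝ × E, ‖(fderiv ℝ G q).comp (ContinuousLinearMap.inr ℝ ℝ E)‖ ≤ 1 / 2 := by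
    intro q
    have h1 : HasFDerivAt G (fderiv ℝ G q) q := (hGs.differentiable (by simp) q).hasFDerivAt
    have h2 : HasFDerivAt (fun x : E => G (q.1, x))
        ((fderiv ℝ G q).comp (ContinuousLinearMap.inr ℝ ℝ E)) q.2 := by
      have h3 : HasFDerivAt (fun x : E => (q.1, x)) (ContinuousLinearMap.inr ℝ ℝ E) q.2 :=
        hasFDerivAt_prodMk_right q.1 q.2
      exact HasFDerivAt.comp q.2 (g := G) (f := fun x : E => (q.1, x)) h1 h3
    have h3 : HasFDerivAt (fun x : E => G (q.1, x)) ((stp 0 1 q.1 * (l - 1)) • fderiv ℝ Y q.2) q.2 := by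
      rw [hG]
      exact ((hYs.differentiable (by simp) q.2).hasFDerivAt).const_smul (stp 0 1 q.1 * (l - 1))
    rw [h2.unique h3, norm_smul, Real.norm_eq_abs, abs_of_nonneg (mul_nonneg (CSG.stp_nonneg _ _ _)
      (by linarith))]
    have h4 : stp 0 1 q.1 * (l - 1) ≤ 1 * (1 / (2 * (C + 1))) :=
      mul_le_mul (CSG.stp_le_one _ _ _) (by linarith) (by linarith) zero_le_one
    have h5 : stp 0 1 q.1 * (l - 1) * ‖fderiv ℝ Y q.2‖ ≤ 1 * (1 / (2 * (C + 1))) * C :=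
      mul_le_mul h4 (hC q.2) (norm_nonneg _) (by positivity)
    have h6 : 1 * (1 / (2 * (C + 1))) * C ≤ 1 / 2 := by
      rw [one_mul, div_mul_eq_mul_div, div_le_div_iff₀ (by positivity) (by norm_num)]
      linarith
    linarith
  obtain ⟨F, hF1, hF2, hF3⟩ := small_fam hGs hGd
  have hFe : ∀ s q, F s q = (1 + stp 0 1 s * (l - 1) * (1 - stp (b ^ 2) (d ^ 2) (nr q))) • q := by
    intro s q
    rw [hF3, hG, hY]
    show q + (stp 0 1 s * (l - 1)) • ((1 - stp (b ^ 2) (d ^ 2) (nr q)) • q) = _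
    rw [add_smul, one_smul, smul_smul]
  refine ⟨F, ⟨hF1, hF2, ?_, {q : E | nr q ≤ d ^ 2}, hK, ?_, ?_⟩, ?_, ?_⟩
  · refine Equiv.ext fun q => ?_
    rw [hFe, CSG.stp_zero zero_lt_one le_rfl]
    simp
  · intro q hq
    show nr q < c ^ 2
    have : nr q ≤ d ^ 2 := hq
    linarith
  · intro s q hq
    rw [hF3, hG]
    show q + (stp 0 1 s * (l - 1)) • Y q = q
    rw [hY0 q hq, smul_zero, add_zero]
  · intro s q
    refine ⟨_, ?_, hFe s q⟩
    have h1 : 0 ≤ stp 0 1 s * (l - 1) * (1 - stp (b ^ 2) (d ^ 2) (nr q)) :=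
      mul_nonneg (mul_nonneg (CSG.stp_nonneg _ _ _) (by linarith))
        (by linarith [CSG.stp_le_one (b ^ 2) (d ^ 2) (nr q)])
    linarith
  · intro q hq
    rw [hFe, CSG.stp_one zero_lt_one le_rfl, CSG.stp_zero hbd2 hq]
    congr 1
    ring

theorem Rad_iter {b c : ℝ} {l : ℝ} (hl : 1 ≤ l) {F : ℝ → Equiv.Perm E} (hF : PushE (Bl c) F)
    (hF1 : ∀ s q, ∃ μ : ℝ, 0 < μ ∧ F s q = μ • q) (hF2 : ∀ q, nr q ≤ b ^ 2 → F 1 q = l • q) (n : ℕ) :
    ∃ X : ℝ → Equiv.Perm E, PushE (Bl c) X ∧ (∀ s q, ∃ μ : ℝ, 0 < μ ∧ X s q = μ • q) ∧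
      ∀ q, nr q ≤ (b / l ^ n) ^ 2 → X 1 q = l ^ n • q := by
  have hl0 : 0 < l := by linarith
  induction n with
  | zero =>
    refine ⟨fun _ => Equiv.refl E, pushE_refl _, fun s q => ⟨1, one_pos, by simp⟩, fun q _ => by simp⟩
  | succ n ih =>
    obtain ⟨X, hX, hX1, hX2⟩ := ih
    refine ⟨fun s => (X s).trans (F s), hX.comp hF, ?_, ?_⟩
    · intro s q
      obtain ⟨μ, hμ, h1⟩ := hX1 s q
      obtain ⟨ν, hν, h2⟩ := hF1 s (X s q)
      refine ⟨ν * μ, mul_pos hν hμ, ?_⟩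
      show F s (X s q) = (ν * μ) • q
      rw [h2, h1, smul_smul]
    · intro q hq
      show F 1 (X 1 q) = l ^ (n + 1) • q
      have hln : 0 < l ^ n := pow_pos hl0 n
      have h0 : (b / l ^ (n + 1)) ^ 2 = b ^ 2 / (l ^ 2 * (l ^ n) ^ 2) := by
        rw [div_pow, pow_succ l n, mul_pow, mul_comm]
      have h1 : nr q ≤ (b / l ^ n) ^ 2 := by
        refine hq.trans ?_
        rw [h0, div_pow]
        apply div_le_div_of_nonneg_left (sq_nonneg b) (by positivity)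
        have : 1 ≤ l ^ 2 := one_le_pow₀ hl
        nlinarith [sq_nonneg (l ^ n)]
      rw [hX2 q h1, hF2, smul_smul, pow_succ, mul_comm]
      rw [nr_smul]
      rw [h0, le_div_iff₀ (by positivity)] at hq
      have h2 : 1 ≤ l ^ 2 := one_le_pow₀ hl
      have h3 : 0 ≤ (l ^ n) ^ 2 * nr q := mul_nonneg (sq_nonneg _) (nr_nonneg q)
      nlinarith

theorem exists_radial {a b c : ℝ} (ha : 0 < a) (hab : a ≤ b) (hbc : b < c) : ∃ X : ℝ → Equiv.Perm E, PushE (Bl c) X ∧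
    (∀ s q, ∃ μ : ℝ, 0 < μ ∧ X s q = μ • q) ∧ ∀ q, nr q ≤ a ^ 2 → X 1 q = (b / a) • q := by
  have hb : 0 < b := lt_of_lt_of_le ha hab
  obtain ⟨Λ, hΛ, hstep⟩ := Rad_step hb hbc
  obtain ⟨n, hn⟩ := pow_unbounded_of_one_lt (b / a) hΛ
  have hba : 1 ≤ b / a := by rw [le_div_iff₀ ha]; linarith
  obtain ⟨l, hl⟩ : ∃ l : ℝ, l = (b / a) ^ (((n + 1 : ℕ) : ℝ)⁻¹) := ⟨_, rfl⟩
  have hln : l ^ (n + 1) = b / a := by
    rw [hl]
    exact Real.rpow_inv_natCast_pow (by positivity) (by omega)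
  have hl1 : 1 ≤ l := by
    rw [hl]
    exact Real.one_le_rpow hba (by positivity)
  have hlΛ : l ≤ Λ := by
    by_contra h
    push Not at h
    have h1 : Λ ^ (n + 1) < l ^ (n + 1) := pow_lt_pow_left₀ h (by linarith) (by omega)
    have h2 : Λ ^ n ≤ Λ ^ (n + 1) := pow_le_pow_right₀ hΛ.le (by omega)
    linarith
  obtain ⟨F, hF, hF1, hF2⟩ := hstep l hl1 hlΛ
  obtain ⟨X, hX, hX1, hX2⟩ := Rad_iter hl1 hF hF1 hF2 (n + 1)
  refine ⟨X, hX, hX1, ?_⟩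
  intro q hq
  rw [← hln]
  apply hX2
  rw [hln]
  have h1 : b / (b / a) = a := by
    field_simp
  rw [h1]
  exact hq

end Pool.Agent.NHE
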