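import Pool.Agent.NHE.KCh
import Pool.Agent.NHE.Rad
import Pool.Agent.NHP.Tra
import Pool.Agent.NHP.Fol

/-!
# NHE/Scx: scaling the ends (difficulty 2)

`exists_radial` with `a = ε'/2`, `b = ε/2`, `c = ε`, transported by `footT κ p 1` and by `footT κ p' 1` (`push_chart`, `eb_eq`); `X s` = product of the two (disjoint supports).  The core is the line `x = 0`, `im w = 0` of the chart: preserved (`X s q = μ q`, also for the inverse).  `κ (p, t) = footT κ p 1 (0, t)`.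
-/

open scoped Manifold ContDiff Topology
open Set Filter
open Pool.Agent.CSG (stp)
open Pool.Agent.RSG (E3 ex Thick)
open Pool.Agent.KNT (Dom Str Str2 BalC bmp)
open Pool.Agent.NHP

namespace Pool.Agent.NHE

section
variable {N : Type*} [TopologicalSpace N] [ChartedSpace E3 N] [IsManifold (𝓡 3) ∞ N] [T2Space N]

omit [ChartedSpace E3 N] [IsManifold (𝓡 3) ∞ N] [T2Space N] [TopologicalSpace N] in
theorem scx_symm {Y : ℝ → Equiv.Perm E} (hY : ∀ s q, ∃ μ : ℝ, 0 < μ ∧ Y s q = μ • q) (s : ℝ) (q : E) :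
    ∃ μ : ℝ, 0 < μ ∧ (Y s).symm q = μ • q := by
  obtain ⟨μ, h0, h1⟩ := hY s ((Y s).symm q)
  rw [Equiv.apply_symm_apply] at h1
  refine ⟨μ⁻¹, inv_pos.2 h0, ?_⟩
  rw [eq_inv_smul_iff₀ h0.ne']
  exact h1.symm

omit [ChartedSpace E3 N] [IsManifold (𝓡 3) ∞ N] [T2Space N] [TopologicalSpace N] in
theorem scx_inv {β : E → N} {X : Equiv.Perm N} {Y : Equiv.Perm E} {O : Set E} (hK : ∀ q ∈ O, X (β q) = β (Y q))
    (hm : ∀ q ∈ O, Y.symm q ∈ O) (q : E) (hq : q ∈ O) : X.symm (β q) = β (Y.symm q) := by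
  rw [Equiv.symm_apply_eq, hK _ (hm q hq), Equiv.apply_symm_apply]

omit [IsManifold (𝓡 3) ∞ N] [T2Space N] in
/-- points of the core in the chart -/
theorem scx_core {κ : ℝ × ℂ → N} (hκ : Thick κ) {p ε : ℝ} (h0 : 0 < ε) (h : ε ≤ 1 / 2) {q : E} (hq : q ∈ Bl ε) {μ : ℝ}
    (hμ : μ • q ∈ Bl ε) (hc : footT κ p 1 q ∈ core κ) : footT κ p 1 (μ • q) ∈ core κ := by
  rw [foot_core hκ p (Bl_sub h0 h hq).2] at hc
  rw [foot_core hκ p (Bl_sub h0 h hμ).2]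
  constructor
  · rw [Prod.smul_snd, hc.1, smul_zero]
  · rw [Prod.smul_fst, Complex.smul_im, hc.2, smul_zero]

omit [IsManifold (𝓡 3) ∞ N] [T2Space N] in
theorem scx_rad {κ : ℝ × ℂ → N} {p ε t : ℝ} (ht : t ∈ Ioo (0 : ℝ) ε) {μ : ℝ} (h0 : 0 < μ)
    (hμ : μ • ((0, t) : E) ∈ Bl ε) (hε : 0 < ε) : μ * t ∈ Ioo (0 : ℝ) ε ∧ footT κ p 1 (μ • ((0, t) : E)) = κ (p, ((μ * t : ℝ) : ℂ)) := by
  have h1 : μ • ((0, t) : E) = (0, μ * t) := by
    rw [Prod.smul_mk, smul_zero, smul_eq_mul]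
  rw [h1] at hμ ⊢
  refine ⟨⟨mul_pos h0 ht.1, ?_⟩, ?_⟩
  · have h2 : (μ * t) ^ 2 < ε ^ 2 := by
      have h3 : nr ((0, μ * t) : E) < ε ^ 2 := hμ
      unfold nr at h3
      simpa using h3
    exact lt_of_pow_lt_pow_left₀ 2 hε.le h2
  · unfold footT
    congr 1
    simp only [Complex.zero_re, Complex.zero_im, mul_zero, add_zero, Complex.ofReal_one, one_mul, Prod.mk.injEq, true_and]
    apply Complex.ext <;> simp

omit [IsManifold (𝓡 3) ∞ N] [T2Space N] in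
theorem scx_mem {ε t : ℝ} (ht : t ∈ Ioo (0 : ℝ) ε) : ((0, t) : E) ∈ Bl ε := by
  show nr ((0, t) : E) < ε ^ 2
  unfold nr
  have : t ^ 2 < ε ^ 2 := by
    apply pow_lt_pow_left₀ ht.2 ht.1.le (by norm_num)
  simpa using this

theorem exists_scale {κ : ℝ × ℂ → N} (hκ : Thick κ) {p p' ε ε' : ℝ} (A : Adm p p' ε) (h0 : 0 < ε') (h1 : ε' ≤ ε) :
    ∃ X : ℝ → Equiv.Perm N, Push (eb κ p ε ∪ eb κ p' ε) X ∧ (∀ s, X s '' core κ = core κ) ∧
      (∀ q : E, nr q ≤ (ε' / 2) ^ 2 → X 1 (footT κ p 1 q) = footT κ p 1 ((ε / ε') • q)) ∧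
      (∀ q : E, nr q ≤ (ε' / 2) ^ 2 → X 1 (footT κ p' 1 q) = footT κ p' 1 ((ε / ε') • q)) ∧
      ∀ p₀ : ℝ, p₀ = p ∨ p₀ = p' → ∀ s, ∀ t ∈ Ioo (0 : ℝ) ε,
        (∃ t' ∈ Ioo (0 : ℝ) ε, X s (κ (p₀, (t : ℂ))) = κ (p₀, (t' : ℂ))) ∧
          ∃ t' ∈ Ioo (0 : ℝ) ε, (X s).symm (κ (p₀, (t : ℂ))) = κ (p₀, (t' : ℂ)) := by
  obtain ⟨Y, y1, y2, y3⟩ := exists_radial (a := ε' / 2) (b := ε / 2) (c := ε) (by linarith) (by linarith)
    (by linarith [A.pos])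
  have hε := A.pos
  have hε2 : ε ≤ 1 / 2 := by linarith [A.lt]
  have hc : ∀ r : ℝ, Cht (Bl ε) (footT κ r 1) := fun r => (foot_cht hκ r).mono (isOpen_Bl ε) (Bl_sub hε hε2)
  obtain ⟨V, v1, v2, v3⟩ := push_chart (hc p) y1
  obtain ⟨V', w1, w2, w3⟩ := push_chart (hc p') y1
  rw [← eb_eq] at v1 w1
  have hd := eb_disj hκ A
  have hmem : ∀ r : ℝ, ∀ q ∈ Bl ε, footT κ r 1 q ∈ eb κ r ε := by
    intro r q hq
    rw [eb_eq]
    exact mem_image_of_mem _ hq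
  have hYm : ∀ s, ∀ q ∈ Bl ε, Y s q ∈ Bl ε := fun s q hq => y1.mem s hq
  have hYm' : ∀ s, ∀ q ∈ Bl ε, (Y s).symm q ∈ Bl ε := fun s q hq => y1.inv.mem s hq
  have K1 : ∀ s, ∀ q ∈ Bl ε, ((V s).trans (V' s)) (footT κ p 1 q) = footT κ p 1 (Y s q) := by
    intro s q hq
    rw [Equiv.trans_apply, v2 s q hq]
    apply w3
    rw [← eb_eq]
    exact fun h => disjoint_left.1 hd (hmem p _ (hYm s q hq)) h
  have K2 : ∀ s, ∀ q ∈ Bl ε, ((V s).trans (V' s)) (footT κ p' 1 q) = footT κ p' 1 (Y s q) := by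
    intro s q hq
    rw [Equiv.trans_apply, v3 s, w2 s q hq]
    rw [← eb_eq]
    exact fun h => disjoint_left.1 hd h (hmem p' _ hq)
  have K3 : ∀ s x, x ∉ eb κ p ε → x ∉ eb κ p' ε → ((V s).trans (V' s)) x = x := by
    intro s x h2 h3
    rw [Equiv.trans_apply, v3 s x (by rwa [← eb_eq]), w3 s x (by rwa [← eb_eq])]
  have hK : ∀ r : ℝ, r = p ∨ r = p' → ∀ s, ∀ q ∈ Bl ε, ((V s).trans (V' s)) (footT κ r 1 q) = footT κ r 1 (Y s q) := by
    rintro r (rfl | rfl)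
    · exact K1
    · exact K2
  have hK' : ∀ r : ℝ, r = p ∨ r = p' → ∀ s, ∀ q ∈ Bl ε,
      ((V s).trans (V' s)).symm (footT κ r 1 q) = footT κ r 1 ((Y s).symm q) := by
    intro r hr s q hq
    exact scx_inv (hK r hr s) (hYm' s) q hq
  have hin : ∀ s x, x ∈ core κ → ((V s).trans (V' s)) x ∈ core κ ∧ ((V s).trans (V' s)).symm x ∈ core κ := by
    intro s x hx
    have key : ∀ r : ℝ, r = p ∨ r = p' → x ∈ eb κ r ε → ((V s).trans (V' s)) x ∈ core κ ∧ ((V s).trans (V' s)).symm x ∈ core κ := by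
      intro r hr hxr
      rw [eb_eq] at hxr
      obtain ⟨q, hq, rfl⟩ := hxr
      rw [hK r hr s q hq, hK' r hr s q hq]
      constructor
      · obtain ⟨μ, _, h2⟩ := y2 s q
        have h3 := hYm s q hq
        rw [h2] at h3 ⊢
        exact scx_core hκ hε hε2 hq h3 hx
      · obtain ⟨μ, _, h2⟩ := scx_symm y2 s q
        have h3 := hYm' s q hq
        rw [h2] at h3 ⊢
        exact scx_core hκ hε hε2 hq h3 hx
    by_cases h2 : x ∈ eb κ p ε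
    · exact key p (Or.inl rfl) h2
    by_cases h3 : x ∈ eb κ p' ε
    · exact key p' (Or.inr rfl) h3
    have h4 := K3 s x h2 h3
    refine ⟨by rwa [h4], ?_⟩
    rw [← h4, Equiv.symm_apply_apply]
    exact hx
  refine ⟨fun s => (V s).trans (V' s), (v1.mono subset_union_left).comp (w1.mono subset_union_right), ?_, ?_, ?_, ?_⟩
  · intro s
    apply Subset.antisymm
    · rintro _ ⟨x, hx, rfl⟩
      exact (hin s x hx).1
    · intro x hx
      exact ⟨_, (hin s x hx).2, Equiv.apply_symm_apply _ _⟩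
  · intro q hq
    have h2 : q ∈ Bl ε := by
      show nr q < ε ^ 2
      nlinarith
    show ((V 1).trans (V' 1)) (footT κ p 1 q) = _
    rw [K1 1 q h2, y3 q hq]
    congr 2
    field_simp
  · intro q hq
    have h2 : q ∈ Bl ε := by
      show nr q < ε ^ 2
      nlinarith
    show ((V 1).trans (V' 1)) (footT κ p' 1 q) = _
    rw [K2 1 q h2, y3 q hq]
    congr 2
    field_simp
  · intro r hr s t ht
    have h2 : ((0, t) : E) ∈ Bl ε := scx_mem ht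
    have h3 : κ (r, (t : ℂ)) = footT κ r 1 ((0, t) : E) := by
      have h4 := (scx_rad (κ := κ) (p := r) ht (μ := 1) one_pos (by rwa [one_smul]) hε).2
      rw [one_smul, one_mul] at h4
      exact h4.symm
    show (∃ t' ∈ Ioo (0 : ℝ) ε, ((V s).trans (V' s)) (κ (r, (t : ℂ))) = κ (r, (t' : ℂ))) ∧
      ∃ t' ∈ Ioo (0 : ℝ) ε, ((V s).trans (V' s)).symm (κ (r, (t : ℂ))) = κ (r, (t' : ℂ))
    rw [h3, hK r hr s _ h2, hK' r hr s _ h2]
    constructor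
    · obtain ⟨μ, h5, h6⟩ := y2 s (0, t)
      have h7 := hYm s _ h2
      rw [h6] at h7 ⊢
      have h8 := scx_rad (κ := κ) (p := r) ht h5 h7 hε
      exact ⟨_, h8.1, h8.2⟩
    · obtain ⟨μ, h5, h6⟩ := scx_symm y2 s (0, t)
      have h7 := hYm' s _ h2
      rw [h6] at h7 ⊢
      have h8 := scx_rad (κ := κ) (p := r) ht h5 h7 hε
      exact ⟨_, h8.1, h8.2⟩

end

end Pool.Agent.NHE
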