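import Pool.Agent.NHE.Thn
import Pool.Agent.NHE.Dir
import Pool.Agent.NHE.KCh

/-!
# NHE/Rsc: chords with standard ends for a thinner thick knot (difficulty 3)

`s = stp (1/4) (3/4)`, `λ = ε₁ / (ε r)`, `a x = λ ((1 - s x) + s x η)`, `b x = λ ((1 - s x) η + s x)`, `θ = η ε₁ / ε`, `ξ x = (1 - s x) θ x + s x (1 - θ (1 - x))` (derivative `θ + s' (1 - θ) > 0`).  `T' (w, x) = T (⟨a x re w, b x im w⟩, ξ x)`.
Foot (`x < 1/4`): `T' = footT κ p ε (r ⟨λ re w, λ η im w⟩, θ x) = κ (p + ε₁ re w, η ε₁ (x + i im w))`; tip: `κ (p' + σ ε₁ im w, η ε₁ (1 - x + i re w))`.  All in `‖·‖ < δ` for `λ < δ`.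
`LEqN`: (1) `chd_repar` with `e = 1`, `ξ`: `T₂ (w, x) = T (w, ξ x)`.  (2) `T' = T₂ ∘ g`, `g (w, x) = (⟨a x re w, b x im w⟩, x)`: `g` is injective with bijective derivative on `TD`, `g '' TD ⊆ TD`, `g⁻¹ (TS) = TS` on `TD`, so `Chd K T'`, and `kn K T' = (K \ T₂ '' TD) ∪ T₂ '' TGd λ d`, `d x = a x / λ` (real, positive, `d = 1` for `x ≤ 1/4`).
`TF ~ TGd λ 1` (`leqO_graph₂`, `TGd_one`) `~ TGd λ d` for small `λ` (`leqO_dir`), `kn_of_leqO`.
-/

open scoped Manifold ContDiff Topology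
open Set Filter
open Pool.Agent.CSG (stp)
open Pool.Agent.RSG (E3 ex Thick)
open Pool.Agent.KNT (Dom Str Str2 BalC bmp)
open Pool.Agent.NHP

namespace Pool.Agent.NHE

/-- scaling of the real and of the imaginary part -/
def rsc_g (a b : ℝ → ℝ) (q : E) : E := ((⟨a q.2 * q.1.re, b q.2 * q.1.im⟩ : ℂ), q.2)

theorem rsc_g_smooth {a b : ℝ → ℝ} (ha : ContDiff ℝ ∞ a) (hb : ContDiff ℝ ∞ b) : ContDiff ℝ ∞ (rsc_g a b) := by
  have hre : ContDiff ℝ ∞ fun q : E => q.1.re := Complex.reCLM.contDiff.comp contDiff_fst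
  have him : ContDiff ℝ ∞ fun q : E => q.1.im := Complex.imCLM.contDiff.comp contDiff_fst
  have h1 : ContDiff ℝ ∞ fun q : E => a q.2 * q.1.re := (ha.comp contDiff_snd).mul hre
  have h2 : ContDiff ℝ ∞ fun q : E => b q.2 * q.1.im := (hb.comp contDiff_snd).mul him
  have h3 : ContDiff ℝ ∞ fun q : E => Complex.equivRealProdCLM.symm (a q.2 * q.1.re, b q.2 * q.1.im) :=
    Complex.equivRealProdCLM.symm.contDiff.comp (h1.prodMk h2)
  have h4 : rsc_g a b = fun q : E => (Complex.equivRealProdCLM.symm (a q.2 * q.1.re, b q.2 * q.1.im), q.2) := by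
    funext q
    unfold rsc_g
    refine Prod.ext ?_ rfl
    apply Complex.ext <;> simp [Complex.equivRealProdCLM_symm_apply]
  rw [h4]
  exact h3.prodMk contDiff_snd

theorem rsc_g_inv {a b : ℝ → ℝ} (ha : ∀ x, a x ≠ 0) (hb : ∀ x, b x ≠ 0) (q : E) :
    rsc_g (fun x => (a x)⁻¹) (fun x => (b x)⁻¹) (rsc_g a b q) = q := by
  unfold rsc_g
  refine Prod.ext ?_ rfl
  apply Complex.ext
  · show (a q.2)⁻¹ * (a q.2 * q.1.re) = q.1.re
    rw [inv_mul_cancel_left₀ (ha _)]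
  · show (b q.2)⁻¹ * (b q.2 * q.1.im) = q.1.im
    rw [inv_mul_cancel_left₀ (hb _)]

theorem rsc_g_inv' {a b : ℝ → ℝ} (ha : ∀ x, a x ≠ 0) (hb : ∀ x, b x ≠ 0) (q : E) :
    rsc_g a b (rsc_g (fun x => (a x)⁻¹) (fun x => (b x)⁻¹) q) = q := by
  have := rsc_g_inv (a := fun x => (a x)⁻¹) (b := fun x => (b x)⁻¹) (fun x => inv_ne_zero (ha x))
    (fun x => inv_ne_zero (hb x)) q
  simpa only [inv_inv] using this

theorem rsc_bij {f f' : E → E} (hf : ContDiff ℝ ∞ f) (hf' : ContDiff ℝ ∞ f') (h1 : ∀ q, f' (f q) = q)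
    (h2 : ∀ q, f (f' q) = q) (q : E) : Function.Bijective (fderiv ℝ f q) := by
  have d1 : DifferentiableAt ℝ f q := hf.contDiffAt.differentiableAt (by norm_num)
  have d2 : DifferentiableAt ℝ f' (f q) := hf'.contDiffAt.differentiableAt (by norm_num)
  have e1 : (fderiv ℝ f' (f q)).comp (fderiv ℝ f q) = ContinuousLinearMap.id ℝ E := by
    have k1 := d2.hasFDerivAt.comp q d1.hasFDerivAt
    have k2 : HasFDerivAt (f' ∘ f) (ContinuousLinearMap.id ℝ E) q := by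
      have : f' ∘ f = id := funext h1
      rw [this]
      exact hasFDerivAt_id q
    exact k1.unique k2
  have d3 : DifferentiableAt ℝ f (f' (f q)) := by rw [h1]; exact d1
  have e2 : (fderiv ℝ f q).comp (fderiv ℝ f' (f q)) = ContinuousLinearMap.id ℝ E := by
    have k1 := d3.hasFDerivAt.comp (f q) d2.hasFDerivAt
    rw [h1] at k1
    have k2 : HasFDerivAt (f ∘ f') (ContinuousLinearMap.id ℝ E) (f q) := by
      have : f ∘ f' = id := funext h2
      rw [this]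
      exact hasFDerivAt_id (f q)
    exact k1.unique k2
  constructor
  · intro v w hvw
    have k1 := congrArg (fun L : E →L[ℝ] E => L v) e1
    have k2 := congrArg (fun L : E →L[ℝ] E => L w) e1
    have k1' : fderiv ℝ f' (f q) (fderiv ℝ f q v) = v := k1
    have k2' : fderiv ℝ f' (f q) (fderiv ℝ f q w) = w := k2
    rw [← k1', ← k2', hvw]
  · intro v
    have k1 := congrArg (fun L : E →L[ℝ] E => L v) e2
    exact ⟨fderiv ℝ f' (f q) v, k1⟩

/-- the reparametrisation of the core -/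
noncomputable def rsc_xi (θ x : ℝ) : ℝ := θ * x + (1 - θ) * stp (1 / 4) (3 / 4) x

theorem rsc_xi_smooth (θ : ℝ) : ContDiff ℝ ∞ (rsc_xi θ) := by
  unfold rsc_xi
  exact (contDiff_const.mul contDiff_id).add (contDiff_const.mul (CSG.stp_smooth _ _))

theorem rsc_xi_deriv {θ : ℝ} (h0 : 0 < θ) (h1 : θ ≤ 1) (x : ℝ) : 0 < deriv (rsc_xi θ) x := by
  have h2 : HasDerivAt (stp (1 / 4) (3 / 4)) (deriv (stp (1 / 4) (3 / 4)) x) x :=
    ((CSG.stp_smooth (1 / 4) (3 / 4)).differentiable (by norm_num) x).hasDerivAt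
  have h3 : HasDerivAt (rsc_xi θ) (θ * 1 + (1 - θ) * deriv (stp (1 / 4) (3 / 4)) x) x :=
    ((hasDerivAt_id x).const_mul θ).add (h2.const_mul (1 - θ))
  rw [h3.deriv]
  have h4 := CSG.stp_deriv_nonneg (a := 1 / 4) (b := 3 / 4) (by norm_num) x
  have h5 : 0 ≤ (1 - θ) * deriv (stp (1 / 4) (3 / 4)) x := mul_nonneg (by linarith) h4
  linarith

theorem rsc_xi_low (θ : ℝ) {x : ℝ} (h : x ≤ 1 / 4) : rsc_xi θ x = θ * x := by
  unfold rsc_xi
  rw [CSG.stp_zero (by norm_num) h, mul_zero, add_zero]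

theorem rsc_xi_high (θ : ℝ) {x : ℝ} (h : 3 / 4 ≤ x) : rsc_xi θ x = 1 - θ * (1 - x) := by
  unfold rsc_xi
  rw [CSG.stp_one (by norm_num) h]
  ring

/-- the direction of the finger -/
noncomputable def rsc_d (η x : ℝ) : ℝ := (1 - stp (1 / 4) (3 / 4) x) + stp (1 / 4) (3 / 4) x * η

theorem rsc_d_smooth (η : ℝ) : ContDiff ℝ ∞ (rsc_d η) := by
  unfold rsc_d
  exact (contDiff_const.sub (CSG.stp_smooth _ _)).add ((CSG.stp_smooth _ _).mul contDiff_const)

theorem rsc_d_pos {η : ℝ} (h0 : 0 < η) (x : ℝ) : 0 < rsc_d η x := by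
  unfold rsc_d
  have h1 := CSG.stp_nonneg (1 / 4) (3 / 4) x
  have h2 := CSG.stp_le_one (1 / 4) (3 / 4) x
  rcases h1.lt_or_eq with h | h
  · have : 0 < stp (1 / 4) (3 / 4) x * η := mul_pos h h0
    linarith
  · rw [← h]
    norm_num

theorem rsc_d_le {η : ℝ} (h1 : η ≤ 1) (x : ℝ) : rsc_d η x ≤ 1 := by
  unfold rsc_d
  have h2 := CSG.stp_nonneg (1 / 4) (3 / 4) x
  nlinarith

theorem rsc_d_low (η : ℝ) {x : ℝ} (h : x ≤ 1 / 4) : rsc_d η x = 1 := by
  unfold rsc_d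
  rw [CSG.stp_zero (by norm_num) h]
  ring

theorem rsc_d_high (η : ℝ) {x : ℝ} (h : 3 / 4 ≤ x) : rsc_d η x = η := by
  unfold rsc_d
  rw [CSG.stp_one (by norm_num) h]
  ring

/-- the other coefficient -/
noncomputable def rsc_e (η x : ℝ) : ℝ := (1 - stp (1 / 4) (3 / 4) x) * η + stp (1 / 4) (3 / 4) x

theorem rsc_e_smooth (η : ℝ) : ContDiff ℝ ∞ (rsc_e η) := by
  unfold rsc_e
  exact ((contDiff_const.sub (CSG.stp_smooth _ _)).mul contDiff_const).add (CSG.stp_smooth _ _)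

theorem rsc_e_pos {η : ℝ} (h0 : 0 < η) (x : ℝ) : 0 < rsc_e η x := by
  unfold rsc_e
  have h1 := CSG.stp_nonneg (1 / 4) (3 / 4) x
  have h2 := CSG.stp_le_one (1 / 4) (3 / 4) x
  rcases h2.lt_or_eq with h | h
  · have : 0 < (1 - stp (1 / 4) (3 / 4) x) * η := mul_pos (by linarith) h0
    linarith
  · rw [h]
    norm_num

theorem rsc_e_le {η : ℝ} (h1 : η ≤ 1) (x : ℝ) : rsc_e η x ≤ 1 := by
  unfold rsc_e
  have h2 := CSG.stp_le_one (1 / 4) (3 / 4) x
  nlinarith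

theorem rsc_e_low (η : ℝ) {x : ℝ} (h : x ≤ 1 / 4) : rsc_e η x = η := by
  unfold rsc_e
  rw [CSG.stp_zero (by norm_num) h]
  ring

theorem rsc_e_high (η : ℝ) {x : ℝ} (h : 3 / 4 ≤ x) : rsc_e η x = 1 := by
  unfold rsc_e
  rw [CSG.stp_one (by norm_num) h]
  ring

/-- the map `g` scales the norm -/
theorem rsc_norm {l u v a b : ℝ} (hl : 0 ≤ l) (ha : |a| ≤ l) (hb : |b| ≤ l) :
    ‖(⟨a * u, b * v⟩ : ℂ)‖ ≤ l * ‖(⟨u, v⟩ : ℂ)‖ := by
  rw [← sq_le_sq₀ (norm_nonneg _) (by positivity), mul_pow, Complex.sq_norm, Complex.sq_norm,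
    Complex.normSq_mk, Complex.normSq_mk]
  have h1 : a ^ 2 ≤ l ^ 2 := by rw [← sq_abs a]; exact pow_le_pow_left₀ (abs_nonneg _) ha 2
  have h2 : b ^ 2 ≤ l ^ 2 := by rw [← sq_abs b]; exact pow_le_pow_left₀ (abs_nonneg _) hb 2
  nlinarith [mul_le_mul_of_nonneg_right h1 (sq_nonneg u), mul_le_mul_of_nonneg_right h2 (sq_nonneg v)]

theorem rsc_open : IsOpen TD := by
  have h1 : IsOpen {q : E | ‖q.1‖ < 1} := isOpen_lt (by fun_prop) continuous_const
  have h2 : IsOpen {q : E | -(1 / 4) < q.2} := isOpen_lt continuous_const (by fun_prop)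
  have h3 : IsOpen {q : E | q.2 < 5 / 4} := isOpen_lt (by fun_prop) continuous_const
  exact h1.inter (h2.inter h3)

/-- `TF`, thinned by `l` in a direction which depends on the height -/
theorem rsc_leqO {η : ℝ} (h0 : 0 < η) : ∃ e₀ : ℝ, 0 < e₀ ∧ ∀ e : ℝ, 0 < e → e < e₀ → e ≤ 1 →
    LEqO TD TF (TGd e fun x => ((rsc_d η x : ℝ) : ℂ)) := by
  have hd : ContDiff ℝ ∞ fun x : ℝ => ((rsc_d η x : ℝ) : ℂ) := Complex.ofRealCLM.contDiff.comp (rsc_d_smooth η)
  obtain ⟨e₀, he₀, H⟩ := leqO_dir (d₀ := fun _ => 1) (d₁ := fun x => ((rsc_d η x : ℝ) : ℂ)) contDiff_const hd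
    (fun x hx => ⟨rfl, by rw [rsc_d_low η (by linarith)]; simp⟩)
    (by
      intro l hl x _ hh
      have h1 := congrArg Complex.re hh
      simp only [mul_one, Complex.add_re, Complex.ofReal_re, Complex.mul_re, Complex.ofReal_im, mul_zero,
        sub_zero, Complex.zero_re] at h1
      have h2 := rsc_d_pos h0 x
      have h3 := mul_nonneg hl.1 h2.le
      rcases hl.2.lt_or_eq with h | h
      · linarith
      · rw [h] at h1
        linarith)
    (by
      intro l hl h1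
      simp only [mul_one, Complex.add_re, Complex.ofReal_re, Complex.mul_re, Complex.ofReal_im, mul_zero,
        sub_zero] at h1
      have h2 := rsc_d_pos h0 1
      have h3 := mul_nonneg hl.1 h2.le
      rcases hl.2.lt_or_eq with h | h
      · linarith
      · rw [h] at h1
        linarith)
  refine ⟨e₀, he₀, fun e h1 h2 h3 => ?_⟩
  have k1 : LEqO TD TF (TGd e fun _ => 1) := by
    rw [TF_eq, TGd_one h1 h3]
    have hb : ∀ u : ℝ, -(1 / 4) < 9 / 8 * bmp u ∧ 9 / 8 * bmp u < 5 / 4 := fun u => by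
      have a1 := KNT.bmp_nonneg u
      have a2 := KNT.bmp_le_one u
      constructor <;> linarith
    have hb0 : bmp 0 = 1 := KNT.bmp_one (by norm_num)
    refine leqO_graph₂ (contDiff_const.mul KNT.bmp_smooth)
      (contDiff_const.mul (KNT.bmp_smooth.comp (contDiff_id.div_const e))) ?_ hb (fun u => hb (u / e)) ?_
    · intro u hu
      have a1 : bmp u = 0 := KNT.bmp_zero (by linarith)
      have a2 : bmp (u / e) = 0 := by
        apply KNT.bmp_zero
        rw [abs_div, abs_of_pos h1, le_div_iff₀ h1]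
        nlinarith
      rw [a1, a2]
      simp
    · left
      simp only [zero_div, hb0]
      norm_num
  exact k1.trans (H e h1 h2)

section
variable {N : Type*} [TopologicalSpace N] [ChartedSpace E3 N]

/-- the chord, thinned in a direction which depends on the height -/
theorem rsc_chd [T2Space N] {K : Set N} {T : E → N} (hT : Chd K T) {η : ℝ} (h0 : 0 < η) (h1 : η ≤ 1) {l : ℝ}
    (hl : 0 < l) (hl1 : l ≤ 1) (H : LEqO TD TF (TGd l fun x => ((rsc_d η x : ℝ) : ℂ))) :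
      Chd K (fun q => T (rsc_g (fun x => l * rsc_d η x) (fun x => l * rsc_e η x) q)) ∧
      LEqN (kn K T) (kn K fun q => T (rsc_g (fun x => l * rsc_d η x) (fun x => l * rsc_e η x) q)) := by
  have ha : ∀ x, (fun x => l * rsc_d η x) x ≠ 0 := fun x => (mul_pos hl (rsc_d_pos h0 x)).ne'
  have hb : ∀ x, (fun x => l * rsc_e η x) x ≠ 0 := fun x => (mul_pos hl (rsc_e_pos h0 x)).ne'
  have has : ContDiff ℝ ∞ (fun x => l * rsc_d η x) := contDiff_const.mul (rsc_d_smooth η)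
  have hbs : ContDiff ℝ ∞ (fun x => l * rsc_e η x) := contDiff_const.mul (rsc_e_smooth η)
  have hg := rsc_g_smooth has hbs
  have hg' := rsc_g_smooth (has.inv ha) (hbs.inv hb)
  have habs : ∀ x, |l * rsc_d η x| ≤ l ∧ |l * rsc_e η x| ≤ l := by
    intro x
    rw [abs_of_pos (mul_pos hl (rsc_d_pos h0 x)), abs_of_pos (mul_pos hl (rsc_e_pos h0 x))]
    exact ⟨by nlinarith [rsc_d_le h1 x], by nlinarith [rsc_e_le h1 x]⟩
  have hgn : ∀ q : E, ‖(rsc_g (fun x => l * rsc_d η x) (fun x => l * rsc_e η x) q).1‖ ≤ l * ‖q.1‖ := fun q =>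
    rsc_norm hl.le (habs q.2).1 (habs q.2).2
  have hgT : ∀ q ∈ TD, rsc_g (fun x => l * rsc_d η x) (fun x => l * rsc_e η x) q ∈ TD := by
    intro q hq
    refine ⟨lt_of_le_of_lt (hgn q) ?_, hq.2⟩
    have : ‖q.1‖ < 1 := hq.1
    nlinarith [norm_nonneg q.1]
  have hginj : Function.Injective (rsc_g (fun x => l * rsc_d η x) (fun x => l * rsc_e η x)) :=
    Function.LeftInverse.injective (rsc_g_inv ha hb)
  have hTS : ∀ q ∈ TD, rsc_g (fun x => l * rsc_d η x) (fun x => l * rsc_e η x) q ∈ TS ↔ q ∈ TS := by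
    intro q hq
    have hi : (rsc_g (fun x => l * rsc_d η x) (fun x => l * rsc_e η x) q).1.im = l * rsc_e η q.2 * q.1.im := rfl
    have hr : (rsc_g (fun x => l * rsc_d η x) (fun x => l * rsc_e η x) q).1.re = l * rsc_d η q.2 * q.1.re := rfl
    have hx : (rsc_g (fun x => l * rsc_d η x) (fun x => l * rsc_e η x) q).2 = q.2 := rfl
    have k1 : l * rsc_e η q.2 ≠ 0 := hb q.2
    have k2 : l * rsc_d η q.2 ≠ 0 := ha q.2
    unfold TS
    simp only [mem_ofPred_eq, hgT q hq, hq, true_and, hi, hr, hx, mul_eq_zero, k1, k2, false_or]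
  have hchd : Chd K (fun q => T (rsc_g (fun x => l * rsc_d η x) (fun x => l * rsc_e η x) q)) := by
    refine ⟨hT.cht.comp rsc_open (fun q _ => hg.contDiffAt)
      (fun q _ => rsc_bij hg hg' (rsc_g_inv ha hb) (rsc_g_inv' ha hb) q) hginj.injOn hgT, ?_⟩
    ext y
    constructor
    · rintro ⟨hyK, q, hq, rfl⟩
      have h2 : T (rsc_g (fun x => l * rsc_d η x) (fun x => l * rsc_e η x) q) ∈ T '' TS := by
        rw [← hT.hit]
        exact ⟨hyK, _, hgT q hq, rfl⟩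
      obtain ⟨q', hq', he⟩ := h2
      have h3 := hT.cht.inj hq'.1 (hgT q hq) he
      refine ⟨q, ?_, rfl⟩
      rw [← hTS q hq, ← h3]
      exact hq'
    · rintro ⟨q, hq, rfl⟩
      have h2 : T (rsc_g (fun x => l * rsc_d η x) (fun x => l * rsc_e η x) q) ∈ K ∩ T '' TD := by
        rw [hT.hit]
        exact ⟨_, (hTS q hq.1).mpr hq, rfl⟩
      exact ⟨h2.1, q, hq.1, rfl⟩
  refine ⟨hchd, ?_⟩
  have hL := kn_of_leqO hT H
  have he : (K \ T '' TD) ∪ T '' (TGd l fun x => ((rsc_d η x : ℝ) : ℂ)) =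
      kn K (fun q => T (rsc_g (fun x => l * rsc_d η x) (fun x => l * rsc_e η x) q)) := by
    -- the points of the finger
    have hfin : ∀ y : ℝ, ((((l * y : ℝ) : ℂ) * ((rsc_d η (9 / 8 * bmp y) : ℝ) : ℂ), 9 / 8 * bmp y) : E) =
        rsc_g (fun x => l * rsc_d η x) (fun x => l * rsc_e η x) ((y : ℂ), 9 / 8 * bmp y) := by
      intro y
      refine Prod.ext ?_ rfl
      apply Complex.ext
      · show (((l * y : ℝ) : ℂ) * ((rsc_d η (9 / 8 * bmp y) : ℝ) : ℂ)).re = l * rsc_d η (9 / 8 * bmp y) * (y : ℂ).re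
        rw [← Complex.ofReal_mul, Complex.ofReal_re, Complex.ofReal_re]
        ring
      · show (((l * y : ℝ) : ℂ) * ((rsc_d η (9 / 8 * bmp y) : ℝ) : ℂ)).im = l * rsc_e η (9 / 8 * bmp y) * (y : ℂ).im
        rw [← Complex.ofReal_mul, Complex.ofReal_im, Complex.ofReal_im, mul_zero]
    have hTF : ∀ y : ℝ, |y| < 1 → (((y : ℂ), 9 / 8 * bmp y) : E) ∈ TF := by
      intro y hy
      have a1 := KNT.bmp_nonneg y
      have a2 := KNT.bmp_le_one y
      refine ⟨⟨?_, ?_, ?_⟩, Or.inl ⟨?_, ?_⟩⟩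
      · show ‖(y : ℂ)‖ < 1
        rw [Complex.norm_real]
        exact hy
      · show -(1 / 4) < 9 / 8 * bmp y
        linarith
      · show 9 / 8 * bmp y < 5 / 4
        linarith
      · exact Complex.ofReal_im y
      · show 9 / 8 * bmp y = 9 / 8 * bmp (y : ℂ).re
        rw [Complex.ofReal_re]
    have hK : ∀ q ∈ TS, T q ∈ K := fun q hq => by
      have : T q ∈ K ∩ T '' TD := by rw [hT.hit]; exact ⟨q, hq, rfl⟩
      exact this.1
    -- a point of a strand which is not in the thin tube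
    have hout : ∀ q ∈ TS, q ∉ rsc_g (fun x => l * rsc_d η x) (fun x => l * rsc_e η x) '' TD →
        T q ∈ kn K (fun q => T (rsc_g (fun x => l * rsc_d η x) (fun x => l * rsc_e η x) q)) := by
      intro q hq hn
      left
      refine ⟨hK q hq, ?_⟩
      rintro ⟨q', hq', he⟩
      exact hn ⟨q', hq', hT.cht.inj (hgT q' hq') hq.1 he⟩
    ext y
    constructor
    · rintro (⟨hyK, hyT⟩ | ⟨z, hz, rfl⟩)
      · left
        refine ⟨hyK, ?_⟩
        rintro ⟨q, hq, rfl⟩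
        exact hyT ⟨_, hgT q hq, rfl⟩
      · rcases hz with ⟨t, ht, rfl⟩ | hz
        · by_cases ht1 : |t| < 1
          · right
            exact ⟨((t : ℂ), 9 / 8 * bmp t), hTF t ht1, by
              show T (rsc_g _ _ ((t : ℂ), 9 / 8 * bmp t)) = _
              rw [← hfin t]⟩
          · have hb0 : bmp t = 0 := KNT.bmp_zero (by linarith [not_lt.mp ht1])
            have hq : ((((l * t : ℝ) : ℂ) * ((rsc_d η (9 / 8 * bmp t) : ℝ) : ℂ), 9 / 8 * bmp t) : E) =
                ((((l * t : ℝ)) : ℂ), 0) := by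
              rw [hb0, mul_zero, rsc_d_low η (by norm_num), Complex.ofReal_one, mul_one]
            have ht' : |l * t| < 1 := ht
            show T ((((l * t : ℝ) : ℂ) * ((rsc_d η (9 / 8 * bmp t) : ℝ) : ℂ), 9 / 8 * bmp t) : E) ∈ _
            rw [hq]
            apply hout
            · refine ⟨⟨?_, by norm_num, by norm_num⟩, Or.inl ⟨rfl, Complex.ofReal_im _⟩⟩
              show ‖(((l * t : ℝ)) : ℂ)‖ < 1
              rw [Complex.norm_real]
              exact ht'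
            · rintro ⟨q', hq', he⟩
              have e1 := congrArg (fun z : E => ‖z.1‖) he
              have e2 : ‖(rsc_g (fun x => l * rsc_d η x) (fun x => l * rsc_e η x) q').1‖ = ‖(((l * t : ℝ)) : ℂ)‖ := e1
              have e3 := hgn q'
              rw [e2, Complex.norm_real, Real.norm_eq_abs, abs_mul, abs_of_pos hl] at e3
              have e4 : ‖q'.1‖ < 1 := hq'.1
              have e5 := not_lt.mp ht1
              nlinarith
        · -- the tip
          by_cases hin : z ∈ rsc_g (fun x => l * rsc_d η x) (fun x => l * rsc_e η x) '' TD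
          · obtain ⟨q, hq, rfl⟩ := hin
            right
            refine ⟨q, ⟨hq, Or.inr ⟨hz.2.1, ?_⟩⟩, rfl⟩
            have hr : l * rsc_d η q.2 * q.1.re = 0 := hz.2.2
            exact (mul_eq_zero.mp hr).resolve_left (ha q.2)
          · exact hout z ⟨hz.1, Or.inr hz.2⟩ hin
    · rintro (⟨hyK, hyT⟩ | ⟨q, hq, rfl⟩)
      · by_cases hy : y ∈ T '' TD
        · right
          have h2 : y ∈ T '' TS := by rw [← hT.hit]; exact ⟨hyK, hy⟩
          obtain ⟨q, hq, rfl⟩ := h2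
          have hnin : q ∉ rsc_g (fun x => l * rsc_d η x) (fun x => l * rsc_e η x) '' TD := by
            rintro ⟨q', hq', he⟩
            exact hyT ⟨q', hq', congrArg T he⟩
          refine ⟨q, ?_, rfl⟩
          rcases hq.2 with h3 | h3
          · -- foot
            left
            have hqe : q = (((q.1.re : ℝ) : ℂ), (0 : ℝ)) := by
              refine Prod.ext ?_ h3.1
              apply Complex.ext
              · rw [Complex.ofReal_re]
              · rw [Complex.ofReal_im]; exact h3.2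
            have habs1 : |q.1.re| < 1 := by
              have : ‖q.1‖ < 1 := hq.1.1
              exact lt_of_le_of_lt (Complex.abs_re_le_norm _) this
            have hge : l ≤ |q.1.re| := by
              by_contra hlt
              apply hnin
              refine ⟨(((l⁻¹ * q.1.re : ℝ) : ℂ), 0), ⟨?_, by norm_num, by norm_num⟩, ?_⟩
              · show ‖((l⁻¹ * q.1.re : ℝ) : ℂ)‖ < 1
                rw [Complex.norm_real, Real.norm_eq_abs, abs_mul, abs_of_pos (inv_pos.mpr hl),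
                  inv_mul_lt_iff₀ hl, mul_one]
                exact not_le.mp hlt
              · conv_rhs => rw [hqe]
                refine Prod.ext ?_ rfl
                apply Complex.ext
                · show l * rsc_d η 0 * ((l⁻¹ * q.1.re : ℝ) : ℂ).re = ((q.1.re : ℝ) : ℂ).re
                  rw [rsc_d_low η (by norm_num), Complex.ofReal_re, Complex.ofReal_re]
                  field_simp
                · show l * rsc_e η 0 * ((l⁻¹ * q.1.re : ℝ) : ℂ).im = ((q.1.re : ℝ) : ℂ).im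
                  rw [Complex.ofReal_im, Complex.ofReal_im, mul_zero]
            refine ⟨l⁻¹ * q.1.re, ?_, ?_⟩
            · show |l * (l⁻¹ * q.1.re)| < 1
              rw [mul_inv_cancel_left₀ hl.ne']
              exact habs1
            · have hb0 : bmp (l⁻¹ * q.1.re) = 0 := by
                apply KNT.bmp_zero
                rw [abs_mul, abs_of_pos (inv_pos.mpr hl)]
                have : 1 ≤ l⁻¹ * |q.1.re| := by
                  rw [le_inv_mul_iff₀ hl, mul_one]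
                  exact hge
                linarith
              show ((((l * (l⁻¹ * q.1.re) : ℝ) : ℂ) * ((rsc_d η (9 / 8 * bmp (l⁻¹ * q.1.re)) : ℝ) : ℂ),
                9 / 8 * bmp (l⁻¹ * q.1.re)) : E) = q
              rw [hb0, mul_zero, rsc_d_low η (by norm_num), Complex.ofReal_one, mul_one,
                mul_inv_cancel_left₀ hl.ne']
              exact hqe.symm
          · right
            exact ⟨hq.1, h3⟩
        · left
          exact ⟨hyK, hy⟩
      · right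
        refine ⟨rsc_g (fun x => l * rsc_d η x) (fun x => l * rsc_e η x) q, ?_, rfl⟩
        rcases hq.2 with h3 | h3
        · left
          have hqe : q = (((q.1.re : ℝ) : ℂ), 9 / 8 * bmp q.1.re) := by
            refine Prod.ext ?_ h3.2
            apply Complex.ext
            · rw [Complex.ofReal_re]
            · rw [Complex.ofReal_im]; exact h3.1
          have habs1 : |q.1.re| < 1 := by
            have : ‖q.1‖ < 1 := hq.1.1
            exact lt_of_le_of_lt (Complex.abs_re_le_norm _) this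
          refine ⟨q.1.re, ?_, ?_⟩
          · show |l * q.1.re| < 1
            rw [abs_mul, abs_of_pos hl]
            nlinarith [abs_nonneg q.1.re]
          · show ((((l * q.1.re : ℝ) : ℂ) * ((rsc_d η (9 / 8 * bmp q.1.re) : ℝ) : ℂ), 9 / 8 * bmp q.1.re) : E) = _
            rw [hfin q.1.re]
            exact congrArg _ hqe.symm
        · right
          refine ⟨hgT q hq.1, h3.1, ?_⟩
          show l * rsc_d η q.2 * q.1.re = 0
          rw [h3.2, mul_zero]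
  rw [← he]
  exact hL

end

section
variable {N : Type*} [TopologicalSpace N] [ChartedSpace E3 N] [IsManifold (𝓡 3) ∞ N] [T2Space N]

theorem exists_stdE_strong {κ : ℝ × ℂ → N} (hκ : Thick κ) {p p' ε σ r : ℝ} (A : Adm p p' ε) {T : E → N} (hT : Chd (core κ) T)
    (hS : StdR κ p p' ε σ r T) {η δ : ℝ} (h0 : 0 < η) (h1 : η ≤ 1) (hδ : 0 < δ) :
    ∃ ε₀ : ℝ, 0 < ε₀ ∧ ∀ ε₁ : ℝ, 0 < ε₁ → ε₁ < ε₀ → ∃ (T' : E → N) (ξ : ℝ → ℝ), Chd (core κ) T' ∧
      StdE (fun q : ℝ × ℂ => κ (q.1, (η : ℂ) * q.2)) p p' ε₁ σ T' ∧ LEqN (kn (core κ) T) (kn (core κ) T') ∧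
      T' '' TD ⊆ T '' {q | q ∈ TD ∧ ‖q.1‖ < δ ∧ -δ < q.2 ∧ q.2 < 1 + δ} ∧ (∀ x, T' (0, x) = T (0, ξ x)) ∧ ContDiff ℝ ∞ ξ ∧ StrictMono ξ ∧
      ξ 0 = 0 ∧ ξ 1 = 1 ∧ ξ (1 / 8) = η * ε₁ / (8 * ε) ∧ ξ (7 / 8) = 1 - η * ε₁ / (8 * ε) := by
  obtain ⟨e₀, he₀, H⟩ := rsc_leqO h0
  have hε := A.pos
  have hr := hS.pos
  have hr1 := hS.le
  refine ⟨ε * r * min δ (min 1 e₀), mul_pos (mul_pos hε hr) (lt_min hδ (lt_min one_pos he₀)), ?_⟩
  intro ε₁ hε₁ hlt
  obtain ⟨l, hl_def⟩ : ∃ l : ℝ, l = ε₁ / (ε * r) := ⟨_, rfl⟩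
  have hεr : 0 < ε * r := mul_pos hε hr
  have hl : 0 < l := by rw [hl_def]; exact div_pos hε₁ hεr
  have hlm : l < min δ (min 1 e₀) := by
    rw [hl_def, div_lt_iff₀ hεr, mul_comm]
    exact hlt
  have hlδ : l < δ := lt_of_lt_of_le hlm (min_le_left _ _)
  have hl1 : l < 1 := lt_of_lt_of_le hlm ((min_le_right _ _).trans (min_le_left _ _))
  have hle : l < e₀ := lt_of_lt_of_le hlm ((min_le_right _ _).trans (min_le_right _ _))
  have hlε : ε * (r * l) = ε₁ := by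
    rw [hl_def]
    field_simp
  obtain ⟨θ, hθ_def⟩ : ∃ θ : ℝ, θ = η * ε₁ / ε := ⟨_, rfl⟩
  have hθ0 : 0 < θ := by rw [hθ_def]; exact div_pos (mul_pos h0 hε₁) hε
  have hεθ : ε * θ = η * ε₁ := by
    rw [hθ_def]
    field_simp
  have hθ1 : θ ≤ 1 := by
    have h2 : ε * θ ≤ ε * 1 := by
      rw [hεθ, mul_one]
      have h3 : ε₁ ≤ ε := by
        rw [← hlε]
        have : r * l ≤ 1 := by nlinarith
        nlinarith
      nlinarith
    exact le_of_mul_le_mul_left h2 hε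
  have hθδ : θ < δ := by
    have h2 : ε * θ < ε * δ := by
      rw [hεθ]
      have h3 : η * ε₁ ≤ ε₁ := by nlinarith
      have h4 : ε₁ < ε * δ := by
        rw [← hlε]
        have h5 : r * l < δ := by nlinarith
        nlinarith
      linarith
    exact lt_of_mul_lt_mul_left h2 hε.le
  have hξm : StrictMono (rsc_xi θ) := strictMono_of_deriv_pos (rsc_xi_deriv hθ0 hθ1)
  have hξ0 : rsc_xi θ 0 = 0 := by rw [rsc_xi_low θ (by norm_num), mul_zero]
  have hξ1 : rsc_xi θ 1 = 1 := by rw [rsc_xi_high θ (by norm_num)]; ring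
  have hξa : -(1 / 4) ≤ rsc_xi θ (-(1 / 4)) := by
    rw [rsc_xi_low θ (by norm_num)]
    linarith
  have hξb : rsc_xi θ (5 / 4) ≤ 5 / 4 := by
    rw [rsc_xi_high θ (by norm_num)]
    linarith
  obtain ⟨hT₂, hL₂⟩ := chd_repar hT one_pos le_rfl (rsc_xi_smooth θ) (rsc_xi_deriv hθ0 hθ1) hξ0 hξ1 hξa hξb
  obtain ⟨hT', hL'⟩ := rsc_chd hT₂ h0 h1 hl hl1.le (H l hl hle hl1.le)
  have habs : ∀ x, |l * rsc_d η x| ≤ l ∧ |l * rsc_e η x| ≤ l := by
    intro x
    rw [abs_of_pos (mul_pos hl (rsc_d_pos h0 x)), abs_of_pos (mul_pos hl (rsc_e_pos h0 x))]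
    exact ⟨by nlinarith [rsc_d_le h1 x], by nlinarith [rsc_e_le h1 x]⟩
  have hmem : ∀ q ∈ TD, ((((1 : ℝ) : ℂ) * (⟨l * rsc_d η q.2 * q.1.re, l * rsc_e η q.2 * q.1.im⟩ : ℂ),
      rsc_xi θ q.2) : E) ∈ TD ∧ ‖((1 : ℝ) : ℂ) * (⟨l * rsc_d η q.2 * q.1.re, l * rsc_e η q.2 * q.1.im⟩ : ℂ)‖ < l := by
    intro q hq
    have hn : ‖((1 : ℝ) : ℂ) * (⟨l * rsc_d η q.2 * q.1.re, l * rsc_e η q.2 * q.1.im⟩ : ℂ)‖ < l := by
      rw [Complex.ofReal_one, one_mul]
      refine lt_of_le_of_lt (rsc_norm hl.le (habs q.2).1 (habs q.2).2) ?_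
      have : ‖q.1‖ < 1 := hq.1
      show l * ‖q.1‖ < l
      nlinarith
    exact ⟨⟨hn.trans hl1, lt_of_le_of_lt hξa (hξm hq.2.1), lt_of_lt_of_le (hξm hq.2.2) hξb⟩, hn⟩
  refine ⟨fun q => T (((1 : ℝ) : ℂ) * (rsc_g (fun x => l * rsc_d η x) (fun x => l * rsc_e η x) q).1,
    rsc_xi θ (rsc_g (fun x => l * rsc_d η x) (fun x => l * rsc_e η x) q).2), rsc_xi θ, hT', ?_, hL₂.trans hL',
    ?_, ?_, rsc_xi_smooth θ, hξm, hξ0, hξ1, ?_, ?_⟩
  · refine ⟨?_, ?_⟩
    · intro q hq hx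
      show T (((1 : ℝ) : ℂ) * (⟨l * rsc_d η q.2 * q.1.re, l * rsc_e η q.2 * q.1.im⟩ : ℂ), rsc_xi θ q.2) = _
      have hxi : rsc_xi θ q.2 = θ * q.2 := rsc_xi_low θ hx.le
      have hlt4 : rsc_xi θ q.2 < 1 / 4 := by
        rw [hxi]
        rcases le_or_gt q.2 0 with h | h
        · have : θ * q.2 ≤ 0 := mul_nonpos_of_nonneg_of_nonpos hθ0.le h
          linarith
        · have : θ * q.2 ≤ 1 * q.2 := mul_le_mul_of_nonneg_right hθ1 h.le
          linarith
      rw [hS.foot _ (hmem q hq).1 hlt4]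
      unfold footT
      show κ (p + ε * ((r : ℂ) * (((1 : ℝ) : ℂ) * (⟨l * rsc_d η q.2 * q.1.re, l * rsc_e η q.2 * q.1.im⟩ : ℂ))).re,
        (ε : ℂ) * ⟨rsc_xi θ q.2, ((r : ℂ) * (((1 : ℝ) : ℂ) * (⟨l * rsc_d η q.2 * q.1.re,
          l * rsc_e η q.2 * q.1.im⟩ : ℂ))).im⟩) = κ (p + ε₁ * q.1.re, (η : ℂ) * ((ε₁ : ℂ) * ⟨q.2, q.1.im⟩))
      congr 1
      rw [rsc_d_low η hx.le, rsc_e_low η hx.le, hxi, Complex.ofReal_one, one_mul, Complex.re_ofReal_mul,
        Complex.im_ofReal_mul]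
      refine Prod.ext ?_ ?_
      · show p + ε * (r * (l * 1 * q.1.re)) = p + ε₁ * q.1.re
        rw [← hlε]
        ring
      · apply Complex.ext
        · rw [Complex.re_ofReal_mul, Complex.re_ofReal_mul, Complex.re_ofReal_mul]
          show ε * (θ * q.2) = η * (ε₁ * q.2)
          rw [← mul_assoc, hεθ]
          ring
        · rw [Complex.im_ofReal_mul, Complex.im_ofReal_mul, Complex.im_ofReal_mul]
          show ε * (r * (l * η * q.1.im)) = η * (ε₁ * q.1.im)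
          rw [← hlε]
          ring
    · intro q hq hx
      show T (((1 : ℝ) : ℂ) * (⟨l * rsc_d η q.2 * q.1.re, l * rsc_e η q.2 * q.1.im⟩ : ℂ), rsc_xi θ q.2) = _
      have hxi : rsc_xi θ q.2 = 1 - θ * (1 - q.2) := rsc_xi_high θ hx.le
      have hgt : 3 / 4 < rsc_xi θ q.2 := by
        rw [hxi]
        rcases le_or_gt (1 - q.2) 0 with h | h
        · have : θ * (1 - q.2) ≤ 0 := mul_nonpos_of_nonneg_of_nonpos hθ0.le h
          linarith
        · have : θ * (1 - q.2) ≤ 1 * (1 - q.2) := mul_le_mul_of_nonneg_right hθ1 h.le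
          linarith
      rw [hS.tip _ (hmem q hq).1 hgt]
      unfold tipT
      show κ (p' + σ * ε * ((r : ℂ) * (((1 : ℝ) : ℂ) * (⟨l * rsc_d η q.2 * q.1.re, l * rsc_e η q.2 * q.1.im⟩ : ℂ))).im,
        (ε : ℂ) * ⟨1 - rsc_xi θ q.2, ((r : ℂ) * (((1 : ℝ) : ℂ) * (⟨l * rsc_d η q.2 * q.1.re,
          l * rsc_e η q.2 * q.1.im⟩ : ℂ))).re⟩) =
        κ (p' + σ * ε₁ * q.1.im, (η : ℂ) * ((ε₁ : ℂ) * ⟨1 - q.2, q.1.re⟩))
      congr 1
      rw [rsc_d_high η hx.le, rsc_e_high η hx.le, hxi, Complex.ofReal_one, one_mul, Complex.re_ofReal_mul,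
        Complex.im_ofReal_mul]
      refine Prod.ext ?_ ?_
      · show p' + σ * ε * (r * (l * 1 * q.1.im)) = p' + σ * ε₁ * q.1.im
        rw [← hlε]
        ring
      · apply Complex.ext
        · rw [Complex.re_ofReal_mul, Complex.re_ofReal_mul, Complex.re_ofReal_mul]
          show ε * (1 - (1 - θ * (1 - q.2))) = η * (ε₁ * (1 - q.2))
          have : ε * (1 - (1 - θ * (1 - q.2))) = ε * θ * (1 - q.2) := by ring
          rw [this, hεθ]
          ring
        · rw [Complex.im_ofReal_mul, Complex.im_ofReal_mul, Complex.im_ofReal_mul]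
          show ε * (r * (l * η * q.1.re)) = η * (ε₁ * q.1.re)
          rw [← hlε]
          ring
  · rintro _ ⟨q, hq, rfl⟩
    refine ⟨_, ⟨(hmem q hq).1, (hmem q hq).2.trans hlδ, ?_, ?_⟩, rfl⟩
    · show -δ < rsc_xi θ q.2
      have h2 : rsc_xi θ (-(1 / 4)) < rsc_xi θ q.2 := hξm hq.2.1
      rw [rsc_xi_low θ (x := -(1 / 4)) (by norm_num)] at h2
      linarith
    · show rsc_xi θ q.2 < 1 + δ
      have h2 : rsc_xi θ q.2 < rsc_xi θ (5 / 4) := hξm hq.2.2
      rw [rsc_xi_high θ (x := 5 / 4) (by norm_num)] at h2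
      linarith
  · intro x
    show T (((1 : ℝ) : ℂ) * (⟨l * rsc_d η x * (0 : ℂ).re, l * rsc_e η x * (0 : ℂ).im⟩ : ℂ), rsc_xi θ x) =
      T (0, rsc_xi θ x)
    have h2 : (⟨l * rsc_d η x * (0 : ℂ).re, l * rsc_e η x * (0 : ℂ).im⟩ : ℂ) = 0 := by
      apply Complex.ext <;> simp
    rw [h2, mul_zero]
  · rw [rsc_xi_low θ (by norm_num), hθ_def]
    field_simp
  · rw [rsc_xi_high θ (by norm_num), hθ_def]
    field_simp
    ring

theorem exists_stdE {κ : ℝ × ℂ → N} (hκ : Thick κ) {p p' ε σ r : ℝ} (A : Adm p p' ε) {T : E → N} (hT : Chd (core κ) T)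
    (hS : StdR κ p p' ε σ r T) {η δ : ℝ} (h0 : 0 < η) (h1 : η ≤ 1) (hδ : 0 < δ) :
    ∃ ε₀ : ℝ, 0 < ε₀ ∧ ∀ ε₁ : ℝ, 0 < ε₁ → ε₁ < ε₀ → ∃ (T' : E → N) (ξ : ℝ → ℝ), Chd (core κ) T' ∧
      StdE (fun q : ℝ × ℂ => κ (q.1, (η : ℂ) * q.2)) p p' ε₁ σ T' ∧ LEqN (kn (core κ) T) (kn (core κ) T') ∧
      T' '' TD ⊆ T '' {q | q ∈ TD ∧ ‖q.1‖ < δ} ∧ (∀ x, T' (0, x) = T (0, ξ x)) ∧ ContDiff ℝ ∞ ξ ∧ StrictMono ξ ∧
      ξ 0 = 0 ∧ ξ 1 = 1 ∧ ξ (1 / 8) = η * ε₁ / (8 * ε) ∧ ξ (7 / 8) = 1 - η * ε₁ / (8 * ε) := by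
  obtain ⟨ε₀, h2, h3⟩ := exists_stdE_strong hκ A hT hS h0 h1 hδ
  refine ⟨ε₀, h2, fun ε₁ h4 h5 => ?_⟩
  obtain ⟨T', ξ, a1, a2, a3, a4, a5⟩ := h3 ε₁ h4 h5
  exact ⟨T', ξ, a1, a2, a3, a4.trans (image_mono fun q hq => ⟨hq.1, hq.2.1⟩), a5⟩

end

end Pool.Agent.NHE
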