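import Pool.Agent.NHE.Defs
import Pool.Agent.NHP.Grp

/-!
# NHE/Tub: thin tubes around an arc (difficulty 2)

Compactness: `G` is continuous, injective on the compact set `0 × [a, b]` and locally injective at its points: injective on a neighbourhood (`Set.InjOn.exists_mem_nhdsSet`); neighbourhoods of `0 × [a, b]` contain `{‖w‖ < r, a < x < b}` (generalized tube lemma).  The same for `G q ∈ O`.
-/

open scoped Manifold ContDiff Topology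
open Set Filter
open Pool.Agent.CSG (stp)
open Pool.Agent.RSG (E3 ex Thick)
open Pool.Agent.KNT (Dom Str Str2 BalC bmp)
open Pool.Agent.NHP

namespace Pool.Agent.NHE

section
variable {N : Type*} [TopologicalSpace N] [ChartedSpace E3 N] [IsManifold (𝓡 3) ∞ N] [T2Space N]

omit [IsManifold (𝓡 3) ∞ N] [T2Space N] in
theorem tub_cont {G : E → N} {q : E} (h : IsLocalDiffeomorphAt 𝓘(ℝ, ℂ × ℝ) (𝓡 3) ∞ G q) : ContinuousAt G q := by
  obtain ⟨Φ, hx, he⟩ := h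
  have h1 : ContinuousOn Φ Φ.source := Φ.contMDiffOn_toFun.continuousOn
  have h2 : ContinuousAt Φ q := h1.continuousAt (Φ.open_source.mem_nhds hx)
  exact h2.congr (Filter.eventuallyEq_of_mem (Φ.open_source.mem_nhds hx) he).symm

omit [IsManifold (𝓡 3) ∞ N] [T2Space N] in
theorem tub_inj {G : E → N} {q : E} (h : IsLocalDiffeomorphAt 𝓘(ℝ, ℂ × ℝ) (𝓡 3) ∞ G q) : ∃ u ∈ 𝓝 q, InjOn G u := by
  obtain ⟨Φ, hx, he⟩ := h
  refine ⟨Φ.source, Φ.open_source.mem_nhds hx, fun y hy z hz hyz => ?_⟩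
  rw [he hy, he hz] at hyz
  exact Φ.toPartialEquiv.injOn hy hz hyz

theorem exists_tube {G : E → N} {a b : ℝ} (hl : ∀ x ∈ Icc a b, ∃ U ∈ 𝓝 ((0, x) : E), ∀ q ∈ U, IsLocalDiffeomorphAt 𝓘(ℝ, ℂ × ℝ) (𝓡 3) ∞ G q)
    (hi : InjOn (fun x : ℝ => G (0, x)) (Icc a b)) {O : Set N} (hO : IsOpen O) (hG : ∀ x ∈ Icc a b, G (0, x) ∈ O) :
    ∃ r : ℝ, 0 < r ∧ Cht {q | ‖q.1‖ < r ∧ a < q.2 ∧ q.2 < b} G ∧ ∀ q : E, ‖q.1‖ < r → a ≤ q.2 → q.2 ≤ b → G q ∈ O := by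
  obtain ⟨K, hKd⟩ : ∃ K : Set E, K = ({0} : Set ℂ) ×ˢ Icc a b := ⟨_, rfl⟩
  have hK : IsCompact K := by
    rw [hKd]
    exact isCompact_singleton.prod isCompact_Icc
  have hKm : ∀ q ∈ K, ∃ x ∈ Icc a b, q = (0, x) := by
    rintro ⟨w, x⟩ hq
    rw [hKd] at hq
    exact ⟨x, hq.2, Prod.ext hq.1 rfl⟩
  have hld : ∀ q ∈ K, IsLocalDiffeomorphAt 𝓘(ℝ, ℂ × ℝ) (𝓡 3) ∞ G q := by
    intro q hq
    obtain ⟨x, hx, rfl⟩ := hKm q hq
    obtain ⟨U, hU, h⟩ := hl x hx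
    exact h _ (mem_of_mem_nhds hU)
  have hinj : InjOn G K := by
    intro q hq q' hq' h
    obtain ⟨x, hx, rfl⟩ := hKm q hq
    obtain ⟨x', hx', rfl⟩ := hKm q' hq'
    rw [hi hx hx' h]
  obtain ⟨T, hTo, hKT, hTi⟩ := hinj.exists_isOpen_superset hK (fun q hq => tub_cont (hld q hq)) (fun q hq => tub_inj (hld q hq))
  obtain ⟨S, hS⟩ : ∃ S : Set E, S = {q | ∀ᶠ q' in 𝓝 q, IsLocalDiffeomorphAt 𝓘(ℝ, ℂ × ℝ) (𝓡 3) ∞ G q' ∧ G q' ∈ O} := ⟨_, rfl⟩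
  have hSo : IsOpen S := by
    rw [hS]
    exact isOpen_setOf_eventually_nhds
  have hKS : K ⊆ S := by
    intro q hq
    obtain ⟨x, hx, rfl⟩ := hKm q hq
    obtain ⟨U, hU, h⟩ := hl x hx
    rw [hS]
    have h1 : ∀ᶠ q' in 𝓝 ((0, x) : E), G q' ∈ O :=
      (tub_cont (hld _ hq)).eventually (hO.mem_nhds (hG x hx))
    filter_upwards [hU, h1] with q' h2 h3
    exact ⟨h q' h2, h3⟩
  obtain ⟨u, v, hu, -, h0u, hIv, huv⟩ := generalized_tube_lemma (isCompact_singleton (x := (0 : ℂ))) (isCompact_Icc (a := a) (b := b))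
    (hTo.inter hSo) (by
      rw [← hKd]
      exact subset_inter hKT hKS)
  obtain ⟨r, hr, hru⟩ := Metric.isOpen_iff.1 hu 0 (h0u rfl)
  have hmem : ∀ q : E, ‖q.1‖ < r → a ≤ q.2 → q.2 ≤ b → q ∈ T ∩ S := by
    intro q h1 h2 h3
    exact huv ⟨hru (by rwa [mem_ball_zero_iff]), hIv ⟨h2, h3⟩⟩
  have hST : ∀ q ∈ S, IsLocalDiffeomorphAt 𝓘(ℝ, ℂ × ℝ) (𝓡 3) ∞ G q ∧ G q ∈ O := by
    intro q hq
    rw [hS] at hq
    exact hq.self_of_nhds
  refine ⟨r, hr, ⟨?_, ?_, ?_⟩, ?_⟩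
  · exact (isOpen_lt (continuous_fst.norm) continuous_const).inter
      ((isOpen_lt continuous_const continuous_snd).inter (isOpen_lt continuous_snd continuous_const))
  · rintro q ⟨h1, h2, h3⟩
    exact (hST q (hmem q h1 h2.le h3.le).2).1
  · rintro q ⟨h1, h2, h3⟩ q' ⟨h1', h2', h3'⟩ h
    exact hTi (hmem q h1 h2.le h3.le).1 (hmem q' h1' h2'.le h3'.le).1 h
  · intro q h1 h2 h3
    exact (hST q (hmem q h1 h2 h3).2).2

end

end Pool.Agent.NHE
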