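import Pool.Agent.NHP.Tra
import Pool.Agent.NHP.Sma
import Pool.Agent.NHE.Defs
import Pool.Agent.CSG.FunBasic

/-!
# NHE/Aof: pushing a curve off a straight segment of a chart (difficulty 3)

Cylinder `C = {‖w‖ < ρ, x₀ < x < x₁}`.  Choose `x₀ < y₀ < x₀'`, `x₁' < y₁ < x₁`, `χ : E → ℝ` smooth with values in `[0, 1]`, `χ = 1` on a neighbourhood of `0 × [y₀, y₁]`, compact support in `C`.  `P u q = (w + stp 0 1 u χ q v, x)`: push of `C` for small `v ∈ ℂ` (`small_fam`), transported by `β` (`push_chart`).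
-/

open scoped Manifold ContDiff Topology
open Set Filter
open Pool.Agent.CSG (stp)
open Pool.Agent.RSG (E3 ex Thick)
open Pool.Agent.KNT (Dom Str Str2 BalC bmp)
open Pool.Agent.NHP

namespace Pool.Agent.NHE

/-- the translation push -/
theorem Aof_push {L C : Set E} (hL : IsCompact L) (hLC : L ⊆ C) {χ : E → ℝ} (hχ : ContDiff ℝ ∞ χ) (h0 : ∀ q ∉ L, χ q = 0) :
    ∃ δ : ℝ, 0 < δ ∧ ∀ v : ℂ, ‖v‖ < δ → ∃ F : ℝ → Equiv.Perm E, PushE C F ∧ ∀ q, F 1 q = (q.1 + χ q * v, q.2) := by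
  have hsup : HasCompactSupport χ := HasCompactSupport.intro hL h0
  obtain ⟨M, hM⟩ := (hχ.continuous_fderiv (by simp)).bounded_above_of_compact_support (hsup.fderiv ℝ)
  have hM0 : 0 ≤ M := (norm_nonneg _).trans (hM 0)
  refine ⟨1 / (2 * (M + 1)), by positivity, fun v hv => ?_⟩
  have hMv : M * ‖v‖ ≤ 1 / 2 := by
    rw [lt_div_iff₀ (by positivity)] at hv
    nlinarith [norm_nonneg v]
  have hG : ContDiff ℝ ∞ fun q : ℝ × E => χ q.2 • ((((stp 0 1 q.1 : ℝ) : ℂ) * v, (0 : ℝ)) : E) := by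
    refine (hχ.comp contDiff_snd).smul ?_
    refine ContDiff.prodMk ?_ contDiff_const
    exact (Complex.ofRealCLM.contDiff.comp ((CSG.stp_smooth 0 1).comp contDiff_fst)).mul contDiff_const
  obtain ⟨F, hF1, hF2, hF⟩ := small_fam (P := ℝ) hG (by
    intro q
    have e1 : (fderiv ℝ (fun q : ℝ × E => χ q.2 • ((((stp 0 1 q.1 : ℝ) : ℂ) * v, (0 : ℝ)) : E)) q).comp
        (ContinuousLinearMap.inr ℝ ℝ E) =
        fderiv ℝ (fun x : E => χ x • ((((stp 0 1 q.1 : ℝ) : ℂ) * v, (0 : ℝ)) : E)) q.2 := by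
      have h1 := (hG.differentiable (by simp) q).hasFDerivAt
      have h2 := HasFDerivAt.comp q.2 (f := fun x : E => (q.1, x)) h1 (hasFDerivAt_prodMk_right q.1 q.2)
      exact h2.fderiv.symm
    have e2 : HasFDerivAt (fun x : E => χ x • ((((stp 0 1 q.1 : ℝ) : ℂ) * v, (0 : ℝ)) : E))
        ((fderiv ℝ χ q.2).smulRight ((((stp 0 1 q.1 : ℝ) : ℂ) * v, (0 : ℝ)) : E)) q.2 :=
      (hχ.differentiable (by simp) q.2).hasFDerivAt.smul_const _
    rw [e1, e2.fderiv, ContinuousLinearMap.norm_smulRight_apply]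
    have e3 : ‖((((stp 0 1 q.1 : ℝ) : ℂ) * v, (0 : ℝ)) : E)‖ ≤ ‖v‖ := by
      rw [Prod.norm_def]
      simp only [norm_mul, Complex.norm_real, Real.norm_eq_abs, norm_zero]
      rw [abs_of_nonneg (CSG.stp_nonneg _ _ _)]
      apply max_le _ (norm_nonneg _)
      nlinarith [CSG.stp_le_one 0 1 q.1, norm_nonneg v]
    calc ‖fderiv ℝ χ q.2‖ * ‖((((stp 0 1 q.1 : ℝ) : ℂ) * v, (0 : ℝ)) : E)‖ ≤ M * ‖v‖ :=
          mul_le_mul (hM _) e3 (norm_nonneg _) hM0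
      _ ≤ 1 / 2 := hMv)
  refine ⟨F, ⟨hF1, hF2, ?_, ⟨L, hL, hLC, ?_⟩⟩, ?_⟩
  · ext1 q
    rw [hF]
    simp [CSG.stp_zero (a := 0) (b := 1) one_pos le_rfl]
  · intro s x hx
    rw [hF]
    simp [h0 x hx]
  · intro q
    rw [hF]
    simp only [CSG.stp_one (a := 0) (b := 1) one_pos le_rfl, Complex.ofReal_one, one_mul]
    refine Prod.ext ?_ ?_
    · simp
    · simp

section
variable {N : Type*} [TopologicalSpace N] [ChartedSpace E3 N] [IsManifold (𝓡 3) ∞ N] [T2Space N]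

theorem arc_off {ρ x₀ x₁ a b : ℝ} (hρ : 0 < ρ) {β : E → N} (hβ : Cht {q | ‖q.1‖ < ρ ∧ x₀ < q.2 ∧ q.2 < x₁} β) {g : ℝ → N}
    {U : Set ℝ} (hU : IsOpen U) (hab : Icc a b ⊆ U) (hg : ∀ t ∈ U, ContMDiffAt 𝓘(ℝ, ℝ) (𝓡 3) ∞ g t) {x₀' x₁' : ℝ}
    (h0 : x₀ < x₀') (h01 : x₀' ≤ x₁') (h1 : x₁' < x₁) (h : ∀ t ∈ Icc a b, ∀ x ∈ Ioo x₀ x₁, g t = β (0, x) → x ∈ Icc x₀' x₁') :
    ∃ P : ℝ → Equiv.Perm N, Push (β '' {q | ‖q.1‖ < ρ ∧ x₀ < q.2 ∧ q.2 < x₁}) P ∧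
      ∀ t ∈ Icc a b, ∀ x ∈ Ioo x₀ x₁, P 1 (g t) ≠ β (0, x) := by
  have hCo : IsOpen {q : E | ‖q.1‖ < ρ ∧ x₀ < q.2 ∧ q.2 < x₁} := hβ.opn
  have hCm : ∀ q : E, q ∈ {q : E | ‖q.1‖ < ρ ∧ x₀ < q.2 ∧ q.2 < x₁} ↔ ‖q.1‖ < ρ ∧ x₀ < q.2 ∧ q.2 < x₁ := fun q => Iff.rfl
  generalize hC : {q : E | ‖q.1‖ < ρ ∧ x₀ < q.2 ∧ q.2 < x₁} = C at hβ hCo hCm ⊢
  clear hC
  -- the cut-off function
  have hKc : IsCompact (({0} : Set ℂ) ×ˢ Icc x₀' x₁') := isCompact_singleton.prod isCompact_Icc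
  have hKC : ({0} : Set ℂ) ×ˢ Icc x₀' x₁' ⊆ C := by
    rintro ⟨w, x⟩ ⟨hw, hx⟩
    simp only [mem_singleton_iff] at hw
    subst hw
    rw [hCm]
    simp only [norm_zero]
    exact ⟨hρ, lt_of_lt_of_le h0 hx.1, lt_of_le_of_lt hx.2 h1⟩
  obtain ⟨L, hL, hKL, hLC⟩ := exists_compact_between hKc hCo hKC
  obtain ⟨χ, hχ1, hχ0, hχI⟩ := exists_contMDiffMap_one_nhds_of_subset_interior (n := ⊤) 𝓘(ℝ, E) hKc.isClosed hKL
  have hχs : ContDiff ℝ ∞ (χ : E → ℝ) := χ.contMDiff.contDiff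
  obtain ⟨δ, hδ, hF⟩ := Aof_push hL hLC hχs hχ0
  -- the open set where `χ = 1`
  let Ω : Set E := interior {q | χ q = 1}
  have hΩo : IsOpen Ω := isOpen_interior
  have hΩs : Ω ⊆ {q | χ q = 1} := interior_subset
  have hΩ1 : ∀ q ∈ Ω, χ q = 1 := fun q hq => hΩs hq
  have hKΩ : ({0} : Set ℂ) ×ˢ Icc x₀' x₁' ⊆ Ω := by
    intro q hq
    rw [mem_interior_iff_mem_nhds]
    exact (eventually_nhdsSet_iff_forall.1 hχ1) q hq
  -- the inverse of the chart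
  obtain ⟨σ, hσ, hσs⟩ := hβ.inv
  have hsm : ∀ t ∈ U, g t ∈ β '' C → ContDiffAt ℝ ∞ (fun t => σ (g t)) t := by
    intro t ht hm
    exact ((hσs _ hm).comp t (hg t ht)).contDiffAt
  -- the image of the curve in `ℂ`
  let T : Set ℝ := {t | t ∈ U ∧ g t ∈ β '' C}
  let f : ℝ → ℂ := fun t => -(σ (g t)).1
  have hf : ∀ t ∈ T, ContDiffAt ℝ 1 f t := fun t ht =>
    ((contDiff_fst.contDiffAt.comp t (hsm t ht.1 ht.2)).neg).of_le (by norm_num)
  have hdim : dimH (f '' T) < Module.finrank ℝ ℂ := by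
    calc dimH (f '' T) ≤ dimH T := dimH_image_le_of_locally_lipschitzOn fun t ht => by
          obtain ⟨K, s, hs, hK⟩ := (hf t ht).exists_lipschitzOnWith
          exact ⟨K, s, mem_nhdsWithin_of_mem_nhds hs, hK⟩
      _ ≤ dimH (univ : Set ℝ) := dimH_mono (subset_univ _)
      _ = 1 := Real.dimH_univ
      _ < Module.finrank ℝ ℂ := by
          rw [Complex.finrank_real_complex]
          norm_num
  have hdense := dense_compl_of_dimH_lt_finrank hdim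
  -- the parameters outside `Ω`
  have hgc : ContinuousOn g (Icc a b) := fun t ht => (hg t (hab ht)).continuousAt.continuousWithinAt
  have hLΩ : IsCompact (L \ Ω) := hL.diff hΩo
  have hβL : IsCompact (β '' (L \ Ω)) := hLΩ.image_of_continuousOn (hβ.contOn.mono (sdiff_subset.trans hLC))
  have hS : IsCompact (Icc a b ∩ g ⁻¹' (β '' (L \ Ω))) :=
    isCompact_Icc.of_isClosed_subset (hgc.preimage_isClosed_of_isClosed isClosed_Icc hβL.isClosed) inter_subset_left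
  have hSpos : ∀ t ∈ Icc a b ∩ g ⁻¹' (β '' (L \ Ω)), 0 < ‖(σ (g t)).1‖ := by
    rintro t ⟨ht, q, ⟨hqL, hqΩ⟩, hq⟩
    rw [norm_pos_iff]
    intro hw
    have hqC := hLC hqL
    have e1 : σ (g t) = q := by rw [← hq, hσ q hqC]
    rw [e1] at hw
    apply hqΩ
    apply hKΩ
    have e2 : q = (0, q.2) := Prod.ext hw rfl
    have hqC' := (hCm q).1 hqC
    refine ⟨hw, h t ht q.2 ⟨hqC'.2.1, hqC'.2.2⟩ ?_⟩
    rw [← e2]; exact hq.symm
  obtain ⟨m, hm, hSm⟩ : ∃ m : ℝ, 0 < m ∧ ∀ t ∈ Icc a b ∩ g ⁻¹' (β '' (L \ Ω)), m ≤ ‖(σ (g t)).1‖ := by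
    rcases (Icc a b ∩ g ⁻¹' (β '' (L \ Ω))).eq_empty_or_nonempty with hE | hE
    · exact ⟨1, one_pos, fun t ht => by rw [hE] at ht; exact absurd ht (notMem_empty t)⟩
    · obtain ⟨t₀, ht₀, hmin⟩ := hS.exists_isMinOn hE (f := fun t => ‖(σ (g t)).1‖) (by
        intro t ht
        have hm : g t ∈ β '' C := image_mono (sdiff_subset.trans hLC) ht.2
        exact (contDiff_fst.contDiffAt.comp t (hsm t (hab ht.1) hm)).continuousAt.norm.continuousWithinAt)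
      exact ⟨_, hSpos t₀ ht₀, fun t ht => hmin ht⟩
  -- the choice of `v`
  obtain ⟨v, hvT, hv⟩ := hdense.exists_mem_open Metric.isOpen_ball ⟨(0 : ℂ), Metric.mem_ball_self (lt_min hδ hm)⟩
  rw [Metric.mem_ball, dist_zero_right] at hv
  obtain ⟨F, hFC, hFq⟩ := hF v (hv.trans_le (min_le_left _ _))
  obtain ⟨P, hP, hPβ, hPout⟩ := push_chart hβ hFC
  refine ⟨P, hP, ?_⟩
  intro t ht x hx he
  have hxC : ((0 : ℂ), x) ∈ C := by
    rw [hCm]
    simp only [norm_zero]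
    exact ⟨hρ, hx.1, hx.2⟩
  have hgt : g t ∈ β '' C := by
    by_contra hn
    rw [hPout 1 _ hn] at he
    exact hn ⟨_, hxC, he.symm⟩
  obtain ⟨q, hqC, hq⟩ := hgt
  rw [← hq, hPβ 1 q hqC] at he
  have h2 := hβ.inj (hFC.mem 1 hqC) hxC he
  rw [hFq] at h2
  have h3 : q.1 + χ q * v = 0 := congrArg Prod.fst h2
  have h4 : q.2 = x := congrArg Prod.snd h2
  have hσq : σ (g t) = q := by rw [← hq, hσ q hqC]
  by_cases hqΩ : q ∈ Ω
  · apply hvT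
    refine ⟨t, ⟨hab ht, ⟨q, hqC, hq⟩⟩, ?_⟩
    show -(σ (g t)).1 = v
    rw [hσq]
    rw [hΩ1 q hqΩ] at h3
    simp only [Complex.ofReal_one, one_mul] at h3
    exact (eq_neg_of_add_eq_zero_right h3).symm
  · by_cases hqL : q ∈ L
    · have h5 := hSm t ⟨ht, q, ⟨hqL, hqΩ⟩, hq⟩
      rw [hσq] at h5
      have h6 : ‖q.1‖ ≤ ‖v‖ := by
        rw [eq_neg_of_add_eq_zero_left h3, norm_neg, norm_mul, Complex.norm_real, Real.norm_eq_abs,
          abs_of_nonneg (hχI q).1]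
        nlinarith [(hχI q).2, norm_nonneg v]
      have h7 := hv.trans_le (min_le_right _ _)
      linarith
    · rw [hχ0 q hqL] at h3
      simp only [Complex.ofReal_zero, zero_mul, add_zero] at h3
      apply hqΩ
      apply hKΩ
      refine ⟨h3, ?_⟩
      rw [h4]
      apply h t ht x hx
      rw [← hq]
      congr 1
      exact Prod.ext h3 h4

end

end Pool.Agent.NHE
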