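import Pool.Agent.NHE.Tny
import Pool.Agent.NHE.Cnn
import Pool.Agent.NHE.Aof
import Pool.Agent.NHE.Tub
import Pool.Agent.NHE.Mvc
import Pool.Agent.CSG.LDa

/-!
# NHE/Tyc: a chord along a given path, with small ends (difficulty 4, assembly)

`Y' = Yt κ O p p' ε` (open).  `φ_t (w, x) = tipT κ p' ε 1 (w, 1/2 + x)`, `φ_f (w, x) = footT κ p ε (w, 1/2 + x)`: charts on a small ball, images in `Y'` (`tip_foot`, `foot_cht`; `κ (p', ε/2) ∉ Ap`), `φ_f 0 = κ (p, ε/2) = z`, `φ_t 0 = κ (p', ε/2) = z'`.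
(1) `connect` along `c₁.symm` (from `z'` to `z`): `V₁ 1 (φ_t q) = φ_f q` or `φ_f (refL q)`; with `σ = 1` resp. `-1`: `V₁ 1 (tipT κ p' ε σ (w, 1/2 + x)) = footT κ p ε (w, 1/2 + x)` near `0` (`tipT κ p' ε (-1) (w, x) = tipT κ p' ε 1 (conj w, x)`).
(2) `a x = V₁ 1 (tipT κ p' ε σ (0, x))`, `x ∈ [1/2, 5/4]`, `h x = footT κ p ε (0, x)`, `x ∈ [-1/4, 1/2]`.  `V₁` fixes the boxes and the core.  `a x = h x'` only for `1/4 < x' < 1/2` (for `x' ≤ 1/4` `h x' ∈ Ap κ p ε` is fixed and different from the tip points) and `x' ∈ [x₀', x₁'] ⊆ (1/4, 1/2)` (near `x' = 1/4`: `h (1/4)` is not in the compact `a '' [1/2, 5/4]`;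
near `1/2`: `a` is injective and equal to `h` extended near `x = 1/2`, `h` is injective on `[-1/4, 1/2 + small]`).  `arc_off` with the chart `footT κ p ε` on `{‖w‖ < 1/16.., 1/4 < x < 1/2}` (image in `Y'`): `P`.  `V s = (V₁ s).trans (P s)`: `V 1 = V₁ 1` near `z'` (the compact support of `P` does not contain `z`), on the boxes and on the core.
(3) `G (w, x) = footT κ p ε (w, x)` for `x ≤ 1/2`, `V 1 (tipT κ p' ε σ (w, x))` for `x > 1/2`: local diffeomorphism near `0 × [-1/4, 5/4]`, injective on it, values in `O`.  `exists_tube`: `r` (`≤ 1/8`).  `T (w, x) = G (r w, x)`.  `K ∩ T '' TD = T '' TS`: `V 1` preserves the core and its complement; `foot_core`.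
`StdR`: for `x > 3/4` the point `tipT κ p' ε σ (r w, x)` is in `Ap κ p' ε`, fixed by `V 1`.
(4) Class: `class_move` for `V` and the curve `tipT κ p' ε σ (0, ·)` from `1/2` to `7/8` in `Y = O ∩ (core κ)ᶜ`: trace of `z'` is `c₁.symm`, the point for `x = 7/8` is fixed.  So `a` from `1/2` to `7/8` has class `(c₁.symm).symm.trans (s₂.trans refl)`, `repI_trans` with `footT κ p ε (0, ·)` from `1/8` to `1/2`.
-/

open scoped Manifold ContDiff Topology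
open Set Filter
open Pool.Agent.CSG (stp)
open Pool.Agent.RSG (E3 ex Thick)
open Pool.Agent.KNT (Dom Str Str2 BalC bmp)
open Pool.Agent.NHP

namespace Pool.Agent.NHE

/-! ### the model maps -/

/-- the linear part of the tip chart -/
noncomputable def tycL (σ : ℝ) : E →L[ℝ] E :=
  ((((σ : ℝ) • Complex.ofRealCLM.comp Complex.imCLM + (Complex.I : ℂ) • Complex.ofRealCLM.comp Complex.reCLM).comp
    (ContinuousLinearMap.fst ℝ ℂ ℝ)).prod (-(ContinuousLinearMap.snd ℝ ℂ ℝ)))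

theorem tycL_apply (σ : ℝ) (q : E) : tycL σ q = ((⟨σ * q.1.im, q.1.re⟩ : ℂ), -q.2) := by
  refine Prod.ext ?_ ?_
  · refine Complex.ext ?_ ?_
    · simp [tycL]
    · simp [tycL]
  · simp [tycL]

/-- the tip chart in terms of the foot chart -/
noncomputable def tycF (σ : ℝ) (q : E) : E := ((⟨σ * q.1.im, q.1.re⟩ : ℂ), 1 - q.2)

theorem tycF_eq (σ : ℝ) : tycF σ = fun q => tycL σ q + ((0 : ℂ), (1 : ℝ)) := by
  funext q
  rw [tycL_apply]
  unfold tycF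
  refine Prod.ext ?_ ?_
  · simp
  · simp only [Prod.snd_add]
    ring

theorem tycF_smooth (σ : ℝ) : ContDiff ℝ ∞ (tycF σ) := by
  rw [tycF_eq]
  exact (tycL σ).contDiff.add contDiff_const

theorem tycF_fderiv (σ : ℝ) (q : E) : fderiv ℝ (tycF σ) q = tycL σ := by
  rw [tycF_eq]
  exact ((tycL σ).hasFDerivAt.add_const _).fderiv

theorem tycL_bij {σ : ℝ} (hσ : σ = 1 ∨ σ = -1) : Function.Bijective (tycL σ) := by
  have hσ2 : σ * σ = 1 := by
    rcases hσ with h | h <;> rw [h] <;> norm_num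
  constructor
  · intro q q' h
    rw [tycL_apply, tycL_apply] at h
    have h1 := congrArg (fun x : E => x.1.re) h
    have h2 := congrArg (fun x : E => x.1.im) h
    have h3 := congrArg (fun x : E => x.2) h
    simp only at h1 h2 h3
    refine Prod.ext (Complex.ext h2 ?_) (by linarith)
    have h4 : σ * (σ * q.1.im) = σ * (σ * q'.1.im) := by rw [h1]
    rw [← mul_assoc, ← mul_assoc, hσ2, one_mul, one_mul] at h4
    exact h4
  · intro q
    refine ⟨((⟨q.1.im, σ * q.1.re⟩ : ℂ), -q.2), ?_⟩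
    rw [tycL_apply]
    refine Prod.ext (Complex.ext ?_ ?_) ?_
    · show σ * (σ * q.1.re) = q.1.re
      rw [← mul_assoc, hσ2, one_mul]
    · rfl
    · show - -q.2 = q.2
      ring

theorem tycF_inj {σ : ℝ} (hσ : σ = 1 ∨ σ = -1) : Function.Injective (tycF σ) := by
  intro q q' h
  rw [tycF_eq] at h
  exact (tycL_bij hσ).1 (add_right_cancel h)

theorem tyc_nrF {σ : ℝ} (hσ : σ = 1 ∨ σ = -1) (q : E) : nr (tycF σ q) = ‖q.1‖ ^ 2 + (1 - q.2) ^ 2 := by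
  have hσ2 : σ * σ = 1 := by
    rcases hσ with h | h <;> rw [h] <;> norm_num
  unfold nr tycF
  rw [← Complex.normSq_eq_norm_sq, ← Complex.normSq_eq_norm_sq, Complex.normSq_mk, Complex.normSq_apply]
  linear_combination (q.1.im * q.1.im) * hσ2

section
variable {N : Type*}

theorem tyc_tipF (κ : ℝ × ℂ → N) (p ε σ : ℝ) (q : E) : tipT κ p ε σ q = footT κ p ε (tycF σ q) := by
  unfold tipT footT tycF
  congr 1
  refine Prod.ext ?_ rfl
  show p + σ * ε * q.1.im = p + ε * (σ * q.1.im)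
  ring

theorem tyc_foot0 (κ : ℝ × ℂ → N) (p ε x : ℝ) : footT κ p ε (0, x) = κ (p, ((ε * x : ℝ) : ℂ)) := by
  unfold footT
  congr 1
  refine Prod.ext ?_ ?_
  · simp
  · refine Complex.ext ?_ ?_
    · simp
    · simp

theorem tyc_tip0 (κ : ℝ × ℂ → N) (p ε σ x : ℝ) : tipT κ p ε σ (0, x) = κ (p, ((ε * (1 - x) : ℝ) : ℂ)) := by
  rw [tyc_tipF, ← tyc_foot0 κ p ε (1 - x)]
  congr 1
  unfold tycF
  refine Prod.ext (Complex.ext ?_ ?_) rfl
  · simp
  · simp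

end

section
variable {N : Type*} [TopologicalSpace N] [ChartedSpace E3 N]

/-- the foot chart on a large ball -/
theorem tyc_footCht {κ : ℝ × ℂ → N} (hκ : Thick κ) (p : ℝ) {ε : ℝ} (h0 : 0 < ε) (h1 : ε < 1 / 4) :
    Cht (Bl 2) (footT κ p ε) := by
  have h2 : footT κ p ε = fun q => footT κ p 1 (ε • q) := funext fun q => foot_smul κ p ε q
  rw [h2]
  refine (foot_cht hκ p).comp (isOpen_Bl 2) (fun q _ => (contDiff_id.const_smul ε).contDiffAt) ?_ ?_ ?_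
  · intro q _
    have h3 : fderiv ℝ (fun x : E => ε • x) q = ε • ContinuousLinearMap.id ℝ E :=
      ((hasFDerivAt_id q).const_smul ε).fderiv
    rw [h3]
    constructor
    · intro a b hab
      have h4 : ε • a = ε • b := hab
      exact smul_right_injective _ h0.ne' h4
    · intro a
      refine ⟨ε⁻¹ • a, ?_⟩
      show ε • (ε⁻¹ • a) = a
      rw [smul_smul, mul_inv_cancel₀ h0.ne', one_smul]
  · intro a _ b _ hab
    exact smul_right_injective _ h0.ne' hab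
  · intro q hq
    have h3 : nr (ε • q) < (1 / 2) ^ 2 := by
      rw [nr_smul]
      have h4 : nr q < 2 ^ 2 := hq
      have h5 := nr_nonneg q
      have h6 : ε ^ 2 < (1 / 4) ^ 2 := by nlinarith
      nlinarith
    exact Bl_sub (ε := 1 / 2) (by norm_num) (le_refl _) h3

theorem tyc_tipCht {κ : ℝ × ℂ → N} (hκ : Thick κ) (p : ℝ) {ε σ : ℝ} (h0 : 0 < ε) (h1 : ε < 1 / 4)
    (hσ : σ = 1 ∨ σ = -1) : Cht {q : E | nr (tycF σ q) < 2 ^ 2} (tipT κ p ε σ) := by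
  have h2 : tipT κ p ε σ = fun q => footT κ p ε (tycF σ q) := funext fun q => tyc_tipF κ p ε σ q
  rw [h2]
  refine (tyc_footCht hκ p h0 h1).comp ?_ (fun q _ => (tycF_smooth σ).contDiffAt) ?_
    ((tycF_inj hσ).injOn) (fun q hq => hq)
  · exact isOpen_lt (nr_smooth.continuous.comp (tycF_smooth σ).continuous) continuous_const
  · intro q _
    rw [tycF_fderiv]
    exact tycL_bij hσ

theorem tyc_mem_eb (κ : ℝ × ℂ → N) (p : ℝ) {ε : ℝ} (h0 : 0 < ε) {q : E} (hq : nr q < 1) : footT κ p ε q ∈ eb κ p ε := by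
  rw [foot_smul, eb_eq]
  refine ⟨ε • q, ?_, rfl⟩
  show nr (ε • q) < ε ^ 2
  rw [nr_smul]
  have : 0 < ε ^ 2 := by positivity
  nlinarith

theorem tyc_Ap_eb (κ : ℝ × ℂ → N) (p : ℝ) {ε : ℝ} (h0 : 0 < ε) : Ap κ p ε ⊆ eb κ p ε := by
  rintro x ⟨q, ⟨h1, h2⟩, rfl⟩
  refine tyc_mem_eb κ p h0 ?_
  unfold nr
  have h3 : ‖q.1‖ ^ 2 ≤ (1 / 8) ^ 2 := pow_le_pow_left₀ (norm_nonneg _) h1 2
  have h4 : q.2 ^ 2 ≤ (1 / 4) ^ 2 := by
    rw [← sq_abs]
    exact pow_le_pow_left₀ (abs_nonneg _) h2 2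
  nlinarith

theorem tyc_foot_core {κ : ℝ × ℂ → N} (hκ : Thick κ) (p : ℝ) {ε : ℝ} (h0 : 0 < ε) (h1 : ε < 1 / 4) {q : E}
    (hq : nr q < 2 ^ 2) : footT κ p ε q ∈ core κ ↔ q.2 = 0 ∧ q.1.im = 0 := by
  have h2 : nr (ε • q) < (1 / 2) ^ 2 := by
    rw [nr_smul]
    have h5 := nr_nonneg q
    have h6 : ε ^ 2 < (1 / 4) ^ 2 := by nlinarith
    nlinarith
  have h3 := (Bl_sub (ε := 1 / 2) (by norm_num) (le_refl _) h2).2
  rw [foot_smul, foot_core hκ p h3]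
  have e1 : (ε • q).2 = ε * q.2 := rfl
  have e2 : (ε • q).1.im = ε * q.1.im := by
    simp
  rw [e1, e2]
  constructor
  · rintro ⟨a, b⟩
    exact ⟨(mul_eq_zero.1 a).resolve_left h0.ne', (mul_eq_zero.1 b).resolve_left h0.ne'⟩
  · rintro ⟨a, b⟩
    rw [a, b, mul_zero]
    exact ⟨rfl, rfl⟩

/-- the foot points beyond the thin box are admissible -/
theorem tyc_foot_Yt {κ : ℝ × ℂ → N} (hκ : Thick κ) {p p' ε : ℝ} (A : Adm p p' ε) {O : Set N}
    (hOp : eb κ p ε ⊆ O) {q : E} (hq : nr q < 1) (hq2 : 1 / 4 < q.2) : footT κ p ε q ∈ Yt κ O p p' ε := by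
  have hm := tyc_mem_eb κ p A.pos hq
  refine ⟨⟨hOp hm, ?_⟩, ?_, ?_⟩
  · rw [mem_compl_iff, tyc_foot_core hκ p A.pos A.lt (by linarith)]
    rintro ⟨h, _⟩
    linarith
  · rintro ⟨q', ⟨h1, h2⟩, h3⟩
    have hq' : q' ∈ Bl 2 := by
      show nr q' < 2 ^ 2
      unfold nr
      have h5 : ‖q'.1‖ ^ 2 ≤ (1 / 8) ^ 2 := pow_le_pow_left₀ (norm_nonneg _) h1 2
      have h6 : q'.2 ^ 2 ≤ (1 / 4) ^ 2 := by
        rw [← sq_abs]
        exact pow_le_pow_left₀ (abs_nonneg _) h2 2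
      nlinarith
    have h4 : q' = q := (tyc_footCht hκ p A.pos A.lt).inj hq' (show nr q < 2 ^ 2 by linarith) h3
    rw [h4, abs_le] at h2
    linarith [h2.2]
  · intro h
    exact Set.disjoint_left.1 (eb_disj hκ A) hm (tyc_Ap_eb κ p' A.pos h)

end

section
variable {N : Type*} [TopologicalSpace N] [ChartedSpace E3 N] [IsManifold (𝓡 3) ∞ N] [T2Space N]

/-- a translated chart -/
theorem tyc_transl {O : Set E} {β : E → N} (hβ : Cht O β) {O' : Set E} (hO' : IsOpen O') (v : E)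
    (hm : ∀ q ∈ O', v + q ∈ O) : Cht O' fun q => β (v + q) := by
  refine hβ.comp hO' (fun q _ => (contDiff_const.add contDiff_id).contDiffAt) ?_ ?_ hm
  · intro q _
    have h3 : fderiv ℝ (fun x : E => v + x) q = ContinuousLinearMap.id ℝ E :=
      ((hasFDerivAt_id q).const_add v).fderiv
    rw [h3]
    exact Function.bijective_id
  · intro a _ b _ hab
    exact add_left_cancel hab

theorem tyc_half (q : E) : ((0, 1 / 2) : E) + q = (q.1, 1 / 2 + q.2) := by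
  refine Prod.ext ?_ rfl
  simp

theorem tyc_ball {q : E} (hq : q ∈ Bl (1 / 8)) : ‖q.1‖ < 1 / 8 ∧ |q.2| < 1 / 8 := by
  have h1 : nr q < (1 / 8) ^ 2 := hq
  unfold nr at h1
  have h2 := norm_nonneg q.1
  have h3 := sq_nonneg q.2
  have h4 := sq_nonneg ‖q.1‖
  constructor
  · exact lt_of_pow_lt_pow_left₀ 2 (by norm_num) (by linarith)
  · refine lt_of_pow_lt_pow_left₀ 2 (by norm_num) ?_
    rw [sq_abs]
    linarith

theorem tyc_first {κ : ℝ × ℂ → N} (hκ : Thick κ) {p p' ε : ℝ} (A : Adm p p' ε) {O : Set N} (hO : IsOpen O)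
    (hOp : eb κ p ε ⊆ O) {z z' : (Yt κ O p p' ε : Set N)} (c₁ : Path z z')
    (hz : (z : N) = κ (p, ((ε / 2 : ℝ) : ℂ))) (hz' : (z' : N) = κ (p', ((ε / 2 : ℝ) : ℂ))) :
    ∃ (σ : ℝ) (V : ℝ → Equiv.Perm N), (σ = 1 ∨ σ = -1) ∧ Push (Yt κ O p p' ε) V ∧ Follows V c₁.symm ∧
      ∃ ρ : ℝ, 0 < ρ ∧ ρ ≤ 1 / 8 ∧ ∀ q ∈ Bl ρ, V 1 (tipT κ p' ε σ (q.1, 1 / 2 + q.2)) = footT κ p ε (q.1, 1 / 2 + q.2) := by
  have hYo : IsOpen (Yt κ O p p' ε) := Yt_open hκ hO A.pos A.lt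
  have hφ : Cht (Bl (1 / 8)) fun q => tipT κ p' ε 1 (((0, 1 / 2) : E) + q) := by
    refine tyc_transl (tyc_tipCht hκ p' A.pos A.lt (Or.inl rfl)) (isOpen_Bl _) _ fun q hq => ?_
    obtain ⟨h1, h2⟩ := tyc_ball hq
    show nr (tycF 1 _) < 2 ^ 2
    rw [tyc_nrF (Or.inl rfl), tyc_half]
    show ‖q.1‖ ^ 2 + (1 - (1 / 2 + q.2)) ^ 2 < 2 ^ 2
    rw [abs_lt] at h2
    have := norm_nonneg q.1
    nlinarith
  have hφ' : Cht (Bl (1 / 8)) fun q => footT κ p ε (((0, 1 / 2) : E) + q) := by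
    refine tyc_transl (tyc_footCht hκ p A.pos A.lt) (isOpen_Bl _) _ fun q hq => ?_
    obtain ⟨h1, h2⟩ := tyc_ball hq
    rw [tyc_half]
    show ‖q.1‖ ^ 2 + (1 / 2 + q.2) ^ 2 < 2 ^ 2
    rw [abs_lt] at h2
    have := norm_nonneg q.1
    nlinarith
  have hY' : (fun q => footT κ p ε (((0, 1 / 2) : E) + q)) '' Bl (1 / 8) ⊆ Yt κ O p p' ε := by
    rintro x ⟨q, hq, rfl⟩
    obtain ⟨h1, h2⟩ := tyc_ball hq
    rw [abs_lt] at h2
    show footT κ p ε (((0, 1 / 2) : E) + q) ∈ _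
    rw [tyc_half]
    refine tyc_foot_Yt hκ A hOp ?_ (by show 1 / 4 < 1 / 2 + q.2; linarith)
    show ‖q.1‖ ^ 2 + (1 / 2 + q.2) ^ 2 < 1
    have := norm_nonneg q.1
    nlinarith
  have e0 : tipT κ p' ε 1 (((0, 1 / 2) : E) + 0) = z' := by
    rw [add_zero, tyc_tip0, hz']
    congr 3
    ring
  have e1 : footT κ p ε (((0, 1 / 2) : E) + 0) = z := by
    rw [add_zero, tyc_foot0, hz]
    congr 3
    ring
  obtain ⟨V, hV1, hV2, ρ, hρ, hcase⟩ := connect hYo c₁.symm (by norm_num : (0 : ℝ) < 1 / 8) hφ hφ' hY' e0 e1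
  have hmono : ∀ q ∈ Bl (min ρ (1 / 8)), q ∈ Bl ρ := fun q hq =>
    Bl_mono (lt_min hρ (by norm_num)) (min_le_left _ _) hq
  rcases hcase with hcase | hcase
  · refine ⟨1, V, Or.inl rfl, hV1, hV2, min ρ (1 / 8), lt_min hρ (by norm_num), min_le_right _ _, fun q hq => ?_⟩
    have := hcase q (hmono q hq)
    rw [tyc_half] at this
    exact this
  · refine ⟨-1, V, Or.inr rfl, hV1, hV2, min ρ (1 / 8), lt_min hρ (by norm_num), min_le_right _ _, fun q hq => ?_⟩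
    have hrq : ((starRingEnd ℂ q.1, q.2) : E) ∈ Bl ρ := by
      have h1 : nr q < ρ ^ 2 := hmono q hq
      show nr _ < ρ ^ 2
      unfold nr at h1 ⊢
      show ‖starRingEnd ℂ q.1‖ ^ 2 + q.2 ^ 2 < ρ ^ 2
      rw [RCLike.norm_conj]
      exact h1
    have h2 := hcase _ hrq
    rw [refL_apply, tyc_half, tyc_half] at h2
    have h3 : tipT κ p' ε (-1) (q.1, 1 / 2 + q.2) = tipT κ p' ε 1 (starRingEnd ℂ q.1, 1 / 2 + q.2) := by
      rw [tyc_tipF, tyc_tipF]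
      congr 1
      unfold tycF
      refine Prod.ext (Complex.ext ?_ ?_) rfl
      · simp
      · simp
    rw [h3]
    simp only [Complex.conj_conj] at h2
    exact h2

/-- a compact subset of an open interval -/
theorem tyc_interval {K : Set ℝ} (hK : IsCompact K) {a b : ℝ} (hab : a < b) (h : K ⊆ Ioo a b) :
    ∃ x₀ x₁ : ℝ, a < x₀ ∧ x₀ ≤ x₁ ∧ x₁ < b ∧ K ⊆ Icc x₀ x₁ := by
  rcases K.eq_empty_or_nonempty with he | hne
  · exact ⟨(a + b) / 2, (a + b) / 2, by linarith, le_refl _, by linarith, by rw [he]; exact empty_subset _⟩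
  · refine ⟨sInf K, sSup K, (h (hK.sInf_mem hne)).1, ?_, (h (hK.sSup_mem hne)).2, fun x hx => ?_⟩
    · exact (csInf_le hK.bddBelow hne.some_mem).trans (le_csSup hK.bddAbove hne.some_mem)
    · exact ⟨csInf_le hK.bddBelow hx, le_csSup hK.bddAbove hx⟩


theorem tyc_nr0 (x : ℝ) : nr ((0 : ℂ), x) = x ^ 2 := by
  unfold nr
  simp

theorem tyc_nr0' (x : ℝ) {σ : ℝ} (hσ : σ = 1 ∨ σ = -1) : nr (tycF σ ((0 : ℂ), x)) = (1 - x) ^ 2 := by
  rw [tyc_nrF hσ]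
  simp

/-- the tip points are different from the foot points -/
theorem tyc_tip_ne_foot {κ : ℝ × ℂ → N} (hκ : Thick κ) {p p' ε σ : ℝ} (A : Adm p p' ε) {q q' : E}
    (hq : nr (tycF σ q) < 1) (hq' : nr q' < 1) : tipT κ p' ε σ q ≠ footT κ p ε q' := by
  intro h
  have h1 : tipT κ p' ε σ q ∈ eb κ p' ε := by
    rw [tyc_tipF]
    exact tyc_mem_eb κ p' A.pos hq
  rw [h] at h1
  exact Set.disjoint_left.1 (eb_disj hκ A) (tyc_mem_eb κ p A.pos hq') h1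

theorem tyc_fix {O : Set N} {V : ℝ → Equiv.Perm N} (hV : Push O V) {s : ℝ} {x y : N} (h : V s x = y) (hy : y ∉ O) : x = y := by
  have h1 := hV.out s hy
  exact (V s).injective (h.trans h1.symm)

theorem tyc_tip_curve_smooth {κ : ℝ × ℂ → N} (hκ : Thick κ) {p' ε σ : ℝ} (h0 : 0 < ε) (h1 : ε < 1 / 4)
    (hσ : σ = 1 ∨ σ = -1) {Y : Set N} {V : ℝ → Equiv.Perm N} (hV : Push Y V) {t : ℝ} (ht : t ∈ Ioo (0 : ℝ) 2) :
    ContMDiffAt 𝓘(ℝ, ℝ) (𝓡 3) ∞ (fun t : ℝ => V 1 (tipT κ p' ε σ ((0 : ℂ), t))) t := by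
  have hq : ((0 : ℂ), t) ∈ {q : E | nr (tycF σ q) < 2 ^ 2} := by
    show nr (tycF σ ((0 : ℂ), t)) < 2 ^ 2
    rw [tyc_nr0' t hσ]
    nlinarith [ht.1, ht.2]
  have g1 := ((tyc_tipCht hκ p' h0 h1 hσ).loc _ hq).contMDiffAt
  have g2 : ContMDiffAt 𝓘(ℝ, ℝ) 𝓘(ℝ, ℂ × ℝ) ∞ (fun t : ℝ => (((0 : ℂ), t) : E)) t :=
    (contDiff_const.prodMk contDiff_id).contDiffAt.contMDiffAt
  have g3 := (hV.loc 1 (tipT κ p' ε σ ((0 : ℂ), t))).contMDiffAt
  have g4 : ContMDiffAt 𝓘(ℝ, ℝ) (𝓡 3) ∞ (tipT κ p' ε σ ∘ fun t : ℝ => (((0 : ℂ), t) : E)) t :=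
    ContMDiffAt.comp (g := tipT κ p' ε σ) (f := fun t : ℝ => (((0 : ℂ), t) : E)) t g1 g2
  exact ContMDiffAt.comp (g := V 1) (f := tipT κ p' ε σ ∘ fun t : ℝ => (((0 : ℂ), t) : E)) t g3 g4

theorem tyc_foot_curve_cont {κ : ℝ × ℂ → N} (hκ : Thick κ) {p ε : ℝ} (h0 : 0 < ε) (h1 : ε < 1 / 4) :
    ContinuousOn (fun x : ℝ => footT κ p ε ((0 : ℂ), x)) (Ioo (-2) 2) := by
  intro x hx
  have hq : ((0 : ℂ), x) ∈ Bl 2 := by
    show nr ((0 : ℂ), x) < 2 ^ 2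
    rw [tyc_nr0]
    nlinarith [hx.1, hx.2]
  have g1 := ((tyc_footCht hκ p h0 h1).loc _ hq).contMDiffAt.continuousAt
  exact (ContinuousAt.comp (f := fun x : ℝ => (((0 : ℂ), x) : E)) g1 (by fun_prop)).continuousWithinAt

theorem tyc_foot_inj {κ : ℝ × ℂ → N} (hκ : Thick κ) {p ε : ℝ} (h0 : 0 < ε) (h1 : ε < 1 / 4) {x x' : ℝ}
    (hx : x ∈ Ioo (-2 : ℝ) 2) (hx' : x' ∈ Ioo (-2 : ℝ) 2) (h : footT κ p ε ((0 : ℂ), x) = footT κ p ε ((0 : ℂ), x')) :
    x = x' := by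
  have hq : ∀ y ∈ Ioo (-2 : ℝ) 2, ((0 : ℂ), y) ∈ Bl 2 := by
    intro y hy
    show nr ((0 : ℂ), y) < 2 ^ 2
    rw [tyc_nr0]
    nlinarith [hy.1, hy.2]
  exact congrArg Prod.snd ((tyc_footCht hκ p h0 h1).inj (hq x hx) (hq x' hx') h)

theorem tyc_tip_inj {κ : ℝ × ℂ → N} (hκ : Thick κ) {p ε σ : ℝ} (h0 : 0 < ε) (h1 : ε < 1 / 4) (hσ : σ = 1 ∨ σ = -1) {x x' : ℝ}
    (hx : x ∈ Ioo (0 : ℝ) 2) (hx' : x' ∈ Ioo (0 : ℝ) 2)
    (h : tipT κ p ε σ ((0 : ℂ), x) = tipT κ p ε σ ((0 : ℂ), x')) : x = x' := by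
  have hq : ∀ y ∈ Ioo (0 : ℝ) 2, ((0 : ℂ), y) ∈ {q : E | nr (tycF σ q) < 2 ^ 2} := by
    intro y hy
    show nr (tycF σ ((0 : ℂ), y)) < 2 ^ 2
    rw [tyc_nr0' y hσ]
    nlinarith [hy.1, hy.2]
  exact congrArg Prod.snd ((tyc_tipCht hκ p h0 h1 hσ).inj (hq x hx) (hq x' hx') h)

theorem tyc_second {κ : ℝ × ℂ → N} (hκ : Thick κ) {p p' ε : ℝ} (A : Adm p p' ε) {O : Set N} (hO : IsOpen O)
    (hOp : eb κ p ε ⊆ O) {z z' : (Yt κ O p p' ε : Set N)} (c₁ : Path z z')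
    (hz : (z : N) = κ (p, ((ε / 2 : ℝ) : ℂ))) (hz' : (z' : N) = κ (p', ((ε / 2 : ℝ) : ℂ))) :
    ∃ (σ : ℝ) (V : ℝ → Equiv.Perm N), (σ = 1 ∨ σ = -1) ∧ Push (Yt κ O p p' ε) V ∧ Follows V c₁.symm ∧
      (∃ ρ : ℝ, 0 < ρ ∧ ρ ≤ 1 / 8 ∧
        ∀ q ∈ Bl ρ, V 1 (tipT κ p' ε σ (q.1, 1 / 2 + q.2)) = footT κ p ε (q.1, 1 / 2 + q.2)) ∧
      ∀ t ∈ Icc (1 / 2 : ℝ) (5 / 4), ∀ x ∈ Ioo (1 / 4 : ℝ) (1 / 2),
        V 1 (tipT κ p' ε σ ((0 : ℂ), t)) ≠ footT κ p ε ((0 : ℂ), x) := by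
  obtain ⟨σ, V, hσ, hV, hF, ρ, hρ, hρ1, hg⟩ := tyc_first hκ A hO hOp c₁ hz hz'
  have h0 := A.pos
  have h1 := A.lt
  have hYo : IsOpen (Yt κ O p p' ε) := Yt_open hκ hO A.pos A.lt
  -- the chart of the segment
  have hsub : ∀ q : E, ‖q.1‖ < 1 / 2 ∧ 1 / 4 < q.2 ∧ q.2 < 1 / 2 → nr q < 1 := by
    rintro q ⟨a1, a2, a3⟩
    unfold nr
    nlinarith [norm_nonneg q.1]
  have hβo : IsOpen {q : E | ‖q.1‖ < 1 / 2 ∧ 1 / 4 < q.2 ∧ q.2 < 1 / 2} :=
    (isOpen_lt (continuous_norm.comp continuous_fst) continuous_const).inter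
      ((isOpen_lt continuous_const continuous_snd).inter (isOpen_lt continuous_snd continuous_const))
  have hβ : Cht {q : E | ‖q.1‖ < 1 / 2 ∧ 1 / 4 < q.2 ∧ q.2 < 1 / 2} (footT κ p ε) :=
    (tyc_footCht hκ p h0 h1).mono hβo fun q hq => (show nr q < 2 ^ 2 by linarith [hsub q hq])
  have hβY : footT κ p ε '' {q : E | ‖q.1‖ < 1 / 2 ∧ 1 / 4 < q.2 ∧ q.2 < 1 / 2} ⊆ Yt κ O p p' ε := by
    rintro x ⟨q, hq, rfl⟩
    exact tyc_foot_Yt hκ A hOp (hsub q hq) hq.2.1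
  -- near the parameter `1/2` the curves agree
  have hnear : ∀ t ∈ Icc (1 / 2 : ℝ) (1 / 2 + ρ / 2), V 1 (tipT κ p' ε σ ((0 : ℂ), t)) = footT κ p ε ((0 : ℂ), t) := by
    intro t ht
    have hb : (((0 : ℂ), t - 1 / 2) : E) ∈ Bl ρ := by
      show nr ((0 : ℂ), t - 1 / 2) < ρ ^ 2
      rw [tyc_nr0]
      nlinarith [ht.1, ht.2]
    have := hg _ hb
    simp only [add_sub_cancel] at this
    exact this
  have hgc : ContinuousOn (fun t : ℝ => V 1 (tipT κ p' ε σ ((0 : ℂ), t))) (Icc (1 / 2 + ρ / 2) (5 / 4)) := fun t ht =>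
    (tyc_tip_curve_smooth hκ h0 h1 hσ hV (t := t)
      ⟨by linarith [ht.1], by linarith [ht.2]⟩).continuousAt.continuousWithinAt
  have hfc : ContinuousOn (fun x : ℝ => footT κ p ε ((0 : ℂ), x)) (Icc (1 / 4) (1 / 2)) :=
    (tyc_foot_curve_cont hκ h0 h1).mono fun x hx => ⟨by linarith [hx.1], by linarith [hx.2]⟩
  set B : Set (ℝ × ℝ) := Icc (1 / 2 + ρ / 2) (5 / 4) ×ˢ Icc (1 / 4) (1 / 2) with hB
  have hBc : IsCompact B := isCompact_Icc.prod isCompact_Icc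
  set S : Set (ℝ × ℝ) := B ∩ (fun r : ℝ × ℝ => (V 1 (tipT κ p' ε σ ((0 : ℂ), r.1)), footT κ p ε ((0 : ℂ), r.2))) ⁻¹'
    diagonal N with hS
  have hSc : IsCompact S := by
    have hcl : IsClosed S := by
      refine ContinuousOn.preimage_isClosed_of_isClosed ?_ hBc.isClosed isClosed_diagonal
      exact (hgc.comp continuousOn_fst fun r hr => hr.1).prodMk (hfc.comp continuousOn_snd fun r hr => hr.2)
    exact hBc.of_isClosed_subset hcl inter_subset_left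
  have hKc : IsCompact (Prod.snd '' S) := hSc.image continuous_snd
  have hKs : Prod.snd '' S ⊆ Ioo (1 / 4 : ℝ) (1 / 2) := by
    rintro x ⟨⟨t, x'⟩, ⟨⟨ht, hx⟩, hd⟩, rfl⟩
    have hd' : V 1 (tipT κ p' ε σ ((0 : ℂ), t)) = footT κ p ε ((0 : ℂ), x') := hd
    have ht1 : 1 / 2 + ρ / 2 ≤ t := ht.1
    have ht2 : t ≤ 5 / 4 := ht.2
    have hx1 : 1 / 4 ≤ x' := hx.1
    have hx2 : x' ≤ 1 / 2 := hx.2
    refine ⟨lt_of_le_of_ne hx1 ?_, lt_of_le_of_ne hx2 ?_⟩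
    · intro (he : 1 / 4 = x')
      have hAp : footT κ p ε ((0 : ℂ), x') ∈ Ap κ p ε := by
        refine ⟨((0 : ℂ), x'), ⟨?_, ?_⟩, rfl⟩
        · simp
        · show |x'| ≤ 1 / 4
          rw [← he, abs_of_pos (by norm_num)]
      have hno : footT κ p ε ((0 : ℂ), x') ∉ Yt κ O p p' ε := fun h => h.2.1 hAp
      have h2 := tyc_fix hV hd' hno
      refine tyc_tip_ne_foot hκ A ?_ ?_ h2
      · rw [tyc_nr0' t hσ]
        nlinarith
      · rw [tyc_nr0]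
        nlinarith
    · intro (he : x' = 1 / 2)
      have h2 := hnear (1 / 2) ⟨le_refl _, by linarith⟩
      rw [he, ← h2] at hd'
      have h3 := (V 1).injective hd'
      have h4 := tyc_tip_inj hκ h0 h1 hσ (x := t) (x' := 1 / 2) ⟨by linarith, by linarith⟩ ⟨by norm_num, by norm_num⟩ h3
      linarith
  obtain ⟨x₀, x₁, hx0, hx01, hx1, hKx⟩ := tyc_interval hKc (by norm_num) hKs
  obtain ⟨P, hP, hPne⟩ := arc_off (a := 1 / 2) (b := 5 / 4) (by norm_num : (0 : ℝ) < 1 / 2) hβ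
    (g := fun t : ℝ => V 1 (tipT κ p' ε σ ((0 : ℂ), t))) (U := Ioo 0 2) isOpen_Ioo
    (fun t ht => ⟨by linarith [ht.1], by linarith [ht.2]⟩)
    (fun t ht => tyc_tip_curve_smooth hκ h0 h1 hσ hV ht) hx0 hx01 hx1 (by
      intro t ht x hx he
      have ht3 : 1 / 2 + ρ / 2 ≤ t := by
        by_contra hlt
        rw [not_le] at hlt
        have h2 := hnear t ⟨ht.1, hlt.le⟩
        have he' : V 1 (tipT κ p' ε σ ((0 : ℂ), t)) = footT κ p ε ((0 : ℂ), x) := he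
        rw [h2] at he'
        have h3 := tyc_foot_inj hκ h0 h1 (x := t) (x' := x) ⟨by linarith [ht.1], by linarith [ht.2]⟩
          ⟨by linarith [hx.1], by linarith [hx.2]⟩ he'
        linarith [ht.1, hx.2]
      exact hKx ⟨(t, x), ⟨⟨⟨ht3, ht.2⟩, ⟨hx.1.le, hx.2.le⟩⟩, he⟩, rfl⟩)
  have hPY : Push (Yt κ O p p' ε) P := hP.mono hβY
  have hzβ : (z : N) ∉ footT κ p ε '' {q : E | ‖q.1‖ < 1 / 2 ∧ 1 / 4 < q.2 ∧ q.2 < 1 / 2} := by
    rintro ⟨q, hq, he⟩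
    have h2 : (z : N) = footT κ p ε ((0 : ℂ), 1 / 2) := by
      rw [tyc_foot0, hz]
      congr 3
      ring
    rw [h2] at he
    have h3 : q = ((0 : ℂ), 1 / 2) := by
      refine (tyc_footCht hκ p h0 h1).inj (show nr q < 2 ^ 2 by linarith [hsub q hq]) ?_ he
      show nr ((0 : ℂ), (1 / 2 : ℝ)) < 2 ^ 2
      rw [tyc_nr0]
      norm_num
    have h4 := hq.2.2
    rw [h3] at h4
    exact lt_irrefl _ h4
  refine ⟨σ, fun s => (V s).trans (P s), hσ, hV.comp hPY, ?_, ?_, ?_⟩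
  · have h2 : Follows P (Path.refl z) := follows_refl z fun t _ => hP.out t hzβ
    have h3 := follows_comp hV hPY hF h2
    exact (rep_iff h3).2 ⟨Path.Homotopy.transRefl _⟩
  · obtain ⟨C, hC, hCβ, hCfix⟩ := hP.supp
    have hzC : (z : N) ∉ C := fun h => hzβ (hCβ h)
    have hcont : ContinuousAt (fun q : E => footT κ p ε (((0, 1 / 2) : E) + q)) 0 := by
      have hm : ((0, 1 / 2) : E) + 0 ∈ Bl 2 := by
        rw [add_zero]
        show nr ((0 : ℂ), (1 / 2 : ℝ)) < 2 ^ 2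
        rw [tyc_nr0]
        norm_num
      have g1 := ((tyc_footCht hκ p h0 h1).loc _ hm).contMDiffAt.continuousAt
      exact ContinuousAt.comp (f := fun q : E => ((0, 1 / 2) : E) + q) g1 (by fun_prop)
    have hz0 : footT κ p ε (((0, 1 / 2) : E) + 0) = z := by
      rw [add_zero, tyc_foot0, hz]
      congr 3
      ring
    have hnb : (fun q : E => footT κ p ε (((0, 1 / 2) : E) + q)) ⁻¹' Cᶜ ∈ 𝓝 (0 : E) := by
      refine hcont.preimage_mem_nhds ?_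
      show Cᶜ ∈ 𝓝 (footT κ p ε (((0, 1 / 2) : E) + 0))
      rw [hz0]
      exact hC.isClosed.isOpen_compl.mem_nhds hzC
    obtain ⟨ρ₂, hρ₂, hb⟩ := exists_Bl hnb
    refine ⟨min ρ ρ₂, lt_min hρ hρ₂, (min_le_left _ _).trans hρ1, fun q hq => ?_⟩
    have hq1 : q ∈ Bl ρ := Bl_mono (lt_min hρ hρ₂) (min_le_left _ _) hq
    have hq2 : q ∈ Bl ρ₂ := Bl_mono (lt_min hρ hρ₂) (min_le_right _ _) hq
    have h3 : footT κ p ε (((0, 1 / 2) : E) + q) ∉ C := hb (show nr q ≤ ρ₂ ^ 2 from le_of_lt hq2)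
    rw [tyc_half] at h3
    show P 1 (V 1 (tipT κ p' ε σ (q.1, 1 / 2 + q.2))) = _
    rw [hg q hq1]
    exact hCfix 1 _ h3
  · intro t ht x hx
    exact hPne t ht x hx


/-- the union of the foot and of the moved tip -/
noncomputable def tycG (κ : ℝ × ℂ → N) (p p' ε σ : ℝ) (V : ℝ → Equiv.Perm N) (q : E) : N :=
  if q.2 ≤ 1 / 2 then footT κ p ε q else V 1 (tipT κ p' ε σ q)

theorem tyc_near {κ : ℝ × ℂ → N} {p p' ε σ : ℝ} {V : ℝ → Equiv.Perm N} {ρ : ℝ}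
    (hg : ∀ q ∈ Bl ρ, V 1 (tipT κ p' ε σ (q.1, 1 / 2 + q.2)) = footT κ p ε (q.1, 1 / 2 + q.2)) {q : E}
    (hq : (q.1, q.2 - 1 / 2) ∈ Bl ρ) : V 1 (tipT κ p' ε σ q) = footT κ p ε q := by
  have h := hg _ hq
  simp only [add_sub_cancel] at h
  exact h

theorem tycG_loc {κ : ℝ × ℂ → N} (hκ : Thick κ) {p p' ε σ : ℝ} (h0 : 0 < ε) (h1 : ε < 1 / 4) (hσ : σ = 1 ∨ σ = -1)
    {Y : Set N} {V : ℝ → Equiv.Perm N} (hV : Push Y V) {ρ : ℝ} (hρ : 0 < ρ)
    (hg : ∀ q ∈ Bl ρ, V 1 (tipT κ p' ε σ (q.1, 1 / 2 + q.2)) = footT κ p ε (q.1, 1 / 2 + q.2)) {x : ℝ}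
    (hx : x ∈ Icc (-(1 / 4) : ℝ) (5 / 4)) :
    ∃ U ∈ 𝓝 ((0, x) : E), ∀ q ∈ U, IsLocalDiffeomorphAt 𝓘(ℝ, ℂ × ℝ) (𝓡 3) ∞ (tycG κ p p' ε σ V) q := by
  have hnrc : Continuous nr := nr_smooth.continuous
  rcases lt_trichotomy x (1 / 2) with hlt | heq | hgt
  · have ho : IsOpen {q : E | q.2 < 1 / 2 ∧ nr q < 2 ^ 2} :=
      (isOpen_lt continuous_snd continuous_const).inter (isOpen_lt hnrc continuous_const)
    refine ⟨{q : E | q.2 < 1 / 2 ∧ nr q < 2 ^ 2}, ho.mem_nhds ⟨hlt, ?_⟩, fun q hq => ?_⟩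
    · show nr ((0 : ℂ), x) < 2 ^ 2
      rw [tyc_nr0]
      nlinarith [hx.1, hx.2]
    · refine CSG.ld_congr ((tyc_footCht hκ p h0 h1).loc q hq.2) ?_
      filter_upwards [ho.mem_nhds hq] with y hy
      exact if_pos hy.1.le
  · have ho : IsOpen {q : E | (q.1, q.2 - 1 / 2) ∈ Bl ρ ∧ nr q < 2 ^ 2} := by
      refine IsOpen.inter ?_ (isOpen_lt hnrc continuous_const)
      exact (isOpen_Bl ρ).preimage (f := fun q : E => (q.1, q.2 - 1 / 2)) (by fun_prop)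
    refine ⟨{q : E | (q.1, q.2 - 1 / 2) ∈ Bl ρ ∧ nr q < 2 ^ 2}, ho.mem_nhds ⟨?_, ?_⟩, fun q hq => ?_⟩
    · show nr ((0 : ℂ), x - 1 / 2) < ρ ^ 2
      rw [tyc_nr0, heq, sub_self, zero_pow two_ne_zero]
      exact pow_pos hρ 2
    · show nr ((0 : ℂ), x) < 2 ^ 2
      rw [tyc_nr0]
      nlinarith [hx.1, hx.2]
    · refine CSG.ld_congr ((tyc_footCht hκ p h0 h1).loc q hq.2) ?_
      filter_upwards [ho.mem_nhds hq] with y hy
      unfold tycG
      split_ifs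
      · rfl
      · exact tyc_near hg hy.1
  · have ho : IsOpen {q : E | 1 / 2 < q.2 ∧ nr (tycF σ q) < 2 ^ 2} :=
      (isOpen_lt continuous_const continuous_snd).inter
        (isOpen_lt (hnrc.comp (tycF_smooth σ).continuous) continuous_const)
    refine ⟨{q : E | 1 / 2 < q.2 ∧ nr (tycF σ q) < 2 ^ 2}, ho.mem_nhds ⟨hgt, ?_⟩, fun q hq => ?_⟩
    · show nr (tycF σ ((0 : ℂ), x)) < 2 ^ 2
      rw [tyc_nr0' x hσ]
      nlinarith [hx.1, hx.2]
    · have g1 : IsLocalDiffeomorphAt 𝓘(ℝ, ℂ × ℝ) (𝓡 3) ∞ (fun q : E => V 1 (tipT κ p' ε σ q)) q :=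
        ((tyc_tipCht hκ p' h0 h1 hσ).push hV 1).loc q hq.2
      refine CSG.ld_congr g1 ?_
      filter_upwards [ho.mem_nhds hq] with y hy
      exact if_neg (not_le.2 hy.1)

theorem tycG_inj {κ : ℝ × ℂ → N} (hκ : Thick κ) {p p' ε σ : ℝ} (A : Adm p p' ε) (hσ : σ = 1 ∨ σ = -1) {O : Set N}
    {V : ℝ → Equiv.Perm N} (hV : Push (Yt κ O p p' ε) V) {ρ : ℝ} (hρ : 0 < ρ)
    (hg : ∀ q ∈ Bl ρ, V 1 (tipT κ p' ε σ (q.1, 1 / 2 + q.2)) = footT κ p ε (q.1, 1 / 2 + q.2))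
    (hne : ∀ t ∈ Icc (1 / 2 : ℝ) (5 / 4), ∀ x ∈ Ioo (1 / 4 : ℝ) (1 / 2),
      V 1 (tipT κ p' ε σ ((0 : ℂ), t)) ≠ footT κ p ε ((0 : ℂ), x)) :
    InjOn (fun x : ℝ => tycG κ p p' ε σ V ((0 : ℂ), x)) (Icc (-(1 / 4)) (5 / 4)) := by
  have h0 := A.pos
  have h1 := A.lt
  have hmix : ∀ x ∈ Icc (-(1 / 4) : ℝ) (5 / 4), ∀ x' ∈ Icc (-(1 / 4) : ℝ) (5 / 4), x ≤ 1 / 2 → 1 / 2 < x' →
      footT κ p ε ((0 : ℂ), x) ≠ V 1 (tipT κ p' ε σ ((0 : ℂ), x')) := by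
    intro x hx x' hx' hxl hxg he
    rcases le_or_gt x (1 / 4) with hx4 | hx4
    · have hAp : footT κ p ε ((0 : ℂ), x) ∈ Ap κ p ε := by
        refine ⟨((0 : ℂ), x), ⟨?_, ?_⟩, rfl⟩
        · simp
        · show |x| ≤ 1 / 4
          rw [abs_le]
          exact ⟨by linarith [hx.1], hx4⟩
      have h2 := tyc_fix hV he.symm fun h => h.2.1 hAp
      refine tyc_tip_ne_foot hκ A ?_ ?_ h2
      · rw [tyc_nr0' x' hσ]
        nlinarith [hx'.1, hx'.2]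
      · rw [tyc_nr0]
        nlinarith [hx.1, hx.2]
    · rcases lt_or_eq_of_le hxl with hx5 | hx5
      · exact hne x' ⟨hxg.le, hx'.2⟩ x ⟨hx4, hx5⟩ he.symm
      · have h2 : V 1 (tipT κ p' ε σ ((0 : ℂ), x)) = footT κ p ε ((0 : ℂ), x) := by
          refine tyc_near hg ?_
          show nr ((0 : ℂ), x - 1 / 2) < ρ ^ 2
          rw [tyc_nr0, hx5, sub_self, zero_pow two_ne_zero]
          exact pow_pos hρ 2
        rw [← h2] at he
        have h3 := tyc_tip_inj hκ h0 h1 hσ (x := x) (x' := x') ⟨by linarith, by linarith⟩ ⟨by linarith, by linarith [hx'.2]⟩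
          ((V 1).injective he)
        linarith
  intro x hx x' hx' he
  have he' : tycG κ p p' ε σ V ((0 : ℂ), x) = tycG κ p p' ε σ V ((0 : ℂ), x') := he
  rcases le_or_gt x (1 / 2) with hx5 | hx5
  · have e1 : tycG κ p p' ε σ V ((0 : ℂ), x) = footT κ p ε ((0 : ℂ), x) := if_pos hx5
    rcases le_or_gt x' (1 / 2) with hx6 | hx6
    · have e2 : tycG κ p p' ε σ V ((0 : ℂ), x') = footT κ p ε ((0 : ℂ), x') := if_pos hx6
      rw [e1, e2] at he'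
      exact tyc_foot_inj hκ h0 h1 ⟨by linarith [hx.1], by linarith⟩ ⟨by linarith [hx'.1], by linarith⟩ he'
    · have e2 : tycG κ p p' ε σ V ((0 : ℂ), x') = V 1 (tipT κ p' ε σ ((0 : ℂ), x')) := if_neg (not_le.2 hx6)
      rw [e1, e2] at he'
      exact absurd he' (hmix x hx x' hx' hx5 hx6)
  · have e1 : tycG κ p p' ε σ V ((0 : ℂ), x) = V 1 (tipT κ p' ε σ ((0 : ℂ), x)) := if_neg (not_le.2 hx5)
    rcases le_or_gt x' (1 / 2) with hx6 | hx6
    · have e2 : tycG κ p p' ε σ V ((0 : ℂ), x') = footT κ p ε ((0 : ℂ), x') := if_pos hx6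
      rw [e1, e2] at he'
      exact absurd he'.symm (hmix x' hx' x hx hx6 hx5)
    · have e2 : tycG κ p p' ε σ V ((0 : ℂ), x') = V 1 (tipT κ p' ε σ ((0 : ℂ), x')) := if_neg (not_le.2 hx6)
      rw [e1, e2] at he'
      exact tyc_tip_inj hκ h0 h1 hσ ⟨by linarith, by linarith [hx.2]⟩ ⟨by linarith, by linarith [hx'.2]⟩
        ((V 1).injective he')

/-- thinning -/
noncomputable def tycR (r : ℝ) : E →L[ℝ] E :=
  (r • ContinuousLinearMap.fst ℝ ℂ ℝ).prod (ContinuousLinearMap.snd ℝ ℂ ℝ)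

theorem tycR_apply (r : ℝ) (q : E) : tycR r q = ((r : ℂ) * q.1, q.2) := by
  simp [tycR]

theorem tycR_bij {r : ℝ} (hr : 0 < r) : Function.Bijective (tycR r) := by
  have hrc : (r : ℂ) ≠ 0 := Complex.ofReal_ne_zero.2 hr.ne'
  constructor
  · intro a b h
    rw [tycR_apply, tycR_apply] at h
    have h1 := congrArg Prod.fst h
    have h2 := congrArg Prod.snd h
    exact Prod.ext (mul_left_cancel₀ hrc h1) h2
  · intro a
    refine ⟨((r : ℂ)⁻¹ * a.1, a.2), ?_⟩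
    rw [tycR_apply]
    refine Prod.ext ?_ rfl
    show (r : ℂ) * ((r : ℂ)⁻¹ * a.1) = a.1
    rw [← mul_assoc, mul_inv_cancel₀ hrc, one_mul]

theorem tyc_TD_open : IsOpen TD :=
  (isOpen_lt (continuous_norm.comp continuous_fst) continuous_const).inter
    ((isOpen_lt continuous_const continuous_snd).inter (isOpen_lt continuous_snd continuous_const))

theorem tiny_chord {κ : ℝ × ℂ → N} (hκ : Thick κ) {p p' ε : ℝ} (A : Adm p p' ε) {O : Set N} (hO : IsOpen O)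
    (hOp : eb κ p ε ⊆ O) (hOp' : eb κ p' ε ⊆ O) {z z' : (Yt κ O p p' ε : Set N)} (c₁ : Path z z')
    (hz : (z : N) = κ (p, ((ε / 2 : ℝ) : ℂ))) (hz' : (z' : N) = κ (p', ((ε / 2 : ℝ) : ℂ))) :
    ∃ (σ r : ℝ) (T : E → N), Chd (core κ) T ∧ StdR κ p p' ε σ r T ∧ T '' TD ⊆ O ∧
      ∀ {u u' : (O ∩ (core κ)ᶜ : Set N)} (s₁ : Path u (⟨z, Yt_sub z.2⟩ : (O ∩ (core κ)ᶜ : Set N)))
        (s₂ : Path (⟨z', Yt_sub z'.2⟩ : (O ∩ (core κ)ᶜ : Set N)) u'),
        RepI (fun t => κ (p, (t : ℂ))) (ε / 8) (ε / 2) s₁ → RepI (fun t => κ (p', (t : ℂ))) (ε / 2) (ε / 8) s₂ →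
          RepI (fun x => T (0, x)) (1 / 8) (7 / 8) (s₁.trans ((inc Yt_sub c₁).trans s₂)) := by
  obtain ⟨σ, V, hσ, hV, hF, ⟨ρ, hρ, hρ1, hg⟩, hne⟩ := tyc_second hκ A hO hOp c₁ hz hz'
  have h0 := A.pos
  have h1 := A.lt
  have hVO : ∀ x ∈ O, V 1 x ∈ O := by
    intro x hx
    exact (hV.mono (Yt_sub.trans inter_subset_left)).mem 1 hx
  have hGO : ∀ x ∈ Icc (-(1 / 4) : ℝ) (5 / 4), tycG κ p p' ε σ V ((0 : ℂ), x) ∈ O := by
    intro x hx
    unfold tycG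
    split_ifs with hc
    · refine hOp (tyc_mem_eb κ p h0 ?_)
      rw [tyc_nr0]
      have : x ≤ 1 / 2 := hc
      nlinarith [hx.1]
    · refine hVO _ (hOp' ?_)
      rw [tyc_tipF]
      refine tyc_mem_eb κ p' h0 ?_
      rw [tyc_nr0' x hσ]
      have : 1 / 2 < x := not_le.1 hc
      nlinarith [hx.2]
  obtain ⟨r₀, hr₀, hCht, hCO⟩ := exists_tube (G := tycG κ p p' ε σ V) (a := -(1 / 4)) (b := 5 / 4)
    (fun x hx => tycG_loc hκ h0 h1 hσ hV hρ hg hx) (tycG_inj hκ A hσ hV hρ hg hne) hO hGO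
  set r : ℝ := min r₀ (1 / 8) with hr
  have hr0 : 0 < r := lt_min hr₀ (by norm_num)
  have hr8 : r ≤ 1 / 8 := min_le_right _ _
  have hrr : r ≤ r₀ := min_le_left _ _
  set T : E → N := fun q => tycG κ p p' ε σ V (tycR r q) with hT
  have hnorm : ∀ q ∈ TD, ‖(tycR r q).1‖ < r := by
    intro q hq
    rw [tycR_apply]
    show ‖(r : ℂ) * q.1‖ < r
    rw [norm_mul, Complex.norm_real, Real.norm_eq_abs, abs_of_pos hr0]
    have : r * ‖q.1‖ < r * 1 := mul_lt_mul_of_pos_left hq.1 hr0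
    linarith
  have hR2 : ∀ q : E, (tycR r q).2 = q.2 := fun q => by rw [tycR_apply]
  have hTcht : Cht TD T := by
    refine hCht.comp tyc_TD_open (fun q _ => (tycR r).contDiff.contDiffAt) ?_ (tycR_bij hr0).1.injOn ?_
    · intro q _
      rw [ContinuousLinearMap.fderiv]
      exact tycR_bij hr0
    · intro q hq
      refine ⟨(hnorm q hq).trans_le hrr, ?_, ?_⟩
      · rw [hR2]
        exact hq.2.1
      · rw [hR2]
        exact hq.2.2
  have hT1 : ∀ q : E, q.2 ≤ 1 / 2 → T q = footT κ p ε (tycR r q) := by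
    intro q hq
    have : (tycR r q).2 ≤ 1 / 2 := by rw [hR2]; exact hq
    exact if_pos this
  have hT2 : ∀ q : E, 1 / 2 < q.2 → T q = V 1 (tipT κ p' ε σ (tycR r q)) := by
    intro q hq
    have : ¬ (tycR r q).2 ≤ 1 / 2 := by rw [hR2]; exact not_le.2 hq
    exact if_neg this
  have hcoreV : ∀ x, V 1 x ∈ core κ ↔ x ∈ core κ := by
    intro x
    constructor
    · intro h
      have h2 : V 1 x ∉ Yt κ O p p' ε := fun h' => h'.1.2 h
      have h3 := tyc_fix hV (rfl : V 1 x = V 1 x) h2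
      rw [h3]
      exact h
    · intro h
      rw [hV.out 1 (fun h' => h'.1.2 h)]
      exact h
  have hr8' : ∀ q ∈ TD, ‖(tycR r q).1‖ ^ 2 ≤ 1 / 64 := by
    intro q hq
    have g1 := hnorm q hq
    have g2 := norm_nonneg (tycR r q).1
    nlinarith
  have hnr1 : ∀ q ∈ TD, nr (tycR r q) < 2 ^ 2 := by
    intro q hq
    unfold nr
    rw [hR2]
    have g1 := hr8' q hq
    have g3 := hq.2.1
    have g4 := hq.2.2
    nlinarith
  have hnr2 : ∀ q ∈ TD, nr (tycF σ (tycR r q)) < 2 ^ 2 := by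
    intro q hq
    rw [tyc_nrF hσ, hR2]
    have g1 := hr8' q hq
    have g3 := hq.2.1
    have g4 := hq.2.2
    nlinarith
  have hcoreT : ∀ q ∈ TD, T q ∈ core κ ↔ ((q.2 = 0 ∧ q.1.im = 0) ∨ (q.2 = 1 ∧ q.1.re = 0)) := by
    intro q hq
    rcases le_or_gt q.2 (1 / 2) with hc | hc
    · rw [hT1 q hc, tyc_foot_core hκ p h0 h1 (hnr1 q hq), tycR_apply]
      have e1 : ((r : ℂ) * q.1).im = r * q.1.im := by simp
      show q.2 = 0 ∧ ((r : ℂ) * q.1).im = 0 ↔ _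
      rw [e1]
      constructor
      · rintro ⟨a, b⟩
        exact Or.inl ⟨a, (mul_eq_zero.1 b).resolve_left hr0.ne'⟩
      · rintro (⟨a, b⟩ | ⟨a, _⟩)
        · exact ⟨a, by rw [b, mul_zero]⟩
        · rw [a] at hc
          norm_num at hc
    · rw [hT2 q hc, hcoreV, tyc_tipF, tyc_foot_core hκ p' h0 h1 (hnr2 q hq), tycR_apply]
      have e1 : ((r : ℂ) * q.1).re = r * q.1.re := by simp
      show 1 - q.2 = 0 ∧ ((r : ℂ) * q.1).re = 0 ↔ _
      rw [e1]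
      constructor
      · rintro ⟨a, b⟩
        exact Or.inr ⟨by linarith, (mul_eq_zero.1 b).resolve_left hr0.ne'⟩
      · rintro (⟨a, _⟩ | ⟨a, b⟩)
        · rw [a] at hc
          norm_num at hc
        · exact ⟨by rw [a, sub_self], by rw [b, mul_zero]⟩
  have hAp : ∀ q ∈ TD, 3 / 4 < q.2 → tipT κ p' ε σ (tycR r q) ∈ Ap κ p' ε := by
    intro q hq hq2
    rw [tyc_tipF]
    refine ⟨tycF σ (tycR r q), ⟨?_, ?_⟩, rfl⟩
    · have g1 : ‖(tycF σ (tycR r q)).1‖ ^ 2 + (1 - q.2) ^ 2 = ‖(tycR r q).1‖ ^ 2 + (1 - q.2) ^ 2 := by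
        have g2 := tyc_nrF hσ (tycR r q)
        unfold nr at g2
        have g3 : (tycF σ (tycR r q)).2 = 1 - q.2 := by
          show 1 - (tycR r q).2 = 1 - q.2
          rw [hR2]
        rw [g3, hR2] at g2
        exact g2
      have g4 := hr8' q hq
      refine le_of_sq_le_sq ?_ (by norm_num)
      linarith
    · show |1 - (tycR r q).2| ≤ 1 / 4
      rw [hR2, abs_le]
      have := hq.2.2
      constructor <;> linarith
  have hfixAp : ∀ s, ∀ x ∈ Ap κ p' ε, V s x = x := fun s x hx => hV.out s fun h' => h'.2.2 hx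
  refine ⟨σ, r, T, ⟨hTcht, ?_⟩, ⟨hσ, hr0, hr8, ?_, ?_⟩, ?_, ?_⟩
  · ext x
    constructor
    · rintro ⟨hx, q, hq, rfl⟩
      exact ⟨q, ⟨hq, (hcoreT q hq).1 hx⟩, rfl⟩
    · rintro ⟨q, ⟨hq, hc⟩, rfl⟩
      exact ⟨(hcoreT q hq).2 hc, q, hq, rfl⟩
  · intro q hq hq2
    rw [hT1 q (by linarith), tycR_apply]
  · intro q hq hq2
    rw [hT2 q (by linarith), hfixAp 1 _ (hAp q hq hq2), tycR_apply]
  · rintro x ⟨q, hq, rfl⟩
    refine hCO (tycR r q) ((hnorm q hq).trans_le hrr) ?_ ?_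
    · rw [hR2]
      exact hq.2.1.le
    · rw [hR2]
      exact hq.2.2.le
  · intro u u' s₁ s₂ hs₁ hs₂
    have hT0 : ∀ x : ℝ, tycR r ((0 : ℂ), x) = ((0 : ℂ), x) := by
      intro x
      rw [tycR_apply]
      simp
    have hVY : Push (O ∩ (core κ)ᶜ) V := hV.mono Yt_sub
    -- the tip curve
    have hf : RepI (fun x : ℝ => tipT κ p' ε σ ((0 : ℂ), x)) (1 / 2) (7 / 8) s₂ := by
      have g1 : RepI (fun x : ℝ => κ (p', ((ε * (1 - x) : ℝ) : ℂ))) (1 / 2) (7 / 8) s₂ := by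
        refine repI_comp (f := fun t : ℝ => κ (p', (t : ℂ))) (g := fun x : ℝ => ε * (1 - x)) (a' := ε / 2) (b' := ε / 8)
          ?_ (by fun_prop) (repI_cont hs₂).1 (repI_cont hs₂).2.1 ?_
        · have e1 : ε * (1 - 1 / 2) = ε / 2 := by ring
          have e2 : ε * (1 - 7 / 8) = ε / 8 := by ring
          show RepI _ (ε * (1 - 1 / 2)) (ε * (1 - 7 / 8)) s₂
          rw [e1, e2]
          exact hs₂
        · intro t ht
          rw [uIcc_of_le (by norm_num)] at ht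
          rw [uIcc_of_ge (by linarith)]
          show ε / 8 ≤ ε * (1 - t) ∧ ε * (1 - t) ≤ ε / 2
          constructor
          · nlinarith [ht.2]
          · nlinarith [ht.1]
      exact repI_congr g1 fun t _ => tyc_tip0 κ p' ε σ t
    have hz2 : tipT κ p' ε σ ((0 : ℂ), 1 / 2) = z' := by
      rw [tyc_tip0, hz']
      congr 3
      ring
    have hd : RepI (fun s => V s (tipT κ p' ε σ ((0 : ℂ), 1 / 2))) 0 1 (inc Yt_sub c₁.symm) := by
      have g1 : RepI (fun s => V s (z' : N)) 0 1 c₁.symm := by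
        refine rep_congr hF fun t _ => ?_
        show V (0 + t * (1 - 0)) (z' : N) = V t (z' : N)
        rw [sub_zero, mul_one, zero_add]
      rw [hz2]
      exact repI_inc Yt_sub g1
    have hd' : RepI (fun s => V s (tipT κ p' ε σ ((0 : ℂ), 7 / 8))) 0 1 (Path.refl u') := by
      refine repI_const fun t _ => ?_
      have g1 : tipT κ p' ε σ ((0 : ℂ), 7 / 8) ∈ Ap κ p' ε := by
        have hq : (((0 : ℂ), (7 / 8 : ℝ)) : E) ∈ TD := ⟨by simp, by norm_num, by norm_num⟩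
        have := hAp _ hq (by norm_num)
        rw [hT0] at this
        exact this
      show V t (tipT κ p' ε σ ((0 : ℂ), 7 / 8)) = u'
      rw [hfixAp t _ g1]
      exact (repI_cont hf).2.2.2
    have r1 := class_move hVY (fun s _ x hx => hVY.mem s hx) hf hd hd'
    have r1' : RepI (fun x => T (0, x)) (1 / 2) (7 / 8) ((inc Yt_sub c₁.symm).symm.trans (s₂.trans (Path.refl u'))) := by
      refine repI_congr r1 fun t ht => ?_
      rw [uIcc_of_le (by norm_num)] at ht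
      show T (0, t) = V 1 (tipT κ p' ε σ ((0 : ℂ), t))
      rcases lt_or_eq_of_le ht.1 with hlt | heq
      · rw [hT2 _ hlt, hT0]
      · rw [hT1 _ (show t ≤ 1 / 2 from heq.ge), hT0]
        refine (tyc_near hg ?_).symm
        show nr ((0 : ℂ), t - 1 / 2) < ρ ^ 2
        rw [tyc_nr0, ← heq, sub_self, zero_pow two_ne_zero]
        exact pow_pos hρ 2
    have r2 : RepI (fun x => T (0, x)) (1 / 8) (1 / 2) s₁ := by
      have g1 : RepI (fun x : ℝ => κ (p, ((ε * x : ℝ) : ℂ))) (1 / 8) (1 / 2) s₁ := by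
        refine repI_comp (f := fun t : ℝ => κ (p, (t : ℂ))) (g := fun x : ℝ => ε * x) (a' := ε / 8) (b' := ε / 2)
          ?_ (by fun_prop) (repI_cont hs₁).1 (repI_cont hs₁).2.1 ?_
        · have e1 : ε * (1 / 8) = ε / 8 := by ring
          have e2 : ε * (1 / 2) = ε / 2 := by ring
          show RepI _ (ε * (1 / 8)) (ε * (1 / 2)) s₁
          rw [e1, e2]
          exact hs₁
        · intro t ht
          rw [uIcc_of_le (by norm_num)] at ht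
          rw [uIcc_of_le (by linarith)]
          show ε / 8 ≤ ε * t ∧ ε * t ≤ ε / 2
          constructor
          · nlinarith [ht.1]
          · nlinarith [ht.2]
      refine repI_congr g1 fun t ht => ?_
      rw [uIcc_of_le (by norm_num)] at ht
      show T (0, t) = κ (p, ((ε * t : ℝ) : ℂ))
      rw [hT1 _ (show t ≤ 1 / 2 from ht.2), hT0, tyc_foot0]
    have r3 := repI_trans r2 r1'
    refine (repI_iff r3).2 ?_
    have e3 : (inc Yt_sub c₁.symm).symm = inc (Yt_sub (κ := κ) (O := O) (p := p) (p' := p') (ε := ε)) c₁ := by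
      ext t
      simp [inc]
    rw [e3]
    exact Path.Homotopic.hcomp (Path.Homotopic.refl _)
      (Path.Homotopic.hcomp (Path.Homotopic.refl _) ⟨Path.Homotopy.transRefl s₂⟩)

end

end Pool.Agent.NHE
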