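import Pool.Agent.NHE.Mvc
import Pool.Agent.NHE.KCh
import Pool.Agent.NHE.RoP
import Pool.Agent.NHP.Tra

/-!
# NHE/Mer: turning the end of the finger around the knot (difficulty 3)

In the chart `footT κ p 1` on `Bl ε` rotate around the core: push of `E` `(w, x) ↦` (`re w` fixed, `x + i im w` multiplied by `ex (s k χ)`), `χ = 1 - stp (ε²/4) (9 ε²/16) (nr q)` (`rot_push` after a linear change of coordinates, or directly; `nr` is preserved), transported: `X`, `X s` fixes the core pointwise,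
`X 1 = id` on `footT κ p 1 '' {nr ≤ ε²/4}`, which contains `footT κ p ε (r w, x)` for `‖w‖ < 1`, `|x| < 1/4`, `r ≤ 1/8`; the tip is in `eb κ p' ε`, disjoint.  `X s (κ (p, ε/8)) = κ (p, (ε/8) ex (k s))`.  `fgr_move` with `k ↦ -k` gives the class `d.symm.trans (c.trans refl)` with `d.symm ≈ m`
(`repI_symm`: `ex (-k (1 - t)) = ex (k t)`).  The same at the tip.
-/

open scoped Manifold ContDiff Topology
open Set Filter
open Pool.Agent.CSG (stp)
open Pool.Agent.RSG (E3 ex Thick)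
open Pool.Agent.KNT (Dom Str Str2 BalC bmp)
open Pool.Agent.NHP

namespace Pool.Agent.NHE

/-- the change of coordinates, an involution -/
noncomputable def merL : E →L[ℝ] E :=
  ((Complex.ofRealCLM.comp (ContinuousLinearMap.snd ℝ ℂ ℝ)) +
    (Complex.I : ℂ) • (Complex.ofRealCLM.comp (Complex.imCLM.comp (ContinuousLinearMap.fst ℝ ℂ ℝ)))).prod
    (Complex.reCLM.comp (ContinuousLinearMap.fst ℝ ℂ ℝ))

theorem merL_apply (q : E) : merL q = ((⟨q.2, q.1.im⟩ : ℂ), q.1.re) := by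
  unfold merL
  apply Prod.ext
  · apply Complex.ext
    · simp
    · simp
  · simp

theorem merL_merL (q : E) : merL (merL q) = q := by
  rw [merL_apply, merL_apply]

theorem merL_nr (q : E) : nr (merL q) = nr q := by
  rw [merL_apply]
  unfold nr
  rw [← Complex.normSq_eq_norm_sq, ← Complex.normSq_eq_norm_sq, Complex.normSq_apply,
    Complex.normSq_apply]
  simp only
  ring

section
variable {N : Type*} [TopologicalSpace N] [ChartedSpace E3 N] [IsManifold (𝓡 3) ∞ N] [T2Space N]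

theorem mer_chart {κ : ℝ × ℂ → N} (hκ : Thick κ) (p : ℝ) {ε : ℝ} (h0 : 0 < ε) (h1 : ε ≤ 1 / 2) :
    Cht (Bl ε) fun q : E => κ (p + q.2, q.1) := by
  have h := Cht.comp (foot_cht hκ p) (f := merL) (O' := Bl ε) (isOpen_Bl ε)
    (fun q _ => merL.contDiff.contDiffAt)
    (by
      intro q _
      rw [ContinuousLinearMap.fderiv]
      exact Function.Involutive.bijective merL_merL)
    (by
      intro a _ b _ hab
      have := congrArg merL hab
      rwa [merL_merL, merL_merL] at this)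
    (by
      intro q hq
      apply Bl_sub h0 h1
      show nr (merL q) < ε ^ 2
      rw [merL_nr]
      exact hq)
  have e : (fun q : E => footT κ p 1 (merL q)) = fun q : E => κ (p + q.2, q.1) := by
    funext q
    rw [merL_apply]
    unfold footT
    simp
  rw [e] at h
  exact h

theorem mer_eb (κ : ℝ × ℂ → N) (p ε : ℝ) :
    (fun q : E => κ (p + q.2, q.1)) '' Bl ε = eb κ p ε := by
  ext x
  constructor
  · rintro ⟨q, hq, rfl⟩
    refine ⟨(p + q.2, q.1), ?_, rfl⟩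
    have : nr q < ε ^ 2 := hq
    unfold nr at this
    show (p + q.2 - p) ^ 2 + ‖q.1‖ ^ 2 < ε ^ 2
    rw [add_sub_cancel_left]
    linarith
  · rintro ⟨⟨l, v⟩, hq, rfl⟩
    have hq' : (l - p) ^ 2 + ‖v‖ ^ 2 < ε ^ 2 := hq
    refine ⟨(v, l - p), ?_, ?_⟩
    · show nr (v, l - p) < ε ^ 2
      unfold nr
      simp only
      linarith
    · simp

/-- rotation around the core near `κ (p, 0)` -/
theorem mer_rot {κ : ℝ × ℂ → N} (hκ : Thick κ) (p : ℝ) {ε : ℝ} (h0 : 0 < ε) (h1 : ε < 1 / 4)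
    (k : ℤ) : ∃ X : ℝ → Equiv.Perm N, Push (eb κ p ε) X ∧ (∀ s x, x ∉ eb κ p ε → X s x = x) ∧
      (∀ s l v, l ^ 2 + ‖v‖ ^ 2 ≤ ε ^ 2 / 4 → X s (κ (p + l, v)) = κ (p + l, ex (k * s) * v)) ∧
      ∀ s, X s '' core κ = core κ := by
  have hab : ε ^ 2 / 4 < 9 * ε ^ 2 / 16 := by nlinarith [sq_pos_of_pos h0]
  obtain ⟨f, hf⟩ : ∃ f : E → ℝ, ∀ q, f q = k * (1 - stp (ε ^ 2 / 4) (9 * ε ^ 2 / 16) (nr q)) :=
    ⟨_, fun _ => rfl⟩
  have hfs : ContDiff ℝ ∞ f := by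
    have : f = fun q => k * (1 - stp (ε ^ 2 / 4) (9 * ε ^ 2 / 16) (nr q)) := funext hf
    rw [this]
    exact contDiff_const.mul (contDiff_const.sub ((CSG.stp_smooth _ _).comp nr_smooth))
  obtain ⟨V, hV1, hV2⟩ := rot_push (O := Bl ε) hfs
    (by
      intro a q ha
      rw [hf, hf]
      congr 3
      unfold nr
      simp only [norm_mul, ha, one_mul])
    (C := {q : E | nr q ≤ (3 * ε / 4) ^ 2}) (isCompact_Bl _)
    (by
      intro q hq
      have hq' : nr q ≤ (3 * ε / 4) ^ 2 := hq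
      show nr q < ε ^ 2
      nlinarith [sq_pos_of_pos h0])
    (by
      intro q hq
      have hq' : ¬ (nr q ≤ (3 * ε / 4) ^ 2) := hq
      rw [not_le] at hq'
      rw [hf, CSG.stp_one hab (by nlinarith), sub_self, mul_zero])
  obtain ⟨X, hX1, hX2, hX3⟩ := push_chart (mer_chart hκ p h0 (by linarith)) hV1
  rw [mer_eb] at hX1 hX3
  have hfix : ∀ s, ∀ x ∈ core κ, X s x = x := by
    rintro s x ⟨l0, rfl⟩
    by_cases hx : κ (l0, 0) ∈ eb κ p ε
    · rw [← mer_eb] at hx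
      obtain ⟨q, hq, hqx⟩ := hx
      have hq' : nr q < ε ^ 2 := hq
      have hq1 : ‖q.1‖ < 1 := by
        unfold nr at hq'
        by_contra hc
        rw [not_lt] at hc
        nlinarith [sq_nonneg q.2, norm_nonneg q.1]
      have h5 := hκ.inj (p + q.2) q.1 l0 0 hq1 (by simp) hqx
      have h6 := hX2 s q hq
      simp only at hqx h6 ⊢
      rw [hqx, hV2, h5.1, mul_zero] at h6
      rw [h5.1] at hqx
      rw [h6]
      exact hqx
    · exact hX3 s _ hx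
  refine ⟨X, hX1, hX3, ?_, ?_⟩
  · intro s l v hlv
    have hq : (v, l) ∈ Bl ε := by
      show nr (v, l) < ε ^ 2
      unfold nr
      simp only
      nlinarith [sq_pos_of_pos h0]
    have h6 := hX2 s (v, l) hq
    simp only at h6
    rw [h6, hV2, hf, CSG.stp_zero hab (by unfold nr; simp only; linarith), sub_zero, mul_one,
      mul_comm s]
  · intro s
    ext x
    constructor
    · rintro ⟨y, hy, rfl⟩
      rw [hfix s y hy]
      exact hy
    · intro hx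
      exact ⟨x, hx, hfix s x hx⟩

theorem mer_foot_mem {κ : ℝ × ℂ → N} {p ε r : ℝ} (h0 : 0 < ε) (hr : 0 < r) (hr1 : r ≤ 1 / 8)
    {q : E} (hq : q ∈ TD) (hx : q.2 < 1 / 4) :
    ∃ (l : ℝ) (v : ℂ), l ^ 2 + ‖v‖ ^ 2 ≤ ε ^ 2 / 4 ∧
      footT κ p ε ((r : ℂ) * q.1, q.2) = κ (p + l, v) := by
  refine ⟨ε * ((r : ℂ) * q.1).re, (ε : ℂ) * ⟨q.2, ((r : ℂ) * q.1).im⟩, ?_, rfl⟩
  obtain ⟨hq1, hq2, hq3⟩ := hq
  have h1 : q.1.re ^ 2 + q.1.im ^ 2 < 1 := by
    have h2 : ‖q.1‖ ^ 2 < 1 := by nlinarith [norm_nonneg q.1]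
    rw [← Complex.normSq_eq_norm_sq, Complex.normSq_apply] at h2
    nlinarith
  have h9 : ‖(ε : ℂ) * ⟨q.2, ((r : ℂ) * q.1).im⟩‖ ^ 2 =
      ε ^ 2 * (q.2 * q.2 + r * q.1.im * (r * q.1.im)) := by
    rw [norm_mul, mul_pow, ← Complex.normSq_eq_norm_sq ⟨q.2, ((r : ℂ) * q.1).im⟩,
      Complex.normSq_apply, Complex.norm_real, Real.norm_eq_abs, sq_abs]
    simp only [Complex.ofReal_re, Complex.ofReal_im, zero_mul,
      Complex.mul_im, add_zero]
  rw [h9]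
  simp only [Complex.mul_re, Complex.ofReal_re, Complex.ofReal_im, zero_mul, sub_zero]
  have h3 : q.2 ^ 2 ≤ 1 / 16 := by nlinarith
  have h4 : r ^ 2 ≤ 1 / 64 := by nlinarith
  have h5 : (r * q.1.re) ^ 2 + (r * q.1.im) ^ 2 ≤ 1 / 64 := by
    have : (r * q.1.re) ^ 2 + (r * q.1.im) ^ 2 = r ^ 2 * (q.1.re ^ 2 + q.1.im ^ 2) := by ring
    rw [this]
    have h6 : 0 ≤ q.1.re ^ 2 + q.1.im ^ 2 := by positivity
    nlinarith
  have h7 : (ε * (r * q.1.re)) ^ 2 + ε ^ 2 * (q.2 * q.2 + r * q.1.im * (r * q.1.im)) =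
      ε ^ 2 * (((r * q.1.re) ^ 2 + (r * q.1.im) ^ 2) + q.2 ^ 2) := by ring
  rw [h7]
  have h8 : 0 < ε ^ 2 := by positivity
  nlinarith

theorem mer_tip_mem {κ : ℝ × ℂ → N} {p ε r σ : ℝ} (h0 : 0 < ε) (hr : 0 < r) (hr1 : r ≤ 1 / 8)
    (hσ : σ = 1 ∨ σ = -1) {q : E} (hq : q ∈ TD) (hx : 3 / 4 < q.2) :
    ∃ (l : ℝ) (v : ℂ), l ^ 2 + ‖v‖ ^ 2 ≤ ε ^ 2 / 4 ∧
      tipT κ p ε σ ((r : ℂ) * q.1, q.2) = κ (p + l, v) := by
  refine ⟨σ * ε * ((r : ℂ) * q.1).im, (ε : ℂ) * ⟨1 - q.2, ((r : ℂ) * q.1).re⟩, ?_, rfl⟩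
  obtain ⟨hq1, hq2, hq3⟩ := hq
  have h1 : q.1.re ^ 2 + q.1.im ^ 2 < 1 := by
    have h2 : ‖q.1‖ ^ 2 < 1 := by nlinarith [norm_nonneg q.1]
    rw [← Complex.normSq_eq_norm_sq, Complex.normSq_apply] at h2
    nlinarith
  have hσ2 : σ ^ 2 = 1 := by rcases hσ with h | h <;> rw [h] <;> norm_num
  have h9 : ‖(ε : ℂ) * ⟨1 - q.2, ((r : ℂ) * q.1).re⟩‖ ^ 2 =
      ε ^ 2 * ((1 - q.2) * (1 - q.2) + r * q.1.re * (r * q.1.re)) := by
    rw [norm_mul, mul_pow, ← Complex.normSq_eq_norm_sq ⟨1 - q.2, ((r : ℂ) * q.1).re⟩,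
      Complex.normSq_apply, Complex.norm_real, Real.norm_eq_abs, sq_abs]
    simp only [Complex.ofReal_re, Complex.ofReal_im, zero_mul,
      Complex.mul_re, sub_zero]
  rw [h9]
  simp only [Complex.mul_im, Complex.ofReal_re, Complex.ofReal_im, zero_mul, add_zero]
  have h3 : (1 - q.2) ^ 2 ≤ 1 / 16 := by nlinarith
  have h4 : r ^ 2 ≤ 1 / 64 := by nlinarith
  have h5 : (r * q.1.re) ^ 2 + (r * q.1.im) ^ 2 ≤ 1 / 64 := by
    have : (r * q.1.re) ^ 2 + (r * q.1.im) ^ 2 = r ^ 2 * (q.1.re ^ 2 + q.1.im ^ 2) := by ring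
    rw [this]
    have h6 : 0 ≤ q.1.re ^ 2 + q.1.im ^ 2 := by positivity
    nlinarith
  have h7 : (σ * ε * (r * q.1.im)) ^ 2 +
      ε ^ 2 * ((1 - q.2) * (1 - q.2) + r * q.1.re * (r * q.1.re)) =
      ε ^ 2 * ((σ ^ 2 * (r * q.1.im) ^ 2 + (r * q.1.re) ^ 2) + (1 - q.2) ^ 2) := by ring
  rw [h7, hσ2]
  have h8 : 0 < ε ^ 2 := by positivity
  nlinarith

theorem mer_mem_eb {κ : ℝ × ℂ → N} {p ε l : ℝ} {v : ℂ} (h0 : 0 < ε)
    (h : l ^ 2 + ‖v‖ ^ 2 ≤ ε ^ 2 / 4) : κ (p + l, v) ∈ eb κ p ε := by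
  refine ⟨(p + l, v), ?_, rfl⟩
  show (p + l - p) ^ 2 + ‖v‖ ^ 2 < ε ^ 2
  rw [add_sub_cancel_left]
  nlinarith [sq_pos_of_pos h0]

theorem mer_ex_fix (k : ℤ) (v : ℂ) : ex ((k : ℝ) * 1) * v = v := by
  rw [mul_one, RSG.ex_int, one_mul]

theorem mer_adm_symm {p p' ε : ℝ} (A : Adm p p' ε) : Adm p' p ε where
  pos := A.pos
  lt := A.lt
  far := fun k => by
    have h := A.far (-k)
    rw [show p - p' + ((-k : ℤ) : ℝ) = -(p' - p + k) by push_cast; ring, abs_neg] at h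
    exact h

theorem mer_zero_TD {x : ℝ} (h1 : -(1 / 4) < x) (h2 : x < 5 / 4) : ((0 : ℂ), x) ∈ TD :=
  ⟨by simp, h1, h2⟩

theorem fgr_meridian {κ : ℝ × ℂ → N} (hκ : Thick κ) {p p' ε : ℝ} (A : Adm p p' ε) {y y' : ((core κ)ᶜ : Set N)} {c : Path y y'}
    {K' : Set N} (h : Fgr κ p p' ε c K') (k : ℤ) {m : Path y y}
    (hm : RepI (fun t => κ (p, ((ε / 8 : ℝ) : ℂ) * ex (k * t))) 0 1 m) :
    ∃ K'' : Set N, Fgr κ p p' ε (m.trans c) K'' ∧ LEqN K' K'' := by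
  obtain ⟨σ, r, T, hT, hS, hc, rfl⟩ := h
  obtain ⟨X, hX1, hX2, hX3, hX4⟩ := mer_rot hκ p A.pos A.lt (-k)
  have hdisj := eb_disj hκ A
  have hfoot : ∀ q ∈ TD, q.2 < 1 / 4 → X 1 (T q) = T q := by
    intro q hq hx
    rw [hS.foot q hq hx]
    obtain ⟨l, v, h1, h2⟩ := mer_foot_mem (κ := κ) (p := p) A.pos hS.pos hS.le hq hx
    rw [h2, hX3 1 l v h1, mer_ex_fix]
  have htip : ∀ s, ∀ q ∈ TD, 3 / 4 < q.2 → X s (T q) = T q := by
    intro s q hq hx
    apply hX2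
    rw [hS.tip q hq hx]
    obtain ⟨l, v, h1, h2⟩ := mer_tip_mem (κ := κ) (p := p') A.pos hS.pos hS.le hS.sgn hq hx
    rw [h2]
    exact disjoint_right.1 hdisj (mer_mem_eb A.pos h1)
  have hd : RepI (fun s => X s (T (0, 1 / 8))) 0 1 m.symm := by
    have h1 := repI_symm hm
    have e : (fun s => X s (T (0, 1 / 8))) = fun s => κ (p, ((ε / 8 : ℝ) : ℂ) * ex (k * (1 - s))) := by
      funext s
      rw [hS.foot (0, 1 / 8) (mer_zero_TD (by norm_num) (by norm_num)) (by norm_num)]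
      have e2 : footT κ p ε ((r : ℂ) * (0 : ℂ), (1 / 8 : ℝ)) = κ (p + 0, ((ε / 8 : ℝ) : ℂ)) := by
        unfold footT
        congr 2
        · simp
        · apply Complex.ext
          · simp; ring
          · simp
      simp only [] at e2 ⊢
      rw [e2, hX3 s 0 _ (by
        rw [Complex.norm_real, Real.norm_eq_abs, sq_abs]
        nlinarith [sq_nonneg ε]), add_zero]
      congr 2
      rw [mul_comm]
      congr 1
      have e3 : (k : ℝ) * (1 - s) = ((-k : ℤ) : ℝ) * s + ((k : ℤ) : ℝ) := by push_cast; ring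
      rw [e3, RSG.ex_add_int]
    rw [e]
    unfold RepI at h1 ⊢
    have e4 : (fun t : ℝ => (fun s : ℝ => κ (p, ((ε / 8 : ℝ) : ℂ) * ex (k * (1 - s))))
        (0 + t * (1 - 0))) = (fun t : ℝ => (fun t : ℝ => κ (p, ((ε / 8 : ℝ) : ℂ) * ex (k * t)))
        (1 + t * (0 - 1))) := by
      funext t
      simp only
      congr 4
      ring
    rw [e4]
    exact h1
  have hcc := repI_cont hc
  have hd' : RepI (fun s => X s (T (0, 7 / 8))) 0 1 (Path.refl y') := by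
    apply repI_const
    intro t _
    rw [htip t (0, 7 / 8) (mer_zero_TD (by norm_num) (by norm_num)) (by norm_num)]
    exact hcc.2.2.2
  have hr : StdR κ p p' ε σ r fun q => X 1 (T q) :=
    ⟨hS.sgn, hS.pos, hS.le, fun q hq hx => by rw [hfoot q hq hx]; exact hS.foot q hq hx,
      fun q hq hx => by rw [htip 1 q hq hx]; exact hS.tip q hq hx⟩
  obtain ⟨K'', hK1, hK2⟩ := fgr_move hX1 hX4 hT hc hd hd' hr
  refine ⟨K'', fgr_congr ?_ hK1, hK2⟩
  rw [Path.symm_symm]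
  exact Path.Homotopic.hcomp (Path.Homotopic.refl m) ⟨Path.Homotopy.transRefl c⟩

theorem fgr_meridian_tip {κ : ℝ × ℂ → N} (hκ : Thick κ) {p p' ε : ℝ} (A : Adm p p' ε) {y y' : ((core κ)ᶜ : Set N)}
    {c : Path y y'} {K' : Set N} (h : Fgr κ p p' ε c K') (k : ℤ) {m : Path y' y'}
    (hm : RepI (fun t => κ (p', ((ε / 8 : ℝ) : ℂ) * ex (k * t))) 0 1 m) :
    ∃ K'' : Set N, Fgr κ p p' ε (c.trans m) K'' ∧ LEqN K' K'' := by
  obtain ⟨σ, r, T, hT, hS, hc, rfl⟩ := h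
  obtain ⟨X, hX1, hX2, hX3, hX4⟩ := mer_rot hκ p' A.pos A.lt k
  have hdisj := eb_disj hκ (mer_adm_symm A)
  have htip : ∀ q ∈ TD, 3 / 4 < q.2 → X 1 (T q) = T q := by
    intro q hq hx
    rw [hS.tip q hq hx]
    obtain ⟨l, v, h1, h2⟩ := mer_tip_mem (κ := κ) (p := p') A.pos hS.pos hS.le hS.sgn hq hx
    rw [h2, hX3 1 l v h1, mer_ex_fix]
  have hfoot : ∀ s, ∀ q ∈ TD, q.2 < 1 / 4 → X s (T q) = T q := by
    intro s q hq hx
    apply hX2
    rw [hS.foot q hq hx]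
    obtain ⟨l, v, h1, h2⟩ := mer_foot_mem (κ := κ) (p := p) A.pos hS.pos hS.le hq hx
    rw [h2]
    exact disjoint_right.1 hdisj (mer_mem_eb A.pos h1)
  have hd' : RepI (fun s => X s (T (0, 7 / 8))) 0 1 m := by
    have e : (fun s => X s (T (0, 7 / 8))) = fun s => κ (p', ((ε / 8 : ℝ) : ℂ) * ex (k * s)) := by
      funext s
      rw [hS.tip (0, 7 / 8) (mer_zero_TD (by norm_num) (by norm_num)) (by norm_num)]
      have e2 : tipT κ p' ε σ ((r : ℂ) * (0 : ℂ), (7 / 8 : ℝ)) = κ (p' + 0, ((ε / 8 : ℝ) : ℂ)) := by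
        unfold tipT
        congr 2
        · simp
        · apply Complex.ext
          · simp; ring
          · simp
      simp only [] at e2 ⊢
      rw [e2, hX3 s 0 _ (by
        rw [Complex.norm_real, Real.norm_eq_abs, sq_abs]
        nlinarith [sq_nonneg ε]), add_zero, mul_comm]
    rw [e]
    exact hm
  have hcc := repI_cont hc
  have hd : RepI (fun s => X s (T (0, 1 / 8))) 0 1 (Path.refl y) := by
    apply repI_const
    intro t _
    rw [hfoot t (0, 1 / 8) (mer_zero_TD (by norm_num) (by norm_num)) (by norm_num)]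
    exact hcc.2.2.1
  have hr : StdR κ p p' ε σ r fun q => X 1 (T q) :=
    ⟨hS.sgn, hS.pos, hS.le, fun q hq hx => by rw [hfoot 1 q hq hx]; exact hS.foot q hq hx,
      fun q hq hx => by rw [htip q hq hx]; exact hS.tip q hq hx⟩
  obtain ⟨K'', hK1, hK2⟩ := fgr_move hX1 hX4 hT hc hd hd' hr
  refine ⟨K'', fgr_congr ?_ hK1, hK2⟩
  rw [Path.refl_symm]
  exact ⟨Path.Homotopy.reflTrans _⟩

end

end Pool.Agent.NHE
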