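import Pool.Agent.NHE.Mvc
import Pool.Agent.NHE.KCh
import Pool.Agent.NHE.Pth
import Pool.Agent.NHP.Tra
import Pool.Agent.NHP.Sma

/-!
# NHE/Sld: sliding the ends of the finger along the knot (difficulty 4)

SMALL STEP: there is `μ > 0` such that the statement holds for `|p₁ - p₀| ≤ μ` and all `p₀` in the segment.  `A` and compactness of the segment give `η > 0` with `2 ε + 2 η < |p - p' + k|` for all `p` in the segment and all `k`.  In the chart `κ` on `|l - p₀| < ε + 2 η < 1/2` (`η` small), `‖v‖ < 1`: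
push `(l, v) ↦ (l + s (p₁ - p₀) χ (l) ψ (‖v‖²), v)`, `χ = 1` for `|l - p₀| ≤ ε`, `0` for `|l - p₀| ≥ ε + η`, `ψ = 1` for `‖v‖ ≤ ε`, `0` for `‖v‖ ≥ 1/2`; `small_fam` applies for `|p₁ - p₀| ≤ μ`, `μ` small compared with `η` and `1/4`.  `X s '' core κ = core κ` (the core is `v = 0`, `X s` is a permutation which preserves `v`).
`X 1 (κ (p₀ + l, v)) = κ (p₁ + l, v)` for `|l| ≤ ε`, `‖v‖ ≤ ε`; the tip ball `eb κ p' ε` is fixed.  `fgr_move`: class `d.symm.trans (c.trans refl)`, `d` = class of `κ (·, ε/8)` from `p₀` to `p₁`.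
INDUCTION on the number of steps (`repI_trans`).  The tip in the same way.
-/

open scoped Manifold ContDiff Topology
open Set Filter
open Pool.Agent.CSG (stp)
open Pool.Agent.RSG (E3 ex Thick)
open Pool.Agent.KNT (Dom Str Str2 BalC bmp)
open Pool.Agent.NHP

namespace Pool.Agent.NHE

/-- cut-off function -/
noncomputable def sldChi (ε η : ℝ) (q : E) : ℝ :=
  (1 - stp (ε ^ 2) ((ε + η) ^ 2) (q.1.re ^ 2)) * (1 - stp (ε ^ 2) (1 / 4) (q.2 ^ 2 + q.1.im ^ 2))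

/-- its support -/
def sldK (ε η : ℝ) : Set E := {q | q.1.re ^ 2 ≤ (ε + η) ^ 2 ∧ q.2 ^ 2 + q.1.im ^ 2 ≤ 1 / 4}

theorem sld_re : ContDiff ℝ ∞ fun q : E => q.1.re := Complex.reCLM.contDiff.comp contDiff_fst

theorem sld_im : ContDiff ℝ ∞ fun q : E => q.1.im := Complex.imCLM.contDiff.comp contDiff_fst

theorem sldChi_smooth (ε η : ℝ) : ContDiff ℝ ∞ (sldChi ε η) := by
  unfold sldChi
  refine (contDiff_const.sub ((CSG.stp_smooth _ _).comp (sld_re.pow 2))).mul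
    (contDiff_const.sub ((CSG.stp_smooth _ _).comp ((contDiff_snd.pow 2).add (sld_im.pow 2))))

theorem sldChi_one {ε η : ℝ} (h0 : 0 < ε) (h1 : ε < 1 / 4) (h2 : 0 < η) {q : E} (hq : q.1.re ^ 2 ≤ ε ^ 2)
    (hq' : q.2 ^ 2 + q.1.im ^ 2 ≤ ε ^ 2) : sldChi ε η q = 1 := by
  unfold sldChi
  have e1 : ε ^ 2 < (ε + η) ^ 2 := by nlinarith
  have e2 : ε ^ 2 < 1 / 4 := by nlinarith
  rw [CSG.stp_zero e1 hq, CSG.stp_zero e2 hq']
  norm_num

theorem sldChi_zero {ε η : ℝ} (h0 : 0 < ε) (h1 : ε < 1 / 4) (h2 : 0 < η) {q : E}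
    (hq : (ε + η) ^ 2 ≤ q.1.re ^ 2 ∨ 1 / 4 ≤ q.2 ^ 2 + q.1.im ^ 2) : sldChi ε η q = 0 := by
  unfold sldChi
  have e1 : ε ^ 2 < (ε + η) ^ 2 := by nlinarith
  have e2 : ε ^ 2 < 1 / 4 := by nlinarith
  rcases hq with hq | hq
  · rw [CSG.stp_one e1 hq, sub_self, zero_mul]
  · rw [CSG.stp_one e2 hq, sub_self, mul_zero]

theorem sldK_compact (ε η : ℝ) : IsCompact (sldK ε η) := by
  refine Metric.isCompact_of_isClosed_isBounded ?_ ?_
  · exact (isClosed_le (sld_re.pow 2).continuous continuous_const).inter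
      (isClosed_le ((contDiff_snd (𝕜 := ℝ) (E := ℂ) (F := ℝ) (n := ∞)).pow 2 |>.add (sld_im.pow 2)).continuous
        continuous_const)
  · rw [isBounded_iff_forall_norm_le]
    refine ⟨|ε + η| + 1, fun q hq => ?_⟩
    obtain ⟨hq1, hq2⟩ := hq
    have a1 : |q.1.re| ≤ |ε + η| := sq_le_sq.1 hq1
    have a2 : |q.1.im| ≤ 1 := by
      rw [← sq_le_one_iff_abs_le_one]
      nlinarith [sq_nonneg q.2]
    have a3 : |q.2| ≤ 1 := by
      rw [← sq_le_one_iff_abs_le_one]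
      nlinarith [sq_nonneg q.1.im]
    rw [Prod.norm_def]
    refine max_le ?_ ?_
    · have := Complex.norm_le_abs_re_add_abs_im q.1
      linarith
    · rw [Real.norm_eq_abs]
      have := abs_nonneg (ε + η)
      linarith

/-- the chart domain -/
def sldO : Set E := {q : E | |q.1.re| < 1 / 2 ∧ ‖(⟨q.2, q.1.im⟩ : ℂ)‖ < 1}

theorem sldK_sub {ε η : ℝ} (h0 : 0 < ε) (h2 : 0 < η) (h3 : ε + η < 1 / 2) : sldK ε η ⊆ sldO := by
  intro q hq
  obtain ⟨hq1, hq2⟩ := hq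
  refine ⟨?_, ?_⟩
  · have a1 : |q.1.re| ≤ |ε + η| := sq_le_sq.1 hq1
    rw [abs_of_pos (by linarith : 0 < ε + η)] at a1
    linarith
  · have a1 : ‖(⟨q.2, q.1.im⟩ : ℂ)‖ ^ 2 = q.2 ^ 2 + q.1.im ^ 2 := by
      rw [← Complex.normSq_eq_norm_sq, Complex.normSq_mk]
      ring
    have a2 : 0 ≤ ‖(⟨q.2, q.1.im⟩ : ℂ)‖ := norm_nonneg _
    nlinarith

theorem sld_pushE {ε η : ℝ} (h0 : 0 < ε) (h1 : ε < 1 / 4) (h2 : 0 < η) (h3 : ε + η < 1 / 2) :
    ∃ μ : ℝ, 0 < μ ∧ ∀ δ : ℝ, |δ| ≤ μ → ∃ V : ℝ → Equiv.Perm E, PushE sldO V ∧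
      ∀ s q, V s q = q + (((stp 0 1 s * δ * sldChi ε η q : ℝ) : ℂ), (0 : ℝ)) := by
  have hcs : HasCompactSupport (sldChi ε η) := by
    refine HasCompactSupport.intro (sldK_compact ε η) fun q hq => ?_
    refine sldChi_zero h0 h1 h2 ?_
    by_contra hh
    rw [not_or, not_le, not_le] at hh
    exact hq ⟨hh.1.le, hh.2.le⟩
  obtain ⟨M, hM⟩ := (hcs.fderiv ℝ).exists_bound_of_continuous
    ((sldChi_smooth ε η).continuous_fderiv (by simp))
  have hM0 : 0 ≤ M := (norm_nonneg _).trans (hM 0)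
  refine ⟨1 / (2 * (M + 1)), by positivity, fun δ hδ => ?_⟩
  set e₁ : E := ((1 : ℂ), (0 : ℝ)) with he₁
  have hne : ‖e₁‖ ≤ 1 := by
    rw [he₁, Prod.norm_def]
    simp
  set G : ℝ × E → E := fun p => (stp 0 1 p.1 * δ * sldChi ε η p.2) • e₁ with hG
  have hGs : ContDiff ℝ ∞ G := by
    have hs1 : ContDiff ℝ ∞ fun p : ℝ × E => stp 0 1 p.1 * δ * sldChi ε η p.2 :=
      (((CSG.stp_smooth 0 1).comp contDiff_fst).mul contDiff_const).mul
        ((sldChi_smooth ε η).comp contDiff_snd)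
    exact hs1.smul contDiff_const
  have hGb : ∀ q : ℝ × E, ‖(fderiv ℝ G q).comp (ContinuousLinearMap.inr ℝ ℝ E)‖ ≤ 1 / 2 := by
    intro q
    have hd1 : HasFDerivAt (fun x : E => G (q.1, x))
        ((fderiv ℝ G q).comp (ContinuousLinearMap.inr ℝ ℝ E)) q.2 := by
      have g1 : HasFDerivAt G (fderiv ℝ G q) (q.1, q.2) :=
        (hGs.differentiable (by simp) q).hasFDerivAt
      exact g1.comp q.2 (hasFDerivAt_prodMk_right (𝕜 := ℝ) q.1 q.2)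
    have hd2 : HasFDerivAt (fun x : E => G (q.1, x))
        (((stp 0 1 q.1 * δ) • fderiv ℝ (sldChi ε η) q.2).smulRight e₁) q.2 := by
      have g2 : HasFDerivAt (sldChi ε η) (fderiv ℝ (sldChi ε η) q.2) q.2 :=
        ((sldChi_smooth ε η).differentiable (by simp) q.2).hasFDerivAt
      exact (g2.const_mul (stp 0 1 q.1 * δ)).smul_const e₁
    rw [hd1.unique hd2]
    have b1 : ‖((stp 0 1 q.1 * δ) • fderiv ℝ (sldChi ε η) q.2).smulRight e₁‖ ≤
        ‖(stp 0 1 q.1 * δ) • fderiv ℝ (sldChi ε η) q.2‖ * ‖e₁‖ :=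
      (ContinuousLinearMap.norm_smulRight_apply _ _).le
    have b2 : ‖(stp 0 1 q.1 * δ) • fderiv ℝ (sldChi ε η) q.2‖ ≤ |δ| * M := by
      rw [norm_smul, Real.norm_eq_abs, abs_mul, abs_of_nonneg (CSG.stp_nonneg _ _ _)]
      have b3 : stp 0 1 q.1 * |δ| ≤ |δ| := by
        have := mul_le_mul_of_nonneg_right (CSG.stp_le_one 0 1 q.1) (abs_nonneg δ)
        linarith
      exact mul_le_mul b3 (hM q.2) (norm_nonneg _) (abs_nonneg _)
    have b4 : |δ| * M ≤ 1 / 2 := by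
      have c1 : |δ| * M ≤ 1 / (2 * (M + 1)) * M := mul_le_mul_of_nonneg_right hδ hM0
      have c2 : 1 / (2 * (M + 1)) * M ≤ 1 / 2 := by
        rw [div_mul_eq_mul_div, one_mul, div_le_div_iff₀ (by positivity) (by norm_num)]
        linarith
      linarith
    have b5 : ‖(stp 0 1 q.1 * δ) • fderiv ℝ (sldChi ε η) q.2‖ * ‖e₁‖ ≤ 1 / 2 * 1 :=
      mul_le_mul (b2.trans b4) hne (norm_nonneg _) (by norm_num)
    linarith
  obtain ⟨F, hF1, hF2, hF3⟩ := small_fam hGs hGb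
  have hform : ∀ s q, F s q = q + (((stp 0 1 s * δ * sldChi ε η q : ℝ) : ℂ), (0 : ℝ)) := by
    intro s q
    rw [hF3]
    congr 1
    rw [hG, he₁]
    refine Prod.ext ?_ ?_
    · simp
    · simp
  refine ⟨F, ⟨hF1, hF2, ?_, sldK ε η, sldK_compact ε η, sldK_sub h0 h2 h3, ?_⟩, hform⟩
  · ext1 q
    rw [hform, CSG.stp_zero (by norm_num) (le_refl (0 : ℝ))]
    simp
  · intro s q hq
    have : sldChi ε η q = 0 := by
      refine sldChi_zero h0 h1 h2 ?_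
      by_contra hh
      rw [not_or, not_le, not_le] at hh
      exact hq ⟨hh.1.le, hh.2.le⟩
    rw [hform, this]
    simp

/-- a function of the parameter reaches the end of the segment by small steps -/
theorem sld_iter {p₀ p₁ μ : ℝ} (hμ : 0 < μ) (P : ℝ → Prop) (h0 : P p₀)
    (hstep : ∀ a ∈ uIcc p₀ p₁, ∀ b ∈ uIcc p₀ p₁, |b - a| ≤ μ → P a → P b) : P p₁ := by
  obtain ⟨n, hn⟩ := exists_nat_ge (|p₁ - p₀| / μ)
  have hn1 : |p₁ - p₀| ≤ (n + 1 : ℝ) * μ := by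
    rw [div_le_iff₀ hμ] at hn
    nlinarith
  have hmem : ∀ t : ℝ, 0 ≤ t → t ≤ 1 → p₀ + t * (p₁ - p₀) ∈ uIcc p₀ p₁ := by
    intro t ht0 ht1
    rw [mem_uIcc]
    rcases le_total p₀ p₁ with h | h
    · left
      constructor <;> nlinarith
    · right
      constructor <;> nlinarith
  have hpos : (0 : ℝ) < n + 1 := by positivity
  have key : ∀ i : ℕ, i ≤ n + 1 → P (p₀ + (i : ℝ) / (n + 1) * (p₁ - p₀)) := by
    intro i
    induction i with
    | zero =>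
      intro _
      simpa using h0
    | succ i ih =>
      intro hi
      have hi' : (i : ℝ) + 1 ≤ n + 1 := by exact_mod_cast hi
      refine hstep _ (hmem _ (by positivity) ?_) _ (hmem _ (by positivity) ?_) ?_ (ih (by omega))
      · rw [div_le_one hpos]
        linarith
      · rw [div_le_one hpos]
        push_cast
        linarith
      · have e1 : p₀ + ((i + 1 : ℕ) : ℝ) / (n + 1) * (p₁ - p₀) - (p₀ + (i : ℝ) / (n + 1) * (p₁ - p₀)) =
            (p₁ - p₀) / (n + 1) := by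
          push_cast
          field_simp
          ring
        rw [e1, abs_div, abs_of_pos hpos, div_le_iff₀ hpos]
        linarith
  have h1 := key (n + 1) (le_refl _)
  have e2 : p₀ + ((n + 1 : ℕ) : ℝ) / (n + 1) * (p₁ - p₀) = p₁ := by
    push_cast
    rw [div_self hpos.ne']
    ring
  rw [e2] at h1
  exact h1

/-- a uniform margin -/
theorem sld_margin {p₀ p₁ p' ε : ℝ} (h : ∀ t ∈ uIcc p₀ p₁, ∀ k : ℤ, 2 * ε < |t - p' + k|) (h0 : 0 < ε) :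
    ∃ η : ℝ, 0 < η ∧ ∀ t ∈ uIcc p₀ p₁, ∀ k : ℤ, 2 * ε + η ≤ |t - p' + k| := by
  have hr : ∀ x : ℝ, (∀ k : ℤ, 2 * ε < |x + k|) → ∃ η : ℝ, 0 < η ∧ ∀ k : ℤ, 2 * ε + η ≤ |x + k| := by
    intro x hx
    refine ⟨|x - round x| - 2 * ε, ?_, fun k => ?_⟩
    · have := hx (-round x)
      push_cast at this
      rw [← sub_eq_add_neg] at this
      linarith
    · have := round_le x (-k)
      push_cast at this
      rw [sub_neg_eq_add] at this
      linarith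
  obtain ⟨η₀, hη₀, g₀⟩ := hr (p₀ - p') (fun k => h p₀ left_mem_uIcc k)
  obtain ⟨η₁, hη₁, g₁⟩ := hr (p₁ - p') (fun k => h p₁ right_mem_uIcc k)
  refine ⟨min η₀ η₁, lt_min hη₀ hη₁, fun t ht k => ?_⟩
  have a0 := g₀ k
  have a1 := g₁ k
  have m0 := min_le_left η₀ η₁
  have m1 := min_le_right η₀ η₁
  have hno : p' - k ∉ uIcc p₀ p₁ := by
    intro hh
    have := h _ hh k
    rw [show p' - (k : ℝ) - p' + k = 0 by ring, abs_zero] at this
    linarith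
  rw [mem_uIcc, not_or, not_and_or, not_and_or] at hno
  rw [mem_uIcc] at ht
  obtain ⟨n1, n2⟩ := hno
  have hlt : 0 < 2 * ε := by linarith
  rcases ht with ht | ht
  · rcases n1 with n1 | n1
    · -- `p' - k < p₀ ≤ t`
      rw [not_le] at n1
      rw [abs_of_pos (by linarith)] at a0
      rw [abs_of_pos (by linarith)]
      linarith
    · rw [not_le] at n1
      rw [abs_of_neg (by linarith)] at a1
      rw [abs_of_neg (by linarith)]
      linarith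
  · rcases n2 with n2 | n2
    · rw [not_le] at n2
      rw [abs_of_pos (by linarith)] at a1
      rw [abs_of_pos (by linarith)]
      linarith
    · rw [not_le] at n2
      rw [abs_of_neg (by linarith)] at a0
      rw [abs_of_neg (by linarith)]
      linarith

section
variable {N : Type*} [TopologicalSpace N] [ChartedSpace E3 N]

theorem sld_shift (κ : ℝ × ℂ → N) (p c : ℝ) (q : E) :
    footT κ p 1 (q + ((c : ℂ), (0 : ℝ))) = footT κ (p + c) 1 q := by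
  unfold footT
  congr 1
  refine Prod.ext ?_ ?_
  · simp only [Prod.fst_add, Complex.add_re, Complex.ofReal_re, one_mul]
    ring
  · simp only [Prod.fst_add, Prod.snd_add, Complex.add_im, Complex.ofReal_im, add_zero]

variable [T2Space N]

theorem sld_push {κ : ℝ × ℂ → N} (hκ : Thick κ) {ε η : ℝ} (h0 : 0 < ε) (h1 : ε < 1 / 4) (h2 : 0 < η)
    (h3 : ε + η < 1 / 2) : ∃ μ : ℝ, 0 < μ ∧ ∀ p₀ δ : ℝ, |δ| ≤ μ → ∃ (O : Set N) (X : ℝ → Equiv.Perm N), Push O X ∧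
      (∀ s, X s '' core κ = core κ) ∧
      (∀ s, ∀ q : E, q.1.re ^ 2 ≤ ε ^ 2 → q.2 ^ 2 + q.1.im ^ 2 ≤ ε ^ 2 →
        X s (footT κ p₀ 1 q) = footT κ (p₀ + stp 0 1 s * δ) 1 q) ∧
      ∀ s l, ∀ v : ℂ, ‖v‖ < 1 → (∀ k : ℤ, ε + η ≤ |l - p₀ + k|) → X s (κ (l, v)) = κ (l, v) := by
  obtain ⟨μ, hμ, hV⟩ := sld_pushE h0 h1 h2 h3
  refine ⟨μ, hμ, fun p₀ δ hδ => ?_⟩
  obtain ⟨V, hV1, hV2⟩ := hV δ hδ
  have hc : Cht sldO (footT κ p₀ 1) := foot_cht hκ p₀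
  obtain ⟨X, hX1, hX2, hX3⟩ := push_chart hc hV1
  have hline : ∀ s q, (V s q).2 = q.2 ∧ (V s q).1.im = q.1.im := by
    intro s q
    rw [hV2]
    constructor
    · simp
    · simp
  have hcore : ∀ s x, X s x ∈ core κ ↔ x ∈ core κ := by
    intro s x
    by_cases hx : x ∈ footT κ p₀ 1 '' sldO
    · obtain ⟨q, hq, rfl⟩ := hx
      have hVq := hV1.mem s hq
      rw [hX2 s q hq, foot_core hκ p₀ hVq.2, foot_core hκ p₀ hq.2, (hline s q).1, (hline s q).2]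
    · rw [hX3 s x hx]
  refine ⟨_, X, hX1, ?_, ?_, ?_⟩
  · intro s
    ext x
    constructor
    · rintro ⟨y, hy, rfl⟩
      exact (hcore s y).2 hy
    · intro hx
      refine ⟨(X s).symm x, ?_, Equiv.apply_symm_apply _ _⟩
      rw [← hcore s, Equiv.apply_symm_apply]
      exact hx
  · intro s q hq1 hq2
    have hq : q ∈ sldO := by
      refine sldK_sub h0 h2 h3 ⟨?_, ?_⟩
      · nlinarith
      · nlinarith
    rw [hX2 s q hq, hV2, sldChi_one h0 h1 h2 hq1 hq2, mul_one, sld_shift]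
  · intro s l v hv hk
    by_cases hx : κ (l, v) ∈ footT κ p₀ 1 '' sldO
    · obtain ⟨q, hq, he⟩ := hx
      have h4 : κ (l, v) = κ (p₀ + 1 * q.1.re, ((1 : ℝ) : ℂ) * ⟨q.2, q.1.im⟩) := he.symm
      have hn : ‖((1 : ℝ) : ℂ) * ⟨q.2, q.1.im⟩‖ < 1 := by
        rw [Complex.ofReal_one, one_mul]
        exact hq.2
      obtain ⟨_, m, hm⟩ := hκ.inj l v _ _ hv hn h4
      have h5 : ε + η ≤ |q.1.re| := by
        have h6 := hk m
        rw [show l - p₀ + m = q.1.re by linarith] at h6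
        exact h6
      have h7 : sldChi ε η q = 0 := by
        refine sldChi_zero h0 h1 h2 (Or.inl ?_)
        rw [← sq_abs q.1.re]
        nlinarith
      rw [← he, hX2 s q hq, hV2, h7, mul_zero, Complex.ofReal_zero, Prod.mk_zero_zero, add_zero]
    · exact hX3 s _ hx


theorem sld_fix {κ : ℝ × ℂ → N} {X : ℝ → Equiv.Perm N} {p₀ ε η : ℝ}
    (hfix : ∀ s l, ∀ v : ℂ, ‖v‖ < 1 → (∀ k : ℤ, ε + η ≤ |l - p₀ + k|) → X s (κ (l, v)) = κ (l, v)) {p : ℝ}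
    (hm : ∀ k : ℤ, 2 * ε + η ≤ |p - p₀ + k|) (s : ℝ) {l : ℝ} {v : ℂ} (hv : ‖v‖ < 1) (hl : |l - p| ≤ ε) :
    X s (κ (l, v)) = κ (l, v) := by
  refine hfix s l v hv fun k => ?_
  have h1 := hm k
  have h2 : |p - p₀ + k| ≤ |l - p₀ + k| + |l - p| := by
    have h3 : p - p₀ + k = (l - p₀ + k) - (l - p) := by ring
    rw [h3]
    exact abs_sub _ _
  linarith

theorem sld_small {ε x t : ℝ} (h0 : 0 < ε) (h1 : ε < 1 / 4) (hx : |x| ≤ 1 / 4) (ht : |t| ≤ 1 / 8) :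
    ‖(ε : ℂ) * ⟨x, t⟩‖ < 1 := by
  have e1 : ‖(⟨x, t⟩ : ℂ)‖ ≤ |x| + |t| := Complex.norm_le_abs_re_add_abs_im _
  rw [norm_mul, Complex.norm_real, Real.norm_eq_abs, abs_of_pos h0]
  have e2 : ε * ‖(⟨x, t⟩ : ℂ)‖ ≤ 1 / 4 * (1 / 4 + 1 / 8) :=
    mul_le_mul h1.le (by linarith) (norm_nonneg _) (by norm_num)
  linarith

theorem sld_abs {r : ℝ} (hr0 : 0 < r) (hr : r ≤ 1 / 8) {w : ℂ} (hw : ‖w‖ < 1) :
    |((r : ℂ) * w).re| ≤ 1 / 8 ∧ |((r : ℂ) * w).im| ≤ 1 / 8 := by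
  have e1 : ‖(r : ℂ) * w‖ ≤ 1 / 8 := by
    rw [norm_mul, Complex.norm_real, Real.norm_eq_abs, abs_of_pos hr0]
    have : r * ‖w‖ ≤ 1 / 8 * 1 := mul_le_mul hr hw.le (norm_nonneg _) (by norm_num)
    linarith
  exact ⟨(Complex.abs_re_le_norm _).trans e1, (Complex.abs_im_le_norm _).trans e1⟩

theorem sld_foot_mem {ε : ℝ} (h0 : 0 < ε) {w : ℂ} {x : ℝ} (h1 : |w.re| ≤ 1 / 8) (h2 : |w.im| ≤ 1 / 8) (h3 : |x| ≤ 1 / 4) :
    ((ε • ((w, x) : E)).1.re) ^ 2 ≤ ε ^ 2 ∧ (ε • ((w, x) : E)).2 ^ 2 + ((ε • ((w, x) : E)).1.im) ^ 2 ≤ ε ^ 2 := by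
  have a1 : w.re ^ 2 ≤ (1 / 8) ^ 2 := by
    rw [← sq_abs]
    exact pow_le_pow_left₀ (abs_nonneg _) h1 2
  have a2 : w.im ^ 2 ≤ (1 / 8) ^ 2 := by
    rw [← sq_abs]
    exact pow_le_pow_left₀ (abs_nonneg _) h2 2
  have a3 : x ^ 2 ≤ (1 / 4) ^ 2 := by
    rw [← sq_abs]
    exact pow_le_pow_left₀ (abs_nonneg _) h3 2
  have e : 0 < ε ^ 2 := by positivity
  simp only [Prod.smul_mk, Complex.real_smul, smul_eq_mul, Complex.mul_re, Complex.mul_im, Complex.ofReal_re,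
    Complex.ofReal_im, zero_mul, sub_zero, add_zero]
  constructor
  · nlinarith
  · nlinarith

theorem sld_foot_step [IsManifold (𝓡 3) ∞ N] {κ : ℝ × ℂ → N} {p₀ p₁ p' ε η : ℝ} (h0 : 0 < ε) (h1 : ε < 1 / 4)
    {O : Set N} {X : ℝ → Equiv.Perm N} (hX : Push O X) (hK : ∀ s, X s '' core κ = core κ)
    (hmove : ∀ s, ∀ q : E, q.1.re ^ 2 ≤ ε ^ 2 → q.2 ^ 2 + q.1.im ^ 2 ≤ ε ^ 2 →
      X s (footT κ p₀ 1 q) = footT κ (p₀ + stp 0 1 s * (p₁ - p₀)) 1 q)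
    (hfix : ∀ s l, ∀ v : ℂ, ‖v‖ < 1 → (∀ k : ℤ, ε + η ≤ |l - p₀ + k|) → X s (κ (l, v)) = κ (l, v))
    (hm : ∀ k : ℤ, 2 * ε + η ≤ |p' - p₀ + k|) (hκc : ∀ t ∈ uIcc p₀ p₁, κ (t, ((ε / 8 : ℝ) : ℂ)) ∈ (core κ)ᶜ)
    {y y' y₁ : ((core κ)ᶜ : Set N)} {c : Path y y'} {K' : Set N} (h : Fgr κ p₀ p' ε c K') {d : Path y y₁}
    (hd : RepI (fun l => κ (l, ((ε / 8 : ℝ) : ℂ))) p₀ p₁ d) :
    ∃ K'' : Set N, Fgr κ p₁ p' ε (d.symm.trans c) K'' ∧ LEqN K' K'' := by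
  obtain ⟨σ, r, T, hT, hS, hc, rfl⟩ := h
  have hs1 : ∀ s : ℝ, 0 ≤ stp 0 1 s ∧ stp 0 1 s ≤ 1 := fun s => ⟨CSG.stp_nonneg _ _ _, CSG.stp_le_one _ _ _⟩
  have hst0 : stp 0 1 0 = 0 := CSG.stp_zero (by norm_num) (le_refl (0 : ℝ))
  have hst1 : stp 0 1 1 = 1 := CSG.stp_one (by norm_num) (le_refl (1 : ℝ))
  -- the foot ball is moved
  have hfoot : ∀ s, ∀ q ∈ TD, q.2 < 1 / 4 → X s (footT κ p₀ ε ((r : ℂ) * q.1, q.2)) =
      footT κ (p₀ + stp 0 1 s * (p₁ - p₀)) ε ((r : ℂ) * q.1, q.2) := by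
    intro s q hq hq2
    obtain ⟨a1, a2⟩ := sld_abs hS.pos hS.le hq.1
    have a3 : |q.2| ≤ 1 / 4 := by
      rw [abs_le]
      exact ⟨by linarith [hq.2.1], hq2.le⟩
    obtain ⟨b1, b2⟩ := sld_foot_mem h0 a1 a2 a3
    rw [foot_smul κ p₀ ε, foot_smul κ (p₀ + stp 0 1 s * (p₁ - p₀)) ε, hmove s _ b1 b2]
  -- the tip ball is fixed
  have htip : ∀ s, ∀ q ∈ TD, 3 / 4 < q.2 → X s (tipT κ p' ε σ ((r : ℂ) * q.1, q.2)) =
      tipT κ p' ε σ ((r : ℂ) * q.1, q.2) := by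
    intro s q hq hq2
    obtain ⟨a1, a2⟩ := sld_abs hS.pos hS.le hq.1
    have hq3 := hq.2.2
    have a3 : |1 - q.2| ≤ 1 / 4 := by
      rw [abs_le]
      constructor <;> linarith
    unfold tipT
    refine sld_fix hfix hm s (sld_small h0 h1 a3 a1) ?_
    rw [add_sub_cancel_left, abs_mul, abs_mul, abs_of_pos h0]
    have a4 : |σ| = 1 := by
      rcases hS.sgn with h | h <;> rw [h] <;> norm_num
    rw [a4, one_mul]
    have : ε * |((r : ℂ) * q.1).im| ≤ ε * (1 / 8) := mul_le_mul_of_nonneg_left a2 h0.le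
    linarith
  have hTf : T (0, 1 / 8) = κ (p₀, ((ε / 8 : ℝ) : ℂ)) := by
    have hm0 : ((0, 1 / 8) : E) ∈ TD := ⟨by simp, by norm_num, by norm_num⟩
    rw [hS.foot _ hm0 (by norm_num)]
    unfold footT
    congr 1
    refine Prod.ext ?_ ?_
    · simp
    · refine Complex.ext ?_ ?_
      · simp
        ring
      · simp
  have hTt : T (0, 7 / 8) = y' := (repI_cont hc).2.2.2
  have hm1 : ((0, 7 / 8) : E) ∈ TD := ⟨by simp, by norm_num, by norm_num⟩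
  have hd1 : RepI (fun s => X s (T (0, 1 / 8))) 0 1 d := by
    have g1 : RepI (fun s => κ (p₀ + stp 0 1 s * (p₁ - p₀), ((ε / 8 : ℝ) : ℂ))) 0 1 d := by
      have hd' : RepI (fun l => κ (l, ((ε / 8 : ℝ) : ℂ))) (p₀ + stp 0 1 0 * (p₁ - p₀))
          (p₀ + stp 0 1 1 * (p₁ - p₀)) d := by
        rw [hst0, hst1, zero_mul, add_zero, one_mul, add_sub_cancel]
        exact hd
      refine repI_comp (g := fun s => p₀ + stp 0 1 s * (p₁ - p₀)) (a' := p₀) (b' := p₁) hd' ?_ (repI_cont hd).1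
        hκc ?_
      · exact ((CSG.stp_smooth 0 1).continuous.mul continuous_const).continuousOn.const_add _ |>.congr
          (fun s _ => rfl)
      · intro t _
        obtain ⟨t0, t1⟩ := hs1 t
        show p₀ + stp 0 1 t * (p₁ - p₀) ∈ uIcc p₀ p₁
        rw [mem_uIcc]
        rcases le_total p₀ p₁ with h | h
        · left
          constructor <;> nlinarith
        · right
          constructor <;> nlinarith
    refine repI_congr g1 fun s _ => ?_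
    have hm0 : ((0, 1 / 8) : E) ∈ TD := ⟨by simp, by norm_num, by norm_num⟩
    show X s (T (0, 1 / 8)) = _
    rw [hS.foot _ hm0 (by norm_num), hfoot s _ hm0 (by norm_num)]
    unfold footT
    congr 1
    refine Prod.ext ?_ ?_
    · simp
    · refine Complex.ext ?_ ?_
      · simp
        ring
      · simp
  have hd2 : RepI (fun s => X s (T (0, 7 / 8))) 0 1 (Path.refl y') := by
    refine repI_const fun t _ => ?_
    show X t (T (0, 7 / 8)) = _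
    rw [hS.tip _ hm1 (by norm_num), htip t _ hm1 (by norm_num), ← hS.tip _ hm1 (by norm_num)]
    exact hTt
  have hr : StdR κ p₁ p' ε σ r fun q => X 1 (T q) := by
    refine ⟨hS.sgn, hS.pos, hS.le, ?_, ?_⟩
    · intro q hq hq2
      show X 1 (T q) = _
      rw [hS.foot q hq hq2, hfoot 1 q hq hq2, hst1, one_mul, add_sub_cancel]
    · intro q hq hq2
      show X 1 (T q) = _
      rw [hS.tip q hq hq2, htip 1 q hq hq2]
  obtain ⟨K'', k1, k2⟩ := fgr_move hX hK hT hc hd1 hd2 hr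
  refine ⟨K'', fgr_congr ?_ k1, k2⟩
  exact Path.Homotopic.hcomp (Path.Homotopic.refl _) ⟨Path.Homotopy.transRefl c⟩

theorem sld_tip_step [IsManifold (𝓡 3) ∞ N] {κ : ℝ × ℂ → N} {p p₀ p₁ ε η : ℝ} (h0 : 0 < ε) (h1 : ε < 1 / 4)
    {O : Set N} {X : ℝ → Equiv.Perm N} (hX : Push O X) (hK : ∀ s, X s '' core κ = core κ)
    (hmove : ∀ s, ∀ q : E, q.1.re ^ 2 ≤ ε ^ 2 → q.2 ^ 2 + q.1.im ^ 2 ≤ ε ^ 2 →
      X s (footT κ p₀ 1 q) = footT κ (p₀ + stp 0 1 s * (p₁ - p₀)) 1 q)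
    (hfix : ∀ s l, ∀ v : ℂ, ‖v‖ < 1 → (∀ k : ℤ, ε + η ≤ |l - p₀ + k|) → X s (κ (l, v)) = κ (l, v))
    (hm : ∀ k : ℤ, 2 * ε + η ≤ |p - p₀ + k|) (hκc : ∀ t ∈ uIcc p₀ p₁, κ (t, ((ε / 8 : ℝ) : ℂ)) ∈ (core κ)ᶜ)
    {y y' y₁ : ((core κ)ᶜ : Set N)} {c : Path y y'} {K' : Set N} (h : Fgr κ p p₀ ε c K') {d : Path y' y₁}
    (hd : RepI (fun l => κ (l, ((ε / 8 : ℝ) : ℂ))) p₀ p₁ d) :
    ∃ K'' : Set N, Fgr κ p p₁ ε (c.trans d) K'' ∧ LEqN K' K'' := by
  obtain ⟨σ, r, T, hT, hS, hc, rfl⟩ := h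
  have hs1 : ∀ s : ℝ, 0 ≤ stp 0 1 s ∧ stp 0 1 s ≤ 1 := fun s => ⟨CSG.stp_nonneg _ _ _, CSG.stp_le_one _ _ _⟩
  have hst0 : stp 0 1 0 = 0 := CSG.stp_zero (by norm_num) (le_refl (0 : ℝ))
  have hst1 : stp 0 1 1 = 1 := CSG.stp_one (by norm_num) (le_refl (1 : ℝ))
  have a4 : |σ| = 1 := by
    rcases hS.sgn with h | h <;> rw [h] <;> norm_num
  -- the foot ball is fixed
  have hfoot : ∀ s, ∀ q ∈ TD, q.2 < 1 / 4 → X s (footT κ p ε ((r : ℂ) * q.1, q.2)) =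
      footT κ p ε ((r : ℂ) * q.1, q.2) := by
    intro s q hq hq2
    obtain ⟨a1, a2⟩ := sld_abs hS.pos hS.le hq.1
    have a3 : |q.2| ≤ 1 / 4 := by
      rw [abs_le]
      exact ⟨by linarith [hq.2.1], hq2.le⟩
    unfold footT
    refine sld_fix hfix hm s (sld_small h0 h1 a3 a2) ?_
    rw [add_sub_cancel_left, abs_mul, abs_of_pos h0]
    have : ε * |((r : ℂ) * q.1).re| ≤ ε * (1 / 8) := mul_le_mul_of_nonneg_left a1 h0.le
    linarith
  -- the tip ball is moved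
  have htip : ∀ s, ∀ q ∈ TD, 3 / 4 < q.2 → X s (tipT κ p₀ ε σ ((r : ℂ) * q.1, q.2)) =
      tipT κ (p₀ + stp 0 1 s * (p₁ - p₀)) ε σ ((r : ℂ) * q.1, q.2) := by
    intro s q hq hq2
    obtain ⟨a1, a2⟩ := sld_abs hS.pos hS.le hq.1
    have hq3 := hq.2.2
    have a3 : |1 - q.2| ≤ 1 / 4 := by
      rw [abs_le]
      constructor <;> linarith
    rw [tip_foot, tip_foot]
    have b0 : |σ * ((r : ℂ) * q.1).im| ≤ 1 / 8 := by
      rw [abs_mul, a4, one_mul]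
      exact a2
    obtain ⟨b1, b2⟩ := sld_foot_mem (w := ⟨σ * ((r : ℂ) * q.1).im, ((r : ℂ) * q.1).re⟩) (x := 1 - q.2) h0 b0 a1 a3
    have e1 : (((⟨σ * ε * ((r : ℂ) * q.1).im, ε * ((r : ℂ) * q.1).re⟩ : ℂ), ε * (1 - q.2)) : E) =
        ε • (((⟨σ * ((r : ℂ) * q.1).im, ((r : ℂ) * q.1).re⟩ : ℂ), 1 - q.2) : E) := by
      refine Prod.ext ?_ ?_
      · refine Complex.ext ?_ ?_
        · simp
          ring
        · simp
      · simp
    show X s (footT κ p₀ 1 ((⟨σ * ε * ((r : ℂ) * q.1).im, ε * ((r : ℂ) * q.1).re⟩ : ℂ), ε * (1 - q.2))) =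
      footT κ _ 1 ((⟨σ * ε * ((r : ℂ) * q.1).im, ε * ((r : ℂ) * q.1).re⟩ : ℂ), ε * (1 - q.2))
    rw [e1, hmove s _ b1 b2]
  have hm0 : ((0, 1 / 8) : E) ∈ TD := ⟨by simp, by norm_num, by norm_num⟩
  have hm1 : ((0, 7 / 8) : E) ∈ TD := ⟨by simp, by norm_num, by norm_num⟩
  have hTf : T (0, 1 / 8) = y := (repI_cont hc).2.2.1
  have hd2 : RepI (fun s => X s (T (0, 7 / 8))) 0 1 d := by
    have g1 : RepI (fun s => κ (p₀ + stp 0 1 s * (p₁ - p₀), ((ε / 8 : ℝ) : ℂ))) 0 1 d := by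
      have hd' : RepI (fun l => κ (l, ((ε / 8 : ℝ) : ℂ))) (p₀ + stp 0 1 0 * (p₁ - p₀))
          (p₀ + stp 0 1 1 * (p₁ - p₀)) d := by
        rw [hst0, hst1, zero_mul, add_zero, one_mul, add_sub_cancel]
        exact hd
      refine repI_comp (g := fun s => p₀ + stp 0 1 s * (p₁ - p₀)) (a' := p₀) (b' := p₁) hd' ?_ (repI_cont hd).1
        hκc ?_
      · exact ((CSG.stp_smooth 0 1).continuous.mul continuous_const).continuousOn.const_add _ |>.congr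
          (fun s _ => rfl)
      · intro t _
        obtain ⟨t0, t1⟩ := hs1 t
        show p₀ + stp 0 1 t * (p₁ - p₀) ∈ uIcc p₀ p₁
        rw [mem_uIcc]
        rcases le_total p₀ p₁ with h | h
        · left
          constructor <;> nlinarith
        · right
          constructor <;> nlinarith
    refine repI_congr g1 fun s _ => ?_
    show X s (T (0, 7 / 8)) = _
    rw [hS.tip _ hm1 (by norm_num), htip s _ hm1 (by norm_num)]
    unfold tipT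
    congr 1
    refine Prod.ext ?_ ?_
    · simp
    · refine Complex.ext ?_ ?_
      · simp
        ring
      · simp
  have hd1 : RepI (fun s => X s (T (0, 1 / 8))) 0 1 (Path.refl y) := by
    refine repI_const fun t _ => ?_
    show X t (T (0, 1 / 8)) = _
    rw [hS.foot _ hm0 (by norm_num), hfoot t _ hm0 (by norm_num), ← hS.foot _ hm0 (by norm_num)]
    exact hTf
  have hr : StdR κ p p₁ ε σ r fun q => X 1 (T q) := by
    refine ⟨hS.sgn, hS.pos, hS.le, ?_, ?_⟩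
    · intro q hq hq2
      show X 1 (T q) = _
      rw [hS.foot q hq hq2, hfoot 1 q hq hq2]
    · intro q hq hq2
      show X 1 (T q) = _
      rw [hS.tip q hq hq2, htip 1 q hq hq2, hst1, one_mul, add_sub_cancel]
  obtain ⟨K'', k1, k2⟩ := fgr_move hX hK hT hc hd1 hd2 hr
  refine ⟨K'', fgr_congr ?_ k1, k2⟩
  rw [Path.refl_symm]
  exact ⟨Path.Homotopy.reflTrans _⟩

end

section
variable {N : Type*} [TopologicalSpace N] [ChartedSpace E3 N] [IsManifold (𝓡 3) ∞ N] [T2Space N]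

theorem fgr_slide {κ : ℝ × ℂ → N} (hκ : Thick κ) {p₀ p₁ p' ε : ℝ} (A : ∀ t ∈ uIcc p₀ p₁, Adm t p' ε)
    {y y' y₁ : ((core κ)ᶜ : Set N)} {c : Path y y'} {K' : Set N} (h : Fgr κ p₀ p' ε c K') {s : Path y₁ y}
    (hs : RepI (fun l => κ (l, ((ε / 8 : ℝ) : ℂ))) p₁ p₀ s) :
    ∃ K'' : Set N, Fgr κ p₁ p' ε (s.trans c) K'' ∧ LEqN K' K'' := by
  have A0 := A p₀ left_mem_uIcc
  have h0 := A0.pos
  have h1 := A0.lt
  obtain ⟨η, hη, hmar⟩ := sld_margin (fun t ht k => (A t ht).far k) h0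
  obtain ⟨μ, hμ, hpush⟩ := sld_push hκ h0 h1 (lt_min hη (by norm_num : (0 : ℝ) < 1 / 8))
    (by linarith [min_le_right η (1 / 8)] : ε + min η (1 / 8) < 1 / 2)
  have hcont : Continuous fun l => κ (l, ((ε / 8 : ℝ) : ℂ)) := by
    refine continuous_iff_continuousAt.2 fun l => ?_
    have hv : ‖((ε / 8 : ℝ) : ℂ)‖ < 1 := by
      rw [Complex.norm_real, Real.norm_eq_abs, abs_of_pos (by linarith)]
      linarith
    have g1 := (hκ.loc l ((ε / 8 : ℝ) : ℂ) hv).contMDiffAt.continuousAt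
    exact ContinuousAt.comp (f := fun l : ℝ => (l, ((ε / 8 : ℝ) : ℂ))) g1 (by fun_prop)
  have hmem : ∀ l : ℝ, κ (l, ((ε / 8 : ℝ) : ℂ)) ∈ (core κ)ᶜ := by
    intro l
    have hv : ‖((ε / 8 : ℝ) : ℂ)‖ < 1 := by
      rw [Complex.norm_real, Real.norm_eq_abs, abs_of_pos (by linarith)]
      linarith
    rw [mem_compl_iff, mem_core hκ hv, Complex.ofReal_eq_zero]
    linarith
  have hex : ∀ (a b : ℝ) (z z' : ((core κ)ᶜ : Set N)), κ (a, ((ε / 8 : ℝ) : ℂ)) = z → κ (b, ((ε / 8 : ℝ) : ℂ)) = z' →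
      ∃ d : Path z z', RepI (fun l => κ (l, ((ε / 8 : ℝ) : ℂ))) a b d := fun a b z z' hz hz' =>
    exists_repI hcont.continuousOn (fun t _ => hmem t) hz hz'
  have key : ∀ (y₁ : ((core κ)ᶜ : Set N)) (s : Path y₁ y), RepI (fun l => κ (l, ((ε / 8 : ℝ) : ℂ))) p₁ p₀ s →
      ∃ K'' : Set N, Fgr κ p₁ p' ε (s.trans c) K'' ∧ LEqN K' K'' := by
    refine sld_iter (p₀ := p₀) hμ (fun t => ∀ (y₁ : ((core κ)ᶜ : Set N)) (s : Path y₁ y),
      RepI (fun l => κ (l, ((ε / 8 : ℝ) : ℂ))) t p₀ s → ∃ K'' : Set N, Fgr κ t p' ε (s.trans c) K'' ∧ LEqN K' K'')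
      ?_ ?_
    · intro y₂ s₂ hs₂
      obtain ⟨_, _, e1, e2⟩ := repI_cont hs₂
      have e3 : y₂ = y := Subtype.ext (e1.symm.trans e2)
      subst e3
      have e4 : RepI (fun l => κ (l, ((ε / 8 : ℝ) : ℂ))) p₀ p₀ (Path.refl y₂) := by
        refine repI_const fun t ht => ?_
        rw [uIcc_self, mem_singleton_iff] at ht
        rw [ht]
        exact e1
      have e5 : s₂.Homotopic (Path.refl y₂) := ((repI_iff hs₂).1 e4)
      refine ⟨K', fgr_congr ?_ h, LEqN.refl _⟩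
      refine Path.Homotopic.trans ⟨(Path.Homotopy.reflTrans c).symm⟩ ?_
      exact Path.Homotopic.hcomp e5.symm (Path.Homotopic.refl _)
    · intro a ha b hb hab IH y₂ s₂ hs₂
      obtain ⟨_, _, e1, e2⟩ := repI_cont hs₂
      set ya : ((core κ)ᶜ : Set N) := ⟨κ (a, ((ε / 8 : ℝ) : ℂ)), hmem a⟩ with hya
      obtain ⟨sa, hsa⟩ := hex a p₀ ya y rfl e2
      obtain ⟨d, hd⟩ := hex a b ya y₂ rfl e1
      obtain ⟨Ka, k1, k2⟩ := IH _ sa hsa
      obtain ⟨O, X, x1, x2, x3, x4⟩ := hpush a (b - a) hab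
      have hm : ∀ k : ℤ, 2 * ε + min η (1 / 8) ≤ |p' - a + k| := by
        intro k
        have g1 := hmar a ha (-k)
        have g2 := min_le_left η (1 / 8)
        rw [show p' - a + k = -(a - p' + ((-k : ℤ) : ℝ)) by push_cast; ring, abs_neg]
        linarith
      obtain ⟨Kb, k3, k4⟩ := sld_foot_step h0 h1 x1 x2 x3 x4 hm (fun t _ => hmem t) k1 hd
      refine ⟨Kb, fgr_congr ?_ k3, LEqN.trans k2 k4⟩
      have g3 : RepI (fun l => κ (l, ((ε / 8 : ℝ) : ℂ))) b p₀ (d.symm.trans sa) := repI_trans (repI_symm hd) hsa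
      have g4 : (d.symm.trans sa).Homotopic s₂ := (repI_iff g3).1 hs₂
      refine Path.Homotopic.trans ⟨(Path.Homotopy.transAssoc d.symm sa c).symm⟩ ?_
      exact Path.Homotopic.hcomp g4 (Path.Homotopic.refl _)
  exact key _ s hs

theorem fgr_slide_tip {κ : ℝ × ℂ → N} (hκ : Thick κ) {p p₀ p₁ ε : ℝ} (A : ∀ t ∈ uIcc p₀ p₁, Adm p t ε)
    {y y' y₁ : ((core κ)ᶜ : Set N)} {c : Path y y'} {K' : Set N} (h : Fgr κ p p₀ ε c K') {s : Path y' y₁}
    (hs : RepI (fun l => κ (l, ((ε / 8 : ℝ) : ℂ))) p₀ p₁ s) :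
    ∃ K'' : Set N, Fgr κ p p₁ ε (c.trans s) K'' ∧ LEqN K' K'' := by
  have A0 := A p₀ left_mem_uIcc
  have h0 := A0.pos
  have h1 := A0.lt
  have hA : ∀ t ∈ uIcc p₀ p₁, ∀ k : ℤ, 2 * ε < |t - p + k| := by
    intro t ht k
    have g1 := (A t ht).far (-k)
    rw [show t - p + k = -(p - t + ((-k : ℤ) : ℝ)) by push_cast; ring, abs_neg]
    exact g1
  obtain ⟨η, hη, hmar⟩ := sld_margin hA h0
  obtain ⟨μ, hμ, hpush⟩ := sld_push hκ h0 h1 (lt_min hη (by norm_num : (0 : ℝ) < 1 / 8))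
    (by linarith [min_le_right η (1 / 8)] : ε + min η (1 / 8) < 1 / 2)
  have hcont : Continuous fun l => κ (l, ((ε / 8 : ℝ) : ℂ)) := by
    refine continuous_iff_continuousAt.2 fun l => ?_
    have hv : ‖((ε / 8 : ℝ) : ℂ)‖ < 1 := by
      rw [Complex.norm_real, Real.norm_eq_abs, abs_of_pos (by linarith)]
      linarith
    have g1 := (hκ.loc l ((ε / 8 : ℝ) : ℂ) hv).contMDiffAt.continuousAt
    exact ContinuousAt.comp (f := fun l : ℝ => (l, ((ε / 8 : ℝ) : ℂ))) g1 (by fun_prop)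
  have hmem : ∀ l : ℝ, κ (l, ((ε / 8 : ℝ) : ℂ)) ∈ (core κ)ᶜ := by
    intro l
    have hv : ‖((ε / 8 : ℝ) : ℂ)‖ < 1 := by
      rw [Complex.norm_real, Real.norm_eq_abs, abs_of_pos (by linarith)]
      linarith
    rw [mem_compl_iff, mem_core hκ hv, Complex.ofReal_eq_zero]
    linarith
  have hex : ∀ (a b : ℝ) (z z' : ((core κ)ᶜ : Set N)), κ (a, ((ε / 8 : ℝ) : ℂ)) = z → κ (b, ((ε / 8 : ℝ) : ℂ)) = z' →
      ∃ d : Path z z', RepI (fun l => κ (l, ((ε / 8 : ℝ) : ℂ))) a b d := fun a b z z' hz hz' =>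
    exists_repI hcont.continuousOn (fun t _ => hmem t) hz hz'
  have key : ∀ (y₁ : ((core κ)ᶜ : Set N)) (s : Path y' y₁), RepI (fun l => κ (l, ((ε / 8 : ℝ) : ℂ))) p₀ p₁ s →
      ∃ K'' : Set N, Fgr κ p p₁ ε (c.trans s) K'' ∧ LEqN K' K'' := by
    refine sld_iter (p₀ := p₀) hμ (fun t => ∀ (y₁ : ((core κ)ᶜ : Set N)) (s : Path y' y₁),
      RepI (fun l => κ (l, ((ε / 8 : ℝ) : ℂ))) p₀ t s → ∃ K'' : Set N, Fgr κ p t ε (c.trans s) K'' ∧ LEqN K' K'')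
      ?_ ?_
    · intro y₂ s₂ hs₂
      obtain ⟨_, _, e1, e2⟩ := repI_cont hs₂
      have e3 : y₂ = y' := Subtype.ext (e2.symm.trans e1)
      subst e3
      have e4 : RepI (fun l => κ (l, ((ε / 8 : ℝ) : ℂ))) p₀ p₀ (Path.refl y₂) := by
        refine repI_const fun t ht => ?_
        rw [uIcc_self, mem_singleton_iff] at ht
        rw [ht]
        exact e1
      have e5 : s₂.Homotopic (Path.refl y₂) := ((repI_iff hs₂).1 e4)
      refine ⟨K', fgr_congr ?_ h, LEqN.refl _⟩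
      refine Path.Homotopic.trans ⟨(Path.Homotopy.transRefl c).symm⟩ ?_
      exact Path.Homotopic.hcomp (Path.Homotopic.refl _) e5.symm
    · intro a ha b hb hab IH y₂ s₂ hs₂
      obtain ⟨_, _, e1, e2⟩ := repI_cont hs₂
      set ya : ((core κ)ᶜ : Set N) := ⟨κ (a, ((ε / 8 : ℝ) : ℂ)), hmem a⟩ with hya
      obtain ⟨sa, hsa⟩ := hex p₀ a y' ya e1 rfl
      obtain ⟨d, hd⟩ := hex a b ya y₂ rfl e2
      obtain ⟨Ka, k1, k2⟩ := IH _ sa hsa
      obtain ⟨O, X, x1, x2, x3, x4⟩ := hpush a (b - a) hab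
      have hm : ∀ k : ℤ, 2 * ε + min η (1 / 8) ≤ |p - a + k| := by
        intro k
        have g1 := hmar a ha (-k)
        have g2 := min_le_left η (1 / 8)
        rw [show p - a + k = -(a - p + ((-k : ℤ) : ℝ)) by push_cast; ring, abs_neg]
        linarith
      obtain ⟨Kb, k3, k4⟩ := sld_tip_step h0 h1 x1 x2 x3 x4 hm (fun t _ => hmem t) k1 hd
      refine ⟨Kb, fgr_congr ?_ k3, LEqN.trans k2 k4⟩
      have g3 : RepI (fun l => κ (l, ((ε / 8 : ℝ) : ℂ))) p₀ b (sa.trans d) := repI_trans hsa hd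
      have g4 : (sa.trans d).Homotopic s₂ := (repI_iff g3).1 hs₂
      refine Path.Homotopic.trans ⟨Path.Homotopy.transAssoc c sa d⟩ ?_
      exact Path.Homotopic.hcomp (Path.Homotopic.refl _) g4
  exact key _ s hs

end

end Pool.Agent.NHE
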