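import Pool.Agent.NHP.Gld
import Pool.Agent.NHE.Defs

/-!
# NHE/GlL: paths of linear maps which preserve the line (difficulty 3)

`A (1, 0) = (c₀, 0)`, `c₀ ≠ 0` real.  `σ = stp (1/8) (7/8)`.  Write `A = ` block triangular with respect to `ℓ ⊕ {re w = 0}`: `A (r + i t, x) = (c₀ r + λ (t, x)) ⊕ B (t, x)`, `B` a bijective linear map of `{(t, x)} = ℝ²`.  `B` has a path to `1` or to `diag (-1, 1)` (in the order `(t, x)`) through invertible maps:
`B` = complex form `z ↦ a z + b conj z` with `|a|² - |b|² = det B`: if `det > 0`: `b ↦ (1 - u) b`, then `a ↦` path in `ℂ - 0` from `a` to `1`; if `det < 0` compose with the reflection `t ↦ -t` first.  (The collars of `GLp` : use products of paths reparametrised by `σ`: first write `A = A₁ A₂ ..` as a product of maps each of which has an explicit path: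
`D s = D₁ s ∘ D₂ s ∘ ..` with `D_i s` = identity for `s ≤ 1/8` and `= A_i` for `s ≥ 7/8`.  `A = S ∘ (positive scaling of the line) ∘ (shear λ) ∘ B'`, `B' = P R` polar or `B' = z ↦ a (z + β conj z)`, `|β| < 1`: paths `β ↦ σ β`, `a = exp (α) ↦ exp (σ α)`.)  `S = sgL a b`; it has to be moved to the right: `D s ∘ S` with `D` the path for `A ∘ S⁻¹`.
-/

open scoped Manifold ContDiff Topology
open Set Filter
open Pool.Agent.CSG (stp)
open Pool.Agent.RSG (E3 ex Thick)
open Pool.Agent.KNT (Dom Str Str2 BalC bmp)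
open Pool.Agent.NHP

namespace Pool.Agent.NHE

/-- the signs: `(re w, im w) ↦ (a re w, b im w)` -/
noncomputable def sgE (a b : ℝ) (q : E) : E := ((⟨a * q.1.re, b * q.1.im⟩ : ℂ), q.2)

/-- the model of the block in the plane `re w = 0` -/
noncomputable def glL_B (u : ℝ) (θ κ z : ℂ) : ℂ :=
  Complex.exp ((u : ℂ) * θ) * (z + (u : ℂ) * κ * (starRingEnd ℂ) z)

theorem glL_B_add (u : ℝ) (θ κ z z' : ℂ) : glL_B u θ κ (z + z') = glL_B u θ κ z + glL_B u θ κ z' := by
  unfold glL_B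
  rw [map_add]
  ring

theorem glL_B_smul (u : ℝ) (θ κ z : ℂ) (c : ℝ) : glL_B u θ κ ((c : ℂ) * z) = (c : ℂ) * glL_B u θ κ z := by
  unfold glL_B
  rw [map_mul, Complex.conj_ofReal]
  ring

theorem glL_B_inj {u : ℝ} (h0 : 0 ≤ u) (h1 : u ≤ 1) {θ κ z : ℂ} (hκ : ‖κ‖ < 1) (h : glL_B u θ κ z = 0) : z = 0 := by
  unfold glL_B at h
  rcases mul_eq_zero.mp h with h | h
  · exact absurd h (Complex.exp_ne_zero _)
  · by_contra hz
    have hz' : 0 < ‖z‖ := norm_pos_iff.mpr hz
    have e : z = -((u : ℂ) * κ * (starRingEnd ℂ) z) := eq_neg_of_add_eq_zero_left h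
    have e2 : ‖z‖ = u * ‖κ‖ * ‖z‖ := by
      conv_lhs => rw [e]
      rw [norm_neg, norm_mul, norm_mul, Complex.norm_real, RCLike.norm_conj, Real.norm_of_nonneg h0]
    have e3 : u * ‖κ‖ < 1 := by
      have := mul_le_mul_of_nonneg_right h1 (norm_nonneg κ)
      linarith
    nlinarith

/-- the complex coordinate of the plane `re w = 0` -/
noncomputable def glL_Z (q : E) : ℂ := ⟨q.1.im, q.2⟩

theorem glL_Z_add (q q' : E) : glL_Z (q + q') = glL_Z q + glL_Z q' := by
  unfold glL_Z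
  apply Complex.ext <;> simp

theorem glL_Z_smul (c : ℝ) (q : E) : glL_Z (c • q) = (c : ℂ) * glL_Z q := by
  unfold glL_Z
  apply Complex.ext <;> simp

/-- the linear map with the parameter `u` -/
noncomputable def glL_M (l r₁ r₂ : ℝ) (θ κ : ℂ) (u : ℝ) : E →ₗ[ℝ] E where
  toFun q := ((⟨Real.exp (u * l) * q.1.re + u * (r₁ * q.1.im + r₂ * q.2), (glL_B u θ κ (glL_Z q)).re⟩ : ℂ),
    (glL_B u θ κ (glL_Z q)).im)
  map_add' q q' := by
    rw [glL_Z_add, glL_B_add]
    apply Prod.ext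
    · apply Complex.ext
      · simp only [Prod.fst_add, Complex.add_re, Complex.add_im, Prod.snd_add]
        ring
      · simp only [Prod.fst_add, Complex.add_re, Complex.add_im]
    · simp only [Complex.add_im, Prod.snd_add]
  map_smul' c q := by
    rw [glL_Z_smul, glL_B_smul]
    apply Prod.ext
    · apply Complex.ext
      · simp only [Prod.smul_fst, Prod.smul_snd, Complex.real_smul, Complex.re_ofReal_mul, Complex.im_ofReal_mul,
          smul_eq_mul, RingHom.id_apply]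
        ring
      · simp only [Prod.smul_fst, Complex.real_smul, Complex.re_ofReal_mul, Complex.im_ofReal_mul,
          RingHom.id_apply]
    · simp only [Prod.smul_snd, Complex.im_ofReal_mul, smul_eq_mul, RingHom.id_apply]

noncomputable def glL_D (l r₁ r₂ : ℝ) (θ κ : ℂ) (s : ℝ) : E →L[ℝ] E :=
  LinearMap.toContinuousLinearMap (glL_M l r₁ r₂ θ κ (stp (1 / 8) (7 / 8) s))

theorem glL_D_apply (l r₁ r₂ : ℝ) (θ κ : ℂ) (s : ℝ) (q : E) :
    glL_D l r₁ r₂ θ κ s q =
      ((⟨Real.exp (stp (1 / 8) (7 / 8) s * l) * q.1.re + stp (1 / 8) (7 / 8) s * (r₁ * q.1.im + r₂ * q.2),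
        (glL_B (stp (1 / 8) (7 / 8) s) θ κ (glL_Z q)).re⟩ : ℂ), (glL_B (stp (1 / 8) (7 / 8) s) θ κ (glL_Z q)).im) := rfl

theorem glL_zero (l r₁ r₂ : ℝ) (θ κ : ℂ) {s : ℝ} (hs : s ≤ 1 / 8) :
    glL_D l r₁ r₂ θ κ s = ContinuousLinearMap.id ℝ E := by
  apply ContinuousLinearMap.ext
  intro q
  rw [glL_D_apply, Pool.Agent.CSG.stp_zero (by norm_num) hs]
  unfold glL_B glL_Z
  apply Prod.ext
  · apply Complex.ext
    · simp
    · simp
  · simp

theorem glL_smooth (l r₁ r₂ : ℝ) (θ κ : ℂ) : ContDiff ℝ ∞ (glL_D l r₁ r₂ θ κ) := by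
  rw [contDiff_clm_apply_iff]
  intro q
  have hs : ContDiff ℝ ∞ (stp (1 / 8) (7 / 8)) := Pool.Agent.CSG.stp_smooth _ _
  have hsc : ContDiff ℝ ∞ (fun s : ℝ => ((stp (1 / 8) (7 / 8) s : ℝ) : ℂ)) := Complex.ofRealCLM.contDiff.comp hs
  have hB : ContDiff ℝ ∞ (fun s : ℝ => glL_B (stp (1 / 8) (7 / 8) s) θ κ (glL_Z q)) := by
    unfold glL_B
    exact ((hsc.mul contDiff_const).cexp).mul (contDiff_const.add ((hsc.mul contDiff_const).mul contDiff_const))
  have hre : ContDiff ℝ ∞ (fun s : ℝ => (glL_B (stp (1 / 8) (7 / 8) s) θ κ (glL_Z q)).re) :=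
    Complex.reCLM.contDiff.comp hB
  have him : ContDiff ℝ ∞ (fun s : ℝ => (glL_B (stp (1 / 8) (7 / 8) s) θ κ (glL_Z q)).im) :=
    Complex.imCLM.contDiff.comp hB
  have h1 : ContDiff ℝ ∞ (fun s : ℝ => Real.exp (stp (1 / 8) (7 / 8) s * l) * q.1.re
      + stp (1 / 8) (7 / 8) s * (r₁ * q.1.im + r₂ * q.2)) :=
    (((hs.mul contDiff_const).exp).mul contDiff_const).add (hs.mul contDiff_const)
  have h2 : (fun s => glL_D l r₁ r₂ θ κ s q) = fun s : ℝ =>
      (((Real.exp (stp (1 / 8) (7 / 8) s * l) * q.1.re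
      + stp (1 / 8) (7 / 8) s * (r₁ * q.1.im + r₂ * q.2) : ℝ) : ℂ)
        + (((glL_B (stp (1 / 8) (7 / 8) s) θ κ (glL_Z q)).re : ℝ) : ℂ) * Complex.I,
      (glL_B (stp (1 / 8) (7 / 8) s) θ κ (glL_Z q)).im) := by
    funext s
    rw [glL_D_apply]
    apply Prod.ext
    · exact (Complex.mk_eq_add_mul_I _ _)
    · rfl
  rw [h2]
  exact ((Complex.ofRealCLM.contDiff.comp h1).add ((Complex.ofRealCLM.contDiff.comp hre).mul contDiff_const)).prodMk him

theorem glL_bij (l r₁ r₂ : ℝ) (θ : ℂ) {κ : ℂ} (hκ : ‖κ‖ < 1) (s : ℝ) :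
    Function.Bijective (glL_D l r₁ r₂ θ κ s) := by
  have hinj : Function.Injective (glL_D l r₁ r₂ θ κ s) := by
    rw [injective_iff_map_eq_zero]
    intro q hq
    rw [glL_D_apply] at hq
    set u := stp (1 / 8) (7 / 8) s with hu
    have h0 : 0 ≤ u := Pool.Agent.CSG.stp_nonneg _ _ _
    have h1 : u ≤ 1 := Pool.Agent.CSG.stp_le_one _ _ _
    have e1 := congrArg Prod.fst hq
    have e2 := congrArg Prod.snd hq
    have e3 := congrArg Complex.re e1
    have e4 := congrArg Complex.im e1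
    simp only [Prod.fst_zero, Prod.snd_zero, Complex.zero_re, Complex.zero_im] at e2 e3 e4
    have hz : glL_Z q = 0 := glL_B_inj h0 h1 hκ (Complex.ext e4 e2)
    have hz1 : q.1.im = 0 := congrArg Complex.re hz
    have hz2 : q.2 = 0 := congrArg Complex.im hz
    rw [hz1, hz2, mul_zero, mul_zero, add_zero, mul_zero, add_zero] at e3
    have hz3 : q.1.re = 0 := by
      rcases mul_eq_zero.mp e3 with h | h
      · exact absurd h (Real.exp_ne_zero _)
      · exact h
    apply Prod.ext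
    · exact Complex.ext hz3 hz1
    · exact hz2
  exact ⟨hinj, LinearMap.injective_iff_surjective.mp hinj⟩

theorem glL_line (l r₁ r₂ : ℝ) (θ κ : ℂ) (s u : ℝ) :
    glL_D l r₁ r₂ θ κ s ((u : ℂ), 0) = (((Real.exp (stp (1 / 8) (7 / 8) s * l) * u : ℝ) : ℂ), 0) := by
  rw [glL_D_apply]
  have h : glL_Z ((u : ℂ), (0 : ℝ)) = 0 := by
    unfold glL_Z
    apply Complex.ext <;> simp
  rw [h]
  have h' : glL_B (stp (1 / 8) (7 / 8) s) θ κ 0 = 0 := by
    unfold glL_B
    simp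
  rw [h']
  apply Prod.ext
  · apply Complex.ext
    · show Real.exp (stp (1 / 8) (7 / 8) s * l) * u + stp (1 / 8) (7 / 8) s * (r₁ * 0 + r₂ * 0)
        = Real.exp (stp (1 / 8) (7 / 8) s * l) * u
      ring
    · show (0 : ℝ) = 0
      rfl
  · rfl

theorem gl_path_line {A : E →L[ℝ] E} (hA : Function.Bijective A) (hl : ∃ c₀ : ℝ, A (1, 0) = ((c₀ : ℂ), 0)) :
    ∃ (D : ℝ → E →L[ℝ] E) (a b : ℝ), GLp D ∧ (a = 1 ∨ a = -1) ∧ (b = 1 ∨ b = -1) ∧
      (∀ s (u : ℝ), ∃ u' : ℝ, D s ((u : ℂ), 0) = ((u' : ℂ), 0)) ∧ ∀ q, D 1 q = A (sgE a b q) := by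
  obtain ⟨c₀, hc₀⟩ := hl
  -- the values of `A`
  obtain ⟨p, hp⟩ : ∃ p : E, A (Complex.I, 0) = p := ⟨_, rfl⟩
  obtain ⟨k, hk⟩ : ∃ k : E, A (0, 1) = k := ⟨_, rfl⟩
  have hAq : ∀ r t x : ℝ, A ((⟨r, t⟩ : ℂ), x) =
      ((⟨c₀ * r + t * p.1.re + x * k.1.re, t * p.1.im + x * k.1.im⟩ : ℂ), t * p.2 + x * k.2) := by
    intro r t x
    have e : (((⟨r, t⟩ : ℂ), x) : E) = r • ((1 : ℂ), (0 : ℝ)) + t • (Complex.I, (0 : ℝ)) + x • ((0 : ℂ), (1 : ℝ)) := by
      apply Prod.ext
      · apply Complex.ext <;> simp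
      · simp
    rw [e, map_add, map_add, map_smul, map_smul, map_smul, hc₀, hp, hk]
    apply Prod.ext
    · apply Complex.ext
      · simp
        ring
      · simp
    · simp
  have hker : ∀ r t x : ℝ, c₀ * r + t * p.1.re + x * k.1.re = 0 → t * p.1.im + x * k.1.im = 0 →
      t * p.2 + x * k.2 = 0 → r = 0 ∧ t = 0 ∧ x = 0 := by
    intro r t x h1 h2 h3
    have h4 : A ((⟨r, t⟩ : ℂ), x) = 0 := by
      rw [hAq, h1, h2, h3]
      rfl
    have h5 : (((⟨r, t⟩ : ℂ), x) : E) = 0 := hA.1 (by rw [h4, map_zero])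
    have h6 := congrArg Prod.fst h5
    exact ⟨congrArg Complex.re h6, congrArg Complex.im h6, congrArg Prod.snd h5⟩
  have hc : c₀ ≠ 0 := by
    intro h
    have := (hker 1 0 0 (by rw [h]; ring) (by ring) (by ring)).1
    exact one_ne_zero this
  have hdet : p.1.im * k.2 - p.2 * k.1.im ≠ 0 := by
    intro h
    have h1 := hker (-(k.1.im * p.1.re - p.1.im * k.1.re) / c₀) k.1.im (-p.1.im)
      (by field_simp; ring) (by ring) (by linarith)
    have h2 := hker (-(k.2 * p.1.re - p.2 * k.1.re) / c₀) k.2 (-p.2)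
      (by field_simp; ring) (by linarith) (by ring)
    have e1 : k.1.im = 0 := h1.2.1
    have e2 : p.1.im = 0 := by linarith [h1.2.2]
    have e3 : k.2 = 0 := h2.2.1
    have e4 : p.2 = 0 := by linarith [h2.2.2]
    have h3 := hker (-p.1.re / c₀) 1 0 (by field_simp; ring) (by rw [e2]; ring) (by rw [e4]; ring)
    exact one_ne_zero h3.2.1
  -- the signs
  obtain ⟨a, ha, hac⟩ : ∃ a : ℝ, (a = 1 ∨ a = -1) ∧ 0 < c₀ * a := by
    rcases lt_or_gt_of_ne hc with h | h
    · exact ⟨-1, Or.inr rfl, by linarith⟩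
    · exact ⟨1, Or.inl rfl, by linarith⟩
  obtain ⟨b, hb, hbd⟩ : ∃ b : ℝ, (b = 1 ∨ b = -1) ∧ 0 < b * (p.1.im * k.2 - p.2 * k.1.im) := by
    rcases lt_or_gt_of_ne hdet with h | h
    · exact ⟨-1, Or.inr rfl, by linarith⟩
    · exact ⟨1, Or.inl rfl, by linarith⟩
  -- the complex form
  set P : ℂ := ⟨b * p.1.im, b * p.2⟩ with hP
  set Q : ℂ := ⟨k.1.im, k.2⟩ with hQ
  set α : ℂ := (P - Complex.I * Q) / 2 with hα
  set β : ℂ := (P + Complex.I * Q) / 2 with hβ
  have hsum : α + β = P := by rw [hα, hβ]; ring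
  have hdif : (α - β) * Complex.I = Q := by
    rw [hα, hβ]
    linear_combination (-Q) * Complex.I_sq
  have hab : Complex.normSq β < Complex.normSq α := by
    have e : Complex.normSq α - Complex.normSq β = b * (p.1.im * k.2 - p.2 * k.1.im) := by
      rw [hα, hβ, hP, hQ, Complex.normSq_apply, Complex.normSq_apply]
      simp only [Complex.div_ofNat_re, Complex.div_ofNat_im, Complex.sub_re, Complex.sub_im, Complex.add_re,
        Complex.add_im, Complex.mul_re, Complex.mul_im, Complex.I_re, Complex.I_im]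
      ring
    linarith
  have hα0 : α ≠ 0 := by
    intro h
    rw [h, map_zero] at hab
    exact absurd (Complex.normSq_nonneg β) (not_le.mpr hab)
  have hκ : ‖β / α‖ < 1 := by
    rw [norm_div, div_lt_one (norm_pos_iff.mpr hα0)]
    rw [Complex.normSq_eq_norm_sq, Complex.normSq_eq_norm_sq] at hab
    exact lt_of_pow_lt_pow_left₀ 2 (norm_nonneg _) hab
  refine ⟨glL_D (Real.log (c₀ * a)) (b * p.1.re) k.1.re (Complex.log α) (β / α), a, b,
    ⟨glL_smooth _ _ _ _ _, glL_bij _ _ _ _ hκ, fun s hs => glL_zero _ _ _ _ _ hs, fun s hs => ?_⟩, ha, hb,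
    fun s u => ⟨_, glL_line _ _ _ _ _ s u⟩, fun q => ?_⟩
  · apply ContinuousLinearMap.ext
    intro q
    rw [glL_D_apply, glL_D_apply, Pool.Agent.CSG.stp_one (by norm_num) hs,
      Pool.Agent.CSG.stp_one (by norm_num) (by norm_num)]
  · rw [glL_D_apply, Pool.Agent.CSG.stp_one (by norm_num) (by norm_num)]
    have hB : glL_B 1 (Complex.log α) (β / α) (glL_Z q) =
        (⟨b * q.1.im * p.1.im + q.2 * k.1.im, b * q.1.im * p.2 + q.2 * k.2⟩ : ℂ) := by
      have e1 : glL_B 1 (Complex.log α) (β / α) (glL_Z q) = α * glL_Z q + β * (starRingEnd ℂ) (glL_Z q) := by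
        unfold glL_B
        rw [Complex.ofReal_one, one_mul, one_mul, Complex.exp_log hα0]
        field_simp
      have e2 : glL_Z q = (q.1.im : ℂ) + (q.2 : ℂ) * Complex.I := Complex.mk_eq_add_mul_I _ _
      have e3 : (starRingEnd ℂ) (glL_Z q) = (q.1.im : ℂ) - (q.2 : ℂ) * Complex.I := by
        rw [e2, map_add, map_mul, Complex.conj_ofReal, Complex.conj_ofReal, Complex.conj_I]
        ring
      have e4 : α * glL_Z q + β * (starRingEnd ℂ) (glL_Z q) = (q.1.im : ℂ) * P + (q.2 : ℂ) * Q := by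
        rw [e3, e2, ← hsum, ← hdif]
        ring
      rw [e1, e4, hP, hQ]
      apply Complex.ext
      · simp
        ring
      · simp
        ring
    rw [hB]
    unfold sgE
    rw [hAq]
    apply Prod.ext
    · apply Complex.ext
      · show Real.exp (1 * Real.log (c₀ * a)) * q.1.re + 1 * (b * p.1.re * q.1.im + k.1.re * q.2)
          = c₀ * (a * q.1.re) + b * q.1.im * p.1.re + q.2 * k.1.re
        rw [one_mul, Real.exp_log hac]
        ring
      · rfl
    · rfl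

end Pool.Agent.NHE
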