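import Pool.Agent.NHE.GlP
import Pool.Agent.NHE.GlL
import Pool.Agent.NHP.Sma

/-!
# NHE/GeP: matching of germs which preserve a line (difficulty 3)

As NHP/Ger: `A = fderiv ψ 0` maps `(1, 0)` into the line (`hl`), `D, a, b` from `gl_path_line`, `L` from `exists_lift_line`.  `M s q = q + stp 0 1 s • bum δ' q • (A⁻¹ (ψ q) - q)` (`small_fam`, `δ'` small): preserves the line (`A⁻¹` and `ψ` do near `0`), the inverse too (continuous, injective, identity outside a compact set on the line, hence onto).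
`M' s = sgE a b ∘ M s ∘ sgE a b` (`sgE a b` is an involution), `U s = (L s).symm.trans (M' s).symm`: near `0` `L 1 (M' 1 (sgE a b q)) = A (sgE a b (sgE a b (M 1 q))) = A (A⁻¹ (ψ q)) = ψ q`, so `U 1 (ψ q) = sgE a b q`.
-/

open scoped Manifold ContDiff Topology
open Set Filter
open Pool.Agent.CSG (stp)
open Pool.Agent.RSG (E3 ex Thick)
open Pool.Agent.KNT (Dom Str Str2 BalC bmp)
open Pool.Agent.NHP

namespace Pool.Agent.NHE

theorem GeP_fam {r : E → E} (hr : ∀ᶠ q in 𝓝 (0 : E), ContDiffAt ℝ ∞ r q) (h0 : r 0 = 0)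
    (hd : fderiv ℝ r 0 = 0) {δ : ℝ} (hδ : 0 < δ) : ∃ δ' : ℝ, 0 < δ' ∧ δ' ≤ δ ∧ ∃ M : ℝ → Equiv.Perm E,
      ContDiff ℝ ∞ (fun p : ℝ × E => M p.1 p.2) ∧ ContDiff ℝ ∞ (fun p : ℝ × E => (M p.1).symm p.2) ∧
      ∀ u q, M u q = q + stp 0 1 u • bum δ' q • r q := by
  obtain ⟨C, hC, hb⟩ := exists_bum_bound
  set ε : ℝ := 1 / (2 * (C + 1)) with hε
  have hε0 : 0 < ε := by positivity
  have hr0 : ContDiffAt ℝ ∞ r 0 := hr.self_of_nhds
  have hcf : ContinuousAt (fderiv ℝ r) 0 := (hr0.fderiv_right (m := 0) (by simp)).continuousAt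
  have h1 : ∀ᶠ q in 𝓝 (0 : E), ‖fderiv ℝ r q‖ < ε := by
    have h2 : ‖fderiv ℝ r 0‖ < ε := by rw [hd, norm_zero]; exact hε0
    exact hcf.norm.eventually (gt_mem_nhds h2)
  obtain ⟨ρ, hρ, hball⟩ := Metric.eventually_nhds_iff_ball.mp (h1.and hr)
  obtain ⟨δ1, hδ1, hsub⟩ := exists_Bl (Metric.ball_mem_nhds (0 : E) hρ)
  set δ' := min δ δ1 with hδ'
  have hδ'0 : 0 < δ' := lt_min hδ hδ1
  have hsub' : ∀ q : E, nr q ≤ δ' ^ 2 → q ∈ Metric.ball (0 : E) ρ := by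
    intro q hq
    apply hsub
    have h2 : δ' ^ 2 ≤ δ1 ^ 2 := by
      have := min_le_right δ δ1
      nlinarith
    exact le_trans hq h2
  have hrle : ∀ q ∈ Metric.ball (0 : E) ρ, ‖r q‖ ≤ ε * ‖q‖ := by
    intro q hq
    have h2 := (convex_ball (0 : E) ρ).norm_image_sub_le_of_norm_fderiv_le (𝕜 := ℝ) (f := r) (C := ε)
      (fun x hx => (hball x hx).2.differentiableAt (by simp)) (fun x hx => (hball x hx).1.le)
      (Metric.mem_ball_self hρ) hq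
    simpa [h0] using h2
  set h : E → E := fun q => bum δ' q • r q with hh
  have hzero : ∀ q : E, δ' ^ 2 / 4 < nr q → h =ᶠ[𝓝 q] fun _ => 0 := by
    intro q hq
    have h2 : ∀ᶠ x in 𝓝 q, δ' ^ 2 / 4 < nr x := nr_smooth.continuous.continuousAt.eventually (lt_mem_nhds hq)
    filter_upwards [h2] with x hx
    show bum δ' x • r x = 0
    rw [bum_zero hδ'0 hx.le, zero_smul]
  have hdich : ∀ q : E, nr q ≤ δ' ^ 2 ∨ δ' ^ 2 / 4 < nr q := by
    intro q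
    rcases le_or_gt (nr q) (δ' ^ 2) with h2 | h2
    · exact Or.inl h2
    · exact Or.inr (by nlinarith [sq_nonneg δ'])
  have hsm : ContDiff ℝ ∞ h := by
    rw [contDiff_iff_contDiffAt]
    intro q
    rcases hdich q with h2 | h2
    · exact (bum_smooth δ').contDiffAt.smul (hball q (hsub' q h2)).2
    · exact contDiffAt_const.congr_of_eventuallyEq (hzero q h2)
  have hder : ∀ q, ‖fderiv ℝ h q‖ ≤ 1 / 2 := by
    intro q
    rcases hdich q with h2 | h2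
    · have h3 := hball q (hsub' q h2)
      have hdb : DifferentiableAt ℝ (bum δ') q := (bum_smooth δ').differentiable (by simp) q
      have hdr : DifferentiableAt ℝ r q := h3.2.differentiableAt (by simp)
      have h4 : fderiv ℝ h q = bum δ' q • fderiv ℝ r q + (fderiv ℝ (bum δ') q).smulRight (r q) :=
        (hdb.hasFDerivAt.smul hdr.hasFDerivAt).fderiv
      rw [h4]
      have h5 := bum_mem δ' q
      have h6 : ‖bum δ' q • fderiv ℝ r q‖ ≤ ε := by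
        rw [norm_smul, Real.norm_of_nonneg h5.1]
        calc bum δ' q * ‖fderiv ℝ r q‖ ≤ 1 * ε :=
              mul_le_mul h5.2 h3.1.le (norm_nonneg _) zero_le_one
          _ = ε := one_mul _
      have h7 : ‖(fderiv ℝ (bum δ') q).smulRight (r q)‖ ≤ C * ε := by
        rw [ContinuousLinearMap.norm_smulRight_apply]
        calc ‖fderiv ℝ (bum δ') q‖ * ‖r q‖ ≤ ‖fderiv ℝ (bum δ') q‖ * (ε * ‖q‖) :=
              mul_le_mul_of_nonneg_left (hrle q (hsub' q h2)) (norm_nonneg _)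
          _ = (‖q‖ * ‖fderiv ℝ (bum δ') q‖) * ε := by ring
          _ ≤ C * ε := mul_le_mul_of_nonneg_right (hb δ' hδ'0 q) hε0.le
      calc ‖bum δ' q • fderiv ℝ r q + (fderiv ℝ (bum δ') q).smulRight (r q)‖ ≤ ε + C * ε :=
            (norm_add_le _ _).trans (add_le_add h6 h7)
        _ = 1 / 2 := by rw [hε]; field_simp; ring
    · rw [(hzero q h2).fderiv_eq]
      simp
  set G : ℝ × E → E := fun p => stp 0 1 p.1 • h p.2 with hG
  have hGs : ContDiff ℝ ∞ G :=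
    ((Pool.Agent.CSG.stp_smooth 0 1).comp contDiff_fst).smul (hsm.comp contDiff_snd)
  obtain ⟨F, hF1, hF2, hF3⟩ := small_fam hGs (fun p => by
    have e1 : HasFDerivAt (fun q => G (p.1, q)) ((fderiv ℝ G p).comp (ContinuousLinearMap.inr ℝ ℝ E)) p.2 :=
      HasFDerivAt.comp (g := G) p.2 (f := fun q => (p.1, q))
        (show HasFDerivAt G (fderiv ℝ G p) (p.1, p.2) from (hGs.differentiable (by simp) p).hasFDerivAt)
        (hasFDerivAt_prodMk_right p.1 p.2)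
    have e2 : HasFDerivAt (fun q => G (p.1, q)) (stp 0 1 p.1 • fderiv ℝ h p.2) p.2 :=
      (hsm.differentiable (by simp) p.2).hasFDerivAt.const_smul (stp 0 1 p.1)
    rw [e1.unique e2, norm_smul, Real.norm_of_nonneg (Pool.Agent.CSG.stp_nonneg _ _ _)]
    calc stp 0 1 p.1 * ‖fderiv ℝ h p.2‖ ≤ 1 * (1 / 2) :=
          mul_le_mul (Pool.Agent.CSG.stp_le_one _ _ _) (hder p.2) (norm_nonneg _) zero_le_one
      _ = 1 / 2 := one_mul _)
  exact ⟨δ', hδ'0, min_le_left _ _, F, hF1, hF2, hF3⟩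

theorem GeP_sgE_smooth (a b : ℝ) : ContDiff ℝ ∞ (sgE a b) := by
  have h1 : sgE a b = fun q : E => ((((a * q.1.re : ℝ) : ℂ) + ((b * q.1.im : ℝ) : ℂ) * Complex.I), q.2) := by
    funext q
    unfold sgE
    refine Prod.ext ?_ rfl
    apply Complex.ext <;> simp
  rw [h1]
  have h2 : ContDiff ℝ ∞ (fun q : E => a * q.1.re) :=
    contDiff_const.mul (Complex.reCLM.contDiff.comp contDiff_fst)
  have h3 : ContDiff ℝ ∞ (fun q : E => b * q.1.im) :=
    contDiff_const.mul (Complex.imCLM.contDiff.comp contDiff_fst)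
  exact ((Complex.ofRealCLM.contDiff.comp h2).add ((Complex.ofRealCLM.contDiff.comp h3).mul
    contDiff_const)).prodMk contDiff_snd

theorem GeP_sgE_sgE {a b : ℝ} (ha : a = 1 ∨ a = -1) (hb : b = 1 ∨ b = -1) (q : E) :
    sgE a b (sgE a b q) = q := by
  have ha2 : a * a = 1 := by rcases ha with h | h <;> rw [h] <;> norm_num
  have hb2 : b * b = 1 := by rcases hb with h | h <;> rw [h] <;> norm_num
  unfold sgE
  refine Prod.ext ?_ rfl
  apply Complex.ext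
  · show a * (a * q.1.re) = q.1.re
    rw [← mul_assoc, ha2, one_mul]
  · show b * (b * q.1.im) = q.1.im
    rw [← mul_assoc, hb2, one_mul]

theorem GeP_nr_sgE {a b : ℝ} (ha : a = 1 ∨ a = -1) (hb : b = 1 ∨ b = -1) (q : E) :
    nr (sgE a b q) = nr q := by
  have ha2 : a * a = 1 := by rcases ha with h | h <;> rw [h] <;> norm_num
  have hb2 : b * b = 1 := by rcases hb with h | h <;> rw [h] <;> norm_num
  unfold nr sgE
  rw [← Complex.normSq_eq_norm_sq, ← Complex.normSq_eq_norm_sq, Complex.normSq_apply,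
    Complex.normSq_apply]
  show a * q.1.re * (a * q.1.re) + b * q.1.im * (b * q.1.im) + q.2 ^ 2 = _
  have h1 : a * q.1.re * (a * q.1.re) = a * a * (q.1.re * q.1.re) := by ring
  have h2 : b * q.1.im * (b * q.1.im) = b * b * (q.1.im * q.1.im) := by ring
  rw [h1, h2, ha2, hb2, one_mul, one_mul]

theorem GeP_sgE_line (a b u : ℝ) : sgE a b ((u : ℂ), 0) = (((a * u : ℝ) : ℂ), 0) := by
  unfold sgE
  refine Prod.ext ?_ rfl
  apply Complex.ext <;> simp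

theorem GeP_sgE_zero (a b : ℝ) : sgE a b 0 = 0 := by
  unfold sgE
  refine Prod.ext ?_ rfl
  apply Complex.ext <;> simp

/-- the signs as a permutation -/
noncomputable def GePS (a b : ℝ) (ha : a = 1 ∨ a = -1) (hb : b = 1 ∨ b = -1) : Equiv.Perm E :=
  ⟨sgE a b, sgE a b, GeP_sgE_sgE ha hb, GeP_sgE_sgE ha hb⟩

theorem GeP_PL_trans {f g : Equiv.Perm E} (hf : PL f) (hg : PL g) : PL (f.trans g) := by
  constructor
  · intro u
    obtain ⟨v, hv⟩ := hf.1 u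
    obtain ⟨w, hw⟩ := hg.1 v
    exact ⟨w, by rw [Equiv.trans_apply, hv, hw]⟩
  · intro u
    obtain ⟨v, hv⟩ := hg.2 u
    obtain ⟨w, hw⟩ := hf.2 v
    exact ⟨w, by rw [Equiv.symm_trans_apply, hv, hw]⟩

theorem GeP_PL_symm {f : Equiv.Perm E} (hf : PL f) : PL f.symm := ⟨hf.2, hf.1⟩

theorem GeP_PL_S {a b : ℝ} (ha : a = 1 ∨ a = -1) (hb : b = 1 ∨ b = -1) : PL (GePS a b ha hb) :=
  ⟨fun u => ⟨a * u, GeP_sgE_line a b u⟩, fun u => ⟨a * u, GeP_sgE_line a b u⟩⟩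

/-- a continuous permutation which preserves the line and is the identity outside a ball -/
theorem GeP_PL_of {f : Equiv.Perm E} (hf : Continuous f) (hl : ∀ u : ℝ, ∃ u' : ℝ, f ((u : ℂ), 0) = ((u' : ℂ), 0))
    {R : ℝ} (ho : ∀ q : E, R ^ 2 < nr q → f q = q) : PL f := by
  refine ⟨hl, fun v => ?_⟩
  obtain ⟨h, hh⟩ : ∃ h : ℝ → ℝ, h = fun u : ℝ => (f ((u : ℂ), 0)).1.re := ⟨_, rfl⟩
  have hc : Continuous h := by
    rw [hh]
    exact Complex.continuous_re.comp (continuous_fst.comp (hf.comp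
      (Complex.continuous_ofReal.prodMk continuous_const)))
  have hout : ∀ u : ℝ, |R| + 1 ≤ |u| → h u = u := by
    intro u hu
    have h1 : R ^ 2 < nr ((u : ℂ), (0 : ℝ)) := by
      unfold nr
      show R ^ 2 < ‖(u : ℂ)‖ ^ 2 + 0 ^ 2
      rw [Complex.norm_real, Real.norm_eq_abs, ← sq_abs R]
      nlinarith [abs_nonneg R, abs_nonneg u]
    rw [hh]
    show (f ((u : ℂ), 0)).1.re = u
    rw [ho _ h1]
    simp
  have hsurj : ∃ u, h u = v := by
    obtain ⟨S, hS⟩ : ∃ S : ℝ, S = |R| + 1 + |v| := ⟨_, rfl⟩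
    have hS0 : 0 ≤ S := by rw [hS]; positivity
    have h1 : h (-S) = -S := hout _ (by rw [abs_neg, abs_of_nonneg hS0, hS]; linarith [abs_nonneg v])
    have h2 : h S = S := hout _ (by rw [abs_of_nonneg hS0, hS]; linarith [abs_nonneg v])
    have h3 : v ∈ Icc (h (-S)) (h S) := by
      rw [h1, h2, hS]
      constructor
      · linarith [neg_abs_le v, abs_nonneg R]
      · linarith [le_abs_self v, abs_nonneg R]
    obtain ⟨u, _, hu⟩ := intermediate_value_Icc (by linarith : -S ≤ S) hc.continuousOn h3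
    exact ⟨u, hu⟩
  obtain ⟨u, hu⟩ := hsurj
  refine ⟨u, ?_⟩
  rw [Equiv.symm_apply_eq]
  obtain ⟨u', hu'⟩ := hl u
  rw [hu']
  have h4 : h u = u' := by
    rw [hh]
    show (f ((u : ℂ), 0)).1.re = u'
    rw [hu']
    simp
  rw [← hu, h4]

theorem germ_match_line {ψ : E → E} (h0 : ψ 0 = 0) (hs : ∀ᶠ q in 𝓝 (0 : E), ContDiffAt ℝ ∞ ψ q)
    (hb : Function.Bijective (fderiv ℝ ψ 0)) (hl : ∀ᶠ u : ℝ in 𝓝 0, ∃ u' : ℝ, ψ ((u : ℂ), 0) = ((u' : ℂ), 0)) {δ : ℝ} (hδ : 0 < δ) :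
    ∃ (U : ℝ → Equiv.Perm E) (a b : ℝ), PushE (Bl δ) U ∧ (∀ s, U s 0 = 0) ∧ (∀ s, PL (U s)) ∧ (a = 1 ∨ a = -1) ∧
      (b = 1 ∨ b = -1) ∧ ∃ ρ : ℝ, 0 < ρ ∧ ∀ q ∈ Bl ρ, U 1 (ψ q) = sgE a b q := by
  have hψ0 : ContDiffAt ℝ ∞ ψ 0 := hs.self_of_nhds
  have hψd : HasFDerivAt ψ (fderiv ℝ ψ 0) 0 := (hψ0.differentiableAt (by simp)).hasFDerivAt
  -- the derivative preserves the line
  have hc₀ : ∃ c₀ : ℝ, fderiv ℝ ψ 0 (1, 0) = ((c₀ : ℂ), 0) := by
    have hline : HasDerivAt (fun u : ℝ => (((u : ℂ), (0 : ℝ)) : E)) ((1 : ℂ), (0 : ℝ)) 0 :=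
      (Complex.ofRealCLM.hasDerivAt (x := (0 : ℝ))).prodMk (hasDerivAt_const (0 : ℝ) (0 : ℝ))
    have hψd' : HasFDerivAt ψ (fderiv ℝ ψ 0) ((((0 : ℝ) : ℂ), (0 : ℝ)) : E) := by
      have h1 : ((((0 : ℝ) : ℂ), (0 : ℝ)) : E) = 0 := by simp
      rw [h1]
      exact hψd
    have h1 : HasDerivAt (fun u : ℝ => ψ ((u : ℂ), 0)) (fderiv ℝ ψ 0 (1, 0)) 0 :=
      HasFDerivAt.comp_hasDerivAt (0 : ℝ) hψd' hline
    have h2 : HasDerivAt (fun u : ℝ => (ψ ((u : ℂ), 0)).1.im) (fderiv ℝ ψ 0 (1, 0)).1.im 0 :=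
      (Complex.imCLM.comp (ContinuousLinearMap.fst ℝ ℂ ℝ)).hasFDerivAt.comp_hasDerivAt (0 : ℝ) h1
    have h3 : HasDerivAt (fun u : ℝ => (ψ ((u : ℂ), 0)).2) (fderiv ℝ ψ 0 (1, 0)).2 0 :=
      (ContinuousLinearMap.snd ℝ ℂ ℝ).hasFDerivAt.comp_hasDerivAt (0 : ℝ) h1
    have h4 : (fun u : ℝ => (ψ ((u : ℂ), 0)).1.im) =ᶠ[𝓝 0] fun _ => 0 := by
      filter_upwards [hl] with u hu
      obtain ⟨u', hu'⟩ := hu
      rw [hu']
      simp
    have h5 : (fun u : ℝ => (ψ ((u : ℂ), 0)).2) =ᶠ[𝓝 0] fun _ => 0 := by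
      filter_upwards [hl] with u hu
      obtain ⟨u', hu'⟩ := hu
      rw [hu']
    have h6 : (fderiv ℝ ψ 0 (1, 0)).1.im = 0 :=
      h2.unique ((hasDerivAt_const (0 : ℝ) (0 : ℝ)).congr_of_eventuallyEq h4)
    have h7 : (fderiv ℝ ψ 0 (1, 0)).2 = 0 :=
      h3.unique ((hasDerivAt_const (0 : ℝ) (0 : ℝ)).congr_of_eventuallyEq h5)
    refine ⟨(fderiv ℝ ψ 0 (1, 0)).1.re, Prod.ext ?_ h7⟩
    apply Complex.ext
    · simp
    · simp [h6]
  obtain ⟨D, a, b, hD, ha, hb', hDl, hD1⟩ := gl_path_line hb hc₀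
  obtain ⟨L, hL, hLl⟩ := exists_lift_line hD hDl hδ
  obtain ⟨c₀, hc₀⟩ := hc₀
  obtain ⟨ρL, hρL, hLg⟩ := hL.germ
  set Ae : E ≃L[ℝ] E := (LinearEquiv.ofBijective (fderiv ℝ ψ 0 : E →ₗ[ℝ] E) hb).toContinuousLinearEquiv with hAe
  have hAe1 : ∀ v, Ae v = fderiv ℝ ψ 0 v := fun v => rfl
  have hAe2 : ∀ v, fderiv ℝ ψ 0 (Ae.symm v) = v := fun v => by rw [← hAe1]; exact Ae.apply_symm_apply v
  have hc₀0 : c₀ ≠ 0 := by
    intro h
    rw [h] at hc₀
    have h1 : fderiv ℝ ψ 0 (1, 0) = fderiv ℝ ψ 0 0 := by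
      rw [hc₀, map_zero]
      simp
    have h2 := hb.1 h1
    have h3 := congrArg Prod.fst h2
    exact one_ne_zero h3
  have hAl : ∀ u : ℝ, Ae.symm ((u : ℂ), 0) = (((u / c₀ : ℝ) : ℂ), 0) := by
    intro u
    rw [ContinuousLinearEquiv.symm_apply_eq, hAe1]
    have h1 : ((((u / c₀ : ℝ) : ℂ), (0 : ℝ)) : E) = (u / c₀) • ((1 : ℂ), (0 : ℝ)) := by
      refine Prod.ext ?_ ?_
      · simp
      · simp
    rw [h1, map_smul, hc₀]
    refine Prod.ext ?_ ?_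
    · show (u : ℂ) = (u / c₀) • (c₀ : ℂ)
      rw [Complex.real_smul, ← Complex.ofReal_mul, div_mul_cancel₀ _ hc₀0]
    · simp
  set r : E → E := fun q => Ae.symm (ψ q) - q with hr
  have hrs : ∀ᶠ q in 𝓝 (0 : E), ContDiffAt ℝ ∞ r q := by
    filter_upwards [hs] with q hq
    exact (Ae.symm.contDiff.contDiffAt.comp q hq).sub contDiffAt_id
  have hr0 : r 0 = 0 := by simp [hr, h0]
  have hrd : fderiv ℝ r 0 = 0 := by
    have h2 : HasFDerivAt r (((Ae.symm : E ≃L[ℝ] E) : E →L[ℝ] E).comp (fderiv ℝ ψ 0) - ContinuousLinearMap.id ℝ E) 0 :=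
      (((Ae.symm : E ≃L[ℝ] E) : E →L[ℝ] E).hasFDerivAt.comp 0 hψd).sub (hasFDerivAt_id 0)
    rw [h2.fderiv]
    refine ContinuousLinearMap.ext fun v => ?_
    show Ae.symm (fderiv ℝ ψ 0 v) - v = 0
    rw [← hAe1, Ae.symm_apply_apply, sub_self]
  obtain ⟨δ2, hδ2, hl2⟩ := Metric.eventually_nhds_iff_ball.mp hl
  obtain ⟨δ', hδ'0, hδ'm, M, hM1, hM2, hM3⟩ := GeP_fam hrs hr0 hrd (lt_min hδ hδ2)
  have hδ' : δ' ≤ δ := hδ'm.trans (min_le_left _ _)
  have hδ'2 : δ' ≤ δ2 := hδ'm.trans (min_le_right _ _)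
  have hMz : ∀ u, M u 0 = 0 := fun u => by rw [hM3, hr0]; simp
  have hM0 : M 0 = Equiv.refl E := by
    ext1 q
    rw [hM3, Pool.Agent.CSG.stp_zero (by norm_num) le_rfl]
    simp
  have hMout : ∀ u, ∀ q : E, q ∉ {q : E | nr q ≤ (δ' / 2) ^ 2} → M u q = q := by
    intro u q hq
    have h1 : δ' ^ 2 / 4 ≤ nr q := by
      have h2 : ¬ nr q ≤ (δ' / 2) ^ 2 := hq
      nlinarith [not_le.mp h2]
    rw [hM3, bum_zero hδ'0 h1]
    simp
  have hMl : ∀ s, PL (M s) := by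
    intro s
    refine GeP_PL_of (R := δ' / 2) (hM1.continuous.comp (continuous_const.prodMk continuous_id)) ?_
      (fun q hq => hMout s q (by
        intro h
        have h' : nr q ≤ (δ' / 2) ^ 2 := h
        linarith))
    intro u
    by_cases hu : |u| < δ2
    · obtain ⟨u', hu'⟩ := hl2 u (by rw [Metric.mem_ball, dist_zero_right]; exact hu)
      refine ⟨u + stp 0 1 s * (bum δ' ((u : ℂ), 0) * (u' / c₀ - u)), ?_⟩
      rw [hM3, hr]
      show ((u : ℂ), (0 : ℝ)) + stp 0 1 s • bum δ' ((u : ℂ), (0 : ℝ)) • (Ae.symm (ψ ((u : ℂ), 0)) - ((u : ℂ), (0 : ℝ))) = _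
      rw [hu', hAl]
      refine Prod.ext ?_ ?_
      · show (u : ℂ) + stp 0 1 s • bum δ' ((u : ℂ), (0 : ℝ)) • (((u' / c₀ : ℝ) : ℂ) - (u : ℂ)) = _
        rw [Complex.real_smul, Complex.real_smul]
        push_cast
        ring
      · show (0 : ℝ) + stp 0 1 s • bum δ' ((u : ℂ), (0 : ℝ)) • ((0 : ℝ) - 0) = 0
        simp
    · push Not at hu
      refine ⟨u, ?_⟩
      rw [hM3]
      have h1 : bum δ' ((u : ℂ), (0 : ℝ)) = 0 := by
        apply bum_zero hδ'0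
        unfold nr
        show δ' ^ 2 / 4 ≤ ‖(u : ℂ)‖ ^ 2 + 0 ^ 2
        rw [Complex.norm_real, Real.norm_eq_abs]
        nlinarith [abs_nonneg u]
      rw [h1]
      simp
  have hCsub : {q : E | nr q ≤ (δ' / 2) ^ 2} ⊆ Bl δ := by
    intro q hq
    have h2 : nr q ≤ (δ' / 2) ^ 2 := hq
    show nr q < δ ^ 2
    nlinarith
  have hMone : ∀ q : E, nr q ≤ δ' ^ 2 / 16 → M 1 q = Ae.symm (ψ q) := by
    intro q hq
    rw [hM3, bum_one hδ'0 hq, Pool.Agent.CSG.stp_one (by norm_num) le_rfl, one_smul, one_smul, hr]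
    exact add_sub_cancel q _
  have hLz : ∀ s, L s 0 = 0 := fun s => by rw [hLg s 0 (zero_mem_Bl hρL)]; simp
  -- the small ball
  have hcont : ContinuousAt (fun q => nr (Ae.symm (ψ q))) 0 :=
    (nr_smooth.continuous.comp Ae.symm.continuous).continuousAt.comp hψ0.continuousAt
  have h3 : ∀ᶠ q in 𝓝 (0 : E), nr (Ae.symm (ψ q)) < ρL ^ 2 := by
    have h4 : nr (Ae.symm (ψ 0)) < ρL ^ 2 := by
      rw [h0, map_zero, (nr_zero 0).mpr rfl]
      positivity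
    exact hcont.eventually (gt_mem_nhds h4)
  obtain ⟨ρ1, hρ1, hsub1⟩ := exists_Bl h3
  have hfin : ∃ ρ : ℝ, 0 < ρ ∧ ∀ q ∈ Bl ρ, nr q ≤ δ' ^ 2 / 16 ∧ nr (Ae.symm (ψ q)) < ρL ^ 2 := by
    refine ⟨min ρ1 (δ' / 4), lt_min hρ1 (by positivity), fun q hq => ?_⟩
    have h5 : nr q < (min ρ1 (δ' / 4)) ^ 2 := hq
    have h6 : 0 < min ρ1 (δ' / 4) := lt_min hρ1 (by positivity)
    have h7 := min_le_left ρ1 (δ' / 4)
    have h8 := min_le_right ρ1 (δ' / 4)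
    constructor
    · nlinarith
    · apply hsub1
      show nr q ≤ ρ1 ^ 2
      nlinarith
  obtain ⟨ρ, hρ, hq⟩ := hfin
  have hS := GeP_PL_S ha hb'
  set M' : ℝ → Equiv.Perm E := fun s => (GePS a b ha hb').trans ((M s).trans (GePS a b ha hb')) with hM'
  have hM'1 : ∀ s q, M' s q = sgE a b (M s (sgE a b q)) := fun s q => rfl
  have hM'p : PushE (Bl δ) M' := by
    refine ⟨?_, ?_, ?_, _, isCompact_Bl (δ' / 2), hCsub, fun u q hq' => ?_⟩
    · exact (GeP_sgE_smooth a b).comp (hM1.comp (contDiff_fst.prodMk ((GeP_sgE_smooth a b).comp contDiff_snd)))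
    · exact (GeP_sgE_smooth a b).comp (hM2.comp (contDiff_fst.prodMk ((GeP_sgE_smooth a b).comp contDiff_snd)))
    · ext1 q
      rw [hM'1, hM0]
      exact GeP_sgE_sgE ha hb' q
    · rw [hM'1, hMout u (sgE a b q) (fun h4 => hq' (by
        have h5 : nr (sgE a b q) ≤ (δ' / 2) ^ 2 := h4
        rwa [GeP_nr_sgE ha hb'] at h5)), GeP_sgE_sgE ha hb']
  refine ⟨fun s => (L s).symm.trans (M' s).symm, a, b, hL.push.inv.comp hM'p.inv, fun s => ?_, fun s => ?_, ha, hb',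
    ρ, hρ, fun q hqρ => ?_⟩
  · show (M' s).symm ((L s).symm 0) = 0
    rw [Equiv.symm_apply_eq, Equiv.symm_apply_eq, hM'1, GeP_sgE_zero, hMz, GeP_sgE_zero, hLz]
  · exact GeP_PL_trans (GeP_PL_symm (hLl s)) (GeP_PL_symm (GeP_PL_trans hS (GeP_PL_trans (hMl s) hS)))
  · show (M' 1).symm ((L 1).symm (ψ q)) = sgE a b q
    rw [Equiv.symm_apply_eq, Equiv.symm_apply_eq, hM'1, GeP_sgE_sgE ha hb', hMone q (hq q hqρ).1,
      hLg 1 _ (by show nr _ < ρL ^ 2; rw [GeP_nr_sgE ha hb']; exact (hq q hqρ).2), hD1,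
      GeP_sgE_sgE ha hb', hAe2]

end Pool.Agent.NHE
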