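import Pool.Agent.NHE.IsE
import Pool.Agent.KNT.PrfL

/-!
# NHE/Gph: graph fingers are isotopic (difficulty 2)

`iso_push` with `F = ℝ`, `k l u = ((u : ℂ), h (stp 0 1 l) u)` (or `h l u`), `U = univ`, `J = [-3/4, 3/4]`, `J₁ = [-1/2, 1/2]`, `O = {q ∈ TD | |re q.1| < 3/4 and not (q.2 = 1 and re q.1 = 0)}` (open).  The push is the identity off `O`, so `V 1 '' TG (h 0) = TG (h 1)`
(points `(u, 0)` with `|u| ≥ 3/4` and `Tip` are fixed).  `LEqO.diff` (`PushE.mono`).  `leqO_graph₂`: linear interpolation.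
-/

open scoped Manifold ContDiff Topology
open Set Filter
open Pool.Agent.CSG (stp)
open Pool.Agent.RSG (E3 ex Thick)
open Pool.Agent.KNT (Dom Str Str2 BalC bmp)
open Pool.Agent.NHP

namespace Pool.Agent.NHE

theorem TF_eq : TF = TG fun u => 9 / 8 * bmp u := by
  ext q
  simp only [TF, TG, Tip, mem_ofPred_eq, mem_union]
  tauto

theorem TS_eq : TS = TG fun _ => 0 := by
  ext q
  simp only [TS, TG, Tip, mem_ofPred_eq, mem_union]
  tauto

theorem TGd_one {e : ℝ} (h0 : 0 < e) (h1 : e ≤ 1) : TGd e (fun _ => 1) = TG fun u => 9 / 8 * bmp (u / e) := by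
  unfold TGd TG
  congr 1
  ext q
  constructor
  · rintro ⟨y, hy, rfl⟩
    have hb0 := KNT.bmp_nonneg y
    have hb1 := KNT.bmp_le_one y
    refine ⟨⟨?_, ?_, ?_⟩, ?_, ?_⟩
    · simp only [mul_one]
      rw [Complex.norm_real, Real.norm_eq_abs]
      exact hy
    · show -(1 / 4) < 9 / 8 * bmp y
      linarith
    · show 9 / 8 * bmp y < 5 / 4
      linarith
    · simp
    · simp only [mul_one, Complex.ofReal_re]
      rw [mul_div_assoc, mul_comm e, div_mul_cancel₀ _ h0.ne']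
  · rintro ⟨⟨hq1, -, -⟩, hq2, hq3⟩
    refine ⟨q.1.re / e, ?_, ?_⟩
    · show |e * (q.1.re / e)| < 1
      rw [mul_div_cancel₀ _ h0.ne']
      exact lt_of_le_of_lt (Complex.abs_re_le_norm _) hq1
    · refine Prod.ext ?_ ?_
      · simp only [mul_one]
        rw [mul_div_cancel₀ _ h0.ne']
        exact Complex.ext (by simp) (by simp [hq2])
      · exact hq3.symm

theorem gph_conv {a x y t : ℝ} (h0 : 0 ≤ t) (h1 : t ≤ 1) (hx : a < x) (hy : a < y) :
    a < (1 - t) * x + t * y := by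
  rcases h0.eq_or_lt with h | h
  · rw [← h]
    linarith
  · have e1 : t * a < t * y := mul_lt_mul_of_pos_left hy h
    have e2 : (1 - t) * a ≤ (1 - t) * x := mul_le_mul_of_nonneg_left hx.le (by linarith)
    linarith

theorem gph_conv' {a x y t : ℝ} (h0 : 0 ≤ t) (h1 : t ≤ 1) (hx : x < a) (hy : y < a) :
    (1 - t) * x + t * y < a := by
  rcases h0.eq_or_lt with h | h
  · rw [← h]
    linarith
  · have e1 : t * y < t * a := mul_lt_mul_of_pos_left hy h
    have e2 : (1 - t) * x ≤ (1 - t) * a := mul_le_mul_of_nonneg_left hx.le (by linarith)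
    linarith

/-- the open set of the isotopy -/
def gphO : Set E := {q | q ∈ TD ∧ |q.1.re| < 3 / 4 ∧ ¬(q.2 = 1 ∧ q.1.re = 0)}

theorem gphO_open : IsOpen gphO := by
  have e1 : gphO = {q : E | ‖q.1‖ < 1} ∩ {q : E | -(1 / 4) < q.2} ∩ {q : E | q.2 < 5 / 4} ∩
      {q : E | |q.1.re| < 3 / 4} ∩ ({q : E | q.2 = 1} ∩ {q : E | q.1.re = 0})ᶜ := by
    ext q
    simp only [gphO, TD, mem_ofPred_eq, mem_inter_iff, mem_compl_iff]
    tauto
  rw [e1]
  have c1 : Continuous fun q : E => q.1.re := Complex.continuous_re.comp continuous_fst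
  refine (((((isOpen_lt continuous_fst.norm continuous_const).inter
    (isOpen_lt continuous_const continuous_snd)).inter
    (isOpen_lt continuous_snd continuous_const)).inter
    (isOpen_lt c1.abs continuous_const)).inter ?_)
  exact ((isClosed_eq continuous_snd continuous_const).inter
    (isClosed_eq c1 continuous_const)).isOpen_compl

theorem leqO_graph {h : ℝ → ℝ → ℝ} (hs : ContDiff ℝ ∞ fun q : ℝ × ℝ => h q.1 q.2) (h0 : ∀ l u, 1 / 2 ≤ |u| → h l u = 0)
    (hb : ∀ l u, -(1 / 4) < h l u ∧ h l u < 5 / 4) (ht : ∀ l ∈ Icc (0 : ℝ) 1, h l 0 ≠ 1) :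
    LEqO TD (TG (h 0)) (TG (h 1)) := by
  have hk : ContDiff ℝ ∞ (fun q : ℝ × ℝ => (((q.2 : ℂ), h q.1 q.2) : E)) :=
    (Complex.ofRealCLM.contDiff.comp contDiff_snd).prodMk hs
  obtain ⟨V, hV, hV1⟩ := iso_push (F := ℝ) (O := gphO) gphO_open (k := fun l u => (((u : ℂ), h l u) : E))
    (U := univ) (J := Icc (-(3 / 4)) (3 / 4)) (J₁ := Icc (-(1 / 2)) (1 / 2)) isOpen_univ isCompact_Icc
    (subset_univ _) isCompact_Icc (Icc_subset_Icc (by norm_num) (by norm_num))
    (fun s _ y _ => hk.contDiffAt)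
    (by
      intro s _ y _ hy
      have hy' : 1 / 2 ≤ |y| := by
        by_contra hc
        rw [not_le, abs_lt] at hc
        exact hy ⟨hc.1.le, hc.2.le⟩
      show (((y : ℂ), h s y) : E) = ((y : ℂ), h 0 y)
      rw [h0 s y hy', h0 0 y hy'])
    (by
      intro s hs' y hy
      have hy' : |y| ≤ 1 / 2 := abs_le.2 hy
      refine ⟨⟨?_, (hb s y).1, (hb s y).2⟩, ?_, ?_⟩
      · show ‖(y : ℂ)‖ < 1
        rw [Complex.norm_real, Real.norm_eq_abs]
        linarith
      · show |(y : ℂ).re| < 3 / 4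
        rw [Complex.ofReal_re]
        linarith
      · rintro ⟨e1, e2⟩
        have e3 : y = 0 := by simpa using e2
        apply ht s hs'
        rw [← e3]
        exact e1)
    (by
      intro s _ y _ v hv
      have hd : DifferentiableAt ℝ (fun u : ℝ => (((u : ℂ), h s u) : E)) y := by
        have : ContDiff ℝ ∞ (fun u : ℝ => (((u : ℂ), h s u) : E)) :=
          hk.comp (contDiff_const.prodMk contDiff_id)
        exact this.differentiable (by simp) y
      have h1 : HasFDerivAt (fun u : ℝ => (u : ℂ))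
          ((ContinuousLinearMap.fst ℝ ℂ ℝ).comp (fderiv ℝ (fun u : ℝ => (((u : ℂ), h s u) : E)) y)) y :=
        (ContinuousLinearMap.fst ℝ ℂ ℝ).hasFDerivAt.comp y hd.hasFDerivAt
      have h2 : HasFDerivAt (fun u : ℝ => (u : ℂ)) Complex.ofRealCLM y := Complex.ofRealCLM.hasFDerivAt
      have h3 := congrArg (fun L : ℝ →L[ℝ] ℂ => L v) (h1.unique h2)
      have h4 : (((ContinuousLinearMap.fst ℝ ℂ ℝ).comp
          (fderiv ℝ (fun u : ℝ => (((u : ℂ), h s u) : E)) y)) v) = 0 := by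
        rw [ContinuousLinearMap.comp_apply, hv]
        simp
      have h5 : (Complex.ofRealCLM v : ℂ) = 0 := by
        rw [← h3]
        exact h4
      simpa using h5)
    (by
      intro s _ y _ y' _ he
      have := congrArg Prod.fst he
      simpa using this)
  have hout : ∀ q : E, q ∉ gphO → V 1 q = q := fun q hq => hV.out 1 hq
  have hmem : ∀ (l u : ℝ), |u| < 1 → (((u : ℂ), h l u) : E) ∈ TG (h l) := by
    intro l u hu
    refine Or.inl ⟨⟨?_, (hb l u).1, (hb l u).2⟩, ?_, ?_⟩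
    · show ‖(u : ℂ)‖ < 1
      rw [Complex.norm_real, Real.norm_eq_abs]
      exact hu
    · show (u : ℂ).im = 0
      simp
    · show h l u = h l (u : ℂ).re
      simp
  have hrep : ∀ (l : ℝ) (q : E), q ∈ TG (h l) → (|q.1.re| < 1 ∧ q = ((q.1.re : ℂ), h l q.1.re)) ∨ q ∈ Tip := by
    rintro l q (⟨⟨hq1, -, -⟩, hq2, hq3⟩ | hq)
    · left
      refine ⟨lt_of_le_of_lt (Complex.abs_re_le_norm _) hq1, ?_⟩
      refine Prod.ext ?_ hq3
      exact Complex.ext (by simp) (by simp [hq2])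
    · exact Or.inr hq
  have htip : ∀ q ∈ Tip, V 1 q = q := by
    rintro q ⟨-, h2, h3⟩
    apply hout
    rintro ⟨-, -, h4⟩
    exact h4 ⟨h2, h3⟩
  have hpt : ∀ u : ℝ, |u| < 1 → V 1 ((u : ℂ), h 0 u) = ((u : ℂ), h 1 u) := by
    intro u hu
    by_cases hu' : |u| ≤ 3 / 4
    · exact hV1 u (abs_le.1 hu')
    · rw [not_le] at hu'
      have e1 : h 0 u = 0 := h0 0 u (by linarith)
      have e2 : h 1 u = 0 := h0 1 u (by linarith)
      rw [e1, e2]
      apply hout
      rintro ⟨-, h4, -⟩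
      have : |u| < 3 / 4 := by simpa using h4
      linarith
  have himg : V 1 '' TG (h 0) = TG (h 1) := by
    ext q
    constructor
    · rintro ⟨p, hp, rfl⟩
      rcases hrep 0 p hp with ⟨e1, e2⟩ | e
      · rw [e2, hpt _ e1]
        exact hmem 1 _ e1
      · rw [htip p e]
        exact Or.inr e
    · intro hq
      rcases hrep 1 q hq with ⟨e1, e2⟩ | e
      · refine ⟨((q.1.re : ℂ), h 0 q.1.re), hmem 0 _ e1, ?_⟩
        rw [hpt _ e1]
        exact e2.symm
      · exact ⟨q, Or.inr e, htip q e⟩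
  have key := LEqO.diff (O := TD) (TG (h 0)) (hV.mono (fun q hq => hq.1))
  rw [himg] at key
  exact key

theorem leqO_graph₂ {h₀ h₁ : ℝ → ℝ} (hs₀ : ContDiff ℝ ∞ h₀) (hs₁ : ContDiff ℝ ∞ h₁)
    (h0 : ∀ u, 1 / 2 ≤ |u| → h₀ u = 0 ∧ h₁ u = 0) (hb₀ : ∀ u, -(1 / 4) < h₀ u ∧ h₀ u < 5 / 4)
    (hb₁ : ∀ u, -(1 / 4) < h₁ u ∧ h₁ u < 5 / 4) (ht : (1 < h₀ 0 ∧ 1 < h₁ 0) ∨ (h₀ 0 < 1 ∧ h₁ 0 < 1)) :
    LEqO TD (TG h₀) (TG h₁) := by
  have key := leqO_graph (h := fun l u => (1 - stp 0 1 l) * h₀ u + stp 0 1 l * h₁ u) ?_ ?_ ?_ ?_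
  · have e0 : (fun u => (1 - stp 0 1 0) * h₀ u + stp 0 1 0 * h₁ u) = h₀ := by
      ext u
      rw [CSG.stp_zero zero_lt_one le_rfl]
      ring
    have e1 : (fun u => (1 - stp 0 1 1) * h₀ u + stp 0 1 1 * h₁ u) = h₁ := by
      ext u
      rw [CSG.stp_one zero_lt_one le_rfl]
      ring
    rw [e0, e1] at key
    exact key
  · have s1 : ContDiff ℝ ∞ (fun q : ℝ × ℝ => stp 0 1 q.1) := (CSG.stp_smooth 0 1).comp contDiff_fst
    exact ((contDiff_const.sub s1).mul (hs₀.comp contDiff_snd)).add (s1.mul (hs₁.comp contDiff_snd))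
  · intro l u hu
    show (1 - stp 0 1 l) * h₀ u + stp 0 1 l * h₁ u = 0
    rw [(h0 u hu).1, (h0 u hu).2]
    ring
  · intro l u
    have a1 := CSG.stp_nonneg 0 1 l
    have a2 := CSG.stp_le_one 0 1 l
    obtain ⟨b1, b2⟩ := hb₀ u
    obtain ⟨b3, b4⟩ := hb₁ u
    constructor
    · exact gph_conv a1 a2 b1 b3
    · exact gph_conv' a1 a2 b2 b4
  · intro l _
    have a1 := CSG.stp_nonneg 0 1 l
    have a2 := CSG.stp_le_one 0 1 l
    show (1 - stp 0 1 l) * h₀ 0 + stp 0 1 l * h₁ 0 ≠ 1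
    rcases ht with ⟨b1, b2⟩ | ⟨b1, b2⟩
    · exact ne_of_gt (gph_conv a1 a2 b1 b2)
    · exact ne_of_lt (gph_conv' a1 a2 b1 b2)

end Pool.Agent.NHE
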