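import Pool.Agent.NHP.Grp
import Pool.Agent.NHP.Sma
import Pool.Agent.NHE.Defs

/-!
# NHE/SlE: a push along the core of the tube (difficulty 3)

`η : ℝ → ℝ` smooth, `0 ≤ η ≤ 1`, `η = 1` on `[1/16, 7/8]`, support in `[1/32, 15/16]`; `χ w = 1 - stp (1/4) (3/4) (‖w‖²)`: `= 1` for `‖w‖ ≤ 1/2`, `0` for `‖w‖² ≥ 3/4`.  `P u (w, x) = (w, x + stp 0 1 u c η x χ w)`, `c > 0` small: push of `{‖w‖ < 1, 0 < x < 1}` (`small_fam`; or directly:
increasing in `x`).  `V = P ∘ .. ∘ P` (`n` factors, `PushE.comp`), first coordinate unchanged.  For `‖w‖ ≤ 1/2` and `3/32 ≤ x ≤ 7/8` one factor increases `x` by `c` as long as `x ≤ 7/8`; for `n c ≥ 1` the point arrives in `x > 3/4` (if `c < 1/16`), points with `x > 7/8` stay in `x > 7/8`, all `x < 1` stay `< 1`.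
`x₁` = the second coordinate of `V 1 (0, 1/8)`.
-/

open scoped Manifold ContDiff Topology
open Set Filter
open Pool.Agent.CSG (stp)
open Pool.Agent.RSG (E3 ex Thick)
open Pool.Agent.KNT (Dom Str Str2 BalC bmp)
open Pool.Agent.NHP

namespace Pool.Agent.NHE

/-- the profile along the core -/
noncomputable def SlE_e (x : ℝ) : ℝ := stp (1 / 32) (1 / 16) x * (1 - stp (7 / 8) (15 / 16) x)

/-- the profile of the slide -/
noncomputable def SlE_h (q : E) : ℝ := SlE_e q.2 * (1 - stp (1 / 4) (3 / 4) (‖q.1‖ ^ 2))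

theorem SlE_e_nonneg (x : ℝ) : 0 ≤ SlE_e x :=
  mul_nonneg (CSG.stp_nonneg _ _ _) (by linarith [CSG.stp_le_one (7 / 8) (15 / 16) x])

theorem SlE_e_one {x : ℝ} (h1 : 1 / 16 ≤ x) (h2 : x ≤ 7 / 8) : SlE_e x = 1 := by
  unfold SlE_e
  rw [CSG.stp_one (by norm_num) h1, CSG.stp_zero (by norm_num) h2]
  norm_num

theorem SlE_h_nonneg (q : E) : 0 ≤ SlE_h q :=
  mul_nonneg (SlE_e_nonneg _) (by linarith [CSG.stp_le_one (1 / 4) (3 / 4) (‖q.1‖ ^ 2)])

theorem SlE_h_eq {q : E} (h : ‖q.1‖ ≤ 1 / 2) : SlE_h q = SlE_e q.2 := by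
  unfold SlE_h
  rw [CSG.stp_zero (by norm_num) (by
    have := norm_nonneg q.1
    nlinarith), sub_zero, mul_one]

theorem SlE_h_smooth : ContDiff ℝ ∞ SlE_h := by
  have h1 : ContDiff ℝ ∞ fun q : E => ‖q.1‖ ^ 2 := (contDiff_norm_sq ℝ).comp contDiff_fst
  have h2 : ContDiff ℝ ∞ SlE_e :=
    (CSG.stp_smooth _ _).mul (contDiff_const.sub (CSG.stp_smooth _ _))
  exact (h2.comp contDiff_snd).mul (contDiff_const.sub ((CSG.stp_smooth _ _).comp h1))

/-- the support -/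
def SlE_C : Set E := Metric.closedBall (0 : ℂ) (9 / 10) ×ˢ Icc (1 / 32 : ℝ) (15 / 16)

theorem SlE_C_compact : IsCompact SlE_C := (isCompact_closedBall _ _).prod isCompact_Icc

theorem SlE_h_zero {q : E} (h : q ∉ SlE_C) : SlE_h q = 0 := by
  unfold SlE_h SlE_e
  by_cases h1 : q.2 ≤ 1 / 32
  · rw [CSG.stp_zero (by norm_num) h1, zero_mul, zero_mul]
  by_cases h2 : 15 / 16 ≤ q.2
  · rw [CSG.stp_one (a := 7 / 8) (by norm_num) h2, sub_self, mul_zero, zero_mul]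
  have h3 : 9 / 10 < ‖q.1‖ := by
    by_contra hn
    push Not at hn h1 h2
    exact h ⟨by rw [mem_closedBall_zero_iff]; exact hn, h1.le, h2.le⟩
  rw [CSG.stp_one (a := 1 / 4) (by norm_num) (by nlinarith), sub_self, mul_zero]

theorem SlE_bound : ∃ B : ℝ, 0 ≤ B ∧ ∀ q, ‖fderiv ℝ SlE_h q‖ ≤ B := by
  have hcs : HasCompactSupport SlE_h := HasCompactSupport.intro SlE_C_compact fun q hq => SlE_h_zero hq
  have hc : Continuous (fderiv ℝ SlE_h) := SlE_h_smooth.continuous_fderiv (by simp)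
  obtain ⟨B, hB⟩ := hc.bounded_above_of_compact_support (hcs.fderiv ℝ)
  exact ⟨B, (norm_nonneg _).trans (hB 0), hB⟩

/-- one factor -/
theorem SlE_one : ∃ (c : ℝ) (P : ℝ → Equiv.Perm E), 0 < c ∧ PushE {q | ‖q.1‖ < 1 ∧ 0 < q.2 ∧ q.2 < 1} P ∧
    (∀ s q, (P s q).1 = q.1) ∧ ∀ q, (P 1 q).2 = q.2 + c * SlE_h q := by
  obtain ⟨B, hB0, hB⟩ := SlE_bound
  set c := 1 / (2 * (B + 1)) with hc
  have hc0 : 0 < c := by positivity
  let e : E := (0, 1)
  have hen : ‖e‖ = 1 := by simp [e, Prod.norm_def]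
  let G : ℝ × E → E := fun z => (stp 0 1 z.1 * (c * SlE_h z.2)) • e
  have hG : ContDiff ℝ ∞ G :=
    (((CSG.stp_smooth 0 1).comp contDiff_fst).mul
      (contDiff_const.mul (SlE_h_smooth.comp contDiff_snd))).smul contDiff_const
  have hGb : ∀ z : ℝ × E, ‖(fderiv ℝ G z).comp (ContinuousLinearMap.inr ℝ ℝ E)‖ ≤ 1 / 2 := by
    rintro ⟨s, q⟩
    have h1 : HasFDerivAt (fun q' => G (s, q')) ((fderiv ℝ G (s, q)).comp (ContinuousLinearMap.inr ℝ ℝ E)) q := by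
      have a1 : HasFDerivAt G (fderiv ℝ G (s, q)) (s, q) :=
        (hG.differentiable (by simp) (s, q)).hasFDerivAt
      exact a1.comp q (hasFDerivAt_prodMk_right s q)
    have h2 : HasFDerivAt SlE_h (fderiv ℝ SlE_h q) q :=
      (SlE_h_smooth.differentiable (by simp) q).hasFDerivAt
    have h3 : HasFDerivAt (fun q' => G (s, q')) ((stp 0 1 s • c • fderiv ℝ SlE_h q).smulRight e) q :=
      ((h2.const_mul c).const_mul (stp 0 1 s)).smul_const e
    rw [h1.unique h3, ContinuousLinearMap.norm_smulRight_apply, hen, mul_one, norm_smul, norm_smul,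
      Real.norm_eq_abs, Real.norm_eq_abs, abs_of_nonneg (CSG.stp_nonneg _ _ _), abs_of_pos hc0]
    calc stp 0 1 s * (c * ‖fderiv ℝ SlE_h q‖) ≤ 1 * (c * B) := by
          apply mul_le_mul (CSG.stp_le_one _ _ _) _ (by positivity) zero_le_one
          exact mul_le_mul_of_nonneg_left (hB q) hc0.le
      _ ≤ 1 / 2 := by
        rw [one_mul, hc, div_mul_eq_mul_div, div_le_div_iff₀ (by positivity) (by norm_num)]
        linarith
  obtain ⟨P, hP1, hP2, hP3⟩ := small_fam hG hGb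
  have hPv : ∀ s q, P s q = (q.1, q.2 + stp 0 1 s * (c * SlE_h q)) := by
    intro s q
    rw [hP3]
    show q + (stp 0 1 s * (c * SlE_h q)) • ((0 : ℂ), (1 : ℝ)) = _
    rw [Prod.smul_mk, smul_zero, smul_eq_mul, mul_one]
    refine Prod.ext ?_ ?_
    · exact add_zero _
    · rfl
  refine ⟨c, P, hc0, ⟨hP1, hP2, ?_, SlE_C, SlE_C_compact, ?_, ?_⟩, ?_, ?_⟩
  · ext1 q
    rw [hPv, CSG.stp_zero one_pos le_rfl, zero_mul, add_zero]
    rfl
  · rintro q ⟨h1, h2⟩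
    rw [mem_closedBall_zero_iff] at h1
    refine ⟨by linarith, by linarith [h2.1], by linarith [h2.2]⟩
  · intro s q hq
    rw [hPv, SlE_h_zero hq, mul_zero, mul_zero, add_zero]
  · intro s q
    rw [hPv]
  · intro q
    rw [hPv, CSG.stp_one one_pos le_rfl, one_mul]

theorem exists_slide : ∃ (V : ℝ → Equiv.Perm E) (x₁ : ℝ), PushE {q | ‖q.1‖ < 1 ∧ 0 < q.2 ∧ q.2 < 1} V ∧
    (∀ s q, (V s q).1 = q.1) ∧ 3 / 4 < x₁ ∧ x₁ < 1 ∧ V 1 (0, 1 / 8) = (0, x₁) ∧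
    ∀ q : E, ‖q.1‖ ≤ 1 / 2 → 3 / 32 ≤ q.2 → 3 / 4 < (V 1 q).2 := by
  obtain ⟨c, P, hc0, hP, hP1, hP2⟩ := SlE_one
  have key : ∀ k : ℕ, ∃ V : ℝ → Equiv.Perm E, PushE {q | ‖q.1‖ < 1 ∧ 0 < q.2 ∧ q.2 < 1} V ∧
      (∀ s q, (V s q).1 = q.1) ∧
      ∀ q : E, ‖q.1‖ ≤ 1 / 2 → 3 / 32 ≤ q.2 → 3 / 4 < (V 1 q).2 ∨
        (3 / 32 + k * c ≤ (V 1 q).2 ∧ (V 1 q).2 ≤ 3 / 4) := by
    intro k
    induction k with
    | zero =>
      refine ⟨fun _ => Equiv.refl E, pushE_refl _, fun _ _ => rfl, ?_⟩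
      intro q _ h2
      rcases lt_or_ge (3 / 4) q.2 with h | h
      · exact Or.inl h
      · right
        refine ⟨?_, h⟩
        show 3 / 32 + ((0 : ℕ) : ℝ) * c ≤ q.2
        rw [Nat.cast_zero, zero_mul, add_zero]
        exact h2
    | succ k ih =>
      obtain ⟨V, hV, hV1, hV2⟩ := ih
      refine ⟨fun s => (V s).trans (P s), hV.comp hP, ?_, ?_⟩
      · intro s q
        show (P s (V s q)).1 = q.1
        rw [hP1, hV1]
      · intro q h1 h2
        have e1 : ((V 1).trans (P 1)) q = P 1 (V 1 q) := rfl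
        rw [e1, hP2]
        have h3 : ‖(V 1 q).1‖ ≤ 1 / 2 := by rw [hV1]; exact h1
        have h4 : SlE_h (V 1 q) = SlE_e (V 1 q).2 := SlE_h_eq h3
        have h5 := mul_nonneg hc0.le (SlE_h_nonneg (V 1 q))
        rcases hV2 q h1 h2 with h | ⟨h, h'⟩
        · left
          linarith
        · have hk : (0 : ℝ) ≤ k * c := by positivity
          rw [h4, SlE_e_one (by linarith) (by linarith), mul_one]
          rcases lt_or_ge (3 / 4) ((V 1 q).2 + c) with h6 | h6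
          · exact Or.inl h6
          · right
            refine ⟨?_, h6⟩
            push_cast
            linarith
  obtain ⟨k, hk⟩ := exists_nat_gt (1 / c)
  have hk1 : 1 < k * c := by
    rw [div_lt_iff₀ hc0] at hk
    exact hk
  obtain ⟨V, hV, hV1, hV2⟩ := key k
  have hV3 : ∀ q : E, ‖q.1‖ ≤ 1 / 2 → 3 / 32 ≤ q.2 → 3 / 4 < (V 1 q).2 := by
    intro q h1 h2
    rcases hV2 q h1 h2 with h | ⟨h, h'⟩
    · exact h
    · linarith
  have hm : (((0 : ℂ), (1 / 8 : ℝ)) : E) ∈ {q : E | ‖q.1‖ < 1 ∧ 0 < q.2 ∧ q.2 < 1} := by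
    refine ⟨?_, ?_, ?_⟩
    · show ‖(0 : ℂ)‖ < 1
      rw [norm_zero]
      exact one_pos
    · show (0 : ℝ) < 1 / 8
      norm_num
    · show (1 / 8 : ℝ) < 1
      norm_num
  refine ⟨V, (V 1 (0, 1 / 8)).2, hV, hV1, ?_, (hV.mem 1 hm).2.2, ?_, hV3⟩
  · apply hV3
    · show ‖(0 : ℂ)‖ ≤ 1 / 2
      rw [norm_zero]
      norm_num
    · show (3 / 32 : ℝ) ≤ 1 / 8
      norm_num
  · refine Prod.ext ?_ rfl
    exact hV1 1 (0, 1 / 8)

end Pool.Agent.NHE
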