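import Pool.Agent.NHE.KCh
import Pool.Agent.NHE.Pth

/-!
# NHE/Tny: the path avoids thin ends (difficulty 3)

`c` is compact and avoids `core κ`: there is `η > 0` such that `c` avoids `κ '' {‖v‖ ≤ η}` (the sets `κ '' ([0,1] × {‖v‖ ≤ η})` are compact and decrease to `core κ`; or: the open set `κ '' {‖v‖ < η}`..).  `ε' = min η (ε/4)`; `ε'/2 ≤ ε/8`.
`Ap κ p ε' ⊆ κ '' {‖v‖ ≤ ε'/2}`; a point `κ (p, t)`, `ε'/2 ≤ t ≤ ε/8`, is not in `Ap κ p ε'` (`x = t/ε' > 1/4`) and not in `Ap κ p' ε'`.  `c₁` = class of (`κ (p, ·)` from `ε'/2` to `ε/8`), `c`, (`κ (p', ·)` from `ε/8` to `ε'/2`) as a path in `Yt`; `inc` of it is the corresponding product (`inc_trans`, `repI_inc`, `repI_iff`).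
To see `c` as a path in `Yt`: restrict the codomain (all values are in `Yt`).
-/

open scoped Manifold ContDiff Topology
open Set Filter
open Pool.Agent.CSG (stp)
open Pool.Agent.RSG (E3 ex Thick)
open Pool.Agent.KNT (Dom Str Str2 BalC bmp)
open Pool.Agent.NHP

namespace Pool.Agent.NHE

section
variable {N : Type*} [TopologicalSpace N] [ChartedSpace E3 N]

/-- thin box at the end -/
def Ap (κ : ℝ × ℂ → N) (p ε : ℝ) : Set N := footT κ p ε '' {q | ‖q.1‖ ≤ 1 / 8 ∧ |q.2| ≤ 1 / 4}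

/-- complement of the knot and of the thin boxes -/
def Yt (κ : ℝ × ℂ → N) (O : Set N) (p p' ε : ℝ) : Set N := {x | x ∈ O ∩ (core κ)ᶜ ∧ x ∉ Ap κ p ε ∧ x ∉ Ap κ p' ε}

theorem Yt_sub {κ : ℝ × ℂ → N} {O : Set N} {p p' ε : ℝ} : Yt κ O p p' ε ⊆ O ∩ (core κ)ᶜ := fun _ h => h.1

theorem tny_cont {κ : ℝ × ℂ → N} (hκ : Thick κ) : ContinuousOn κ {q | ‖q.2‖ < 1} := fun q hq =>
  ((hκ.loc q.1 q.2 hq).contMDiffAt.continuousAt).continuousWithinAt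

theorem tny_norm {ε : ℝ} (h0 : 0 < ε) {q : E} (hq : ‖q.1‖ ≤ 1 / 8 ∧ |q.2| ≤ 1 / 4) :
    ‖(ε : ℂ) * ⟨q.2, q.1.im⟩‖ ≤ ε / 2 := by
  have h1 : ‖(⟨q.2, q.1.im⟩ : ℂ)‖ ≤ |q.2| + |q.1.im| := Complex.norm_le_abs_re_add_abs_im _
  have h2 : |q.1.im| ≤ 1 / 8 := (Complex.abs_im_le_norm _).trans hq.1
  have h3 : ‖(⟨q.2, q.1.im⟩ : ℂ)‖ ≤ 1 / 2 := by linarith [hq.2]
  rw [norm_mul, Complex.norm_real, Real.norm_eq_abs, abs_of_pos h0]
  nlinarith

theorem Ap_compact {κ : ℝ × ℂ → N} (hκ : Thick κ) (p : ℝ) {ε : ℝ} (h0 : 0 < ε) (h1 : ε < 1 / 4) :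
    IsCompact (Ap κ p ε) := by
  have hc : IsCompact {q : E | ‖q.1‖ ≤ 1 / 8 ∧ |q.2| ≤ 1 / 4} := by
    have : {q : E | ‖q.1‖ ≤ 1 / 8 ∧ |q.2| ≤ 1 / 4} = Metric.closedBall (0 : ℂ) (1 / 8) ×ˢ Metric.closedBall (0 : ℝ) (1 / 4) := by
      ext q
      simp [Metric.mem_closedBall, dist_zero_right, Real.norm_eq_abs]
    rw [this]
    exact (isCompact_closedBall _ _).prod (isCompact_closedBall _ _)
  refine hc.image_of_continuousOn ?_
  have hg : Continuous fun q : E => ((p + ε * q.1.re, (ε : ℂ) * ⟨q.2, q.1.im⟩) : ℝ × ℂ) := by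
    have h1 : Continuous fun q : E => (⟨q.2, q.1.im⟩ : ℂ) := by
      have : (fun q : E => (⟨q.2, q.1.im⟩ : ℂ)) = fun q : E => (q.2 : ℂ) + (q.1.im : ℂ) * Complex.I := by
        funext q
        apply Complex.ext <;> simp
      rw [this]
      fun_prop
    have h2 : Continuous fun q : E => p + ε * q.1.re := by fun_prop
    exact h2.prodMk (continuous_const.mul h1)
  refine (tny_cont hκ).comp hg.continuousOn ?_
  intro q hq
  have := tny_norm h0 hq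
  simp only [mem_ofPred_eq]
  linarith

theorem Yt_open [T2Space N] {κ : ℝ × ℂ → N} (hκ : Thick κ) {O : Set N} (hO : IsOpen O) {p p' ε : ℝ} (h0 : 0 < ε) (h1 : ε < 1 / 4) :
    IsOpen (Yt κ O p p' ε) := by
  have : Yt κ O p p' ε = (O ∩ (core κ)ᶜ) ∩ ((Ap κ p ε)ᶜ ∩ (Ap κ p' ε)ᶜ) := rfl
  rw [this]
  exact (hO.inter (core_compact hκ).isClosed.isOpen_compl).inter
    ((Ap_compact hκ p h0 h1).isClosed.isOpen_compl.inter (Ap_compact hκ p' h0 h1).isClosed.isOpen_compl)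

/-- a path off the core avoids a tube -/
theorem tny_tube [T2Space N] {κ : ℝ × ℂ → N} (hκ : Thick κ) {Z : Set N} (hZ : IsCompact Z) (hd : ∀ x ∈ Z, x ∉ core κ) :
    ∃ η : ℝ, 0 < η ∧ η < 1 ∧ ∀ (l : ℝ) (v : ℂ), ‖v‖ ≤ η → κ (l, v) ∉ Z := by
  have hS : IsCompact (Icc (0 : ℝ) 1 ×ˢ Metric.closedBall (0 : ℂ) (1 / 2)) :=
    isCompact_Icc.prod (isCompact_closedBall _ _)
  have hcS : ContinuousOn κ (Icc (0 : ℝ) 1 ×ˢ Metric.closedBall (0 : ℂ) (1 / 2)) :=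
    (tny_cont hκ).mono fun q hq => by
      have := hq.2
      rw [Metric.mem_closedBall, dist_zero_right] at this
      simp only [mem_ofPred_eq]
      linarith
  have hD : IsCompact ((Icc (0 : ℝ) 1 ×ˢ Metric.closedBall (0 : ℂ) (1 / 2)) ∩ κ ⁻¹' Z) :=
    hS.of_isClosed_subset (hcS.preimage_isClosed_of_isClosed hS.isClosed hZ.isClosed) inter_subset_left
  have key : ∀ (l : ℝ) (v : ℂ), ‖v‖ ≤ 1 / 2 → κ (l, v) ∈ Z →
      ∃ l', (l', v) ∈ (Icc (0 : ℝ) 1 ×ˢ Metric.closedBall (0 : ℂ) (1 / 2)) ∩ κ ⁻¹' Z := by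
    intro l v hv hm
    have hp : Function.Periodic (fun l => κ (l, v)) 1 := fun l => hκ.per l v
    obtain ⟨l', hl', he⟩ := hp.exists_mem_Ico₀ one_pos l
    refine ⟨l', ⟨⟨hl'.1, hl'.2.le⟩, ?_⟩, ?_⟩
    · rw [Metric.mem_closedBall, dist_zero_right]; exact hv
    · show κ (l', v) ∈ Z
      rw [← he]; exact hm
  rcases ((Icc (0 : ℝ) 1 ×ˢ Metric.closedBall (0 : ℂ) (1 / 2)) ∩ κ ⁻¹' Z).eq_empty_or_nonempty with h | h
  · refine ⟨1 / 2, by norm_num, by norm_num, fun l v hv hm => ?_⟩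
    obtain ⟨l', hl'⟩ := key l v hv hm
    rw [h] at hl'
    exact hl'
  · obtain ⟨q, hq, hmin⟩ := hD.exists_isMinOn h (f := fun q : ℝ × ℂ => ‖q.2‖) (by fun_prop)
    have hq0 : 0 < ‖q.2‖ := by
      rw [norm_pos_iff]
      intro h0
      apply hd _ hq.2
      refine ⟨q.1, ?_⟩
      show κ (q.1, 0) = κ q
      rw [← h0]
    have hq1 : ‖q.2‖ ≤ 1 / 2 := by
      have := hq.1.2
      rwa [Metric.mem_closedBall, dist_zero_right] at this
    refine ⟨‖q.2‖ / 2, by positivity, by linarith, fun l v hv hm => ?_⟩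
    obtain ⟨l', hl'⟩ := key l v (by linarith) hm
    have : ‖q.2‖ ≤ ‖v‖ := hmin hl'
    linarith

theorem exists_tiny [T2Space N] {κ : ℝ × ℂ → N} (hκ : Thick κ) {p p' ε : ℝ} (A : Adm p p' ε) {O : Set N} (hO : IsOpen O)
    (hOp : eb κ p ε ⊆ O) (hOp' : eb κ p' ε ⊆ O) {y y' : (O ∩ (core κ)ᶜ : Set N)} (c : Path y y')
    (hy : (y : N) = κ (p, ((ε / 8 : ℝ) : ℂ))) (hy' : (y' : N) = κ (p', ((ε / 8 : ℝ) : ℂ))) :
    ∃ ε' : ℝ, 0 < ε' ∧ ε' ≤ ε / 4 ∧ ∃ (z z' : (Yt κ O p p' ε' : Set N)) (c₁ : Path z z'),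
      (z : N) = κ (p, ((ε' / 2 : ℝ) : ℂ)) ∧ (z' : N) = κ (p', ((ε' / 2 : ℝ) : ℂ)) ∧
      ∀ (s₁ : Path (⟨z, Yt_sub z.2⟩ : (O ∩ (core κ)ᶜ : Set N)) y) (s₂ : Path y' (⟨z', Yt_sub z'.2⟩ : (O ∩ (core κ)ᶜ : Set N))),
        RepI (fun t => κ (p, (t : ℂ))) (ε' / 2) (ε / 8) s₁ → RepI (fun t => κ (p', (t : ℂ))) (ε / 8) (ε' / 2) s₂ →
          (inc Yt_sub c₁).Homotopic (s₁.trans (c.trans s₂)) := by
  have hε := A.pos
  have hε1 := A.lt
  -- the tube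
  obtain ⟨η, hη, hη1, hηZ⟩ := tny_tube hκ (Z := range fun t => (c t : N))
    (isCompact_range (continuous_subtype_val.comp c.continuous)) (by
      rintro x ⟨t, rfl⟩
      exact (c t).2.2)
  have he0 : 0 < min η (ε / 4) := lt_min hη (by linarith)
  have he1 : min η (ε / 4) ≤ ε / 4 := min_le_right _ _
  have he2 : min η (ε / 4) ≤ η := min_le_left _ _
  generalize hε' : min η (ε / 4) = ε' at he0 he1 he2
  -- points of the boxes have small `v`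
  have hbox : ∀ p₀ x, x ∈ Ap κ p₀ ε' → ∃ l v, ‖v‖ ≤ ε' / 2 ∧ x = κ (l, v) := by
    rintro p₀ x ⟨q, hq, rfl⟩
    exact ⟨_, _, tny_norm he0 hq, rfl⟩
  have hcY : ∀ t, (c t : N) ∈ Yt κ O p p' ε' := by
    intro t
    refine ⟨(c t).2, fun h => ?_, fun h => ?_⟩
    · obtain ⟨l, v, hv, he⟩ := hbox _ _ h
      exact hηZ l v (by linarith) ⟨t, he⟩
    · obtain ⟨l, v, hv, he⟩ := hbox _ _ h
      exact hηZ l v (by linarith) ⟨t, he⟩
  -- the segments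
  have hseg : ∀ p₀, (eb κ p₀ ε ⊆ O) → ∀ t : ℝ, ε' / 2 ≤ t → t ≤ ε / 8 → κ (p₀, (t : ℂ)) ∈ Yt κ O p p' ε' := by
    intro p₀ hO₀ t ht1 ht2
    have ht0 : 0 < t := by linarith
    have htn : ‖(t : ℂ)‖ = t := by rw [Complex.norm_real, Real.norm_eq_abs, abs_of_pos ht0]
    have hnot : ∀ p₁, κ (p₀, (t : ℂ)) ∉ Ap κ p₁ ε' := by
      rintro p₁ ⟨q, hq, he⟩
      have h1 := hκ.inj _ _ _ _ (lt_of_le_of_lt (tny_norm he0 hq) (by linarith)) (by rw [htn]; linarith) he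
      have h2 := congrArg Complex.re h1.1
      simp only [Complex.mul_re, Complex.ofReal_re, Complex.ofReal_im, zero_mul, sub_zero] at h2
      have h3 := (abs_le.1 hq.2).2
      nlinarith
    refine ⟨⟨hO₀ ⟨(p₀, (t : ℂ)), ?_, rfl⟩, ?_⟩, hnot p, hnot p'⟩
    · show (p₀ - p₀) ^ 2 + ‖(t : ℂ)‖ ^ 2 < ε ^ 2
      rw [htn]
      nlinarith
    · show κ (p₀, (t : ℂ)) ∉ core κ
      rw [mem_core hκ (by rw [htn]; linarith)]
      simp [ht0.ne']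
  have hcseg : ∀ p₀, ContinuousOn (fun t : ℝ => κ (p₀, (t : ℂ))) (Icc (ε' / 2) (ε / 8)) := by
    intro p₀
    refine (tny_cont hκ).comp (t := {q : ℝ × ℂ | ‖q.2‖ < 1}) (f := fun t : ℝ => ((p₀, (t : ℂ)) : ℝ × ℂ))
      (by fun_prop) ?_
    intro t ht
    show ‖(t : ℂ)‖ < 1
    rw [Complex.norm_real, Real.norm_eq_abs, abs_of_pos (by linarith [ht.1])]
    linarith [ht.2]
  have hle : ε' / 2 ≤ ε / 8 := by linarith
  let z : (Yt κ O p p' ε' : Set N) := ⟨κ (p, ((ε' / 2 : ℝ) : ℂ)), hseg p hOp _ le_rfl hle⟩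
  let z' : (Yt κ O p p' ε' : Set N) := ⟨κ (p', ((ε' / 2 : ℝ) : ℂ)), hseg p' hOp' _ le_rfl hle⟩
  let yy : (Yt κ O p p' ε' : Set N) := ⟨y, by have := hcY 0; rwa [c.source] at this⟩
  let yy' : (Yt κ O p p' ε' : Set N) := ⟨y', by have := hcY 1; rwa [c.target] at this⟩
  let cc : Path yy yy' :=
    { toFun := fun t => ⟨c t, hcY t⟩
      continuous_toFun := (continuous_subtype_val.comp c.continuous).subtype_mk _
      source' := by apply Subtype.ext; show (c 0 : N) = y; rw [c.source]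
      target' := by apply Subtype.ext; show (c 1 : N) = y'; rw [c.target] }
  obtain ⟨ca, hca⟩ := exists_repI (Y := Yt κ O p p' ε') (y := z) (y' := yy) (f := fun t => κ (p, (t : ℂ)))
    (a := ε' / 2) (b := ε / 8) (by rw [uIcc_of_le hle]; exact hcseg p)
    (by rw [uIcc_of_le hle]; exact fun t ht => hseg p hOp t ht.1 ht.2) rfl hy.symm
  obtain ⟨cb, hcb⟩ := exists_repI (Y := Yt κ O p p' ε') (y := yy') (y' := z') (f := fun t => κ (p', (t : ℂ)))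
    (a := ε / 8) (b := ε' / 2) (by rw [uIcc_of_ge hle]; exact hcseg p')
    (by rw [uIcc_of_ge hle]; exact fun t ht => hseg p' hOp' t ht.1 ht.2) hy'.symm rfl
  refine ⟨ε', he0, he1, z, z', ca.trans (cc.trans cb), rfl, rfl, ?_⟩
  intro s₁ s₂ h₁ h₂
  have ha : (inc Yt_sub ca).Homotopic s₁ := (repI_iff (repI_inc Yt_sub hca)).1 h₁
  have hb : (inc Yt_sub cb).Homotopic s₂ := (repI_iff (repI_inc Yt_sub hcb)).1 h₂
  have hcc : inc Yt_sub cc = c := by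
    ext t
    rfl
  refine (inc_trans Yt_sub ca (cc.trans cb)).trans (Path.Homotopic.hcomp ha ?_)
  refine (inc_trans Yt_sub cc cb).trans ?_
  rw [hcc]
  exact Path.Homotopic.hcomp (Path.Homotopic.refl _) hb

end

end Pool.Agent.NHE
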