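import Pool.Agent.NHE.Defs
import Pool.Agent.KNF.Tca
import Pool.Agent.RSG.ExM

/-!
# NHE/Tte: chart of a thin neighbourhood of the core of the model tube (difficulty 2)

As KNF/Tch with `d = 11/8` (`KNF.xx`, `KNF.ka`, file KNF/Tca.lean): `x = xx d (re z)`, `w = e ex (φ x / 4) (s + i im z)`, `φ = stp (1/4) (1/2)`.  Inverse on its image: `s + i im z = e⁻¹ ex (-φ x / 4) w`, `re z = ka d x`
(`|1 - 2 x| < d`), smooth there; so `tt` is injective with injective derivative (left inverse smooth at the image point).  `x ∈ (-3/16, 19/16)`.  `xx d a = 0 ↔ a = 1`, `xx d a = 1 ↔ a = -1` (`ka_xx`, `xx_one`, `xx_neg_one`, `ka_eq`).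
`tt_axis`: for `q` with `x = 0` the point is in `TS` iff `im w = e im z = 0` (given that it is in `TD`), for `x = 1` `w = e i (s + i im z)`, `re w = -e im z`.
-/

open scoped Manifold ContDiff Topology
open Set Filter
open Pool.Agent.CSG (stp)
open Pool.Agent.RSG (E3 ex Thick)
open Pool.Agent.KNT (Dom Str Str2 BalC bmp)
open Pool.Agent.NHP

namespace Pool.Agent.NHE

/-- chart around the core; the foot strand is `z = 1`, the tip strand `z = -1` -/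
noncomputable def tt (e : ℝ) (q : E) : E :=
  ((e : ℂ) * ex (stp (1 / 4) (1 / 2) (KNF.xx (11 / 8) q.1.re) / 4) * (⟨q.2, q.1.im⟩ : ℂ), KNF.xx (11 / 8) q.1.re)

/-- the rotation factor -/
noncomputable def Tte_r (x : ℝ) : ℂ := ex (stp (1 / 4) (1 / 2) x / 4)

theorem Tte_r_smooth : ContDiff ℝ ∞ Tte_r := by
  have h1 : ContDiff ℝ ∞ (stp (1 / 4) (1 / 2)) := Pool.Agent.CSG.stp_smooth _ _
  have h2 : ContDiff ℝ ∞ (fun x : ℝ => stp (1 / 4) (1 / 2) x / 4) := h1.div_const 4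
  exact RSG.ex_smooth.comp h2

theorem Tte_r_ne (x : ℝ) : Tte_r x ≠ 0 := RSG.ex_ne _

theorem Tte_r_zero : Tte_r 0 = 1 := by
  have h1 : stp (1 / 4) (1 / 2) 0 = 0 := Pool.Agent.CSG.stp_zero (by norm_num) (by norm_num)
  unfold Tte_r
  rw [h1, zero_div, RSG.ex_zero]

theorem Tte_r_one : Tte_r 1 = Complex.I := by
  have h1 : stp (1 / 4) (1 / 2) 1 = 1 := Pool.Agent.CSG.stp_one (by norm_num) (by norm_num)
  unfold Tte_r
  rw [h1, RSG.ex_quarter]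

theorem Tte_d : (1 : ℝ) < 11 / 8 := by norm_num

/-- the left inverse -/
noncomputable def Tte_G (e : ℝ) (p : E) : E :=
  (⟨KNF.ka (11 / 8) p.2, (((e : ℂ) * Tte_r p.2)⁻¹ * p.1).im⟩, (((e : ℂ) * Tte_r p.2)⁻¹ * p.1).re)

theorem Tte_mk {F : Type*} [NormedAddCommGroup F] [NormedSpace ℝ F] {f g : F → ℝ} {x : F}
    (hf : ContDiffAt ℝ ∞ f x) (hg : ContDiffAt ℝ ∞ g x) :
    ContDiffAt ℝ ∞ (fun y => (⟨f y, g y⟩ : ℂ)) x := by
  have h1 : (fun y => (⟨f y, g y⟩ : ℂ)) = fun y => ((f y : ℝ) : ℂ) + ((g y : ℝ) : ℂ) * Complex.I := by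
    funext y
    apply Complex.ext <;> simp
  rw [h1]
  have h2 : ContDiffAt ℝ ∞ (fun y => ((f y : ℝ) : ℂ)) x :=
    Complex.ofRealCLM.contDiff.contDiffAt.comp x hf
  have h3 : ContDiffAt ℝ ∞ (fun y => ((g y : ℝ) : ℂ)) x :=
    Complex.ofRealCLM.contDiff.contDiffAt.comp x hg
  exact h2.add (h3.mul contDiffAt_const)

theorem tt_smooth (e : ℝ) : ContDiff ℝ ∞ (tt e) := by
  have h0 : ContDiff ℝ ∞ (fun q : E => q.1.re) := Complex.reCLM.contDiff.comp contDiff_fst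
  have h0' : ContDiff ℝ ∞ (fun q : E => q.1.im) := Complex.imCLM.contDiff.comp contDiff_fst
  have h1 : ContDiff ℝ ∞ (fun q : E => KNF.xx (11 / 8) q.1.re) := (KNF.xx_smooth Tte_d).comp h0
  have h2 : ContDiff ℝ ∞ (fun q : E => (e : ℂ) * Tte_r (KNF.xx (11 / 8) q.1.re)) :=
    contDiff_const.mul (Tte_r_smooth.comp h1)
  have h3 : ContDiff ℝ ∞ (fun q : E => (⟨q.2, q.1.im⟩ : ℂ)) := by
    rw [contDiff_iff_contDiffAt]
    intro x
    exact Tte_mk contDiffAt_snd h0'.contDiffAt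
  exact (h2.mul h3).prodMk h1

theorem Tte_G_smooth {e : ℝ} (he : 0 < e) (p : E) (hp : |1 - 2 * p.2| < 11 / 8) :
    ContDiffAt ℝ ∞ (Tte_G e) p := by
  have hne : (e : ℂ) ≠ 0 := by
    have := he.ne'
    exact_mod_cast this
  have h1 : ContDiffAt ℝ ∞ (fun p : E => KNF.ka (11 / 8) p.2) p :=
    (KNF.ka_smooth Tte_d hp).comp p contDiffAt_snd
  have h2 : ContDiffAt ℝ ∞ (fun p : E => (e : ℂ) * Tte_r p.2) p :=
    contDiffAt_const.mul (Tte_r_smooth.contDiffAt.comp p contDiffAt_snd)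
  have h3 : ContDiffAt ℝ ∞ (fun p : E => ((e : ℂ) * Tte_r p.2)⁻¹) p :=
    h2.inv (mul_ne_zero hne (Tte_r_ne _))
  have h4 : ContDiffAt ℝ ∞ (fun p : E => ((e : ℂ) * Tte_r p.2)⁻¹ * p.1) p :=
    h3.mul contDiffAt_fst
  have h5 : ContDiffAt ℝ ∞ (fun p : E => (((e : ℂ) * Tte_r p.2)⁻¹ * p.1).im) p :=
    Complex.imCLM.contDiff.contDiffAt.comp p h4
  have h6 : ContDiffAt ℝ ∞ (fun p : E => (((e : ℂ) * Tte_r p.2)⁻¹ * p.1).re) p :=
    Complex.reCLM.contDiff.contDiffAt.comp p h4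
  exact (Tte_mk h1 h5).prodMk h6

theorem Tte_GA {e : ℝ} (he : 0 < e) (q : E) : Tte_G e (tt e q) = q := by
  have hne : (e : ℂ) ≠ 0 := by
    have := he.ne'
    exact_mod_cast this
  have h1 : ((e : ℂ) * Tte_r (KNF.xx (11 / 8) q.1.re))⁻¹ *
      ((e : ℂ) * Tte_r (KNF.xx (11 / 8) q.1.re) * ⟨q.2, q.1.im⟩) = (⟨q.2, q.1.im⟩ : ℂ) :=
    inv_mul_cancel_left₀ (mul_ne_zero hne (Tte_r_ne _)) _
  have h2 : (tt e q).1 = (e : ℂ) * Tte_r (KNF.xx (11 / 8) q.1.re) * ⟨q.2, q.1.im⟩ := rfl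
  have h3 : (tt e q).2 = KNF.xx (11 / 8) q.1.re := rfl
  unfold Tte_G
  rw [h2, h3, h1, KNF.ka_xx Tte_d]

theorem tt_inj {e : ℝ} (he : 0 < e) : Function.Injective (tt e) := by
  intro q q' h
  rw [← Tte_GA he q, h, Tte_GA he]

theorem tt_imm {e : ℝ} (he : 0 < e) (q : E) : Function.Injective (fderiv ℝ (tt e) q) := by
  have h1 : Tte_G e ∘ tt e = id := funext (Tte_GA he)
  have h2 : DifferentiableAt ℝ (Tte_G e) (tt e q) := by
    have h5 : ContDiffAt ℝ ∞ (Tte_G e) (tt e q) := Tte_G_smooth he _ (KNF.xx_lt Tte_d _)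
    exact h5.differentiableAt (by simp)
  have h3 : fderiv ℝ (Tte_G e ∘ tt e) q = (fderiv ℝ (Tte_G e) (tt e q)).comp (fderiv ℝ (tt e) q) :=
    fderiv_comp q h2 ((tt_smooth e).differentiable (by simp) q)
  rw [h1, fderiv_id] at h3
  intro v w hvw
  have h4 : (ContinuousLinearMap.id ℝ E) v = (ContinuousLinearMap.id ℝ E) w := by
    rw [h3]
    show fderiv ℝ (Tte_G e) (tt e q) (fderiv ℝ (tt e) q v) = fderiv ℝ (Tte_G e) (tt e q) (fderiv ℝ (tt e) q w)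
    rw [hvw]
  exact h4

theorem Tte_norm {e : ℝ} (he : 0 < e) (q : E) : ‖(tt e q).1‖ ≤ e * (|q.2| + ‖q.1‖) := by
  have h2 : (tt e q).1 = (e : ℂ) * Tte_r (KNF.xx (11 / 8) q.1.re) * ⟨q.2, q.1.im⟩ := rfl
  have h3 : ‖Tte_r (KNF.xx (11 / 8) q.1.re)‖ = 1 := RSG.ex_norm _
  rw [h2, norm_mul, norm_mul, h3, mul_one, Complex.norm_real, Real.norm_of_nonneg he.le]
  apply mul_le_mul_of_nonneg_left _ he.le
  have h4 : ‖(⟨q.2, q.1.im⟩ : ℂ)‖ ≤ |q.2| + |q.1.im| := Complex.norm_le_abs_re_add_abs_im _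
  have h5 : |q.1.im| ≤ ‖q.1‖ := Complex.abs_im_le_norm _
  linarith

theorem tt_mem (M : ℝ) : ∃ e₀ : ℝ, 0 < e₀ ∧ ∀ e : ℝ, 0 < e → e < e₀ → ∀ q : E, ‖q.1‖ < M → |q.2| < 2 → tt e q ∈ TD := by
  have hM : 0 < |M| + 2 := by positivity
  refine ⟨(|M| + 2)⁻¹, inv_pos.2 hM, ?_⟩
  intro e he he' q hq1 hq2
  have h1 := Tte_norm he q
  have h2 := abs_lt.1 (KNF.xx_lt Tte_d q.1.re)
  have h3 : e * (|M| + 2) < 1 := by
    have := mul_lt_mul_of_pos_right he' hM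
    rwa [inv_mul_cancel₀ hM.ne'] at this
  have h4 : |q.2| + ‖q.1‖ ≤ |M| + 2 := by
    have := le_abs_self M
    linarith
  have h5 : e * (|q.2| + ‖q.1‖) ≤ e * (|M| + 2) := mul_le_mul_of_nonneg_left h4 he.le
  have h6 : (tt e q).2 = KNF.xx (11 / 8) q.1.re := rfl
  refine ⟨by linarith, ?_, ?_⟩
  · rw [h6]
    linarith
  · rw [h6]
    linarith

theorem tt_foot (e s : ℝ) : tt e (1, s) = (((e * s : ℝ) : ℂ), 0) := by
  have h1 : KNF.xx (11 / 8) (1 : ℂ).re = 0 := by rw [Complex.one_re, KNF.xx_one Tte_d]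
  have h2 : tt e (1, s) = ((e : ℂ) * Tte_r (KNF.xx (11 / 8) (1 : ℂ).re) * (⟨s, (1 : ℂ).im⟩ : ℂ), KNF.xx (11 / 8) (1 : ℂ).re) := rfl
  rw [h2, h1, Tte_r_zero, mul_one]
  refine Prod.ext ?_ rfl
  apply Complex.ext <;> simp

theorem tt_tip (e s : ℝ) : tt e (-1, s) = ((⟨0, e * s⟩ : ℂ), 1) := by
  have h1 : KNF.xx (11 / 8) (-1 : ℂ).re = 1 := by rw [Complex.neg_re, Complex.one_re, KNF.xx_neg_one Tte_d]
  have h2 : tt e (-1, s) = ((e : ℂ) * Tte_r (KNF.xx (11 / 8) (-1 : ℂ).re) * (⟨s, (-1 : ℂ).im⟩ : ℂ), KNF.xx (11 / 8) (-1 : ℂ).re) := rfl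
  rw [h2, h1, Tte_r_one]
  refine Prod.ext ?_ rfl
  apply Complex.ext <;> simp

theorem tt_axis {e : ℝ} (he : 0 < e) {q : E} (hq : tt e q ∈ TD) : tt e q ∈ TS ↔ q.1 = 1 ∨ q.1 = -1 := by
  obtain ⟨z, s⟩ := q
  have hk1 : KNF.ka (11 / 8) 1 = -1 := by
    have := KNF.ka_xx Tte_d (-1)
    rwa [KNF.xx_neg_one Tte_d] at this
  have h6 : (tt e (z, s)).2 = KNF.xx (11 / 8) z.re := rfl
  have h7 : (tt e (z, s)).1 = (e : ℂ) * Tte_r (KNF.xx (11 / 8) z.re) * ⟨s, z.im⟩ := rfl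
  constructor
  · rintro ⟨-, ⟨h1, h2⟩ | ⟨h1, h2⟩⟩
    · left
      rw [h6] at h1
      rw [h7, h1, Tte_r_zero, mul_one, Complex.im_ofReal_mul] at h2
      have h3 : z.im = 0 := (mul_eq_zero.1 h2).resolve_left he.ne'
      have h4 : z.re = 1 := by rw [← KNF.ka_xx Tte_d z.re, h1, KNF.ka_zero Tte_d]
      exact Complex.ext (by rw [h4, Complex.one_re]) (by rw [h3, Complex.one_im])
    · right
      rw [h6] at h1
      rw [h7, h1, Tte_r_one, mul_assoc, Complex.re_ofReal_mul] at h2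
      have h3 := (mul_eq_zero.1 h2).resolve_left he.ne'
      simp at h3
      have h4 : z.re = -1 := by rw [← KNF.ka_xx Tte_d z.re, h1, hk1]
      exact Complex.ext (by rw [h4, Complex.neg_re, Complex.one_re]) (by rw [h3, Complex.neg_im, Complex.one_im, neg_zero])
  · rintro (h | h)
    · have h1 : z = 1 := h
      subst h1
      refine ⟨hq, Or.inl ?_⟩
      rw [tt_foot]
      exact ⟨rfl, Complex.ofReal_im _⟩
    · have h1 : z = -1 := h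
      subst h1
      refine ⟨hq, Or.inr ?_⟩
      rw [tt_tip]
      exact ⟨rfl, rfl⟩

end Pool.Agent.NHE
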