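import Pool.Agent.NHE.Defs
import Pool.Agent.KNT.PrfL

/-!
# NHE/Ysd: the sides of the finger (difficulty 3)

`g u = 9/8 bmp u` is smooth on `[1/16, 1/8]`, with `g (1/16) = 9/8`, `g (1/8) = 0`, and derivative `< 0` on `(1/16, 1/8)` (`KNT.stp_deriv_pos`, file KNT/StpD.lean: `bmp u = 1 - stp (1/256) (1/64) (u²)`).  `Yf` = inverse (`StrictAntiOn`, intermediate value theorem), smooth by the inverse function theorem
(`ContDiffAt.toOpenPartialHomeomorph`, or `HasStrictDerivAt.. / contDiffAt_symm`).  `9/8 bmp u = x ∈ (0, 9/8)` forces `1/16 < |u| < 1/8` (`bmp_one`, `bmp_zero`), `bmp` is even.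
-/

open scoped Manifold ContDiff Topology
open Set Filter
open Pool.Agent.CSG (stp)
open Pool.Agent.RSG (E3 ex Thick)
open Pool.Agent.KNT (Dom Str Str2 BalC bmp)
open Pool.Agent.NHP

namespace Pool.Agent.NHE

theorem exists_side : ∃ Yf : ℝ → ℝ, (∀ x ∈ Ioo (0 : ℝ) (9 / 8), ContDiffAt ℝ ∞ Yf x) ∧
    (∀ x ∈ Ioo (0 : ℝ) (9 / 8), 1 / 16 < Yf x ∧ Yf x < 1 / 8) ∧
    ∀ x ∈ Ioo (0 : ℝ) (9 / 8), ∀ u : ℝ, 9 / 8 * bmp u = x ↔ u = Yf x ∨ u = -Yf x := by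
  obtain ⟨Sig, h1, h2, _⟩ := KNT.exists_Sig (t := 1 / 4) (by norm_num)
  have e : (1 + (1 / 4 : ℝ) / 2) = 9 / 8 := by norm_num
  rw [e] at h1 h2
  refine ⟨Sig, fun x hx => (h1 x hx).1, fun x hx => ⟨(h1 x hx).2.1, (h1 x hx).2.2.1⟩, ?_⟩
  intro x hx u
  have h3 := h2 x hx u
  have e2 : KNT.prf (1 / 4) u = 9 / 8 * bmp u := by
    unfold KNT.prf
    rw [e]
  rw [e2] at h3
  rw [h3]
  have h4 : 0 < Sig x := by linarith [(h1 x hx).2.1]
  exact abs_eq h4.le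

end Pool.Agent.NHE
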